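import Pool.Agent.Lib.Irr.Defs

/-!
# Module DlStp (about 60 lines)

The squares of the coordinates of the Pell chain are `c δ_k + 1` and `u δ_k + 1`, `δ = dl`.

PROOF. Induction on `k` of the conjunction of, with `(ζ_k, ξ_k) = (stp u c v)^[k] (ζ, ξ)` and
`δ_k = dl u c D E k`, `E = u+c+D+2ucD+2vζξ`:
`ζ_k^2 = c δ_k + 1`, `ξ_k^2 = u δ_k + 1`, `δ_{k+1} = u + c + δ_k + 2 u c δ_k + 2 v ζ_k ξ_k`.
Step: `ζ_{k+1} = v ζ_k + c ξ_k`, `ξ_{k+1} = u ζ_k + v ξ_k` (`Function.iterate_succ_apply'`), so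
`ζ_{k+1}^2 = (uc+1)(c δ+1) + 2 v c ζ ξ + c^2 (u δ+1) = c δ_{k+1} + 1`, similarly `ξ`.
`2 v ζ_{k+1} ξ_{k+1} = 2 u v^2 ζ^2 + 2 c v^2 ξ^2 + 2 v (v^2 + u c) ζ ξ
 = 2 (uc+1)(2ucδ_k + u + c) + (2uc+1)(δ_{k+1} - u - c - δ_k - 2ucδ_k)`, and this is
`δ_{k+2} - u - c - δ_{k+1} - 2 u c δ_{k+1}` by the recurrence of `dl`.
(all by `linear_combination` with the hypotheses `ev` and the two squares)
-/

namespace Irr

theorem dl_stp (u c v D ζ ξ : ℤ) (ev : v^2 = u*c+1) (eζ : ζ^2 = c*D+1) (eξ : ξ^2 = u*D+1)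
    (k : ℕ) :
    ((stp u c v)^[k] (ζ, ξ)).1^2 = c * dl u c D (u+c+D+2*u*c*D+2*v*ζ*ξ) k + 1 ∧
    ((stp u c v)^[k] (ζ, ξ)).2^2 = u * dl u c D (u+c+D+2*u*c*D+2*v*ζ*ξ) k + 1 ∧
    dl u c D (u+c+D+2*u*c*D+2*v*ζ*ξ) (k+1) =
      u + c + dl u c D (u+c+D+2*u*c*D+2*v*ζ*ξ) k
        + 2*u*c*dl u c D (u+c+D+2*u*c*D+2*v*ζ*ξ) k
        + 2*v*((stp u c v)^[k] (ζ, ξ)).1*((stp u c v)^[k] (ζ, ξ)).2 := by
  induction k with
  | zero =>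
    refine ⟨?_, ?_, ?_⟩
    · simpa [dl] using eζ
    · simpa [dl] using eξ
    · simp [dl]
  | succ k ih =>
    obtain ⟨h1, h2, h3⟩ := ih
    rw [Function.iterate_succ_apply']
    set p := (stp u c v)^[k] (ζ, ξ) with hp
    set E := u+c+D+2*u*c*D+2*v*ζ*ξ with hE
    have hrec : dl u c D E (k+2) = 2*(1+2*u*c) * dl u c D E (k+1) - dl u c D E k + 2*(u+c) := rfl
    have e1 : (stp u c v p).1 = v*p.1 + c*p.2 := rfl
    have e2 : (stp u c v p).2 = u*p.1 + v*p.2 := rfl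
    refine ⟨?_, ?_, ?_⟩
    · rw [e1, h3]
      linear_combination (v^2) * h1 + c^2 * h2 + (c * dl u c D E k + 1) * ev
    · rw [e2, h3]
      linear_combination u^2 * h1 + v^2 * h2 + (u * dl u c D E k + 1) * ev
    · rw [show k + 1 + 1 = k + 2 from rfl, hrec, e1, e2]
      linear_combination (-(2*u*v^2)) * h1 + (-(2*c*v^2)) * h2 +
        (-(2*(2*u*c*dl u c D E k + u + c)) - 2*v*p.1*p.2) * ev + (1 + 2*u*c) * h3

end Irr
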