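import Pool.Agent.Lib.Irr.ChainBase
import Pool.Agent.Lib.Irr.DlStp

/-!
# Module BaseEx (about 120 lines)

Both sides of a quadruple have the same sign and the same base element `D`.

PROOF. `z^2 = cd+1 > c^2`, so `z > c`. `a z^2 - c x^2 = a - c`, `b z^2 - c y^2 = b - c`. Apply
`chain_base` to `(a,c,s,z,x)` (get `ε, ζ, ξ, M`) and `(b,c,t,z,y)` (get `ε', ζ', η, N`).
`2c ∣ z - εζ` and `2c ∣ z - ε'ζ'`, so `2c ∣ εζ - ε'ζ'`, and `|εζ - ε'ζ'| < 2c` because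
`0 < ζ, ζ' < c`; so `εζ = ε'ζ'` and, by positivity, `ε = ε'`, `ζ = ζ'`.
`c ∣ z^2 - 1` and `c ∣ z^2 - ζ^2 = (z-εζ)(z+εζ)`, so `ζ^2 = c D + 1` with an integer `D >= 0`
(`ζ >= 1`, `c > 0`). `c ξ^2 = a ζ^2 + c - a = c (a D + 1)`, so `ξ^2 = a D + 1`, same for `η`.
`D < c - a`: `s ζ < c ξ` gives `(ac+1) ζ^2 < c^2 ξ^2 = c (a ζ^2 + c - a)`, so `ζ^2 < c (c-a)`,
`c D + 1 < c (c - a)`. (same for `b`.)
`hd`: `dl_stp` with `ζ := ε ζ` gives `z^2 = c * dl .. M + 1 = c d + 1`, cancel `c` (rewrite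
`2*v*(ε*ζ)*ξ` to `2*ε*v*ζ*ξ`).
-/

namespace Irr

private theorem side_of {u c v z x d ε D ζ ξ : ℤ} {k : ℕ} (hu : 0 < u) (huc : u < c) (hv : 0 < v)
    (ev : v^2 = u*c+1) (he : ε = 1 ∨ ε = -1) (hk : Even k) (hk2 : 2 ≤ k) (hζ : 0 < ζ)
    (hξ : 0 < ξ) (hsol : u*ζ^2 - c*ξ^2 = u - c) (hlt : v*ζ < c*ξ) (hD0 : 0 ≤ D)
    (eζ : ζ^2 = c*D+1) (it : (stp u c v)^[k] (ε*ζ, ξ) = (z, x)) (ez : z^2 = c*d+1) :
    Side u c v d ε D ζ ξ z x k := by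
  have hc : 0 < c := by linarith
  have eξ : ξ^2 = u*D+1 := by
    have h1 : c * (ξ^2) = c * (u*D+1) := by linear_combination (-1)*hsol + u*eζ
    exact mul_left_cancel₀ hc.ne' h1
  have hD2 : D < c - u := by
    have h1 : (v*ζ)^2 < (c*ξ)^2 := by
      have h2 : 0 ≤ v*ζ := by positivity
      nlinarith
    have h4 : (u*c+1)*(c*D+1) < c^2*(u*D+1) := by
      have : (v*ζ)^2 = (u*c+1)*(c*D+1) := by rw [mul_pow, ev, eζ]
      have h5 : (c*ξ)^2 = c^2*(u*D+1) := by rw [mul_pow, eξ]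
      linarith
    have h5 : c * D + 1 < c*(c-u) := by nlinarith
    have h6 : c * D < c * (c-u) := by linarith
    exact lt_of_mul_lt_mul_left h6 hc.le
  have heps : ε^2 = 1 := by rcases he with h | h <;> rw [h] <;> norm_num
  have hd : dl u c D (u+c+D+2*u*c*D+2*ε*v*ζ*ξ) k = d := by
    have e1 : (ε*ζ)^2 = c*D+1 := by rw [mul_pow, heps, one_mul, eζ]
    have h1 := (dl_stp u c v D (ε*ζ) ξ ev e1 eξ k).1
    rw [it] at h1
    simp only at h1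
    rw [show u+c+D+2*u*c*D+2*v*(ε*ζ)*ξ = u+c+D+2*u*c*D+2*ε*v*ζ*ξ by ring] at h1
    have h2 : c * dl u c D (u+c+D+2*u*c*D+2*ε*v*ζ*ξ) k = c * d := by linarith
    exact mul_left_cancel₀ hc.ne' h2
  exact ⟨hu, huc, hv, ev, he, hk, hk2, hD0, hD2, hζ, hξ, eζ, eξ, hlt, it, hd⟩

theorem base_exists {a b c d r s t x y z : ℤ} (h : Quad a b c d r s t x y z) :
    ∃ (ε D ζ ξ η : ℤ) (M N : ℕ),
      Side a c s d ε D ζ ξ z x M ∧ Side b c t d ε D ζ η z y N := by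
  have ha := h.ha
  have hb : 0 < b := ha.trans h.hab
  have hc : 0 < c := hb.trans h.hbc
  have hac : a < c := h.hab.trans h.hbc
  have hcd := h.hcd
  have hzc : c < z := by
    have h1 : c^2 < z^2 := by rw [h.ez]; nlinarith
    exact lt_of_pow_lt_pow_left₀ 2 h.hz.le h1
  obtain ⟨ε, ζ, ξ, M, he, hM, hM2, hζ, hξ, hsol, hlt, hζc, it, hdv⟩ :=
    chain_base a c s z x ha hac h.hs h.es h.hx hzc (by rw [h.ez, h.ex]; ring)
  obtain ⟨ε', ζ', η, N, he', hN, hN2, hζ', hη, hsol', hlt', hζc', it', hdv'⟩ :=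
    chain_base b c t z y hb h.hbc h.ht h.et h.hy hzc (by rw [h.ez, h.ey]; ring)
  have hdd : 2*c ∣ ε*ζ - ε'*ζ' := by
    have := dvd_sub hdv' hdv
    have h2 : z - ε'*ζ' - (z - ε*ζ) = ε*ζ - ε'*ζ' := by ring
    rwa [h2] at this
  have habs : |ε*ζ - ε'*ζ'| < 2*c := by
    rw [abs_lt]
    rcases he with h1 | h1 <;> rcases he' with h2 | h2 <;> rw [h1, h2] <;>
      constructor <;> linarith
  have heq : ε*ζ - ε'*ζ' = 0 := Int.eq_zero_of_abs_lt_dvd hdd habs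
  have hεε : ε = ε' ∧ ζ = ζ' := by
    rcases he with h1 | h1 <;> rcases he' with h2 | h2 <;> rw [h1, h2] at heq ⊢
    · exact ⟨rfl, by linarith⟩
    · exfalso; linarith
    · exfalso; linarith
    · exact ⟨rfl, by linarith⟩
  obtain ⟨rfl, rfl⟩ := hεε
  have heps : ε^2 = 1 := by rcases he with h | h <;> rw [h] <;> norm_num
  have hcdv : c ∣ ζ^2 - 1 := by
    have h1 : c ∣ z^2 - 1 := ⟨d, by rw [h.ez]; ring⟩
    have h2 : c ∣ z^2 - ζ^2 := by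
      have h3 : z^2 - ζ^2 = (z - ε*ζ)*(z+ε*ζ) := by linear_combination (ζ^2) * heps
      rw [h3]
      exact Dvd.dvd.mul_right ((Dvd.intro_left 2 rfl).trans hdv) _
    have h4 := dvd_sub h1 h2
    have h5 : z^2 - 1 - (z^2 - ζ^2) = ζ^2 - 1 := by ring
    rwa [h5] at h4
  obtain ⟨D, hD⟩ := hcdv
  have hD0 : 0 ≤ D := by
    by_contra hneg
    push Not at hneg
    have h1 : 1 ≤ ζ^2 := by nlinarith
    nlinarith
  have eζ : ζ^2 = c*D+1 := by linarith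
  exact ⟨ε, D, ζ, ξ, η, M, N,
    side_of ha hac h.hs h.es he hM hM2 hζ hξ hsol hlt hD0 eζ it h.ez,
    side_of hb h.hbc h.ht h.et he' hN hN2 hζ' hη hsol' hlt' hD0 eζ it' h.ez⟩

end Irr
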