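import Pool.Agent.Lib.Irr.BkDefs

/-!
# Module BkCf (about 120 lines)

Coordinates of the algebraic coefficients.

PROOF of `cf_ev`: `ev` of a scalar multiple is the scalar multiple; `ev_mulq`, `ev_powq` (with the
given `X, Y`); `ev X Y ![s,1,0,0] = s+X`, `ev X Y ![t,0,1,0] = t+Y`;
`g^((L-l3)k) (ev G)^(l3 k) = g^(Lk) (ev G/g)^(l3 k)` (`l3 < L`).
PROOF of `cf_bound`: `|u_l|, |v_l| <= L + 2^S L <= 2^(2S)` (`L <= 2^(S-1)`);
`powq_bound` with `U = 2^S` gives `(4pq2^S)^n <= 2^((2+3S) n)`; two `mulq` give a factor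
`(4pq)^2 <= 2^(4+4S)`; `g^((L-l3)k) <= 2^(S(L-l3)k)`. Total exponent (besides `2S(t1+t2)`):
`(2+3S)(l1+l2+l3)k + S(L-l3)k + 4+4S <= 4S·3(L-1)k + SLk + 4+4S <= 20 S L k` (`S >= 2`, `k >= 1`,
`l_i <= L-1`; `4+4S <= 12S <= 12 S k`).
PROOF of `aval_ev`: sum of `cf_ev`.
-/

namespace Irr

private theorem BkCf_ev_smul (X Y : ℝ) (m : ℤ) (x : Fin 4 → ℤ) :
    ev X Y (fun i => m * x i) = (m:ℝ) * ev X Y x := by
  simp only [ev, Int.cast_mul]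
  ring

theorem cf_ev {S : ℕ} {p q s t g M N : ℤ} {G : Fin 4 → ℤ} {X Y : ℝ}
    (h : BD S p q s t g M N G X Y) {L : ℕ} (l : Idx L) (t1 t2 k : ℕ) :
    ev X Y (cf p q s t g M N G l t1 t2 k) =
      (g:ℝ)^(L*k) * ((uu M l : ℝ)^t1 * (vv N l : ℝ)^t2 * (thl s t g G X Y l)^k) := by
  have hg : (g:ℝ) ≠ 0 := by
    have := h.hg
    exact_mod_cast this.ne'
  have h1 : ev X Y ![s,1,0,0] = (s:ℝ) + X := by simp [ev]
  have h2 : ev X Y ![t,0,1,0] = (t:ℝ) + Y := by simp [ev]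
  have hl : (l.2.2 : ℕ) ≤ L := l.2.2.2.le
  have hsplit : L*k = (L - (l.2.2:ℕ))*k + (l.2.2:ℕ)*k := by
    rw [← Nat.add_mul, Nat.sub_add_cancel hl]
  unfold cf
  rw [BkCf_ev_smul, ev_mulq h.eX h.eY, ev_mulq h.eX h.eY, ev_powq h.eX h.eY, ev_powq h.eX h.eY,
    ev_powq h.eX h.eY, h1, h2, hsplit, pow_add]
  have h3 : (g:ℝ)^((l.2.2:ℕ)*k) * (ev X Y G/g)^((l.2.2:ℕ)*k) = (ev X Y G)^((l.2.2:ℕ)*k) := by
    rw [← mul_pow]
    congr 1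
    field_simp
  rw [← h3]
  unfold thl
  push_cast
  rw [mul_pow, mul_pow, ← pow_mul, ← pow_mul, ← pow_mul]
  ring

theorem uv_bound {S : ℕ} {p q s t g M N : ℤ} {G : Fin 4 → ℤ} {X Y : ℝ}
    (h : BD S p q s t g M N G X Y) {L : ℕ} (hL : L ≤ 2^(S-1)) (hS : 2 ≤ S) (l : Idx L) :
    |uu M l| ≤ 2^(2*S) ∧ |vv N l| ≤ 2^(2*S) := by
  have hL' : (L:ℤ) ≤ 2^(S-1) := by exact_mod_cast hL
  have h2S : (2:ℤ)^S = 2 * 2^(S-1) := by
    conv_lhs => rw [show S = (S-1)+1 by omega, pow_succ]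
    ring
  have hP : (1:ℤ) ≤ 2^(S-1) := one_le_pow₀ (by norm_num)
  have hbig : (2:ℤ)^(2*S) = 2^S * 2^S := by rw [two_mul, pow_add]
  have key : ∀ (A : ℤ) (i j : Fin L), |A| ≤ 2^S → |((i:ℕ):ℤ)| + |A| * |((j:ℕ):ℤ)| ≤ 2^(2*S) := by
    intro A i j hA
    have hi : |((i:ℕ):ℤ)| ≤ 2^(S-1) := by
      rw [abs_of_nonneg (by positivity)]
      have := i.2
      have h3 : ((i:ℕ):ℤ) ≤ L := by exact_mod_cast this.le
      exact h3.trans hL'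
    have hj : |((j:ℕ):ℤ)| ≤ 2^(S-1) := by
      rw [abs_of_nonneg (by positivity)]
      have := j.2
      have h3 : ((j:ℕ):ℤ) ≤ L := by exact_mod_cast this.le
      exact h3.trans hL'
    have h4 : |A| * |((j:ℕ):ℤ)| ≤ 2^S * 2^(S-1) :=
      mul_le_mul hA hj (abs_nonneg _) (by positivity)
    rw [hbig]
    nlinarith
  constructor
  · unfold uu
    calc |((l.1:ℕ):ℤ) - M * ((l.2.2:ℕ):ℤ)| ≤ |((l.1:ℕ):ℤ)| + |M * ((l.2.2:ℕ):ℤ)| := abs_sub _ _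
      _ = |((l.1:ℕ):ℤ)| + |M| * |((l.2.2:ℕ):ℤ)| := by rw [abs_mul]
      _ ≤ _ := key M _ _ h.bM
  · unfold vv
    calc |((l.2.1:ℕ):ℤ) + N * ((l.2.2:ℕ):ℤ)| ≤ |((l.2.1:ℕ):ℤ)| + |N * ((l.2.2:ℕ):ℤ)| :=
          abs_add_le _ _
      _ = |((l.2.1:ℕ):ℤ)| + |N| * |((l.2.2:ℕ):ℤ)| := by rw [abs_mul]
      _ ≤ _ := key N _ _ h.bN

theorem cf_bound {S : ℕ} {p q s t g M N : ℤ} {G : Fin 4 → ℤ} {X Y : ℝ}
    (h : BD S p q s t g M N G X Y) (hS : 2 ≤ S) {L : ℕ} (hL1 : 1 ≤ L) (hL : L ≤ 2^(S-1))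
    (l : Idx L) (t1 t2 k : ℕ) (hk : 1 ≤ k) (i : Fin 4) :
    |cf p q s t g M N G l t1 t2 k i| ≤ 2^(20*S*L*k + 2*S*(t1+t2)) := by
  obtain ⟨hu, hv⟩ := uv_bound h hL hS l
  have hp := h.hp
  have hq := h.hq
  have h1S : (1:ℤ) ≤ 2^S := one_le_pow₀ (by norm_num)
  have hpq : 4*p*q ≤ 2^(2+2*S) := by
    have h1 : p*q ≤ 2^S*2^S := mul_le_mul h.bp h.bq hq.le (by positivity)
    calc 4*p*q = 4*(p*q) := by ring
      _ ≤ 4*(2^S*2^S) := by linarith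
      _ = 2^(2+2*S) := by
        rw [pow_add, two_mul, pow_add]
        norm_num
  have hpqS : 4*p*q*2^S ≤ 2^(2+3*S) := by
    calc 4*p*q*2^S ≤ 2^(2+2*S)*2^S := mul_le_mul_of_nonneg_right hpq (by positivity)
      _ = 2^(2+3*S) := by
        rw [← pow_add]
        congr 1
        ring
  have hpw : ∀ (x : Fin 4 → ℤ), (∀ j, |x j| ≤ 2^S) → ∀ (n : ℕ) (j : Fin 4),
      |powq p q x n j| ≤ 2^((2+3*S)*n) := by
    intro x hx n j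
    calc |powq p q x n j| ≤ (4*p*q*2^S)^n := powq_bound hp hq hx n j
      _ ≤ (2^(2+3*S))^n := pow_le_pow_left₀ (by positivity) hpqS n
      _ = 2^((2+3*S)*n) := by rw [← pow_mul]
  have hm : ∀ (x y : Fin 4 → ℤ) (m n : ℕ), (∀ j, |x j| ≤ 2^m) → (∀ j, |y j| ≤ 2^n) →
      ∀ j, |mulq p q x y j| ≤ 2^(2+2*S+m+n) := by
    intro x y m n hx hy j
    calc |mulq p q x y j| ≤ 4*p*q*2^m*2^n := mulq_bound hp hq hx hy j
      _ ≤ 2^(2+2*S)*2^m*2^n := by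
        apply mul_le_mul_of_nonneg_right _ (by positivity)
        exact mul_le_mul_of_nonneg_right hpq (by positivity)
      _ = 2^(2+2*S+m+n) := by rw [← pow_add, ← pow_add]
  have hA := hpw ![s,1,0,0] (by
    intro j
    fin_cases j
    · simpa [abs_of_pos h.hs] using h.bs
    · simpa using h1S
    · simp
    · simp) ((l.1:ℕ)*k)
  have hB := hpw ![t,0,1,0] (by
    intro j
    fin_cases j
    · simpa [abs_of_pos h.ht] using h.bt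
    · simp
    · simpa using h1S
    · simp) ((l.2.1:ℕ)*k)
  have hC := hpw G h.bG ((l.2.2:ℕ)*k)
  have hBC := hm _ _ _ _ hB hC
  have hABC := hm _ _ _ _ hA hBC i
  have hg : |g^((L - (l.2.2:ℕ))*k)| ≤ 2^(S*((L - (l.2.2:ℕ))*k)) := by
    rw [abs_pow, abs_of_pos h.hg, pow_mul (2:ℤ) S]
    exact pow_le_pow_left₀ h.hg.le h.bg _
  have hut : |(uu M l)^t1| ≤ 2^(2*S*t1) := by
    rw [abs_pow, pow_mul]
    exact pow_le_pow_left₀ (abs_nonneg _) hu _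
  have hvt : |(vv N l)^t2| ≤ 2^(2*S*t2) := by
    rw [abs_pow, pow_mul]
    exact pow_le_pow_left₀ (abs_nonneg _) hv _
  have hexp : 2*S*t1 + 2*S*t2 + S*((L - (l.2.2:ℕ))*k) +
      (2+2*S+(2+3*S)*((l.1:ℕ)*k)+(2+2*S+(2+3*S)*((l.2.1:ℕ)*k)+(2+3*S)*((l.2.2:ℕ)*k))) ≤
      20*S*L*k + 2*S*(t1+t2) := by
    obtain ⟨a, ha⟩ : ∃ a : ℕ, a = (l.1:ℕ) := ⟨_, rfl⟩
    obtain ⟨b, hb⟩ : ∃ b : ℕ, b = (l.2.1:ℕ) := ⟨_, rfl⟩
    obtain ⟨c, hc⟩ : ∃ c : ℕ, c = (l.2.2:ℕ) := ⟨_, rfl⟩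
    have ha1 : a + 1 ≤ L := by rw [ha]; exact l.1.2
    have hb1 : b + 1 ≤ L := by rw [hb]; exact l.2.1.2
    have hc1 : c + 1 ≤ L := by rw [hc]; exact l.2.2.2
    rw [← ha, ← hb, ← hc]
    have e1 : S*((L-c)*k) ≤ S*(L*k) := Nat.mul_le_mul_left _ (Nat.mul_le_mul_right _ (by omega))
    have e2 : ∀ y, y + 1 ≤ L → (2+3*S)*(y*k) + 4*S*k ≤ 4*S*(L*k) := by
      intro y hy
      have f1 : (2+3*S)*(y*k) ≤ 4*S*(y*k) := Nat.mul_le_mul_right _ (by omega)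
      have f2 : (y+1)*k ≤ L*k := Nat.mul_le_mul_right _ hy
      have f3 : 4*S*((y+1)*k) ≤ 4*S*(L*k) := Nat.mul_le_mul_left _ f2
      have f4 : 4*S*((y+1)*k) = 4*S*(y*k) + 4*S*k := by ring
      omega
    have ea := e2 a ha1
    have eb := e2 b hb1
    have ec := e2 c hc1
    have e3 : S*1 ≤ S*k := Nat.mul_le_mul_left _ hk
    have e4 : 20*S*L*k = 20*(S*(L*k)) := by ring
    have e5 : 4*S*(L*k) = 4*(S*(L*k)) := by ring
    have e6 : 4*S*k = 4*(S*k) := by ring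
    have e7 : 2*S*(t1+t2) = 2*S*t1+2*S*t2 := by ring
    rw [e4, e7]
    rw [e5, e6] at ea eb ec
    omega
  calc |cf p q s t g M N G l t1 t2 k i|
      = |(uu M l)^t1| * |(vv N l)^t2| * |g^((L - (l.2.2:ℕ))*k)| *
        |mulq p q (powq p q ![s,1,0,0] ((l.1:ℕ)*k))
          (mulq p q (powq p q ![t,0,1,0] ((l.2.1:ℕ)*k)) (powq p q G ((l.2.2:ℕ)*k))) i| := by
        unfold cf
        rw [abs_mul, abs_mul, abs_mul]
    _ ≤ 2^(2*S*t1) * 2^(2*S*t2) * 2^(S*((L - (l.2.2:ℕ))*k)) *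
        2^(2+2*S+(2+3*S)*((l.1:ℕ)*k)+(2+2*S+(2+3*S)*((l.2.1:ℕ)*k)+(2+3*S)*((l.2.2:ℕ)*k))) := by
        apply mul_le_mul _ hABC (abs_nonneg _) (by positivity)
        apply mul_le_mul _ hg (abs_nonneg _) (by positivity)
        exact mul_le_mul hut hvt (abs_nonneg _) (by positivity)
    _ = 2^(2*S*t1 + 2*S*t2 + S*((L - (l.2.2:ℕ))*k) +
        (2+2*S+(2+3*S)*((l.1:ℕ)*k)+(2+2*S+(2+3*S)*((l.2.1:ℕ)*k)+(2+3*S)*((l.2.2:ℕ)*k)))) := by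
        rw [← pow_add, ← pow_add, ← pow_add]
    _ ≤ _ := pow_le_pow_right₀ (by norm_num) hexp

/-- `g^(L k) Aval` has integer coordinates -/
theorem aval_ev {S : ℕ} {p q s t g M N : ℤ} {G : Fin 4 → ℤ} {X Y : ℝ}
    (h : BD S p q s t g M N G X Y) {L : ℕ} (c : Idx L → ℤ) (t1 t2 k : ℕ) :
    ev X Y (fun i => ∑ l : Idx L, c l * cf p q s t g M N G l t1 t2 k i) =
      (g:ℝ)^(L*k) * Aval s t g M N G X Y c t1 t2 k := by
  have h1 : ev X Y (fun i => ∑ l : Idx L, c l * cf p q s t g M N G l t1 t2 k i) =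
      ∑ l : Idx L, (c l : ℝ) * ev X Y (cf p q s t g M N G l t1 t2 k) := by
    simp only [ev, Int.cast_sum, Int.cast_mul, Finset.sum_mul]
    rw [← Finset.sum_add_distrib, ← Finset.sum_add_distrib, ← Finset.sum_add_distrib]
    apply Finset.sum_congr rfl
    intro l _
    ring
  rw [h1]
  unfold Aval
  rw [Finset.mul_sum]
  apply Finset.sum_congr rfl
  intro l _
  rw [cf_ev h]
  ring

end Irr
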