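import Pool.Agent.Lib.Irr.Ev

/-!
# Definitions for the weak Baker theorem (three logarithms)

`α = s + X`, `β = t + Y`, `γ = (ev X Y G)/g`, `X = √p`, `Y = √q`; all integer data bounded by `2^S`.
`Lam = M log α - N log β + log γ`.
Index set of the auxiliary function: `Idx L = Fin L × Fin L × Fin L`,
`u_l = l1 - M l3`, `v_l = l2 + N l3`,
`Aval c t1 t2 k = Σ_l c_l u_l^t1 v_l^t2 (α^l1 β^l2 γ^l3)^k` (algebraic values),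
`Gf c t1 t2 z = Σ_l c_l u_l^t1 v_l^t2 exp((u_l log α + v_l log β) z)` (entire function).
-/

namespace Irr

structure BD (S : ℕ) (p q s t g M N : ℤ) (G : Fin 4 → ℤ) (X Y : ℝ) : Prop where
  hp : 0 < p
  hq : 0 < q
  hX : 0 < X
  hY : 0 < Y
  eX : X^2 = p
  eY : Y^2 = q
  hs : 0 < s
  ht : 0 < t
  es : s^2 = p+1
  et : t^2 = q+1
  nsp : ¬ IsSquare p
  nsq : ¬ IsSquare q
  nspq : ¬ IsSquare (p*q)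
  hg : 0 < g
  hG : 0 < ev X Y G
  bp : p ≤ 2^S
  bq : q ≤ 2^S
  bs : s ≤ 2^S
  bt : t ≤ 2^S
  bg : g ≤ 2^S
  bG : ∀ i, |G i| ≤ 2^S
  bM : |M| ≤ 2^S
  bN : |N| ≤ 2^S
  hind : ∀ i j k : ℤ, ((s:ℝ)+X)^i*((t:ℝ)+Y)^j*(ev X Y G/g)^k = 1 → i = 0 ∧ j = 0 ∧ k = 0

/-- the linear form in three logarithms -/
noncomputable def Lam (s t g M N : ℤ) (G : Fin 4 → ℤ) (X Y : ℝ) : ℝ :=
  M * Real.log (s+X) - N * Real.log (t+Y) + Real.log (ev X Y G/g)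

abbrev Idx (L : ℕ) := Fin L × Fin L × Fin L

def uu (M : ℤ) {L : ℕ} (l : Idx L) : ℤ := (l.1 : ℕ) - M * (l.2.2 : ℕ)

def vv (N : ℤ) {L : ℕ} (l : Idx L) : ℤ := (l.2.1 : ℕ) + N * (l.2.2 : ℕ)

/-- `α^l1 β^l2 γ^l3` -/
noncomputable def thl (s t g : ℤ) (G : Fin 4 → ℤ) (X Y : ℝ) {L : ℕ} (l : Idx L) : ℝ :=
  ((s:ℝ)+X)^(l.1:ℕ) * ((t:ℝ)+Y)^(l.2.1:ℕ) * (ev X Y G/g)^(l.2.2:ℕ)

noncomputable def Aval (s t g M N : ℤ) (G : Fin 4 → ℤ) (X Y : ℝ) {L : ℕ} (c : Idx L → ℤ)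
    (t1 t2 k : ℕ) : ℝ :=
  ∑ l : Idx L, (c l : ℝ) * (uu M l : ℝ)^t1 * (vv N l : ℝ)^t2 * (thl s t g G X Y l)^k

/-- the exponent `w_l = u_l log α + v_l log β` -/
noncomputable def wl (s t M N : ℤ) (X Y : ℝ) {L : ℕ} (l : Idx L) : ℝ :=
  (uu M l : ℝ) * Real.log (s+X) + (vv N l : ℝ) * Real.log (t+Y)

noncomputable def Gf (s t M N : ℤ) (X Y : ℝ) {L : ℕ} (c : Idx L → ℤ) (t1 t2 : ℕ) (z : ℂ) : ℂ :=
  ∑ l : Idx L, (c l : ℂ) * (uu M l : ℂ)^t1 * (vv N l : ℂ)^t2 * Complex.exp ((wl s t M N X Y l : ℂ) * z)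

/-- integer coordinates of `g^(L k) u_l^t1 v_l^t2 (α^l1 β^l2 γ^l3)^k` -/
def cf (p q s t g M N : ℤ) (G : Fin 4 → ℤ) {L : ℕ} (l : Idx L) (t1 t2 k : ℕ) : Fin 4 → ℤ :=
  fun i => (uu M l)^t1 * (vv N l)^t2 * g^((L - (l.2.2:ℕ))*k) *
    mulq p q (powq p q ![s,1,0,0] ((l.1:ℕ)*k))
      (mulq p q (powq p q ![t,0,1,0] ((l.2.1:ℕ)*k)) (powq p q G ((l.2.2:ℕ)*k))) i

end Irr
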