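import Pool.Agent.Lib.Irr.BkGa

/-!
# Module BkGb (about 90 lines): `gf_diff`, `gf_deriv_bound` (see the PROOF notes below)

Analytic facts about `Gf`.

PROOF of `logs`: `1 < α = s+X <= 2·2^S` (`X <= s`), so `0 < log α <= (S+1) log 2 <= 2S`; same for `β`.
`γ = ev G/g`: `ev G <= 4pq2^S <= 2^(2+3S)`, `g >= 1`, so `log γ <= 3S+2 <= 10S`... (use natural logs
`log 2 < 0.7`); lower bound: `liou4` for `G ≠ 0` with `H = 2^(2+3S)`: `ev G >= 2^(-(6+9S))`,
`g <= 2^S`: `log γ >= -(10S+6) log 2 >= -10S` (`log 2 < 0.6932`, `S >= 2`).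
PROOF of `wl_eq`: `w_l = l1 log α + l2 log β + l3 (log γ - Lam)` (expand `uu, vv, Lam`).
`wl_bound`: `|w_l| <= L (2S+2S+10S+1) <= 15 S L`.
`gf_deriv`: differentiate the finite sum `i` times:
`iteratedDeriv i (Gf t1 t2) z = Σ c u^t1 v^t2 w^i exp(w z)` and
`w^i = Σ_{k<=i} C(i,k) (u log α)^k (v log β)^(i-k)`.
`gf_deriv_bound`: `‖.‖ <= Σ_k C(i,k) (log α)^k (log β)^(i-k) ε = (log α+log β)^i ε <= (4S)^i ε`.
`gf_bound`: `L^3` terms, `|c| <= 2^Q`, `|u|,|v| <= 2^(2S)`, `|exp(w z)| <= exp(|w| ‖z‖)`.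
`gf_aval`: at `z = k` natural: `exp(w_l k) = (thl l)^k exp(-l3 k Lam)` and
`|exp(-x) - 1| <= 2|x|` for `|x| <= 1` (`x = l3 k Lam`, `|x| <= L k |Lam| <= 1`); `(thl l)^k =
exp((l1 log α+l2 log β+l3 log γ)k) <= exp(14SLk)`. So the difference is at most
`L^3 2^Q 2^(2S(t1+t2)) exp(14SLk) 2 L k |Lam|`.
-/

namespace Irr

variable {S : ℕ} {p q s t g M N : ℤ} {G : Fin 4 → ℤ} {X Y : ℝ}

theorem gf_diff {L : ℕ} (c : Idx L → ℤ) (t1 t2 : ℕ) :
    Differentiable ℂ (Gf s t M N X Y c t1 t2) := by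
  change Differentiable ℂ (fun z => Gf s t M N X Y c t1 t2 z)
  simp only [Gf]
  fun_prop

theorem gf_deriv {L : ℕ} (c : Idx L → ℤ) (t1 t2 i : ℕ) :
    iteratedDeriv i (Gf s t M N X Y c t1 t2) = fun z => ∑ l : Idx L, (c l : ℂ) * (uu M l : ℂ)^t1 *
      (vv N l : ℂ)^t2 * ((wl s t M N X Y l : ℂ)^i * Complex.exp ((wl s t M N X Y l : ℂ) * z)) := by
  induction i with
  | zero =>
    rw [iteratedDeriv_zero]
    funext z
    simp only [Gf, pow_zero, one_mul]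
  | succ n ih =>
    rw [iteratedDeriv_succ, ih]
    funext z
    apply HasDerivAt.deriv
    apply HasDerivAt.fun_sum
    intro l _
    have h1 : HasDerivAt (fun z : ℂ => (wl s t M N X Y l : ℂ) * z) (wl s t M N X Y l : ℂ) z := by
      simpa using (hasDerivAt_id z).const_mul (wl s t M N X Y l : ℂ)
    have h2 := h1.cexp
    have h3 := (h2.const_mul ((wl s t M N X Y l : ℂ)^n)).const_mul
      ((c l : ℂ) * (uu M l : ℂ)^t1 * (vv N l : ℂ)^t2)
    refine h3.congr_deriv ?_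
    ring

theorem gf_deriv_bound (h : BD S p q s t g M N G X Y) (hS : 2 ≤ S) {L : ℕ} (c : Idx L → ℤ)
    (t1 t2 i : ℕ) (z : ℂ) (ε : ℝ)
    (hε : ∀ k ≤ i, ‖Gf s t M N X Y c (t1+k) (t2+(i-k)) z‖ ≤ ε) :
    ‖iteratedDeriv i (Gf s t M N X Y c t1 t2) z‖ ≤ (4*S)^i * ε := by
  obtain ⟨h1, h2, h3, h4, -⟩ := logs h hS
  have e1 : iteratedDeriv i (Gf s t M N X Y c t1 t2) z = ∑ k ∈ Finset.range (i+1),
      ((Real.log (s+X) : ℝ) : ℂ)^k * ((Real.log (t+Y) : ℝ) : ℂ)^(i-k) * (i.choose k : ℂ) *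
        Gf s t M N X Y c (t1+k) (t2+(i-k)) z := by
    rw [gf_deriv]
    simp only [Gf]
    simp_rw [Finset.mul_sum]
    rw [Finset.sum_comm]
    apply Finset.sum_congr rfl
    intro l _
    have e2 : (wl s t M N X Y l : ℂ) = (uu M l : ℂ) * ((Real.log (s+X) : ℝ) : ℂ) +
        (vv N l : ℂ) * ((Real.log (t+Y) : ℝ) : ℂ) := by
      unfold wl
      push_cast
      ring
    have e3 : (wl s t M N X Y l : ℂ)^i = ∑ k ∈ Finset.range (i+1),
        ((uu M l : ℂ) * ((Real.log (s+X) : ℝ) : ℂ))^k *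
          ((vv N l : ℂ) * ((Real.log (t+Y) : ℝ) : ℂ))^(i-k) * (i.choose k : ℂ) := by
      rw [e2, add_pow]
    rw [e3, Finset.sum_mul, Finset.mul_sum]
    apply Finset.sum_congr rfl
    intro k _
    rw [mul_pow, mul_pow, pow_add, pow_add]
    ring
  rw [e1]
  have hε0 : 0 ≤ ε := (norm_nonneg _).trans (hε 0 (Nat.zero_le _))
  calc ‖∑ k ∈ Finset.range (i+1), ((Real.log (s+X) : ℝ) : ℂ)^k *
        ((Real.log (t+Y) : ℝ) : ℂ)^(i-k) * (i.choose k : ℂ) *
          Gf s t M N X Y c (t1+k) (t2+(i-k)) z‖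
      ≤ ∑ k ∈ Finset.range (i+1), (Real.log (s+X))^k * (Real.log (t+Y))^(i-k) * (i.choose k) * ε := by
        apply norm_sum_le_of_le
        intro k hk
        rw [norm_mul, norm_mul, norm_mul, norm_pow, norm_pow, Complex.norm_real, Complex.norm_real,
          Real.norm_eq_abs, Real.norm_eq_abs, abs_of_pos h1, abs_of_pos h3, Complex.norm_natCast]
        apply mul_le_mul_of_nonneg_left (hε k (by
          have := Finset.mem_range.mp hk
          omega))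
        positivity
    _ = (Real.log (s+X) + Real.log (t+Y))^i * ε := by
        rw [add_pow, Finset.sum_mul]
    _ ≤ (4*S)^i * ε := by
        apply mul_le_mul_of_nonneg_right _ hε0
        apply pow_le_pow_left₀ (by linarith)
        linarith

end Irr
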