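import Pool.Agent.Lib.Irr.BkGa

/-!
# Module BkGc (about 110 lines): `gf_bound`, `gf_aval` (see the PROOF notes below)

Analytic facts about `Gf`.

PROOF of `logs`: `1 < α = s+X <= 2·2^S` (`X <= s`), so `0 < log α <= (S+1) log 2 <= 2S`; same for `β`.
`γ = ev G/g`: `ev G <= 4pq2^S <= 2^(2+3S)`, `g >= 1`, so `log γ <= 3S+2 <= 10S`... (use natural logs
`log 2 < 0.7`); lower bound: `liou4` for `G ≠ 0` with `H = 2^(2+3S)`: `ev G >= 2^(-(6+9S))`,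
`g <= 2^S`: `log γ >= -(10S+6) log 2 >= -10S` (`log 2 < 0.6932`, `S >= 2`).
PROOF of `wl_eq`: `w_l = l1 log α + l2 log β + l3 (log γ - Lam)` (expand `uu, vv, Lam`).
`wl_bound`: `|w_l| <= L (2S+2S+10S+1) <= 15 S L`.
`gf_deriv`: differentiate the finite sum `i` times:
`iteratedDeriv i (Gf t1 t2) z = Σ c u^t1 v^t2 w^i exp(w z)` and
`w^i = Σ_{k<=i} C(i,k) (u log α)^k (v log β)^(i-k)`.
`gf_deriv_bound`: `‖.‖ <= Σ_k C(i,k) (log α)^k (log β)^(i-k) ε = (log α+log β)^i ε <= (4S)^i ε`.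
`gf_bound`: `L^3` terms, `|c| <= 2^Q`, `|u|,|v| <= 2^(2S)`, `|exp(w z)| <= exp(|w| ‖z‖)`.
`gf_aval`: at `z = k` natural: `exp(w_l k) = (thl l)^k exp(-l3 k Lam)` and
`|exp(-x) - 1| <= 2|x|` for `|x| <= 1` (`x = l3 k Lam`, `|x| <= L k |Lam| <= 1`); `(thl l)^k =
exp((l1 log α+l2 log β+l3 log γ)k) <= exp(14SLk)`. So the difference is at most
`L^3 2^Q 2^(2S(t1+t2)) exp(14SLk) 2 L k |Lam|`.
-/

namespace Irr

variable {S : ℕ} {p q s t g M N : ℤ} {G : Fin 4 → ℤ} {X Y : ℝ}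

theorem two_pow_le_exp (n : ℕ) : (2:ℝ)^n ≤ Real.exp n := by
  have h4 : (2:ℝ) ≤ Real.exp 1 := by
    have := Real.add_one_le_exp (1:ℝ)
    linarith
  calc (2:ℝ)^n ≤ (Real.exp 1)^n := pow_le_pow_left₀ (by norm_num) h4 n
    _ = Real.exp n := by
      rw [← Real.exp_nat_mul]
      simp

/-- the coefficients -/
theorem coef_bound (h : BD S p q s t g M N G X Y) (hS : 2 ≤ S) {L Q : ℕ} (hL : L ≤ 2^(S-1))
    (c : Idx L → ℤ) (hc : ∀ l, |c l| ≤ 2^Q) (t1 t2 : ℕ) (l : Idx L) :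
    ‖(c l : ℂ) * (uu M l : ℂ)^t1 * (vv N l : ℂ)^t2‖ ≤ Real.exp (Q + 2*S*(t1+t2)) := by
  obtain ⟨hu, hv⟩ := uv_bound h hL hS l
  rw [norm_mul, norm_mul, norm_pow, norm_pow, Complex.norm_intCast, Complex.norm_intCast,
    Complex.norm_intCast]
  have h1 : |((c l : ℤ):ℝ)| ≤ (2:ℝ)^Q := by exact_mod_cast hc l
  have h2 : |((uu M l : ℤ):ℝ)| ≤ (2:ℝ)^(2*S) := by exact_mod_cast hu
  have h3 : |((vv N l : ℤ):ℝ)| ≤ (2:ℝ)^(2*S) := by exact_mod_cast hv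
  calc |((c l : ℤ):ℝ)| * |((uu M l : ℤ):ℝ)|^t1 * |((vv N l : ℤ):ℝ)|^t2
      ≤ (2:ℝ)^Q * ((2:ℝ)^(2*S))^t1 * ((2:ℝ)^(2*S))^t2 := by
        apply mul_le_mul _ (pow_le_pow_left₀ (abs_nonneg _) h3 _) (by positivity) (by positivity)
        exact mul_le_mul h1 (pow_le_pow_left₀ (abs_nonneg _) h2 _) (by positivity) (by positivity)
    _ = (2:ℝ)^(Q+2*S*(t1+t2)) := by
        rw [← pow_mul, ← pow_mul, ← pow_add, ← pow_add]
        congr 1
        ring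
    _ ≤ Real.exp (Q + 2*S*(t1+t2)) := by
        refine (two_pow_le_exp _).trans (le_of_eq ?_)
        congr 1
        push_cast
        ring

/-- number of terms -/
theorem card_bound {S L : ℕ} (hS : 2 ≤ S) (hL : L ≤ 2^(S-1)) :
    ((Finset.univ : Finset (Idx L)).card : ℝ) ≤ Real.exp (3*S) := by
  have h1 : (Finset.univ : Finset (Idx L)).card = L*(L*L) := by
    simp [Idx]
  rw [h1]
  have h2 : L ≤ 2^S := hL.trans (Nat.pow_le_pow_right (by norm_num) (by omega))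
  have h3 : (L:ℝ) ≤ (2:ℝ)^S := by exact_mod_cast h2
  have h4 : (L:ℝ) ≤ Real.exp S := h3.trans (two_pow_le_exp S)
  have h5 : Real.exp (3*(S:ℝ)) = Real.exp S * (Real.exp S * Real.exp S) := by
    rw [← Real.exp_add, ← Real.exp_add]
    congr 1
    ring
  rw [h5]
  push_cast
  have h0 : (0:ℝ) ≤ L := Nat.cast_nonneg _
  exact mul_le_mul h4 (mul_le_mul h4 h4 h0 (Real.exp_pos _).le) (by positivity) (Real.exp_pos _).le

theorem gf_bound (h : BD S p q s t g M N G X Y) (hS : 2 ≤ S)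
    (hΛ : |Lam s t g M N G X Y| ≤ 1) {L Q : ℕ} (hL : L ≤ 2^(S-1)) (c : Idx L → ℤ)
    (hc : ∀ l, |c l| ≤ 2^Q) (t1 t2 : ℕ) (z : ℂ) (r : ℝ) (hz : ‖z‖ ≤ r) :
    ‖Gf s t M N X Y c t1 t2 z‖ ≤ Real.exp (3*S + Q + 2*S*(t1+t2) + 15*S*L*r) := by
  have hterm : ∀ l : Idx L, ‖(c l : ℂ) * (uu M l : ℂ)^t1 * (vv N l : ℂ)^t2 *
      Complex.exp ((wl s t M N X Y l : ℂ) * z)‖ ≤
        Real.exp (Q + 2*S*(t1+t2)) * Real.exp (15*S*L*r) := by
    intro l
    rw [norm_mul]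
    apply mul_le_mul (coef_bound h hS hL c hc t1 t2 l) _ (norm_nonneg _) (Real.exp_pos _).le
    refine (Complex.norm_exp_le_exp_norm _).trans ?_
    apply Real.exp_le_exp.mpr
    rw [norm_mul, Complex.norm_real, Real.norm_eq_abs]
    exact mul_le_mul (wl_bound h hS hΛ l) hz (norm_nonneg _) (by positivity)
  unfold Gf
  calc ‖∑ l : Idx L, (c l : ℂ) * (uu M l : ℂ)^t1 * (vv N l : ℂ)^t2 *
      Complex.exp ((wl s t M N X Y l : ℂ) * z)‖
      ≤ ∑ l : Idx L, Real.exp (Q + 2*S*(t1+t2)) * Real.exp (15*S*L*r) :=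
        norm_sum_le_of_le _ (fun l _ => hterm l)
    _ = ((Finset.univ : Finset (Idx L)).card : ℝ) *
        (Real.exp (Q + 2*S*(t1+t2)) * Real.exp (15*S*L*r)) := by
        rw [Finset.sum_const, nsmul_eq_mul]
    _ ≤ Real.exp (3*S) * (Real.exp (Q + 2*S*(t1+t2)) * Real.exp (15*S*L*r)) :=
        mul_le_mul_of_nonneg_right (card_bound hS hL) (by positivity)
    _ = Real.exp (3*S + Q + 2*S*(t1+t2) + 15*S*L*r) := by
        rw [← Real.exp_add, ← Real.exp_add]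
        congr 1
        ring

theorem thl_pos (h : BD S p q s t g M N G X Y) : 0 < (s:ℝ)+X ∧ 0 < (t:ℝ)+Y ∧ 0 < ev X Y G/g := by
  have h1 : (0:ℝ) < s := by exact_mod_cast h.hs
  have h2 : (0:ℝ) < t := by exact_mod_cast h.ht
  have h3 : (0:ℝ) < g := by exact_mod_cast h.hg
  have h4 := h.hX
  have h5 := h.hY
  exact ⟨by linarith, by linarith, div_pos h.hG h3⟩

/-- `θ_l` as an exponential -/
theorem thl_eq (h : BD S p q s t g M N G X Y) {L : ℕ} (l : Idx L) :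
    thl s t g G X Y l = Real.exp ((l.1:ℕ) * Real.log (s+X) + (l.2.1:ℕ) * Real.log (t+Y)
      + (l.2.2:ℕ) * Real.log (ev X Y G/g)) := by
  obtain ⟨h1, h2, h3⟩ := thl_pos h
  rw [Real.exp_add, Real.exp_add, Real.exp_nat_mul, Real.exp_nat_mul, Real.exp_nat_mul,
    Real.exp_log h1, Real.exp_log h2, Real.exp_log h3]
  rfl

theorem gf_aval (h : BD S p q s t g M N G X Y) (hS : 2 ≤ S) {L Q : ℕ} (hL : L ≤ 2^(S-1))
    (c : Idx L → ℤ) (hc : ∀ l, |c l| ≤ 2^Q) (t1 t2 k : ℕ)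
    (hk : L*k*|Lam s t g M N G X Y| ≤ 1) :
    ‖Gf s t M N X Y c t1 t2 (k:ℂ) - (Aval s t g M N G X Y c t1 t2 k : ℂ)‖ ≤
      Real.exp (3*S + Q + 2*S*(t1+t2) + 14*S*L*k) * (2*L*k*|Lam s t g M N G X Y|) := by
  obtain ⟨h1, h2, h3, h4, h5⟩ := logs h hS
  have hterm : ∀ l : Idx L, ‖Complex.exp ((wl s t M N X Y l : ℂ) * (k:ℂ)) -
      ((thl s t g G X Y l : ℝ) : ℂ)^k‖ ≤
        Real.exp (14*S*L*k) * (2*L*k*|Lam s t g M N G X Y|) := by
    intro l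
    obtain ⟨e, he⟩ : ∃ e : ℝ, e = (l.1:ℕ) * Real.log (s+X) + (l.2.1:ℕ) * Real.log (t+Y)
      + (l.2.2:ℕ) * Real.log (ev X Y G/g) := ⟨_, rfl⟩
    have e1 : wl s t M N X Y l * k = e*k + (-((l.2.2:ℕ) * k * Lam s t g M N G X Y)) := by
      rw [wl_eq h l, he]
      ring
    have e2 : (thl s t g G X Y l)^k = Real.exp (e*k) := by
      rw [thl_eq h l, ← he, ← Real.exp_nat_mul]
      congr 1
      ring
    have e3 : Complex.exp ((wl s t M N X Y l : ℂ) * (k:ℂ)) - ((thl s t g G X Y l : ℝ) : ℂ)^k =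
        ((Real.exp (e*k) * (Real.exp (-((l.2.2:ℕ) * k * Lam s t g M N G X Y)) - 1) : ℝ) : ℂ) := by
      have e4 : Complex.exp ((wl s t M N X Y l : ℂ) * (k:ℂ)) =
          ((Real.exp (wl s t M N X Y l * k) : ℝ) : ℂ) := by
        push_cast
        rfl
      rw [e4, ← Complex.ofReal_pow, e2, ← Complex.ofReal_sub, e1, Real.exp_add]
      congr 1
      ring
    rw [e3, Complex.norm_real, norm_mul, Real.norm_eq_abs, Real.norm_eq_abs,
      abs_of_pos (Real.exp_pos _)]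
    have a1 : ((l.1:ℕ):ℝ) ≤ L := by exact_mod_cast l.1.2.le
    have a2 : ((l.2.1:ℕ):ℝ) ≤ L := by exact_mod_cast l.2.1.2.le
    have a3 : ((l.2.2:ℕ):ℝ) ≤ L := by exact_mod_cast l.2.2.2.le
    have b1 : (0:ℝ) ≤ ((l.1:ℕ):ℝ) := Nat.cast_nonneg _
    have b2 : (0:ℝ) ≤ ((l.2.1:ℕ):ℝ) := Nat.cast_nonneg _
    have b3 : (0:ℝ) ≤ ((l.2.2:ℕ):ℝ) := Nat.cast_nonneg _
    have hL0 : (0:ℝ) ≤ L := Nat.cast_nonneg _
    have hk0 : (0:ℝ) ≤ k := Nat.cast_nonneg _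
    apply mul_le_mul _ _ (abs_nonneg _) (Real.exp_pos _).le
    · apply Real.exp_le_exp.mpr
      have c1 : ((l.1:ℕ):ℝ) * Real.log (s+X) ≤ L*(2*S) := mul_le_mul a1 h2 h1.le hL0
      have c2 : ((l.2.1:ℕ):ℝ) * Real.log (t+Y) ≤ L*(2*S) := mul_le_mul a2 h4 h3.le hL0
      have c3 : ((l.2.2:ℕ):ℝ) * Real.log (ev X Y G/g) ≤ L*(10*S) := by
        calc ((l.2.2:ℕ):ℝ) * Real.log (ev X Y G/g) ≤ (l.2.2:ℕ) * |Real.log (ev X Y G/g)| :=
              mul_le_mul_of_nonneg_left (le_abs_self _) b3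
          _ ≤ L*(10*S) := mul_le_mul a3 h5 (abs_nonneg _) hL0
      have c4 : e ≤ 14*S*L := by
        rw [he]
        linarith
      exact mul_le_mul_of_nonneg_right c4 hk0
    · have d1 : |(-((l.2.2:ℕ) * k * Lam s t g M N G X Y))| ≤ L*k*|Lam s t g M N G X Y| := by
        rw [abs_neg, abs_mul, abs_mul, abs_of_nonneg b3, abs_of_nonneg hk0]
        apply mul_le_mul_of_nonneg_right _ (abs_nonneg _)
        exact mul_le_mul_of_nonneg_right a3 hk0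
      have d2 := Real.abs_exp_sub_one_le (d1.trans hk)
      refine d2.trans ?_
      linarith
  have hsub : Gf s t M N X Y c t1 t2 (k:ℂ) - (Aval s t g M N G X Y c t1 t2 k : ℂ) =
      ∑ l : Idx L, (c l : ℂ) * (uu M l : ℂ)^t1 * (vv N l : ℂ)^t2 *
        (Complex.exp ((wl s t M N X Y l : ℂ) * (k:ℂ)) - ((thl s t g G X Y l : ℝ) : ℂ)^k) := by
    unfold Gf Aval
    push_cast
    rw [← Finset.sum_sub_distrib]
    apply Finset.sum_congr rfl
    intro l _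
    ring
  rw [hsub]
  have hL0 : (0:ℝ) ≤ L := Nat.cast_nonneg _
  have hk0 : (0:ℝ) ≤ k := Nat.cast_nonneg _
  calc ‖∑ l : Idx L, (c l : ℂ) * (uu M l : ℂ)^t1 * (vv N l : ℂ)^t2 *
        (Complex.exp ((wl s t M N X Y l : ℂ) * (k:ℂ)) - ((thl s t g G X Y l : ℝ) : ℂ)^k)‖
      ≤ ∑ l : Idx L, Real.exp (Q + 2*S*(t1+t2)) *
          (Real.exp (14*S*L*k) * (2*L*k*|Lam s t g M N G X Y|)) := by
        apply norm_sum_le_of_le
        intro l _
        rw [norm_mul]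
        exact mul_le_mul (coef_bound h hS hL c hc t1 t2 l) (hterm l) (norm_nonneg _)
          (Real.exp_pos _).le
    _ = ((Finset.univ : Finset (Idx L)).card : ℝ) * (Real.exp (Q + 2*S*(t1+t2)) *
          (Real.exp (14*S*L*k) * (2*L*k*|Lam s t g M N G X Y|))) := by
        rw [Finset.sum_const, nsmul_eq_mul]
    _ ≤ Real.exp (3*S) * (Real.exp (Q + 2*S*(t1+t2)) *
          (Real.exp (14*S*L*k) * (2*L*k*|Lam s t g M N G X Y|))) :=
        mul_le_mul_of_nonneg_right (card_bound hS hL) (by positivity)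
    _ = Real.exp (3*S + Q + 2*S*(t1+t2) + 14*S*L*k) * (2*L*k*|Lam s t g M N G X Y|) := by
        have : Real.exp (3*S + Q + 2*S*(t1+t2) + 14*S*L*k) = Real.exp (3*S) *
            (Real.exp (Q + 2*S*(t1+t2)) * Real.exp (14*S*L*k)) := by
          rw [← Real.exp_add, ← Real.exp_add]
          congr 1
          ring
        rw [this]
        ring

end Irr
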