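import Pool.Agent.Lib.Irr.BkCf

/-!
# Module BkLow (about 90 lines)

Liouville lower bound for the algebraic values.

PROOF. Let `V i = Σ_l c_l cf l i`; `|V i| <= L^3 2^Q 2^(20SLk+2S(t1+t2)) <= 2^U`,
`U = 3S + Q + 20SLk + 2S(t1+t2)` (`L <= 2^(S-1)`). `V ≠ 0` since `ev X Y V = g^(Lk) Aval ≠ 0`. For each
sign choice `|ev (±X) (±Y) V| <= 4pq2^U <= 2^(2+2S+U) <= H := 2^(3S+U)` (`ev_bound`; `(-X)^2 = p`).
`liou4`: `|ev X Y V| >= H^(-3)`, and `g^(Lk) <= 2^(SLk)`, so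
`|Aval| >= 2^(-(SLk + 9S + 3U)) = 2^(-(18S + 3Q + 61SLk + 6S(t1+t2)))`, and `2^(-n) >= exp(-n)`.
-/

namespace Irr

theorem low {S : ℕ} {p q s t g M N : ℤ} {G : Fin 4 → ℤ} {X Y : ℝ}
    (h : BD S p q s t g M N G X Y) (hS : 2 ≤ S) {L Q : ℕ} (hL1 : 1 ≤ L) (hL : L ≤ 2^(S-1))
    (c : Idx L → ℤ) (hc : ∀ l, |c l| ≤ 2^Q) (t1 t2 k : ℕ) (hk : 1 ≤ k)
    (hne : Aval s t g M N G X Y c t1 t2 k ≠ 0) :
    Real.exp (-(18*S + 3*Q + 61*S*L*k + 6*S*(t1+t2))) ≤ |Aval s t g M N G X Y c t1 t2 k| := by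
  set V : Fin 4 → ℤ := fun i => ∑ l : Idx L, c l * cf p q s t g M N G l t1 t2 k i with hV
  set U : ℕ := 3*S+Q+20*S*L*k+2*S*(t1+t2) with hU
  have hL3 : (L:ℤ)^3 ≤ 2^(3*S) := by
    have h1 : (L:ℤ) ≤ 2^S := by
      have h2 : L ≤ 2^S := hL.trans (Nat.pow_le_pow_right (by norm_num) (by omega))
      exact_mod_cast h2
    calc (L:ℤ)^3 ≤ (2^S)^3 := pow_le_pow_left₀ (by positivity) h1 3
      _ = 2^(3*S) := by rw [← pow_mul, mul_comm]
  have hVb : ∀ i, |V i| ≤ 2^U := by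
    intro i
    calc |V i| ≤ ∑ l : Idx L, |c l * cf p q s t g M N G l t1 t2 k i| :=
          Finset.abs_sum_le_sum_abs _ _
      _ ≤ ∑ _l : Idx L, (2^Q * 2^(20*S*L*k+2*S*(t1+t2)) : ℤ) := by
          refine Finset.sum_le_sum fun l _ => ?_
          rw [abs_mul]
          exact mul_le_mul (hc l) (cf_bound h hS hL1 hL l t1 t2 k hk i) (abs_nonneg _)
            (by positivity)
      _ = (L:ℤ)^3 * (2^Q * 2^(20*S*L*k+2*S*(t1+t2))) := by
          rw [Finset.sum_const, Finset.card_univ, Fintype.card_prod, Fintype.card_prod,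
            Fintype.card_fin, nsmul_eq_mul]
          push_cast
          ring
      _ ≤ 2^(3*S) * (2^Q * 2^(20*S*L*k+2*S*(t1+t2))) :=
          mul_le_mul_of_nonneg_right hL3 (by positivity)
      _ = 2^U := by rw [← pow_add, ← pow_add, hU]; congr 1; ring
  have hev : ev X Y V = (g:ℝ)^(L*k) * Aval s t g M N G X Y c t1 t2 k := aval_ev h c t1 t2 k
  have hg0 : (0:ℝ) < g := by exact_mod_cast h.hg
  have hev0 : ev X Y V ≠ 0 := by
    rw [hev]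
    exact mul_ne_zero (pow_ne_zero _ hg0.ne') hne
  have hV0 : V ≠ 0 := by
    intro h0
    apply hev0
    rw [h0]
    simp [ev]
  have hp2 : (p:ℝ) ≤ 2^S := by exact_mod_cast h.bp
  have hq2 : (q:ℝ) ≤ 2^S := by exact_mod_cast h.bq
  have hp0 : (0:ℝ) < p := by exact_mod_cast h.hp
  have hq0 : (0:ℝ) < q := by exact_mod_cast h.hq
  have hH : 4*(p:ℝ)*q*(2^U : ℝ) ≤ 2^(3*S+U) := by
    have h4 : (4:ℝ) ≤ 2^S := by
      calc (4:ℝ) = 2^2 := by norm_num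
        _ ≤ 2^S := pow_le_pow_right₀ (by norm_num) hS
    calc 4*(p:ℝ)*q*(2^U : ℝ) ≤ 2^S*2^S*2^S*2^U := by
          refine mul_le_mul_of_nonneg_right ?_ (by positivity)
          exact mul_le_mul (mul_le_mul h4 hp2 hp0.le (by positivity)) hq2 hq0.le (by positivity)
      _ = 2^(3*S+U) := by rw [pow_add, pow_mul']; ring
  have hsign : ∀ X' Y' : ℝ, X'^2 = p → Y'^2 = q → |ev X' Y' V| ≤ 2^(3*S+U) := by
    intro X' Y' hX' hY'
    have h5 := ev_bound h.hp h.hq hX' hY' hVb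
    push_cast at h5
    exact h5.trans hH
  have hL4 := liou4 h.hp h.hq h.eX h.eY h.nsp h.nsq h.nspq hV0
    (hsign (-X) Y (by rw [neg_sq]; exact h.eX) h.eY)
    (hsign X (-Y) h.eX (by rw [neg_sq]; exact h.eY))
    (hsign (-X) (-Y) (by rw [neg_sq]; exact h.eX) (by rw [neg_sq]; exact h.eY))
  rw [hev, abs_mul, abs_of_pos (pow_pos hg0 _)] at hL4
  have hgb : (g:ℝ)^(L*k) ≤ 2^(S*(L*k)) := by
    have h6 : (g:ℝ) ≤ 2^S := by exact_mod_cast h.bg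
    calc (g:ℝ)^(L*k) ≤ (2^S)^(L*k) := pow_le_pow_left₀ hg0.le h6 _
      _ = 2^(S*(L*k)) := by rw [← pow_mul]
  set n : ℕ := 18*S+3*Q+61*S*L*k+6*S*(t1+t2) with hn
  have h7 : (1:ℝ) ≤ 2^n * |Aval s t g M N G X Y c t1 t2 k| := by
    calc (1:ℝ) ≤ (g:ℝ)^(L*k) * |Aval s t g M N G X Y c t1 t2 k| * (2^(3*S+U))^3 := hL4
      _ ≤ 2^(S*(L*k)) * |Aval s t g M N G X Y c t1 t2 k| * (2^(3*S+U))^3 := by
          gcongr
      _ = (2^(S*(L*k)) * (2^(3*S+U))^3) * |Aval s t g M N G X Y c t1 t2 k| := by ring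
      _ = 2^n * |Aval s t g M N G X Y c t1 t2 k| := by
          rw [← pow_mul, ← pow_add]
          congr 2
          rw [hn, hU]
          ring
  have h8 : (2:ℝ)^n ≤ Real.exp n := by
    rw [← Real.exp_one_pow]
    refine pow_le_pow_left₀ (by norm_num) ?_ n
    have := Real.add_one_le_exp (1:ℝ)
    linarith
  have h9 : (18*S + 3*Q + 61*S*L*k + 6*S*(t1+t2) : ℝ) = (n:ℝ) := by
    rw [hn]
    push_cast
    ring
  rw [h9, Real.exp_neg]
  have h10 : (1:ℝ) ≤ Real.exp n * |Aval s t g M N G X Y c t1 t2 k| :=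
    h7.trans (mul_le_mul_of_nonneg_right h8 (abs_nonneg _))
  rw [inv_eq_one_div, div_le_iff₀ (Real.exp_pos _)]
  linarith [mul_comm (Real.exp n) |Aval s t g M N G X Y c t1 t2 k|]

end Irr
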