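import Pool.Agent.Lib.Irr.BkNev
import Pool.Agent.Lib.Irr.BkG
import Pool.Agent.Lib.Irr.BkLow

/-!
# Module BkStep (about 180 lines)

The extrapolation step.

PROOF. Let `Q = 20SLR0+4ST0+3S`, `E = exp`. Suppose `Aval t1 t2 k ≠ 0` for some `t1, t2 < T`,
`1 <= k <= R'`. `low`: `|Aval| >= E(-B1)`, `B1 = 18S+3Q+61SLR'+12ST0`.
At the nodes `l <= R`, for `t1', t2' < 2T <= T0`: `gf_aval` (with `Aval = 0`):
`‖Gf t1' t2' l‖ <= ε1 := E(3S+Q+4ST0+14SLR'+2S-W)` (`2LR' <= 2^(2S)`, `L k |Lam| <= 1`).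
For `i < T`: `gf_deriv_bound`: `‖iteratedDeriv i (Gf t1 t2) l‖ <= (4S)^T ε1 <= ε := E(4ST) ε1`
(`(4S)^i <= (4S)^T <= E(4ST)`; `t1+k, t2+(i-k) < 2T`).
`nev_schw` with `ρ = R'`, `r = 8R'`, `B = E(3S+Q+4ST0+120SLR')` (`gf_bound`):
`‖Gf t1 t2 k‖ <= (B+ε(32R')^(RT))(2/7)^(RT) + ε(32R')^(RT) <= B E(-1.25RT) + 2ε(32R')^(RT)`
(`(R'+R)/(8R'-R) <= 2/7 <= E(-1.25)`), and `(32R')^(RT) <= 2^(SRT) <= E(SRT)`.
So `E(-B1) <= |Aval| <= B E(-1.25RT) + 2εE(SRT) + ε1 <= B E(-1.25RT) + 3 ε E(SRT)`.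
But `B E(-1.25RT) <= E(-B1-1)`: needs `1.25RT >= 21S+4Q+181SLR'+16ST0+1`, and
`4Q <= 80SLR'+16ST0+12S`, total `<= 300SLR'+32ST0+...<= 375 S(LR'+T0)` by `hRT`; and
`3εE(SRT) <= E(-B1-1)`: exponents: `W >= 3+4ST+SRT+5S+Q+4ST0+14SLR'+B1`, true by `hW`
(`T <= T0`). `2E(-B1-1) < E(-B1)`. Contradiction.
-/

namespace Irr

/-- `2 L k <= exp (2 S)` -/
theorem bkstep_aux {S L k R' : ℕ} (hS : 2 ≤ S) (hL : L ≤ 2^(S-1)) (hR' : 32*R' ≤ 2^S)
    (hk : k ≤ R') : 2*(L:ℝ)*(k:ℝ) ≤ Real.exp (2*(S:ℝ)) := by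
  have h1 : 2*L*k ≤ 2^S*2^S := by
    have : 2*L ≤ 2^S := by
      calc 2*L ≤ 2*2^(S-1) := by omega
        _ = 2^S := by
          rw [← pow_succ']
          congr 1
          omega
    have hk2 : k ≤ 2^S := by omega
    exact Nat.mul_le_mul this hk2
  have h2 : (2*(L:ℝ)*(k:ℝ)) ≤ (2:ℝ)^S*(2:ℝ)^S := by exact_mod_cast h1
  have h3 : (2:ℝ)^S ≤ Real.exp S := by
    have h4 : (2:ℝ) ≤ Real.exp 1 := by
      have := Real.add_one_le_exp (1:ℝ)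
      linarith
    calc (2:ℝ)^S ≤ (Real.exp 1)^S := pow_le_pow_left₀ (by norm_num) h4 S
      _ = Real.exp S := by
        rw [← Real.exp_nat_mul]
        simp
  calc (2*(L:ℝ)*(k:ℝ)) ≤ (2:ℝ)^S*(2:ℝ)^S := h2
    _ ≤ Real.exp S * Real.exp S := by
      apply mul_le_mul h3 h3 (by positivity) (Real.exp_pos _).le
    _ = Real.exp (2*(S:ℝ)) := by
      rw [← Real.exp_add]
      congr 1
      ring

theorem bkstep {S : ℕ} {p q s t g M N : ℤ} {G : Fin 4 → ℤ} {X Y : ℝ}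
    (h : BD S p q s t g M N G X Y) (hS : 2 ≤ S) {L R0 T0 R R' T : ℕ} (hL1 : 1 ≤ L)
    (hL : L ≤ 2^(S-1)) (hR0 : 1 ≤ R0) (hR0R : R0 ≤ R) (hRR : R ≤ R') (hT : 1 ≤ T)
    (hTT : 2*T ≤ T0) (hR' : 32*R' ≤ 2^S) (c : Idx L → ℤ)
    (hc : ∀ l, |c l| ≤ 2^(20*S*L*R0+4*S*T0+3*S))
    (hRT : 300*S*(L*R'+T0) ≤ R*T) (W : ℕ) (hW : 400*S*(R*T+L*R'+T0) ≤ W)
    (hΛ : |Lam s t g M N G X Y| ≤ Real.exp (-(W:ℝ)))
    (hz : ∀ t1 < 2*T, ∀ t2 < 2*T, ∀ k, 1 ≤ k → k ≤ R → Aval s t g M N G X Y c t1 t2 k = 0) :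
    ∀ t1 < T, ∀ t2 < T, ∀ k, 1 ≤ k → k ≤ R' → Aval s t g M N G X Y c t1 t2 k = 0 := by
  intro t1 ht1 t2 ht2 k hk1 hk
  by_contra hne
  -- real valued versions of the parameters
  obtain ⟨Q, hQ⟩ : ∃ Q : ℕ, Q = 20*S*L*R0+4*S*T0+3*S := ⟨_, rfl⟩
  rw [← hQ] at hc
  have hSr : (2:ℝ) ≤ S := by exact_mod_cast hS
  have hS1 : S ≤ S*L*R' := by
    have : 1 ≤ L*R' := Nat.mul_pos (by omega) (by omega)
    calc S = S*1 := by ring
      _ ≤ S*(L*R') := Nat.mul_le_mul_left S this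
      _ = S*L*R' := by ring
  have hQa : Q ≤ 20*(S*L*R')+4*(S*T0)+3*S := by
    have : S*L*R0 ≤ S*L*R' := Nat.mul_le_mul_left _ (by omega)
    rw [hQ]
    nlinarith [this]
  have hka : ∀ l ≤ R', S*L*l ≤ S*L*R' := fun l hl => Nat.mul_le_mul_left _ hl
  have htb : ∀ n ≤ T0, S*n ≤ S*T0 := fun n hn => Nat.mul_le_mul_left _ hn
  have hRTa : 300*(S*L*R') + 300*(S*T0) ≤ R*T := by
    calc 300*(S*L*R') + 300*(S*T0) = 300*S*(L*R'+T0) := by ring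
      _ ≤ R*T := hRT
  have hWa : 400*(S*(R*T)) + 400*(S*L*R') + 400*(S*T0) ≤ W := by
    calc 400*(S*(R*T)) + 400*(S*L*R') + 400*(S*T0) = 400*S*(R*T+L*R'+T0) := by ring
      _ ≤ W := hW
  have hST : 2*(S*T) ≤ S*T0 := by
    calc 2*(S*T) = S*(2*T) := by ring
      _ ≤ S*T0 := Nat.mul_le_mul_left _ hTT
  obtain ⟨a, ha⟩ : ∃ a : ℝ, a = ((S*L*R' : ℕ):ℝ) := ⟨_, rfl⟩
  obtain ⟨b, hb⟩ : ∃ b : ℝ, b = ((S*T0 : ℕ):ℝ) := ⟨_, rfl⟩
  obtain ⟨d, hd⟩ : ∃ d : ℝ, d = ((S*(R*T) : ℕ):ℝ) := ⟨_, rfl⟩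
  have hSa : (S:ℝ) ≤ a := by rw [ha]; exact_mod_cast hS1
  have hQr : (Q:ℝ) ≤ 20*a+4*b+3*S := by rw [ha, hb]; exact_mod_cast hQa
  have hRTr : 300*a+300*b ≤ ((R*T : ℕ):ℝ) := by rw [ha, hb]; exact_mod_cast hRTa
  have hWr : 400*d+400*a+400*b ≤ (W:ℝ) := by rw [ha, hb, hd]; exact_mod_cast hWa
  have hSTr : 2*((S:ℝ)*T) ≤ b := by rw [hb]; exact_mod_cast hST
  have hb0 : 0 ≤ b := by rw [hb]; positivity
  have hd0 : 0 ≤ d := by rw [hd]; positivity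
  have hlr : ∀ l ≤ R', (S:ℝ)*L*l ≤ a := by
    intro l hl
    rw [ha]
    exact_mod_cast hka l hl
  have htr : ∀ n ≤ T0, (S:ℝ)*n ≤ b := by
    intro n hn
    rw [hb]
    exact_mod_cast htb n hn
  have hQ0 : (0:ℝ) ≤ Q := Nat.cast_nonneg _
  -- size of Lam
  have hΛ1 : |Lam s t g M N G X Y| ≤ 1 := by
    refine hΛ.trans ?_
    rw [← Real.exp_zero]
    apply Real.exp_le_exp.mpr
    have : (0:ℝ) ≤ W := Nat.cast_nonneg _
    linarith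
  have hLk : ∀ l ≤ R', 2*(L:ℝ)*(l:ℝ)*|Lam s t g M N G X Y| ≤ Real.exp (2*(S:ℝ)-W) := by
    intro l hl
    have h1 := bkstep_aux hS hL hR' hl
    calc 2*(L:ℝ)*(l:ℝ)*|Lam s t g M N G X Y| ≤ Real.exp (2*(S:ℝ)) * Real.exp (-(W:ℝ)) := by
          apply mul_le_mul h1 hΛ (abs_nonneg _) (Real.exp_pos _).le
      _ = Real.exp (2*(S:ℝ)-W) := by
        rw [← Real.exp_add]
        congr 1
  have hLk1 : ∀ l ≤ R', (L:ℝ)*(l:ℝ)*|Lam s t g M N G X Y| ≤ 1 := by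
    intro l hl
    have h1 := hLk l hl
    have h2 : Real.exp (2*(S:ℝ)-W) ≤ 1 := by
      rw [← Real.exp_zero]
      apply Real.exp_le_exp.mpr
      linarith
    have h3 : (0:ℝ) ≤ (L:ℝ)*(l:ℝ)*|Lam s t g M N G X Y| := by positivity
    nlinarith
  -- the lower bound
  have hlow := low h hS (Q := Q) hL1 hL c hc t1 t2 k hk1 hne
  -- values at integer points
  obtain ⟨ε1, hε1⟩ : ∃ ε1 : ℝ, ε1 = Real.exp (5*S+Q+4*b+14*a-W) := ⟨_, rfl⟩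
  have hval : ∀ t1' < 2*T, ∀ t2' < 2*T, ∀ l ≤ R',
      ‖Gf s t M N X Y c t1' t2' (l:ℂ) - (Aval s t g M N G X Y c t1' t2' l : ℂ)‖ ≤ ε1 := by
    intro t1' h1 t2' h2 l hl
    have h3 := gf_aval h hS (Q := Q) hL c hc t1' t2' l (hLk1 l hl)
    refine h3.trans ?_
    have h4 : Real.exp (3*S + Q + 2*S*(t1'+t2') + 14*S*L*l) ≤ Real.exp (3*S+Q+4*b+14*a) := by
      apply Real.exp_le_exp.mpr
      have h5 := hlr l hl
      have h6 := htr t1' (by omega)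
      have h7 := htr t2' (by omega)
      nlinarith
    calc Real.exp (3*S + Q + 2*S*(t1'+t2') + 14*S*L*l) * (2*L*l*|Lam s t g M N G X Y|)
        ≤ Real.exp (3*S+Q+4*b+14*a) * Real.exp (2*(S:ℝ)-W) := by
          apply mul_le_mul h4 (hLk l hl) (by positivity) (Real.exp_pos _).le
      _ = ε1 := by
        rw [hε1, ← Real.exp_add]
        congr 1
        ring
  have hnode : ∀ t1' < 2*T, ∀ t2' < 2*T, ∀ l, 1 ≤ l → l ≤ R →
      ‖Gf s t M N X Y c t1' t2' (l:ℂ)‖ ≤ ε1 := by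
    intro t1' h1 t2' h2 l hl1 hl
    have h3 := hval t1' h1 t2' h2 l (by omega)
    rw [hz t1' h1 t2' h2 l hl1 hl] at h3
    simpa using h3
  -- derivatives
  obtain ⟨ε, hε⟩ : ∃ ε : ℝ, ε = Real.exp (4*(S*T)) * ε1 := ⟨_, rfl⟩
  have hε10 : 0 < ε1 := by rw [hε1]; exact Real.exp_pos _
  have hε0 : 0 ≤ ε := by rw [hε]; positivity
  have hder : ∀ l : ℕ, 1 ≤ l → l ≤ R → ∀ i < T,
      ‖iteratedDeriv i (Gf s t M N X Y c t1 t2) (l:ℂ)‖ ≤ ε := by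
    intro l hl1 hl i hi
    have h1 := gf_deriv_bound h hS c t1 t2 i (l:ℂ) ε1 (by
      intro k' hk'
      exact hnode (t1+k') (by omega) (t2+(i-k')) (by omega) l hl1 hl)
    refine h1.trans ?_
    rw [hε]
    apply mul_le_mul_of_nonneg_right _ hε10.le
    have h2 : (4*(S:ℝ)) ≤ Real.exp (4*(S:ℝ)) := by
      have := Real.add_one_le_exp (4*(S:ℝ))
      linarith
    calc (4*(S:ℝ))^i ≤ (Real.exp (4*(S:ℝ)))^i := pow_le_pow_left₀ (by positivity) h2 i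
      _ = Real.exp (i*(4*(S:ℝ))) := by rw [← Real.exp_nat_mul]
      _ ≤ Real.exp (4*(S*T)) := by
        apply Real.exp_le_exp.mpr
        have h3 : (i:ℝ) ≤ T := by exact_mod_cast hi.le
        nlinarith
  -- Schwarz lemma
  obtain ⟨B, hB⟩ : ∃ B : ℝ, B = Real.exp (3*S+Q+2*b+120*a) := ⟨_, rfl⟩
  have hRr : (1:ℝ) ≤ R := by exact_mod_cast (by omega : 1 ≤ R)
  have hR'r : (R:ℝ) ≤ R' := by exact_mod_cast hRR
  have htt : (S:ℝ)*(t1+t2) ≤ b := by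
    have := htr (t1+t2) (by omega)
    push_cast at this
    exact this
  have hbd : ∀ z : ℂ, ‖z‖ ≤ 8*(R':ℝ) → ‖Gf s t M N X Y c t1 t2 z‖ ≤ B := by
    intro z hz'
    have h1 := gf_bound h hS hΛ1 (Q := Q) hL c hc t1 t2 z (8*(R':ℝ)) hz'
    refine h1.trans ?_
    rw [hB]
    apply Real.exp_le_exp.mpr
    have h2 := hlr R' le_rfl
    nlinarith
  have hsch := nev_schw (Gf s t M N X Y c t1 t2) (gf_diff c t1 t2) R T hT ε (8*(R':ℝ)) R' B hε0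
    (by linarith) (by linarith) (by linarith) (by linarith) hder hbd (k:ℂ) (by
      rw [Complex.norm_natCast]
      exact_mod_cast hk)
  -- numerical bounds
  have h27 : (((R':ℝ)+R)/(8*(R':ℝ)-R))^(R*T) ≤ Real.exp (-((R*T : ℕ):ℝ)) := by
    have h1 : ((R':ℝ)+R)/(8*(R':ℝ)-R) ≤ 2/7 := by
      rw [div_le_div_iff₀ (by linarith) (by norm_num)]
      linarith
    have h2 : (2:ℝ)/7 ≤ Real.exp (-1) := by
      have h3 : Real.exp 1 < 2.7182818286 := Real.exp_one_lt_d9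
      rw [Real.exp_neg, div_le_iff₀ (by norm_num), inv_mul_eq_div, le_div_iff₀ (Real.exp_pos 1)]
      linarith
    calc (((R':ℝ)+R)/(8*(R':ℝ)-R))^(R*T) ≤ (Real.exp (-1))^(R*T) := by
          apply pow_le_pow_left₀ _ (h1.trans h2)
          apply div_nonneg <;> linarith
      _ = Real.exp (-((R*T : ℕ):ℝ)) := by
        rw [← Real.exp_nat_mul]
        congr 1
        ring
  have hq0 : 0 ≤ (((R':ℝ)+R)/(8*(R':ℝ)-R))^(R*T) := by
    apply pow_nonneg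
    apply div_nonneg <;> linarith
  have h27' : (((R':ℝ)+R)/(8*(R':ℝ)-R))^(R*T) ≤ 1 := by
    refine h27.trans ?_
    rw [← Real.exp_zero]
    apply Real.exp_le_exp.mpr
    have : (0:ℝ) ≤ ((R*T : ℕ):ℝ) := Nat.cast_nonneg _
    linarith
  have h32 : (4*(8*(R':ℝ)))^(R*T) ≤ Real.exp d := by
    have h1 : 4*(8*(R':ℝ)) ≤ (2:ℝ)^S := by
      have : ((32*R' : ℕ):ℝ) ≤ ((2^S : ℕ):ℝ) := by exact_mod_cast hR'
      push_cast at this
      linarith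
    have h3 : (2:ℝ)^S ≤ Real.exp S := by
      have h4 : (2:ℝ) ≤ Real.exp 1 := by
        have := Real.add_one_le_exp (1:ℝ)
        linarith
      calc (2:ℝ)^S ≤ (Real.exp 1)^S := pow_le_pow_left₀ (by norm_num) h4 S
        _ = Real.exp S := by
          rw [← Real.exp_nat_mul]
          simp
    calc (4*(8*(R':ℝ)))^(R*T) ≤ (Real.exp S)^(R*T) :=
          pow_le_pow_left₀ (by positivity) (h1.trans h3) _
      _ = Real.exp d := by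
        rw [← Real.exp_nat_mul, hd]
        congr 1
        push_cast
        ring
  obtain ⟨E, hE⟩ : ∃ E : ℝ, E = (4*(8*(R':ℝ)))^(R*T) := ⟨_, rfl⟩
  rw [← hE] at hsch h32
  have hE0 : 1 ≤ E := by
    rw [hE]
    apply one_le_pow₀
    linarith
  obtain ⟨q', hq'⟩ : ∃ q' : ℝ, q' = (((R':ℝ)+R)/(8*(R':ℝ)-R))^(R*T) := ⟨_, rfl⟩
  rw [← hq'] at hsch h27 hq0 h27'
  have hB0 : 0 < B := by rw [hB]; exact Real.exp_pos _
  have hk3 := hval t1 (by omega) t2 (by omega) k hk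
  have htri : |Aval s t g M N G X Y c t1 t2 k| ≤
      ‖Gf s t M N X Y c t1 t2 (k:ℂ)‖ + ε1 := by
    have h1 : |Aval s t g M N G X Y c t1 t2 k| = ‖(Aval s t g M N G X Y c t1 t2 k : ℂ)‖ := by
      rw [Complex.norm_real, Real.norm_eq_abs]
    rw [h1]
    have h2 : (Aval s t g M N G X Y c t1 t2 k : ℂ) = Gf s t M N X Y c t1 t2 (k:ℂ) -
        (Gf s t M N X Y c t1 t2 (k:ℂ) - (Aval s t g M N G X Y c t1 t2 k : ℂ)) := by ring
    calc ‖(Aval s t g M N G X Y c t1 t2 k : ℂ)‖ = ‖Gf s t M N X Y c t1 t2 (k:ℂ) -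
        (Gf s t M N X Y c t1 t2 (k:ℂ) - (Aval s t g M N G X Y c t1 t2 k : ℂ))‖ := by rw [← h2]
      _ ≤ _ := (norm_sub_le _ _).trans (by linarith)
  obtain ⟨B1, hB1⟩ : ∃ B1 : ℝ, B1 = 18*S+3*Q+61*a+6*b := ⟨_, rfl⟩
  have hlow' : Real.exp (-B1) ≤ |Aval s t g M N G X Y c t1 t2 k| := by
    refine le_trans ?_ hlow
    apply Real.exp_le_exp.mpr
    rw [hB1]
    have h2 := hlr k hk
    nlinarith
  have hε1ε : ε1 ≤ ε * E := by
    have h1 : 1 ≤ Real.exp (4*((S:ℝ)*T)) := by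
      rw [← Real.exp_zero]
      apply Real.exp_le_exp.mpr
      positivity
    calc ε1 = 1*ε1*1 := by ring
      _ ≤ Real.exp (4*((S:ℝ)*T)) * ε1 * E := by
        apply mul_le_mul _ hE0 (by norm_num) (by positivity)
        exact mul_le_mul_of_nonneg_right h1 hε10.le
      _ = ε * E := by rw [hε]
  have hsum : Real.exp (-B1) ≤ B*q' + 3*(ε*E) := by
    have h1 : ε*E*q' ≤ ε*E := mul_le_of_le_one_right (by positivity) h27'
    have h2 : (B+ε*E)*q' = B*q' + ε*E*q' := by ring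
    linarith
  have hbig : B*q' ≤ Real.exp (-B1-1) := by
    calc B*q' ≤ B*Real.exp (-((R*T : ℕ):ℝ)) := mul_le_mul_of_nonneg_left h27 hB0.le
      _ = Real.exp (3*S+Q+2*b+120*a + (-((R*T : ℕ):ℝ))) := by rw [hB, ← Real.exp_add]
      _ ≤ Real.exp (-B1-1) := by
        apply Real.exp_le_exp.mpr
        rw [hB1]
        linarith
  have hsmall : 3*(ε*E) ≤ Real.exp (-B1-1) := by
    have h3 : (3:ℝ) ≤ Real.exp 2 := by
      have := Real.add_one_le_exp (2:ℝ)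
      linarith
    calc 3*(ε*E) ≤ Real.exp 2 * (ε * Real.exp d) := by
          apply mul_le_mul h3 _ (by positivity) (Real.exp_pos _).le
          exact mul_le_mul_of_nonneg_left h32 hε0
      _ = Real.exp (2 + (4*((S:ℝ)*T) + (5*S+Q+4*b+14*a-W) + d)) := by
        rw [hε, hε1, ← Real.exp_add, ← Real.exp_add, ← Real.exp_add]
      _ ≤ Real.exp (-B1-1) := by
        apply Real.exp_le_exp.mpr
        rw [hB1]
        linarith
  have hlast : 2*Real.exp (-B1-1) < Real.exp (-B1) := by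
    have h1 : Real.exp (-B1) = Real.exp (-B1-1) * Real.exp 1 := by
      rw [← Real.exp_add]
      congr 1
      ring
    have h2 : (2.7182818283:ℝ) < Real.exp 1 := Real.exp_one_gt_d9
    have h3 := Real.exp_pos (-B1-1)
    rw [h1]
    nlinarith
  linarith

end Irr
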