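import Pool.Agent.Lib.Irr.BkDefs

/-!
# Module BkVan

The numbers `θ_l = thl l` are positive and pairwise distinct; Vandermonde.
-/

namespace Irr

theorem bkvan {S : ℕ} {p q s t g M N : ℤ} {G : Fin 4 → ℤ} {X Y : ℝ}
    (h : BD S p q s t g M N G X Y) {L : ℕ} (c : Idx L → ℤ)
    (hz : ∀ k, 1 ≤ k → k ≤ L^3 → Aval s t g M N G X Y c 0 0 k = 0) : c = 0 := by
  classical
  have hα : 0 < (s:ℝ)+X := add_pos (by exact_mod_cast h.hs) h.hX
  have hβ : 0 < (t:ℝ)+Y := add_pos (by exact_mod_cast h.ht) h.hY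
  have hγ : 0 < ev X Y G/g := div_pos h.hG (by exact_mod_cast h.hg)
  have hpos : ∀ l : Idx L, 0 < thl s t g G X Y l := by
    intro l
    unfold thl
    positivity
  have hinj : Function.Injective (thl s t g G X Y : Idx L → ℝ) := by
    intro l l' hll
    unfold thl at hll
    have h1 : ((s:ℝ)+X)^(((l.1:ℕ):ℤ) - ((l'.1:ℕ):ℤ)) * ((t:ℝ)+Y)^(((l.2.1:ℕ):ℤ) - ((l'.2.1:ℕ):ℤ)) *
        (ev X Y G/g)^(((l.2.2:ℕ):ℤ) - ((l'.2.2:ℕ):ℤ)) = 1 := by
      rw [zpow_sub₀ hα.ne', zpow_sub₀ hβ.ne', zpow_sub₀ hγ.ne', zpow_natCast, zpow_natCast,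
        zpow_natCast, zpow_natCast, zpow_natCast, zpow_natCast, div_mul_div_comm,
        div_mul_div_comm, hll]
      apply div_self
      positivity
    obtain ⟨e1, e2, e3⟩ := h.hind _ _ _ h1
    have f1 : (l.1:ℕ) = (l'.1:ℕ) := by omega
    have f2 : (l.2.1:ℕ) = (l'.2.1:ℕ) := by omega
    have f3 : (l.2.2:ℕ) = (l'.2.2:ℕ) := by omega
    exact Prod.ext (Fin.ext f1) (Prod.ext (Fin.ext f2) (Fin.ext f3))
  have hcard : Fintype.card (Idx L) = L^3 := by
    rw [Fintype.card_prod, Fintype.card_prod, Fintype.card_fin]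
    ring
  obtain ⟨e⟩ : Nonempty (Fin (L^3) ≃ Idx L) := ⟨(Fintype.equivFinOfCardEq hcard).symm⟩
  have hdet : (Matrix.vandermonde (fun i => thl s t g G X Y (e i))).det ≠ 0 :=
    Matrix.det_vandermonde_ne_zero_iff.mpr (hinj.comp e.injective)
  have hv : Matrix.vecMul (fun i => (c (e i) : ℝ) * thl s t g G X Y (e i))
      (Matrix.vandermonde (fun i => thl s t g G X Y (e i))) = 0 := by
    funext j
    have h1 := hz ((j:ℕ)+1) (by omega) (by have := j.2; omega)
    unfold Aval at h1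
    have h2 : Matrix.vecMul (fun i => (c (e i) : ℝ) * thl s t g G X Y (e i))
        (Matrix.vandermonde (fun i => thl s t g G X Y (e i))) j = 0 := by
      rw [← h1, Matrix.vecMul, dotProduct, ← e.sum_comp]
      refine Finset.sum_congr rfl fun i _ => ?_
      rw [Matrix.vandermonde_apply, pow_zero, pow_zero, pow_succ (thl s t g G X Y (e i)) (j:ℕ)]
      ring
    exact h2
  have h0 := Matrix.eq_zero_of_vecMul_eq_zero hdet hv
  funext l
  have h1 := congrFun h0 (e.symm l)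
  simp only [Equiv.apply_symm_apply, Pi.zero_apply, mul_eq_zero] at h1
  have h2 := h1.resolve_right (hpos l).ne'
  exact_mod_cast h2

end Irr
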