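import Pool.Agent.Lib.Irr.BkSieg
import Pool.Agent.Lib.Irr.BkStep
import Pool.Agent.Lib.Irr.BkVan

/-!
# Module BkFin (about 150 lines): the weak Baker theorem

PROOF. `S0 = 2^19`. Put `L = S^27`, `R0 = S^2`, `T0 = 2^8 S^39`, `R_j = S^(2+10j)`,
`T_j = 2^(8-j) S^39` (`0 <= j <= 8`), `W = S^200`. Suppose `|Lam| <= exp(-W)`.
`siegel`: `8 T0^2 R0 = 2^19 S^80 <= S^81 = L^3`. Claim by induction on `j <= 8`:
`Aval t1 t2 k = 0` for `t1,t2 < T_j`, `1 <= k <= R_j`. Step `j → j+1`: `bkstep` with `R = R_j`,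
`R' = R_(j+1)`, `T = T_(j+1)` (`2T = T_j`, `2T <= T0`):
`300 S (L R' + T0) = 300 S^(40+10j) + 76800 S^40 <= S^(41+10j) <= R T` (`T >= S^39`);
`400 S (R T + L R' + T0) <= S^200`; `32 R' <= 32 S^82 <= 2^S`; `L <= 2^(S-1)`.
(for the last two: `S^82 * 32 <= 2^S` for `S >= 2^19`, e.g. from `n^k <= ...`; one way:
`S <= 2^(S/100)`-type inequality by induction, or `Nat.lt_two_pow`-like: `S = 2^19 + m`.)
`j = 8`: `R_8 = S^82 >= S^81 = L^3`, `T_8 >= 1`, so `bkvan` gives `c = 0`, contradiction.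
-/

namespace Irr

private theorem pow83 {S : ℕ} (hS : 2^19 ≤ S) : S^83 ≤ 2^S := by
  obtain ⟨m, hm⟩ : ∃ m : ℕ, m = S/128 := ⟨_, rfl⟩
  have h1 : 128*m ≤ S := by omega
  have h2 : S < 128*(m+1) := by omega
  have h3 : 4096 ≤ m := by
    have : (2:ℕ)^19 = 524288 := by norm_num
    omega
  have h4 : m+1 ≤ 2^m := Nat.lt_two_pow_self
  have h5 : S ≤ 2^(m+7) := by
    calc S ≤ 128*(m+1) := h2.le
      _ ≤ 128*2^m := Nat.mul_le_mul_left _ h4
      _ = 2^(m+7) := by rw [pow_add]; norm_num [mul_comm]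
  calc S^83 ≤ (2^(m+7))^83 := Nat.pow_le_pow_left h5 83
    _ = 2^((m+7)*83) := by rw [← pow_mul]
    _ ≤ 2^S := Nat.pow_le_pow_right (by norm_num) (by omega)

theorem baker3_explicit : ∀ S : ℕ, 2^19 ≤ S → ∀ (p q s t g M N : ℤ) (G : Fin 4 → ℤ) (X Y : ℝ),
    BD S p q s t g M N G X Y → Real.exp (-(S:ℝ)^200) < |Lam s t g M N G X Y| := by
  intro S hS p q s t g M N G X Y h
  by_contra hcon
  have hΛ0 : |Lam s t g M N G X Y| ≤ Real.exp (-(S:ℝ)^200) := not_lt.mp hcon
  have hnum : (2:ℕ)^19 = 524288 := by norm_num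
  have hSn : 524288 ≤ S := by omega
  have hS1 : 1 ≤ S := by omega
  have hS2 : 2 ≤ S := by omega
  have hpow := pow83 hS
  have hmono : ∀ {a b : ℕ}, a ≤ b → S^a ≤ S^b := fun hab => Nat.pow_le_pow_right hS1 hab
  have hΛ : |Lam s t g M N G X Y| ≤ Real.exp (-((S^200 : ℕ):ℝ)) := by
    push_cast
    exact hΛ0
  have hL1 : 1 ≤ S^27 := Nat.one_le_pow _ _ hS1
  have hL : S^27 ≤ 2^(S-1) := by
    have h1 : 2*S^27 ≤ 2^S := by
      calc 2*S^27 ≤ S*S^27 := Nat.mul_le_mul_right _ hS2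
        _ = S^28 := by ring
        _ ≤ S^83 := hmono (by norm_num)
        _ ≤ 2^S := hpow
    have h2 : 2^S = 2*2^(S-1) := by
      rw [← pow_succ']
      congr 1
      omega
    omega
  have hR0 : 1 ≤ S^2 := Nat.one_le_pow _ _ hS1
  have hS39 : 1 ≤ S^39 := Nat.one_le_pow _ _ hS1
  have hT0 : 1 ≤ 2^8*S^39 := by omega
  have hcount : 8*(2^8*S^39)^2*S^2 ≤ (S^27)^3 := by
    calc 8*(2^8*S^39)^2*S^2 = 524288*S^80 := by ring
      _ ≤ S*S^80 := Nat.mul_le_mul_right _ hSn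
      _ = (S^27)^3 := by ring
  obtain ⟨c, hc0, hcb, hcz⟩ := siegel h hS2 hL1 hL hR0 hT0 hcount
  have hind : ∀ j : ℕ, j ≤ 8 → ∀ t1 < 2^(8-j)*S^39, ∀ t2 < 2^(8-j)*S^39, ∀ k, 1 ≤ k →
      k ≤ S^(2+10*j) → Aval s t g M N G X Y c t1 t2 k = 0 := by
    intro j
    induction j with
    | zero =>
      intro _ t1 ht1 t2 ht2 k hk1 hk
      exact hcz t1 (by simpa using ht1) t2 (by simpa using ht2) k hk1 (by simpa using hk)
    | succ j ih =>
      intro hj
      have ih' := ih (by omega)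
      have hTpow : 2*(2^(8-(j+1))*S^39) = 2^(8-j)*S^39 := by
        rw [← mul_assoc, ← pow_succ']
        congr 2
        omega
      have hp1 : 1 ≤ 2^(8-(j+1)) := Nat.one_le_two_pow
      have hp2 : 2^(8-(j+1)) ≤ 2^7 := Nat.pow_le_pow_right (by norm_num) (by omega)
      have hp3 : 2^(8-j) ≤ 2^8 := Nat.pow_le_pow_right (by norm_num) (by omega)
      have hA : S^(2+10*(j+1)) ≤ S^82 := hmono (by omega)
      have hpd : S^(2+10*(j+1)) = S^10*S^(2+10*j) := by
        rw [← pow_add]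
        congr 1
        ring
      refine bkstep h hS2 (L := S^27) (R0 := S^2) (T0 := 2^8*S^39) (R := S^(2+10*j))
        (R' := S^(2+10*(j+1))) (T := 2^(8-(j+1))*S^39) hL1 hL hR0 (hmono (by omega))
        (hmono (by omega)) (by nlinarith) ?_ ?_ c hcb ?_ (S^200) ?_ hΛ ?_
      · rw [hTpow]
        exact Nat.mul_le_mul_right _ hp3
      · calc 32*S^(2+10*(j+1)) ≤ S*S^82 := Nat.mul_le_mul (by omega) hA
          _ = S^83 := by ring
          _ ≤ 2^S := hpow
      · calc 300*S*(S^27*S^(2+10*(j+1))+2^8*S^39)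
            ≤ 300*S*(S^27*S^(2+10*(j+1))+256*(S^27*S^(2+10*(j+1)))) := by
              apply Nat.mul_le_mul_left
              apply Nat.add_le_add_left
              have : S^39 ≤ S^27*S^(2+10*(j+1)) := by
                rw [← pow_add]
                exact hmono (by omega)
              omega
          _ = 77100*(S*S^27*S^10*S^(2+10*j)) := by rw [hpd]; ring
          _ ≤ S*(S*S^27*S^10*S^(2+10*j)) := Nat.mul_le_mul_right _ (by omega)
          _ = S^(2+10*j)*(1*S^39) := by ring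
          _ ≤ S^(2+10*j)*(2^(8-(j+1))*S^39) := by
              apply Nat.mul_le_mul_left
              exact Nat.mul_le_mul_right _ hp1
      · have e1 : S^(2+10*j)*(2^(8-(j+1))*S^39) ≤ 128*S^111 := by
          calc S^(2+10*j)*(2^(8-(j+1))*S^39) ≤ S^72*(2^7*S^39) := by
                apply Nat.mul_le_mul (hmono (by omega))
                exact Nat.mul_le_mul_right _ hp2
            _ = 128*S^111 := by ring
        have e2 : S^27*S^(2+10*(j+1)) ≤ S^111 := by
          rw [← pow_add]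
          exact hmono (by omega)
        have e3 : S^39 ≤ S^111 := hmono (by norm_num)
        calc 400*S*(S^(2+10*j)*(2^(8-(j+1))*S^39)+S^27*S^(2+10*(j+1))+2^8*S^39)
            ≤ 400*S*(128*S^111+S^111+256*S^111) := by
              apply Nat.mul_le_mul_left
              omega
          _ = 154000*S^112 := by ring
          _ ≤ S*S^112 := Nat.mul_le_mul_right _ (by omega)
          _ = S^113 := by ring
          _ ≤ S^200 := hmono (by norm_num)
      · rw [hTpow]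
        exact ih'
  apply hc0
  apply bkvan h c
  intro k hk1 hk
  refine hind 8 le_rfl 0 (by simp; omega) 0 (by simp; omega) k hk1 ?_
  calc k ≤ (S^27)^3 := hk
    _ = S^81 := by ring
    _ ≤ S^(2+10*8) := hmono (by norm_num)

theorem baker3 : ∃ S0 : ℕ, ∀ S ≥ S0, ∀ (p q s t g M N : ℤ) (G : Fin 4 → ℤ) (X Y : ℝ),
    BD S p q s t g M N G X Y → Real.exp (-(S:ℝ)^200) < |Lam s t g M N G X Y| :=
  ⟨2^19, baker3_explicit⟩

end Irr
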