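import Pool.Agent.Lib.Irr.BkCf

/-!
# Module BkGa (about 100 lines): `logs`, `wl_eq`, `wl_bound` (see the PROOF notes below)

Analytic facts about `Gf`.

PROOF of `logs`: `1 < α = s+X <= 2·2^S` (`X <= s`), so `0 < log α <= (S+1) log 2 <= 2S`; same for `β`.
`γ = ev G/g`: `ev G <= 4pq2^S <= 2^(2+3S)`, `g >= 1`, so `log γ <= 3S+2 <= 10S`... (use natural logs
`log 2 < 0.7`); lower bound: `liou4` for `G ≠ 0` with `H = 2^(2+3S)`: `ev G >= 2^(-(6+9S))`,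
`g <= 2^S`: `log γ >= -(10S+6) log 2 >= -10S` (`log 2 < 0.6932`, `S >= 2`).
PROOF of `wl_eq`: `w_l = l1 log α + l2 log β + l3 (log γ - Lam)` (expand `uu, vv, Lam`).
`wl_bound`: `|w_l| <= L (2S+2S+10S+1) <= 15 S L`.
`gf_deriv`: differentiate the finite sum `i` times:
`iteratedDeriv i (Gf t1 t2) z = Σ c u^t1 v^t2 w^i exp(w z)` and
`w^i = Σ_{k<=i} C(i,k) (u log α)^k (v log β)^(i-k)`.
`gf_deriv_bound`: `‖.‖ <= Σ_k C(i,k) (log α)^k (log β)^(i-k) ε = (log α+log β)^i ε <= (4S)^i ε`.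
`gf_bound`: `L^3` terms, `|c| <= 2^Q`, `|u|,|v| <= 2^(2S)`, `|exp(w z)| <= exp(|w| ‖z‖)`.
`gf_aval`: at `z = k` natural: `exp(w_l k) = (thl l)^k exp(-l3 k Lam)` and
`|exp(-x) - 1| <= 2|x|` for `|x| <= 1` (`x = l3 k Lam`, `|x| <= L k |Lam| <= 1`); `(thl l)^k =
exp((l1 log α+l2 log β+l3 log γ)k) <= exp(14SLk)`. So the difference is at most
`L^3 2^Q 2^(2S(t1+t2)) exp(14SLk) 2 L k |Lam|`.
-/

namespace Irr

variable {S : ℕ} {p q s t g M N : ℤ} {G : Fin 4 → ℤ} {X Y : ℝ}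

/-- bounds for `ev` with the given data -/
theorem ev_bd (h : BD S p q s t g M N G X Y) (X' Y' : ℝ) (hX' : X'^2 = p) (hY' : Y'^2 = q) :
    |ev X' Y' G| ≤ (2:ℝ)^(2+3*S) := by
  have h1 := ev_bound h.hp h.hq hX' hY' h.bG
  refine h1.trans ?_
  have h2 : 4*p*q*2^S ≤ 4*2^S*2^S*2^S := by
    have hp := h.hp
    have hq := h.hq
    have h3 : p*q ≤ 2^S*2^S := mul_le_mul h.bp h.bq hq.le (by positivity)
    have h4 : (0:ℤ) < 2^S := by positivity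
    nlinarith
  have h5 : (4*p*q*2^S : ℤ) ≤ 2^(2+3*S) := by
    refine h2.trans (le_of_eq ?_)
    ring
  have h6 : ((4*p*q*2^S : ℤ) : ℝ) ≤ ((2^(2+3*S) : ℤ) : ℝ) := by exact_mod_cast h5
  push_cast at h6
  push_cast
  exact h6

theorem G_ne (h : BD S p q s t g M N G X Y) : G ≠ 0 := by
  intro h0
  have := h.hG
  rw [h0] at this
  simp [ev] at this

theorem log_bd1 {S : ℕ} (hS : 2 ≤ S) {a b : ℤ} {Z : ℝ} (hZ : 0 < Z) (eZ : Z^2 = b) (ha : 0 < a)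
    (ea : a^2 = b+1) (ba : a ≤ 2^S) :
    0 < Real.log (a+Z) ∧ Real.log (a+Z) ≤ 2*S := by
  have har : (1:ℝ) ≤ a := by exact_mod_cast ha
  have hbr : (a:ℝ) ≤ (2:ℝ)^S := by exact_mod_cast ba
  have ear : (a:ℝ)^2 = b+1 := by exact_mod_cast ea
  have hZa : Z ≤ a := by
    apply le_of_lt
    apply lt_of_pow_lt_pow_left₀ 2 (by linarith)
    rw [eZ, ear]
    linarith
  constructor
  · exact Real.log_pos (by linarith)
  · have h1 : Real.log (a+Z) ≤ Real.log ((2:ℝ)^(S+1)) := by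
      apply Real.log_le_log (by linarith)
      rw [pow_succ]
      linarith
    rw [Real.log_pow] at h1
    have h2 := Real.log_two_lt_d9
    have h3 := Real.log_two_gt_d9
    have hSr : (2:ℝ) ≤ S := by exact_mod_cast hS
    push_cast at h1
    nlinarith

theorem logs (h : BD S p q s t g M N G X Y) (hS : 2 ≤ S) :
    0 < Real.log (s+X) ∧ Real.log (s+X) ≤ 2*S ∧ 0 < Real.log (t+Y) ∧ Real.log (t+Y) ≤ 2*S ∧
      |Real.log (ev X Y G/g)| ≤ 10*S := by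
  obtain ⟨h1, h2⟩ := log_bd1 hS h.hX h.eX h.hs h.es h.bs
  obtain ⟨h3, h4⟩ := log_bd1 hS h.hY h.eY h.ht h.et h.bt
  refine ⟨h1, h2, h3, h4, ?_⟩
  have hG := h.hG
  have hg1 : (1:ℝ) ≤ g := by exact_mod_cast h.hg
  have hg2 : (g:ℝ) ≤ (2:ℝ)^S := by exact_mod_cast h.bg
  have hSr : (2:ℝ) ≤ S := by exact_mod_cast hS
  have l2 := Real.log_two_lt_d9
  have l1 := Real.log_two_gt_d9
  have e0 := ev_bd h X Y h.eX h.eY
  have e1 := ev_bd h (-X) Y (by rw [neg_sq]; exact h.eX) h.eY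
  have e2 := ev_bd h X (-Y) h.eX (by rw [neg_sq]; exact h.eY)
  have e3 := ev_bd h (-X) (-Y) (by rw [neg_sq]; exact h.eX) (by rw [neg_sq]; exact h.eY)
  have hl := liou4 h.hp h.hq h.eX h.eY h.nsp h.nsq h.nspq (G_ne h) e1 e2 e3
  rw [abs_of_pos hG] at hl e0
  have hlg0 : 0 ≤ Real.log g := Real.log_nonneg hg1
  have hlg1 : Real.log g ≤ S * Real.log 2 := by
    have := Real.log_le_log (by linarith) hg2
    rwa [Real.log_pow] at this
  have hle1 : Real.log (ev X Y G) ≤ (2+3*S) * Real.log 2 := by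
    have := Real.log_le_log hG e0
    rw [Real.log_pow] at this
    push_cast at this
    exact this
  have hle2 : 0 ≤ Real.log (ev X Y G) + 3*((2+3*S) * Real.log 2) := by
    have h5 := Real.log_nonneg hl
    rw [Real.log_mul hG.ne' (by positivity), Real.log_pow, Real.log_pow] at h5
    push_cast at h5
    linarith
  rw [Real.log_div hG.ne' (by linarith), abs_le]
  constructor
  · nlinarith
  · nlinarith

theorem wl_eq (h : BD S p q s t g M N G X Y) {L : ℕ} (l : Idx L) :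
    wl s t M N X Y l = (l.1:ℕ) * Real.log (s+X) + (l.2.1:ℕ) * Real.log (t+Y)
      + (l.2.2:ℕ) * (Real.log (ev X Y G/g) - Lam s t g M N G X Y) := by
  unfold wl Lam uu vv
  push_cast
  ring

theorem wl_bound (h : BD S p q s t g M N G X Y) (hS : 2 ≤ S)
    (hΛ : |Lam s t g M N G X Y| ≤ 1) {L : ℕ} (l : Idx L) :
    |wl s t M N X Y l| ≤ 15*S*L := by
  obtain ⟨h1, h2, h3, h4, h5⟩ := logs h hS
  rw [wl_eq h l]
  have hSr : (2:ℝ) ≤ S := by exact_mod_cast hS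
  have a1 : ((l.1:ℕ):ℝ) ≤ L := by exact_mod_cast l.1.2.le
  have a2 : ((l.2.1:ℕ):ℝ) ≤ L := by exact_mod_cast l.2.1.2.le
  have a3 : ((l.2.2:ℕ):ℝ) ≤ L := by exact_mod_cast l.2.2.2.le
  have b1 : (0:ℝ) ≤ ((l.1:ℕ):ℝ) := Nat.cast_nonneg _
  have b2 : (0:ℝ) ≤ ((l.2.1:ℕ):ℝ) := Nat.cast_nonneg _
  have b3 : (0:ℝ) ≤ ((l.2.2:ℕ):ℝ) := Nat.cast_nonneg _
  have c1 : |((l.1:ℕ):ℝ) * Real.log (s+X)| ≤ L*(2*S) := by
    rw [abs_mul, abs_of_nonneg b1, abs_of_pos h1]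
    exact mul_le_mul a1 h2 h1.le (Nat.cast_nonneg _)
  have c2 : |((l.2.1:ℕ):ℝ) * Real.log (t+Y)| ≤ L*(2*S) := by
    rw [abs_mul, abs_of_nonneg b2, abs_of_pos h3]
    exact mul_le_mul a2 h4 h3.le (Nat.cast_nonneg _)
  have c3 : |((l.2.2:ℕ):ℝ) * (Real.log (ev X Y G/g) - Lam s t g M N G X Y)| ≤ L*(11*S) := by
    rw [abs_mul, abs_of_nonneg b3]
    apply mul_le_mul a3 _ (abs_nonneg _) (Nat.cast_nonneg _)
    refine (abs_sub _ _).trans ?_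
    linarith
  calc |((l.1:ℕ):ℝ) * Real.log (s+X) + (l.2.1:ℕ) * Real.log (t+Y)
      + (l.2.2:ℕ) * (Real.log (ev X Y G/g) - Lam s t g M N G X Y)|
      ≤ |((l.1:ℕ):ℝ) * Real.log (s+X)| + |((l.2.1:ℕ):ℝ) * Real.log (t+Y)|
      + |((l.2.2:ℕ):ℝ) * (Real.log (ev X Y G/g) - Lam s t g M N G X Y)| := abs_add_three _ _ _
    _ ≤ 15*S*L := by linarith

end Irr
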