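import Pool.Agent.Lib.Irr.BkNevA

/-!
# Module BkNevB : `nev_schw`, Schwarz' lemma for entire functions with approximate zeros
-/

namespace Irr

theorem nev_schw (f : ℂ → ℂ) (hf : Differentiable ℂ f) (R T : ℕ) (hT : 1 ≤ T) (ε r ρ B : ℝ)
    (hε : 0 ≤ ε) (hr : (R:ℝ) < r) (hr1 : 1 ≤ r) (hρ0 : 0 ≤ ρ) (hρ : ρ ≤ r)
    (h : ∀ k : ℕ, 1 ≤ k → k ≤ R → ∀ i < T, ‖iteratedDeriv i f (k:ℂ)‖ ≤ ε)
    (hB : ∀ z, ‖z‖ ≤ r → ‖f z‖ ≤ B) :
    ∀ z, ‖z‖ ≤ ρ → ‖f z‖ ≤ (B+ε*(4*r)^(R*T))*((ρ+R)/(r-R))^(R*T) + ε*(4*r)^(R*T) := by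
  obtain ⟨P, g, -, hg, hfg, hP⟩ := nev f hf R T hT ε r hε hr.le hr1 h
  obtain ⟨E, hE⟩ : ∃ E : ℝ, E = ε*(4*r)^(R*T) := ⟨_, rfl⟩
  rw [← hE] at hP ⊢
  have hE0 : 0 ≤ E := by rw [hE]; positivity
  have hr0 : 0 < r := by linarith
  have hrR : 0 < r - R := by linarith
  have hR0 : (0:ℝ) ≤ R := Nat.cast_nonneg R
  have hprod_low : ∀ z : ℂ, ‖z‖ = r →
      (r-R)^(R*T) ≤ ‖∏ k ∈ Finset.range R, (z-((k:ℂ)+1))^T‖ := by
    intro z hz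
    rw [norm_prod, mul_comm R T, pow_mul]
    have h1 : ((r-R)^T)^R = ∏ _k ∈ Finset.range R, (r-R)^T := by
      rw [Finset.prod_const, Finset.card_range]
    rw [h1]
    refine Finset.prod_le_prod (fun _ _ => by positivity) fun k hk => ?_
    rw [norm_pow]
    apply pow_le_pow_left₀ hrR.le
    have h2 : ‖z‖ - ‖((k:ℂ)+1)‖ ≤ ‖z-((k:ℂ)+1)‖ := norm_sub_norm_le _ _
    have h3 : ‖((k:ℂ)+1)‖ ≤ R := by
      have h4 : ((k:ℂ)+1) = ((k+1 : ℕ) : ℂ) := by push_cast; ring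
      rw [h4, Complex.norm_natCast]
      exact_mod_cast Finset.mem_range.mp hk
    linarith
  have hprod_up : ∀ z : ℂ, ‖z‖ ≤ ρ →
      ‖∏ k ∈ Finset.range R, (z-((k:ℂ)+1))^T‖ ≤ (ρ+R)^(R*T) := by
    intro z hz
    rw [norm_prod, mul_comm R T, pow_mul]
    have h1 : ((ρ+R)^T)^R = ∏ _k ∈ Finset.range R, (ρ+R)^T := by
      rw [Finset.prod_const, Finset.card_range]
    rw [h1]
    refine Finset.prod_le_prod (fun _ _ => norm_nonneg _) fun k hk => ?_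
    rw [norm_pow]
    apply pow_le_pow_left₀ (norm_nonneg _)
    have h2 : ‖z-((k:ℂ)+1)‖ ≤ ‖z‖ + ‖((k:ℂ)+1)‖ := norm_sub_le _ _
    have h3 : ‖((k:ℂ)+1)‖ ≤ R := by
      have h4 : ((k:ℂ)+1) = ((k+1 : ℕ) : ℂ) := by push_cast; ring
      rw [h4, Complex.norm_natCast]
      exact_mod_cast Finset.mem_range.mp hk
    linarith
  have hpw : 0 < (r-R)^(R*T) := by positivity
  have hcirc : ∀ z ∈ frontier (Metric.ball (0:ℂ) r), ‖g z‖ ≤ (B+E)/(r-R)^(R*T) := by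
    intro z hz
    rw [frontier_ball (0:ℂ) hr0.ne', mem_sphere_zero_iff_norm] at hz
    rw [le_div_iff₀ hpw]
    have h1 := hfg z
    have h2 : (∏ k ∈ Finset.range R, (z-((k:ℂ)+1))^T) * g z = f z - P z := by
      rw [h1]; ring
    have h3 : ‖(∏ k ∈ Finset.range R, (z-((k:ℂ)+1))^T) * g z‖ ≤ B + E := by
      rw [h2]
      exact (norm_sub_le _ _).trans (add_le_add (hB z hz.le) (hP z hz.le))
    rw [norm_mul] at h3
    calc ‖g z‖ * (r-R)^(R*T) = (r-R)^(R*T) * ‖g z‖ := mul_comm _ _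
      _ ≤ ‖∏ k ∈ Finset.range R, (z-((k:ℂ)+1))^T‖ * ‖g z‖ :=
          mul_le_mul_of_nonneg_right (hprod_low z hz) (norm_nonneg _)
      _ ≤ B + E := h3
  intro z hz
  have hzc : z ∈ closure (Metric.ball (0:ℂ) r) := by
    rw [closure_ball (0:ℂ) hr0.ne', mem_closedBall_zero_iff]
    exact hz.trans hρ
  have hgz := Complex.norm_le_of_forall_mem_frontier_norm_le Metric.isBounded_ball
    hg.diffContOnCl hcirc hzc
  have hC0 : 0 ≤ (B+E)/(r-R)^(R*T) := (norm_nonneg _).trans hgz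
  rw [hfg z]
  refine (norm_add_le _ _).trans ?_
  rw [add_comm]
  refine add_le_add ?_ (hP z (hz.trans hρ))
  rw [norm_mul]
  calc ‖∏ k ∈ Finset.range R, (z-((k:ℂ)+1))^T‖ * ‖g z‖
      ≤ (ρ+R)^(R*T) * ((B+E)/(r-R)^(R*T)) :=
        mul_le_mul (hprod_up z hz) hgz (norm_nonneg _) (by positivity)
    _ = (B+E)*((ρ+R)/(r-R))^(R*T) := by
        rw [div_pow]
        ring

end Irr
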