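import Mathlib

/-!
# Module BkNevA (about 120 lines): `nev` (see the PROOF notes below)

Entire functions with approximate zeros: Neville's recursion.

PROOF. Let `x i = i/T + 1` (natural division), `i < R T`, so every `k ∈ [1,R]` occurs exactly `T`
times, and `x` is monotone.
CLAIM, by induction on `n` (for all `i` with `i + n <= R T`): there are entire `P, g` with
`f z = P z + (∏ k ∈ range n, (z - x (i+k))) * g z` for all `z`, `‖P z‖ <= ε (4r)^n` for `‖z‖ <= r`.
`n = 0`: `P = 0`, `g = f`.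
`n+1`: if `x i = x (i+n) =: c` then `n < T` and all nodes are `c`: Taylor's formula
`f z = Σ_{j<=n} f^(j)(c)/j! (z-c)^j + (z-c)^(n+1) g z` with `g` entire (iterate `dslope`, or use
`Complex.taylorSeries`/ the power series of the entire function), and
`‖P z‖ <= Σ_{j<=n} ε (2r)^j <= ε (4r)^(n+1)` (`r >= 1`, `‖c‖ <= R <= r`).
If `x i < x (i+n)`, put `δ = x(i+n) - x(i) >= 1`, take `(P1,g1)` for `(i+1, n)` and `(P2,g2)` for
`(i,n)`, and `P = ((z - x i) P1 - (z - x (i+n)) P2)/δ`, `g = (g1 - g2)/δ`: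
`(z-x i)∏_{(i+1,n)} = (z - x(i+n))∏_{(i,n)} = ∏_{(i,n+1)}` (`prod_range_succ'`, `prod_range_succ`), so
`f = ((z-x i) f - (z-x(i+n)) f)/δ` gives the claim; `‖P‖ <= (2r+2r) ε (4r)^n`.
Finally `n = R T`, `i = 0`: `∏_{k<RT} (z - x k) = ∏_{k<R} (z-(k+1))^T`.

`nev_schw`: on the circle `‖z‖ = r`: `‖∏‖ >= (r-R)^(RT)`, so `‖g‖ <= (B + ε(4r)^(RT))/(r-R)^(RT)` there,
hence on the disc (maximum modulus: `Complex.norm_le_of_forall_mem_frontier_norm_le`); and for
`‖z‖ <= ρ`, `‖∏‖ <= (ρ+R)^(RT)`.
-/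

namespace Irr

open Finset

private theorem BkNevA_dslope (f : ℂ → ℂ) (hf : Differentiable ℂ f) (c : ℂ) (m : ℕ) :
    Differentiable ℂ ((Function.swap dslope c)^[m] f) := by
  induction m with
  | zero => exact hf
  | succ m ih =>
    rw [Function.iterate_succ_apply']
    rw [← differentiableOn_univ] at ih ⊢
    exact (Complex.differentiableOn_dslope Filter.univ_mem).2 ih

private theorem BkNevA_coef (f : ℂ → ℂ) (hf : Differentiable ℂ f) (c : ℂ) (m : ℕ) :
    (Function.swap dslope c)^[m] f c = iteratedDeriv m f c / m.factorial := by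
  have hp := (hf.analyticAt c).hasFPowerSeriesAt
  have h1 := (HasFPowerSeriesAt.has_fpower_series_iterate_dslope_fslope m hp).coeff_zero 1
  rw [← h1]
  change FormalMultilinearSeries.coeff _ 0 = _
  rw [FormalMultilinearSeries.coeff_iterate_fslope, zero_add,
    FormalMultilinearSeries.coeff_ofScalars]

private theorem BkNevA_taylor (f : ℂ → ℂ) (hf : Differentiable ℂ f) (c : ℂ) (m : ℕ) (z : ℂ) :
    f z = (∑ j ∈ range m, iteratedDeriv j f c / j.factorial * (z - c) ^ j)
      + (z - c) ^ m * (Function.swap dslope c)^[m] f z := by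
  induction m with
  | zero => simp
  | succ m ih =>
    have h1 : (z - c) * (Function.swap dslope c)^[m + 1] f z
        = (Function.swap dslope c)^[m] f z - (Function.swap dslope c)^[m] f c := by
      rw [Function.iterate_succ_apply']
      exact sub_smul_dslope _ c z
    rw [BkNevA_coef f hf] at h1
    rw [sum_range_succ, pow_succ]
    rw [ih]
    linear_combination (-(z - c) ^ m) * h1

private theorem BkNevA_geom (r : ℝ) (hr : 1 ≤ r) (m : ℕ) :
    ∑ j ∈ range m, (2 * r) ^ j ≤ (4 * r) ^ m := by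
  have h1 : ∀ j ∈ range m, (2 * r) ^ j ≤ (2 * r) ^ m := fun j hj =>
    pow_le_pow_right₀ (by linarith) (mem_range.1 hj).le
  have h2 := sum_le_sum h1
  rw [sum_const, card_range, nsmul_eq_mul] at h2
  refine h2.trans ?_
  have h3 : (m : ℝ) ≤ 2 ^ m := by exact_mod_cast (Nat.lt_two_pow_self (n := m)).le
  have h4 : (4 * r) ^ m = 2 ^ m * (2 * r) ^ m := by
    rw [← mul_pow]
    congr 1
    ring
  rw [h4]
  exact mul_le_mul_of_nonneg_right h3 (by positivity)

private theorem BkNevA_main (f : ℂ → ℂ) (hf : Differentiable ℂ f) (R T : ℕ) (hT : 1 ≤ T)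
    (ε r : ℝ) (hε : 0 ≤ ε) (hr : (R : ℝ) ≤ r) (hr1 : 1 ≤ r)
    (h : ∀ k : ℕ, 1 ≤ k → k ≤ R → ∀ i < T, ‖iteratedDeriv i f (k : ℂ)‖ ≤ ε) (n : ℕ) :
    ∀ i : ℕ, i + n ≤ R * T → ∃ P g : ℂ → ℂ, Differentiable ℂ P ∧ Differentiable ℂ g ∧
      (∀ z, f z = P z + (∏ k ∈ range n, (z - (((i + k) / T + 1 : ℕ) : ℂ))) * g z) ∧
      ∀ z, ‖z‖ ≤ r → ‖P z‖ ≤ ε * (4 * r) ^ n := by
  have hx1 : ∀ i, i < R * T → i / T + 1 ≤ R := fun i hi =>
    Nat.succ_le_of_lt ((Nat.div_lt_iff_lt_mul hT).2 hi)
  have hzx : ∀ (z : ℂ) (i : ℕ), ‖z‖ ≤ r → i < R * T →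
      ‖z - ((i / T + 1 : ℕ) : ℂ)‖ ≤ 2 * r := by
    intro z i hz hi
    refine (norm_sub_le _ _).trans ?_
    rw [Complex.norm_natCast]
    have : ((i / T + 1 : ℕ) : ℝ) ≤ R := by exact_mod_cast hx1 i hi
    linarith
  induction n with
  | zero =>
    intro i _
    refine ⟨fun _ => 0, f, differentiable_const _, hf, fun z => by simp, fun z _ => ?_⟩
    rw [norm_zero, pow_zero, mul_one]
    exact hε
  | succ n ih =>
    intro i hi
    by_cases hc : i / T = (i + n) / T
    · have hnT : n < T := by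
        have h1 := Nat.lt_div_mul_add (a := i + n) (b := T) (by omega)
        rw [← hc] at h1
        have h2 := Nat.div_mul_le_self i T
        omega
      have hall : ∀ k ∈ range (n + 1), (i + k) / T = i / T := by
        intro k hk
        rw [mem_range] at hk
        have h1 : i / T ≤ (i + k) / T := Nat.div_le_div_right (by omega)
        have h2 : (i + k) / T ≤ (i + n) / T := Nat.div_le_div_right (by omega)
        omega
      set c : ℂ := ((i / T + 1 : ℕ) : ℂ) with hcdef
      have hd := BkNevA_dslope f hf c (n + 1)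
      refine ⟨fun z => ∑ j ∈ range (n + 1), iteratedDeriv j f c / j.factorial * (z - c) ^ j,
        (Function.swap dslope c)^[n + 1] f, ?_, hd, ?_, ?_⟩
      · fun_prop
      · intro z
        have e : (∏ k ∈ range (n + 1), (z - (((i + k) / T + 1 : ℕ) : ℂ))) = (z - c) ^ (n + 1) := by
          rw [prod_congr rfl (fun k hk => by rw [hall k hk]), prod_const, card_range]
        rw [e]
        exact BkNevA_taylor f hf c (n + 1) z
      · intro z hz
        have hb : ∀ j ∈ range (n + 1),
            ‖iteratedDeriv j f c / j.factorial * (z - c) ^ j‖ ≤ ε * (2 * r) ^ j := by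
          intro j hj
          rw [mem_range] at hj
          rw [norm_mul, norm_div, norm_pow, Complex.norm_natCast]
          have h1 : ‖iteratedDeriv j f c‖ ≤ ε :=
            h (i / T + 1) (Nat.le_add_left 1 _) (hx1 i (by omega)) j (by omega)
          have h2 : (1 : ℝ) ≤ j.factorial := by exact_mod_cast Nat.factorial_pos j
          have h3 : ‖iteratedDeriv j f c‖ / j.factorial ≤ ε :=
            (div_le_self (norm_nonneg _) h2).trans h1
          exact mul_le_mul h3 (pow_le_pow_left₀ (norm_nonneg _) (hzx z i hz (by omega)) j)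
            (by positivity) hε
        refine (norm_sum_le _ _).trans ((sum_le_sum hb).trans ?_)
        rw [← mul_sum]
        exact mul_le_mul_of_nonneg_left (BkNevA_geom r hr1 (n + 1)) hε
    · have hlt : i / T < (i + n) / T :=
        lt_of_le_of_ne (Nat.div_le_div_right (by omega)) hc
      obtain ⟨P1, g1, hP1, hg1, e1, b1⟩ := ih (i + 1) (by omega)
      obtain ⟨P2, g2, hP2, hg2, e2, b2⟩ := ih i (by omega)
      set a : ℂ := ((i / T + 1 : ℕ) : ℂ) with hadef
      set b : ℂ := (((i + n) / T + 1 : ℕ) : ℂ) with hbdef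
      have hab : b - a = (((i + n) / T - i / T : ℕ) : ℂ) := by
        rw [hadef, hbdef, Nat.cast_sub hlt.le]
        push_cast
        ring
      have hδ1 : (1 : ℝ) ≤ ‖b - a‖ := by
        rw [hab, Complex.norm_natCast]
        have : 1 ≤ (i + n) / T - i / T := by omega
        exact_mod_cast this
      have hδ0 : b - a ≠ 0 := by
        intro e
        rw [e, norm_zero] at hδ1
        linarith
      refine ⟨fun z => ((z - a) * P1 z - (z - b) * P2 z) / (b - a),
        fun z => (g1 z - g2 z) / (b - a), ?_, ?_, ?_, ?_⟩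
      · fun_prop
      · fun_prop
      · intro z
        have f1 := e1 z
        have f2 := e2 z
        have g1' : (∏ k ∈ range (n + 1), (z - (((i + k) / T + 1 : ℕ) : ℂ)))
            = (z - a) * ∏ k ∈ range n, (z - (((i + 1 + k) / T + 1 : ℕ) : ℂ)) := by
          rw [prod_range_succ', mul_comm]
          congr 1
          exact prod_congr rfl fun k _ => by rw [add_right_comm i 1 k, add_assoc i k 1]
        have g2' : (∏ k ∈ range (n + 1), (z - (((i + k) / T + 1 : ℕ) : ℂ)))
            = (z - b) * ∏ k ∈ range n, (z - (((i + k) / T + 1 : ℕ) : ℂ)) := by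
          rw [prod_range_succ, mul_comm]
        have key : (b - a) * f z = ((z - a) * P1 z - (z - b) * P2 z)
            + (∏ k ∈ range (n + 1), (z - (((i + k) / T + 1 : ℕ) : ℂ))) * (g1 z - g2 z) := by
          have k1 : (z - a) * f z = (z - a) * P1 z
              + (∏ k ∈ range (n + 1), (z - (((i + k) / T + 1 : ℕ) : ℂ))) * g1 z := by
            rw [g1', mul_assoc, ← mul_add, ← f1]
          have k2 : (z - b) * f z = (z - b) * P2 z
              + (∏ k ∈ range (n + 1), (z - (((i + k) / T + 1 : ℕ) : ℂ))) * g2 z := by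
            rw [g2', mul_assoc, ← mul_add, ← f2]
          linear_combination k1 - k2
        change f z = ((z - a) * P1 z - (z - b) * P2 z) / (b - a)
          + (∏ k ∈ range (n + 1), (z - (((i + k) / T + 1 : ℕ) : ℂ))) * ((g1 z - g2 z) / (b - a))
        rw [← mul_div_assoc, ← add_div, ← key, mul_div_cancel_left₀ _ hδ0]
      · intro z hz
        rw [norm_div, div_le_iff₀ (by linarith)]
        have n1 : ‖(z - a) * P1 z‖ ≤ 2 * r * (ε * (4 * r) ^ n) := by
          rw [norm_mul]
          exact mul_le_mul (hzx z i hz (by omega)) (b1 z hz) (norm_nonneg _) (by linarith)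
        have n2 : ‖(z - b) * P2 z‖ ≤ 2 * r * (ε * (4 * r) ^ n) := by
          rw [norm_mul]
          exact mul_le_mul (hzx z (i + n) hz (by omega)) (b2 z hz) (norm_nonneg _) (by linarith)
        refine (norm_sub_le _ _).trans ?_
        have hpos : 0 ≤ ε * (4 * r) ^ (n + 1) := by positivity
        have e3 : 2 * r * (ε * (4 * r) ^ n) + 2 * r * (ε * (4 * r) ^ n)
            = ε * (4 * r) ^ (n + 1) := by ring
        calc ‖(z - a) * P1 z‖ + ‖(z - b) * P2 z‖ ≤ ε * (4 * r) ^ (n + 1) := by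
              rw [← e3]
              exact add_le_add n1 n2
          _ ≤ ε * (4 * r) ^ (n + 1) * ‖b - a‖ := le_mul_of_one_le_right hpos hδ1

private theorem BkNevA_prod (R T : ℕ) (hT : 1 ≤ T) (z : ℂ) :
    (∏ k ∈ range (R * T), (z - (((0 + k) / T + 1 : ℕ) : ℂ)))
      = ∏ k ∈ range R, (z - ((k : ℂ) + 1)) ^ T := by
  induction R with
  | zero => simp
  | succ R ih =>
    rw [Nat.succ_mul, prod_range_add, prod_range_succ, ih]
    congr 1
    have h1 : ∀ j ∈ range T, (z - (((0 + (R * T + j)) / T + 1 : ℕ) : ℂ)) = z - ((R : ℂ) + 1) := by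
      intro j hj
      have h2 : (0 + (R * T + j)) / T = R := by
        rw [zero_add, mul_comm, Nat.mul_add_div (by omega), Nat.div_eq_of_lt (mem_range.1 hj),
          add_zero]
      rw [h2]
      push_cast
      rfl
    rw [prod_congr rfl h1, prod_const, card_range]

theorem nev (f : ℂ → ℂ) (hf : Differentiable ℂ f) (R T : ℕ) (hT : 1 ≤ T) (ε r : ℝ)
    (hε : 0 ≤ ε) (hr : (R:ℝ) ≤ r) (hr1 : 1 ≤ r)
    (h : ∀ k : ℕ, 1 ≤ k → k ≤ R → ∀ i < T, ‖iteratedDeriv i f (k:ℂ)‖ ≤ ε) :
    ∃ P g : ℂ → ℂ, Differentiable ℂ P ∧ Differentiable ℂ g ∧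
      (∀ z, f z = P z + (∏ k ∈ Finset.range R, (z-((k:ℂ)+1))^T) * g z) ∧
      ∀ z, ‖z‖ ≤ r → ‖P z‖ ≤ ε*(4*r)^(R*T) := by
  obtain ⟨P, g, hP, hg, e, b⟩ := BkNevA_main f hf R T hT ε r hε hr hr1 h (R * T) 0 (by omega)
  refine ⟨P, g, hP, hg, fun z => ?_, b⟩
  rw [← BkNevA_prod R T hT z]
  exact e z

end Irr
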