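import Pool.Agent.Lib.Irr.BkCf

/-!
# Module BkSieg : Siegel's lemma for the auxiliary function
-/

namespace Irr

theorem siegel {S : ℕ} {p q s t g M N : ℤ} {G : Fin 4 → ℤ} {X Y : ℝ}
    (h : BD S p q s t g M N G X Y) (hS : 2 ≤ S) {L R0 T0 : ℕ} (hL1 : 1 ≤ L)
    (hL : L ≤ 2^(S-1)) (hR : 1 ≤ R0) (hT : 1 ≤ T0) (hcount : 8*T0^2*R0 ≤ L^3) :
    ∃ c : Idx L → ℤ, c ≠ 0 ∧ (∀ l, |c l| ≤ 2^(20*S*L*R0+4*S*T0+3*S)) ∧
      ∀ t1 < T0, ∀ t2 < T0, ∀ k, 1 ≤ k → k ≤ R0 → Aval s t g M N G X Y c t1 t2 k = 0 := by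
  classical
  obtain ⟨A, hA⟩ : ∃ A : Matrix (Fin T0 × Fin T0 × Fin R0 × Fin 4) (Idx L) ℤ,
    A = Matrix.of (fun r l => cf p q s t g M N G l r.1 r.2.1 ((r.2.2.1:ℕ)+1) r.2.2.2) := ⟨_, rfl⟩
  have hcα : Fintype.card (Fin T0 × Fin T0 × Fin R0 × Fin 4) = 4*T0^2*R0 := by
    simp only [Fintype.card_prod, Fintype.card_fin]
    ring
  have hcβ : Fintype.card (Idx L) = L^3 := by
    rw [Fintype.card_prod, Fintype.card_prod, Fintype.card_fin]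
    ring
  have hm0 : 1 ≤ 4*T0^2*R0 := by
    have : 1 ≤ T0^2*R0 := Nat.mul_pos (pow_pos hT 2) hR
    nlinarith
  have h2m : 2*(4*T0^2*R0) ≤ L^3 := by
    calc 2*(4*T0^2*R0) = 8*T0^2*R0 := by ring
      _ ≤ L^3 := hcount
  obtain ⟨c, hc0, hc1, hc2⟩ := Int.Matrix.exists_ne_zero_int_vec_norm_le A
    (by rw [hcα, hcβ]; omega) (by rw [hcα]; omega)
  obtain ⟨K, hK⟩ : ∃ K : ℝ, K = 2^(20*S*L*R0+4*S*T0) := ⟨_, rfl⟩
  have hK1 : 1 ≤ K := by rw [hK]; exact one_le_pow₀ (by norm_num)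
  have hent : ∀ r l, ‖A r l‖ ≤ K := by
    intro r l
    rw [Int.norm_eq_abs, hA, hK]
    have h1 := cf_bound h hS hL1 hL l r.1 r.2.1 ((r.2.2.1:ℕ)+1) (by omega) r.2.2.2
    have h2 : (2:ℤ)^(20*S*L*((r.2.2.1:ℕ)+1) + 2*S*((r.1:ℕ)+(r.2.1:ℕ))) ≤
        2^(20*S*L*R0+4*S*T0) := by
      apply pow_le_pow_right₀ (by norm_num)
      have h3 : 20*S*L*((r.2.2.1:ℕ)+1) ≤ 20*S*L*R0 :=
        Nat.mul_le_mul_left _ (by have := r.2.2.1.2; omega)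
      have h4 : 2*S*((r.1:ℕ)+(r.2.1:ℕ)) ≤ 2*S*(2*T0) :=
        Nat.mul_le_mul_left _ (by have := r.1.2; have := r.2.1.2; omega)
      nlinarith
    have h5 := h1.trans h2
    simp only [Matrix.of_apply]
    exact_mod_cast h5
  have hn1 : (1:ℝ) ≤ ((L^3 : ℕ) : ℝ) := by
    have : 1 ≤ L^3 := Nat.pos_of_ne_zero (by positivity)
    exact_mod_cast this
  have key : ∀ x : ℝ, x ≤ K → ‖c‖ ≤ (((L^3 : ℕ) : ℝ) * max 1 x) ^
      (((4*T0^2*R0 : ℕ) : ℝ) / (((L^3 : ℕ) : ℝ) - ((4*T0^2*R0 : ℕ) : ℝ))) →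
      ‖c‖ ≤ ((L^3 : ℕ) : ℝ) * K := by
    intro x hxK hx
    refine hx.trans ?_
    have hexp : ((4*T0^2*R0 : ℕ) : ℝ) / (((L^3 : ℕ) : ℝ) - ((4*T0^2*R0 : ℕ) : ℝ)) ≤ 1 := by
      have h3 : (2:ℝ) * ((4*T0^2*R0 : ℕ) : ℝ) ≤ ((L^3 : ℕ) : ℝ) := by exact_mod_cast h2m
      have h4 : (1:ℝ) ≤ ((4*T0^2*R0 : ℕ) : ℝ) := by exact_mod_cast hm0
      rw [div_le_one (by linarith)]
      linarith
    have hx1 : 1 ≤ ((L^3 : ℕ) : ℝ) * max 1 x := by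
      calc (1:ℝ) = 1 * 1 := (one_mul 1).symm
        _ ≤ ((L^3 : ℕ) : ℝ) * max 1 x :=
          mul_le_mul hn1 (le_max_left 1 x) zero_le_one (by linarith)
    refine (Real.rpow_le_rpow_of_exponent_le hx1 hexp).trans ?_
    rw [Real.rpow_one]
    exact mul_le_mul_of_nonneg_left (max_le hK1 hxK) (by linarith)
  rw [hcα, hcβ] at hc2
  have hbound : ‖c‖ ≤ ((L^3 : ℕ) : ℝ) * K :=
    key _ ((Matrix.norm_le_iff (A := A) (by linarith : (0:ℝ) ≤ K)).2 hent) hc2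
  refine ⟨c, hc0, ?_, ?_⟩
  · intro l
    have h1 : ‖c l‖ ≤ ((L^3 : ℕ) : ℝ) * K := (norm_le_pi_norm c l).trans hbound
    rw [Int.norm_eq_abs] at h1
    have h2 : ((L^3 : ℕ) : ℝ) ≤ 2^(3*S) := by
      have h3 : L^3 ≤ 2^(3*S) := by
        calc L^3 ≤ (2^(S-1))^3 := Nat.pow_le_pow_left hL 3
          _ = 2^((S-1)*3) := (pow_mul _ _ _).symm
          _ ≤ 2^(3*S) := Nat.pow_le_pow_right (by norm_num) (by omega)
      exact_mod_cast h3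
    have h4 : (|(c l : ℝ)|) ≤ 2^(20*S*L*R0+4*S*T0+3*S) := by
      refine h1.trans ?_
      rw [hK]
      calc ((L^3 : ℕ) : ℝ) * 2^(20*S*L*R0+4*S*T0) ≤ 2^(3*S) * 2^(20*S*L*R0+4*S*T0) :=
            mul_le_mul_of_nonneg_right h2 (by positivity)
        _ = 2^(20*S*L*R0+4*S*T0+3*S) := by rw [← pow_add]; congr 1; ring
    exact_mod_cast h4
  · intro t1 ht1 t2 ht2 k hk1 hk2
    have hzero : (fun i => ∑ l : Idx L, c l * cf p q s t g M N G l t1 t2 k i) = 0 := by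
      funext i
      have h1 := congrFun hc1 (⟨t1, ht1⟩, ⟨t2, ht2⟩, ⟨k-1, by omega⟩, i)
      rw [Matrix.mulVec, dotProduct, hA] at h1
      simp only [Matrix.of_apply, Pi.zero_apply] at h1
      rw [Nat.sub_add_cancel hk1] at h1
      rw [Pi.zero_apply, ← h1]
      exact Finset.sum_congr rfl fun l _ => mul_comm _ _
    have h1 := aval_ev h c t1 t2 k
    rw [hzero] at h1
    have h2 : ev X Y (0 : Fin 4 → ℤ) = 0 := by
      simp [ev]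
    rw [h2] at h1
    have hg : (g:ℝ)^(L*k) ≠ 0 := pow_ne_zero _ (by exact_mod_cast h.hg.ne')
    exact (mul_eq_zero.mp h1.symm).resolve_left hg

end Irr
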