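import Pool.Agent.Lib.Irr.Defs

/-!
# Module ChainBase (about 150 lines)

Descent in the Pell chain of the pair `(u,c)` down to the base.

PROOF. Call `(z,x)` a solution if `u z^2 - c x^2 = u - c`. `stp` maps solutions to solutions,
its inverse is `inv (z,x) = (v z - c x, v x - u z)` (because `v^2 - u c = 1`).

(1) If `(z,x)` is a solution with `x > 0` then `v x - u z > 0` and `v x + u z > 0`:
`(v x)^2 = (uc+1) x^2 >= u (c x^2) = u (u z^2 + c - u) > (u z)^2`.
(2) If `z > 0`, then `v z - c x < z`: `(v-1)^2 = uc + 2 - 2v <= uc`, so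
`((v-1) z)^2 <= u c z^2 < c (u z^2 + c - u) = (c x)^2`.
(3) `v z = c x` is impossible: it gives `v^2 z^2 = c^2 x^2 = c (u z^2 + c - u)`, so
`z^2 = c (c-u)`; `c` is coprime to `v` (`v^2 - u c = 1`), so `c ∣ z`, hence `c ∣ c - u`,
contradiction to `0 < c - u < c`.
(4) Claim by strong induction on `z` (`z.toNat`): every solution with `z, x > 0` is
`(stp u c v)^[m] (ζ, ξ)` with a solution `ζ, ξ > 0`, `v ζ < c ξ`. If `v z < c x` take `m = 0`.
Otherwise `v z > c x` by (3); `inv (z,x)` is a solution with positive coordinates by (1), its first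
coordinate is `< z` by (2). Use `Function.iterate_succ_apply'`.
(5) `v ζ < c ξ` gives `v^2 ζ^2 < c^2 ξ^2 = c (u ζ^2 + c - u)`, so `ζ^2 < c (c-u) < c^2`, `ζ < c`. Since
`z > c` we have `m >= 1`.
(6) If `m` is even: `ε = 1`, `k = m` (so `k >= 2`). If `m` is odd: let `ζ' = c ξ - v ζ > 0`,
`ξ' = v ξ - u ζ > 0`; then `stp (-ζ', ξ') = (ζ, ξ)`, `(ζ',ξ')` is a solution,
`c ξ' - v ζ' = ζ > 0`; take `ε = -1`, `k = m+1` (`Function.iterate_succ_apply`). `ζ' < c` by (5)
applied to `(ζ',ξ')`.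
(7) Two steps: the first coordinate of `stp (stp (ζ,ξ))` is `ζ + 2c (u ζ + v ξ)`; hence
`2c ∣ z - ε ζ` by induction on `k/2`.
-/

namespace Irr

private theorem cb_pos {u c v z x : ℤ} (hu : 0 < u) (huc : u < c) (hv : 0 < v)
    (ev : v^2 = u*c+1) (hx : 0 < x) (h : u*z^2 - c*x^2 = u - c) : u*z < v*x := by
  by_contra hc
  push Not at hc
  have h1 : 0 < v*x := mul_pos hv hx
  have h2 : (v*x)^2 ≤ (u*z)^2 := by nlinarith
  have h3 : (v*x)^2 - (u*z)^2 = x^2 + u*(c-u) := by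
    linear_combination x^2*ev - u*h
  have h4 : 0 < u*(c-u) := mul_pos hu (by linarith)
  nlinarith [sq_nonneg x]

private theorem cb_lt {u c v z x : ℤ} (hu : 0 < u) (huc : u < c) (hv : 0 < v)
    (ev : v^2 = u*c+1) (hx : 0 < x) (hz : 0 < z) (h : u*z^2 - c*x^2 = u - c) :
    v*z - c*x < z := by
  by_contra hc
  push Not at hc
  have h1 : 0 < c*x := mul_pos (by linarith) hx
  have h0 : c*x ≤ (v-1)*z := by linarith
  have h2 : (c*x)^2 ≤ ((v-1)*z)^2 := by nlinarith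
  have h3 : (c*x)^2 - ((v-1)*z)^2 = c*(c-u) + 2*(v-1)*z^2 := by
    linear_combination (-c)*h - z^2*ev
  have h4 : 0 < c*(c-u) := mul_pos (by linarith) (by linarith)
  nlinarith [mul_nonneg (by linarith : (0:ℤ) ≤ v-1) (sq_nonneg z)]

private theorem cb_ne {u c v z x : ℤ} (hu : 0 < u) (huc : u < c)
    (ev : v^2 = u*c+1) (h : u*z^2 - c*x^2 = u - c) : v*z ≠ c*x := by
  intro he
  have hc : 0 < c := by linarith
  have h1 : z^2 = c*(c-u) := by
    linear_combination (v*z + c*x)*he - z^2*ev - c*h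
  have hcop : IsCoprime c v := ⟨-u, v, by linear_combination ev⟩
  have hd : c ∣ z := hcop.dvd_of_dvd_mul_left ⟨x, he⟩
  obtain ⟨w, hw⟩ := hd
  have h2 : c*(c*w^2) = c*(c-u) := by rw [← h1, hw]; ring
  have h3 : c*w^2 = c-u := mul_left_cancel₀ hc.ne' h2
  have h4 : c ∣ c - u := ⟨w^2, h3.symm⟩
  have := Int.le_of_dvd (by linarith) h4
  linarith

private theorem cb_bd {u c v z x : ℤ} (hu : 0 < u) (huc : u < c) (hv : 0 < v)
    (ev : v^2 = u*c+1) (hz : 0 < z) (h : u*z^2 - c*x^2 = u - c)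
    (hlt : v*z < c*x) : z < c := by
  by_contra hc
  push Not at hc
  have h1 : 0 < v*z := mul_pos hv hz
  have h2 : (v*z)^2 < (c*x)^2 := by nlinarith
  have h3 : (c*x)^2 - (v*z)^2 = c*(c-u) - z^2 := by
    linear_combination (-c)*h - z^2*ev
  nlinarith

private theorem cb_desc {u c v : ℤ} (hu : 0 < u) (huc : u < c) (hv : 0 < v)
    (ev : v^2 = u*c+1) : ∀ (n : ℕ) (z x : ℤ), z.toNat ≤ n → 0 < z → 0 < x →
      u*z^2 - c*x^2 = u - c → ∃ (ζ ξ : ℤ) (m : ℕ), 0 < ζ ∧ 0 < ξ ∧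
        u*ζ^2 - c*ξ^2 = u - c ∧ v*ζ < c*ξ ∧ (stp u c v)^[m] (ζ, ξ) = (z, x) := by
  intro n
  induction n with
  | zero => intro z x hn hz; omega
  | succ n ih =>
    intro z x hn hz hx h
    rcases lt_or_ge (v*z) (c*x) with hlt | hge
    · exact ⟨z, x, 0, hz, hx, h, hlt, rfl⟩
    · have hne := cb_ne hu huc ev h
      have hgt : c*x < v*z := lt_of_le_of_ne hge (Ne.symm hne)
      have h1 := cb_pos hu huc hv ev hx h
      have h2 := cb_lt hu huc hv ev hx hz h
      obtain ⟨ζ, ξ, m, p1, p2, p3, p4, p5⟩ := ih (v*z - c*x) (v*x - u*z) (by omega) (by linarith)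
        (by linarith) (by linear_combination (u*z^2 - c*x^2)*ev + h)
      refine ⟨ζ, ξ, m+1, p1, p2, p3, p4, ?_⟩
      rw [Function.iterate_succ_apply', p5]
      simp only [stp, Prod.mk.injEq]
      constructor
      · linear_combination z*ev
      · linear_combination x*ev

private theorem cb_two {u c v : ℤ} (ev : v^2 = u*c+1) : ∀ (k : ℕ) (p : ℤ × ℤ),
    2*c ∣ ((stp u c v)^[2*k] p).1 - p.1 := by
  intro k
  induction k with
  | zero => intro p; simp
  | succ k ih =>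
    intro p
    rw [show 2*(k+1) = 2*k+1+1 by ring, Function.iterate_succ_apply',
      Function.iterate_succ_apply']
    have h1 := ih p
    set q := (stp u c v)^[2*k] p
    have h2 : (stp u c v (stp u c v q)).1 - q.1 = 2*c*(u*q.1+v*q.2) := by
      simp only [stp]
      linear_combination q.1*ev
    have h3 : (stp u c v (stp u c v q)).1 - p.1
        = 2*c*(u*q.1+v*q.2) + (q.1 - p.1) := by linear_combination h2
    rw [h3]
    exact dvd_add (dvd_mul_right _ _) h1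

theorem chain_base (u c v z x : ℤ) (hu : 0 < u) (huc : u < c) (hv : 0 < v) (ev : v^2 = u*c+1)
    (hx : 0 < x) (hz : c < z) (h : u*z^2 - c*x^2 = u - c) :
    ∃ (ε ζ ξ : ℤ) (k : ℕ), (ε = 1 ∨ ε = -1) ∧ Even k ∧ 2 ≤ k ∧ 0 < ζ ∧ 0 < ξ ∧
      u*ζ^2 - c*ξ^2 = u - c ∧ v*ζ < c*ξ ∧ ζ < c ∧ (stp u c v)^[k] (ε*ζ, ξ) = (z, x) ∧
      2*c ∣ z - ε*ζ := by
  obtain ⟨ζ, ξ, m, p1, p2, p3, p4, p5⟩ := cb_desc hu huc hv ev z.toNat z x le_rfl
    (by linarith) hx h
  have hζc := cb_bd hu huc hv ev p1 p3 p4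
  rcases Nat.even_or_odd m with hm | hm
  · refine ⟨1, ζ, ξ, m, Or.inl rfl, hm, ?_, p1, p2, p3, p4, hζc, by rw [one_mul]; exact p5, ?_⟩
    · rcases Nat.eq_zero_or_pos m with h0 | h0
      · rw [h0] at p5
        simp only [Function.iterate_zero, id, Prod.mk.injEq] at p5
        linarith [p5.1]
      · obtain ⟨k, hk⟩ := hm; omega
    · obtain ⟨k, hk⟩ := hm
      have := cb_two ev k (ζ, ξ)
      rw [show 2*k = m by omega, p5] at this
      simpa using this
  · have hξ' : 0 < v*ξ - u*ζ := by linarith [cb_pos hu huc hv ev p2 p3]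
    have hζ' : 0 < c*ξ - v*ζ := by linarith
    have hsol : u*(c*ξ - v*ζ)^2 - c*(v*ξ - u*ζ)^2 = u - c := by
      linear_combination (u*ζ^2 - c*ξ^2)*ev + p3
    have hlt : v*(c*ξ - v*ζ) < c*(v*ξ - u*ζ) := by
      have : c*(v*ξ - u*ζ) - v*(c*ξ - v*ζ) = ζ := by linear_combination ζ*ev
      linarith
    have hst : stp u c v (-1*(c*ξ - v*ζ), v*ξ - u*ζ) = (ζ, ξ) := by
      simp only [stp, Prod.mk.injEq]
      constructor
      · linear_combination ζ*ev
      · linear_combination ξ*ev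
    have hit : (stp u c v)^[m+1] (-1*(c*ξ - v*ζ), v*ξ - u*ζ) = (z, x) := by
      rw [Function.iterate_succ_apply, hst, p5]
    refine ⟨-1, c*ξ - v*ζ, v*ξ - u*ζ, m+1, Or.inr rfl, hm.add_one, ?_, hζ', hξ', hsol, hlt,
      cb_bd hu huc hv ev hζ' hsol hlt, hit, ?_⟩
    · obtain ⟨k, hk⟩ := hm; omega
    · obtain ⟨k, hk⟩ := hm
      have := cb_two ev (k+1) (-1*(c*ξ - v*ζ), v*ξ - u*ζ)
      rw [show 2*(k+1) = m+1 by omega, hit] at this
      simpa using this

end Irr
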