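import Pool.Agent.Lib.Irr.Defs

/-!
# Module Congr

The congruence modulo `2c`.
-/

namespace Irr

private theorem congr_dl (u c D E : ℤ) (k : ℕ) :
    (∃ A : ℤ, dl u c D E k - ((1-(k:ℤ))*D + k*E + (u+c)*k*(k-1)) = 4*u*c*A) ∧
    (∃ A : ℤ, dl u c D E (k+1) - ((1-((k:ℤ)+1))*D + ((k:ℤ)+1)*E + (u+c)*((k:ℤ)+1)*k) = 4*u*c*A) := by
  induction k with
  | zero =>
    refine ⟨⟨0, ?_⟩, ⟨0, ?_⟩⟩
    · simp [dl]
    · simp [dl]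
  | succ n ih =>
    obtain ⟨⟨A, hA⟩, ⟨B, hB⟩⟩ := ih
    refine ⟨⟨B, ?_⟩, ⟨2*B - A + dl u c D E (n+1), ?_⟩⟩
    · push_cast
      linear_combination hB
    · have h2 : dl u c D E (n+1+1) = 2*(1+2*u*c) * dl u c D E (n+1) - dl u c D E n + 2*(u+c) := rfl
      rw [h2]
      push_cast
      linear_combination 2*hB - hA

theorem side_congr {u c v d ε D ζ ξ z x : ℤ} {k : ℕ} (h : Side u c v d ε D ζ ξ z x k) :
    2*c ∣ d - ((ε*k+1)*D - ε*k*(u+c+D+2*u*c*D-2*v*ζ*ξ) + u*(ε*k)*(ε*k+1)) := by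
  obtain ⟨⟨A, hA⟩, -⟩ := congr_dl u c D (u+c+D+2*u*c*D+2*ε*v*ζ*ξ) k
  rw [h.hd] at hA
  obtain ⟨e1, he1⟩ := Int.even_mul_succ_self (k:ℤ)
  obtain ⟨e2, he2⟩ := Int.even_mul_succ_self ((k:ℤ)-1)
  rcases h.he with he | he
  · subst he
    refine ⟨2*u*A + 2*u*D*k + e1, ?_⟩
    linear_combination hA + c*he1
  · subst he
    refine ⟨2*u*A + e2, ?_⟩
    linear_combination hA + c*he2

end Irr
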