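import Pool.Agent.Lib.Irr.Gap
import Pool.Agent.Lib.Irr.Congr

/-!
# Module DatEx (about 90 lines)

Assembly: the data of an irregular quadruple.

PROOF. `base_exists`, `index_le`, `four_le`, `side_P` (both sides), `side_congr` (both sides,
subtract: the difference of the two expressions is divisible by `2c`, this is `rel`).
`M' = ε M`, `N' = ε N`: `M' N' = M N > 0`, `|M'| = M`, `|N'| = N`; `M' < 0` forces `ε = -1`.
-/

namespace Irr

theorem dat_exists {a b c d r s t x y z : ℤ} (hq : Quad a b c d r s t x y z)
    (hirr : regP a b c d ≠ 0) :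
    ∃ (ε D ζ ξ η P Q j : ℤ) (M N : ℕ),
      Side a c s d ε D ζ ξ z x M ∧ Side b c t d ε D ζ η z y N ∧
      Dat a b c r s t D P Q ζ ξ η (ε*M) (ε*N) j := by
  obtain ⟨ε, D, ζ, ξ, η, M, N, ha, hb⟩ := base_exists hq
  obtain ⟨h1, h2, h3⟩ := index_le ha hb hq.hab
  have h4 := four_le hq ha hb hirr
  obtain ⟨p1, p2⟩ := side_P ha
  obtain ⟨q1, q2⟩ := side_P hb
  obtain ⟨k1, e1⟩ := side_congr ha
  obtain ⟨k2, e2⟩ := side_congr hb
  have ha0 := hq.ha
  have hab := hq.hab
  have hbc := hq.hbc
  have hDc := ha.hD2
  have habsM : |ε * (M : ℤ)| = M := by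
    rcases ha.he with rfl | rfl
    · rw [one_mul]; exact abs_of_nonneg (by positivity)
    · rw [neg_one_mul, abs_neg]; exact abs_of_nonneg (by positivity)
  have habsN : |ε * (N : ℤ)| = N := by
    rcases ha.he with rfl | rfl
    · rw [one_mul]; exact abs_of_nonneg (by positivity)
    · rw [neg_one_mul, abs_neg]; exact abs_of_nonneg (by positivity)
  have hεε : ε * ε = 1 := by rcases ha.he with rfl | rfl <;> norm_num
  have hN4 : (4 : ℤ) ≤ N := by exact_mod_cast h4
  have hNM : (N : ℤ) ≤ M := by exact_mod_cast h1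
  have hM2N : (M : ℤ) ≤ 2 * N := by exact_mod_cast h2
  have hevM : Even (M : ℤ) := by exact_mod_cast ha.hk
  have hevN : Even (N : ℤ) := by exact_mod_cast hb.hk
  refine ⟨ε, D, ζ, ξ, η, a+c+D+2*a*c*D-2*s*ζ*ξ, b+c+D+2*b*c*D-2*t*ζ*η, k2 - k1, M, N, ha, hb,
    ?_⟩
  exact
    { ha := hq.ha
      hab := hq.hab
      hbc := hq.hbc
      hr := hq.hr
      hs := hq.hs
      ht := hq.ht
      er := hq.er
      es := hq.es
      et := hq.et
      hD := ha.hD
      hDc := by linarith
      hζ := ha.hζ
      hξ := ha.hξ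
      hη := hb.hξ
      eζ := ha.eζ
      eξ := ha.eξ
      eη := hb.eξ
      eP := rfl
      eQ := rfl
      hP := p1
      hQ := q1
      hPc := by linarith
      hQc := by linarith
      evM := hevM.mul_left ε
      evN := hevN.mul_left ε
      hMN := by
        have e : ε * (M : ℤ) * (ε * N) = (ε * ε) * (M * N) := by ring
        rw [e, hεε, one_mul]
        exact mul_pos (by linarith) (by linarith)
      hN4 := by rw [habsN]; exact hN4
      hNM := by rw [habsN, habsM]; exact hNM
      hM2N := by rw [habsN, habsM]; exact hM2N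
      hneg := by
        intro hneg
        rw [habsN, habsM]
        rcases ha.he with rfl | rfl
        · exfalso
          have : (0 : ℤ) ≤ M := by positivity
          linarith
        · have := h3 rfl
          have h5 : (M : ℤ) + 2 ≤ 2 * N := by exact_mod_cast this
          linarith
      rel := by linear_combination e2 - e1 }

end Irr
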