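import Mathlib

/-!
# Finitely many irregular Diophantine quadruples (MP_3c30ec_nt)

Basic definitions. All elements are integers (type `ℤ`).

* `regP a b c d = 0` says that `{a,b,c,d}` is a regular quadruple (`d = d_±(a,b,c)`).
* `Quad` : a Diophantine quadruple `a<b<c<d` with its six roots.
* `stp`  : one step of the Pell chain of the pair `(u,c)`, `v^2 = u*c+1`.
* `dl`   : the chain of extensions (third elements) of the pair `(u,c)`.
* `Side` : the extension `d` of the pair `(u,c)` is reached in `k` steps (k even) from the base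
  `(ε ζ, ξ)`, `ζ^2 = cD+1`, `ξ^2 = uD+1`.
* `Dat`  : all the data of an irregular quadruple needed for the case analysis, with the linear
  relation modulo `2c`.
-/

namespace Irr

/-- the symmetric polynomial whose vanishing says that `{a,b,c,d}` is regular -/
def regP (a b c d : ℤ) : ℤ :=
  a^2 + b^2 + c^2 + d^2 - 2*(a*b + a*c + a*d + b*c + b*d + c*d) - 4*a*b*c*d - 4

/-- a Diophantine quadruple `a<b<c<d` with its roots -/
structure Quad (a b c d r s t x y z : ℤ) : Prop where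
  ha : 0 < a
  hab : a < b
  hbc : b < c
  hcd : c < d
  hr : 0 < r
  hs : 0 < s
  ht : 0 < t
  hx : 0 < x
  hy : 0 < y
  hz : 0 < z
  er : r^2 = a*b+1
  es : s^2 = a*c+1
  et : t^2 = b*c+1
  ex : x^2 = a*d+1
  ey : y^2 = b*d+1
  ez : z^2 = c*d+1

/-- one step of the Pell chain of the pair `(u,c)`, `v^2 = uc+1` -/
def stp (u c v : ℤ) (p : ℤ × ℤ) : ℤ × ℤ := (v*p.1 + c*p.2, u*p.1 + v*p.2)

/-- the chain of extensions of the pair `(u,c)` with the first two values `D, E` -/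
def dl (u c D E : ℤ) : ℕ → ℤ
  | 0 => D
  | 1 => E
  | (k+2) => 2*(1+2*u*c) * dl u c D E (k+1) - dl u c D E k + 2*(u+c)

/-- data of one side: the extension `d` of the pair `(u,c)` is reached in `k` steps from the
base `(ε ζ, ξ)` -/
structure Side (u c v d ε D ζ ξ z x : ℤ) (k : ℕ) : Prop where
  hu : 0 < u
  huc : u < c
  hv : 0 < v
  ev : v^2 = u*c+1
  he : ε = 1 ∨ ε = -1
  hk : Even k
  hk2 : 2 ≤ k
  hD : 0 ≤ D
  hD2 : D < c - u
  hζ : 0 < ζ
  hξ : 0 < ξ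
  eζ : ζ^2 = c*D+1
  eξ : ξ^2 = u*D+1
  hlt : v*ζ < c*ξ
  it : (stp u c v)^[k] (ε*ζ, ξ) = (z, x)
  hd : dl u c D (u+c+D+2*u*c*D+2*ε*v*ζ*ξ) k = d

/-- the data for the case analysis. `M, N` are the signed even indices, `P = d_-(a,c,D)`,
`Q = d_-(b,c,D)`. -/
structure Dat (a b c r s t D P Q ζ ξ η M N j : ℤ) : Prop where
  ha : 0 < a
  hab : a < b
  hbc : b < c
  hr : 0 < r
  hs : 0 < s
  ht : 0 < t
  er : r^2 = a*b+1
  es : s^2 = a*c+1
  et : t^2 = b*c+1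
  hD : 0 ≤ D
  hDc : D < c
  hζ : 0 < ζ
  hξ : 0 < ξ
  hη : 0 < η
  eζ : ζ^2 = c*D+1
  eξ : ξ^2 = a*D+1
  eη : η^2 = b*D+1
  eP : P = a+c+D+2*a*c*D-2*s*ζ*ξ
  eQ : Q = b+c+D+2*b*c*D-2*t*ζ*η
  hP : 0 ≤ P
  hQ : 0 ≤ Q
  hPc : P < c
  hQc : Q < c
  evM : Even M
  evN : Even N
  hMN : 0 < M*N
  hN4 : 4 ≤ |N|
  hNM : |N| ≤ |M|
  hM2N : |M| ≤ 2*|N|
  hneg : M < 0 → |M| ≤ 2*|N| - 2
  rel : (M+1)*D - M*P + a*M*(M+1) - ((N+1)*D - N*Q + b*N*(N+1)) = 2*j*c

end Irr
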