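import Pool.Agent.Lib.Irr.Defs

/-!
# Module Degen (about 60 lines)

The degenerate conics.

PROOF. Square: `(P p - Q q)^2 = 4G^2(pq+1)`. With `P Q + G^2 = L^2`,
`(P^2 p - (G+L)^2 q)(P^2 p - (G-L)^2 q) = P^2 ((Pp-Qq)^2 - 4G^2pq) = 4G^2P^2 =: Z`
(`(G+L)^2+(G-L)^2 = 2G^2+2L^2 = 4G^2+2PQ`, `(G^2-L^2)^2 = P^2Q^2`). Both integer factors are nonzero
(`Z ≠ 0`), so both have absolute value `<= Z`; their difference is `4GLq`, so
`4q <= 4|G||L|q <= 2Z`, i.e. `2q <= Z`. And `P^2 p = (first factor) + (G+L)^2 q`, `P^2 >= 1`.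
-/

namespace Irr

theorem degen (p q ρ P Q G L : ℤ) (hp : 0 < p) (hq : 0 < q) (eρ : ρ^2 = p*q+1)
    (hP : P ≠ 0) (hG : G ≠ 0) (hL : L ≠ 0) (hPQ : P*Q+G^2 = L^2)
    (hrel : P*p-Q*q = 2*G*ρ) :
    2*q ≤ 4*G^2*P^2 ∧ p ≤ 4*G^2*P^2 + (G+L)^2*q := by
  have hsq : (P*p-Q*q)^2 = 4*G^2*(p*q+1) := by
    rw [hrel, ← eρ]
    ring
  obtain ⟨A, hA⟩ : ∃ A, A = P^2*p - (G+L)^2*q := ⟨_, rfl⟩
  obtain ⟨B, hB⟩ : ∃ B, B = P^2*p - (G-L)^2*q := ⟨_, rfl⟩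
  have hAB : A*B = 4*G^2*P^2 := by
    rw [hA, hB]
    linear_combination (2*P^2*p*q + q^2*(G^2-L^2-P*Q))*hPQ + P^2*hsq
  have hG2 : 0 < G^2 := by positivity
  have hP2 : 0 < P^2 := by positivity
  have hZ : 0 < 4*G^2*P^2 := by positivity
  have hA0 : A ≠ 0 := by
    rintro h0
    rw [h0, zero_mul] at hAB
    exact hZ.ne hAB
  have hB0 : B ≠ 0 := by
    rintro h0
    rw [h0, mul_zero] at hAB
    exact hZ.ne hAB
  have hA1 : 1 ≤ |A| := Int.one_le_abs hA0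
  have hB1 : 1 ≤ |B| := Int.one_le_abs hB0
  have hABa : |A| * |B| = 4*G^2*P^2 := by rw [← abs_mul, hAB, abs_of_pos hZ]
  have hAZ : |A| ≤ 4*G^2*P^2 := by nlinarith
  have hBZ : |B| ≤ 4*G^2*P^2 := by nlinarith
  have hdiff : B - A = 4*(G*L)*q := by
    rw [hA, hB]
    ring
  have hGL : 1 ≤ |G*L| := Int.one_le_abs (mul_ne_zero hG hL)
  have h1 : |B - A| ≤ |B| + |A| := abs_sub _ _
  have h2 : |B - A| = 4*|G*L| * q := by
    rw [hdiff, abs_mul, abs_mul, abs_of_pos hq]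
    norm_num
  constructor
  · nlinarith
  · have h3 : P^2*p = A + (G+L)^2*q := by
      rw [hA]
      ring
    have h4 : A ≤ |A| := le_abs_self A
    nlinarith

end Irr
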