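import Pool.Agent.Lib.Irr.Defs

/-!
# Module Descent (about 120 lines)

The regular descent of a Diophantine triple `{p,q,X}`, `p, q < X`.

PROOF. `e := p+q+X+2pqX-2ρστ`, `f := ρσ - pτ`, `g := ρτ - qσ`.
`f^2 = p e + 1`: `(ρσ-pτ)^2 = (pq+1)(pX+1) + p^2(qX+1) - 2pρστ = 1 + p e` (`linear_combination`).
`f > 0`: `(ρσ)^2 - (pτ)^2 = (pq+1)(pX+1) - p^2(qX+1) = pq + pX + 1 - p^2 > 0` as `p < X`.
Symmetric for `g`. `e >= 0`: `p e = f^2 - 1 >= 0`. `σ = p g + ρ f`: `p(ρτ-qσ) + ρ(ρσ-pτ) =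
(ρ^2 - pq) σ = σ`; same for `τ`. `X = p+q+e+2pqe+2ρfg`: expand (see the identity
`f g = (2pq+1)στ - ρ(2pqX+p+q)`, and `2ρστ = p+q+X+2pqX-e`). `e < X` follows from it.

`reg_iff`: as a polynomial in the last variable, with `T = a+b+c+2abc` and
`T^2 - (a^2+b^2+c^2-2ab-2ac-2bc-4) = 4(ab+1)(ac+1)(bc+1) = (2rst)^2`,
`regP a b c x = (x - T - 2rst)(x - T + 2rst)`.
-/

namespace Irr

theorem descent (p q X ρ σ τ : ℤ) (hp : 0 < p) (hq : 0 < q) (hpX : p < X) (hqX : q < X)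
    (hρ : 0 < ρ) (hσ : 0 < σ) (hτ : 0 < τ) (eρ : ρ^2 = p*q+1) (eσ : σ^2 = p*X+1)
    (eτ : τ^2 = q*X+1) :
    ∃ e f g : ℤ, e = p+q+X+2*p*q*X-2*ρ*σ*τ ∧ f = ρ*σ-p*τ ∧ g = ρ*τ-q*σ ∧
      0 ≤ e ∧ e < X ∧ 0 < f ∧ 0 < g ∧ f^2 = p*e+1 ∧ g^2 = q*e+1 ∧
      σ = p*g+ρ*f ∧ τ = q*f+ρ*g ∧ X = p+q+e+2*p*q*e+2*ρ*f*g := by
  have hf2 : (ρ*σ-p*τ)^2 = p*(p+q+X+2*p*q*X-2*ρ*σ*τ)+1 := by
    linear_combination (σ^2) * eρ + (p*q+1) * eσ + (p^2) * eτ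
  have hg2 : (ρ*τ-q*σ)^2 = q*(p+q+X+2*p*q*X-2*ρ*σ*τ)+1 := by
    linear_combination (τ^2) * eρ + (p*q+1) * eτ + (q^2) * eσ
  have hfpos : 0 < ρ*σ-p*τ := by
    have h1 : (p*τ)^2 < (ρ*σ)^2 := by
      have : (ρ*σ)^2 - (p*τ)^2 = p*q + p*(X-p) + 1 := by
        linear_combination (σ^2) * eρ + (p*q+1) * eσ - (p^2) * eτ
      have h2 : 0 < p*q := mul_pos hp hq
      have h3 : 0 < p*(X-p) := mul_pos hp (by linarith)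
      linarith
    have h4 : p*τ < ρ*σ := lt_of_pow_lt_pow_left₀ 2 (by positivity) h1
    linarith
  have hgpos : 0 < ρ*τ-q*σ := by
    have h1 : (q*σ)^2 < (ρ*τ)^2 := by
      have : (ρ*τ)^2 - (q*σ)^2 = p*q + q*(X-q) + 1 := by
        linear_combination (τ^2) * eρ + (p*q+1) * eτ - (q^2) * eσ
      have h2 : 0 < p*q := mul_pos hp hq
      have h3 : 0 < q*(X-q) := mul_pos hq (by linarith)
      linarith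
    have h4 : q*σ < ρ*τ := lt_of_pow_lt_pow_left₀ 2 (by positivity) h1
    linarith
  have he0 : 0 ≤ p+q+X+2*p*q*X-2*ρ*σ*τ := by
    have h1 : 1 ≤ (ρ*σ-p*τ)^2 := by nlinarith
    have h2 : 0 ≤ p*(p+q+X+2*p*q*X-2*ρ*σ*τ) := by linarith
    exact nonneg_of_mul_nonneg_right h2 hp
  have hs : σ = p*(ρ*τ-q*σ)+ρ*(ρ*σ-p*τ) := by
    linear_combination (-σ) * eρ
  have ht : τ = q*(ρ*σ-p*τ)+ρ*(ρ*τ-q*σ) := by
    linear_combination (-τ) * eρ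
  have hfg : (ρ*σ-p*τ)*(ρ*τ-q*σ) = (2*p*q+1)*(σ*τ) - ρ*(2*p*q*X+p+q) := by
    linear_combination (σ*τ) * eρ - (ρ*q) * eσ - (ρ*p) * eτ
  have hX : X = p+q+(p+q+X+2*p*q*X-2*ρ*σ*τ)+2*p*q*(p+q+X+2*p*q*X-2*ρ*σ*τ)
      +2*ρ*(ρ*σ-p*τ)*(ρ*τ-q*σ) := by
    have : 2*ρ*(ρ*σ-p*τ)*(ρ*τ-q*σ) = 2*ρ*((2*p*q+1)*(σ*τ) - ρ*(2*p*q*X+p+q)) := by
      rw [← hfg]; ring
    rw [this]
    linear_combination (2*(2*p*q*X+p+q)) * eρ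
  refine ⟨_, _, _, rfl, rfl, rfl, he0, ?_, hfpos, hgpos, hf2, hg2, hs, ht, hX⟩
  have h1 : 0 ≤ 2*p*q*(p+q+X+2*p*q*X-2*ρ*σ*τ) := by positivity
  have h2 : 0 < 2*ρ*(ρ*σ-p*τ)*(ρ*τ-q*σ) := by positivity
  linarith

/-- factorization of `regP` in the last variable -/
theorem regP_factor (a b c r s t x : ℤ) (er : r^2 = a*b+1) (es : s^2 = a*c+1)
    (et : t^2 = b*c+1) :
    regP a b c x = (x - (a+b+c+2*a*b*c+2*r*s*t)) * (x - (a+b+c+2*a*b*c-2*r*s*t)) := by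
  unfold regP
  linear_combination (4*s^2*t^2) * er + (4*(a*b+1)*t^2) * es + (4*(a*b+1)*(a*c+1)) * et

end Irr
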