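import Pool.Agent.Lib.Irr.EvDefs

/-!
# Module EvLiou (about 130 lines): `ev_inj`, `liou4` (see the PROOF notes below)

Arithmetic of the ring `ℤ[X,Y]`, `X^2 = p`, `Y^2 = q` (`p, q, pq` not squares), by coordinates
`x : Fin 4 → ℤ`, `ev X Y x = x0 + x1 X + x2 Y + x3 XY`.

PROOF.
`ev_mulq`: expand. `mulq_bound`: each coordinate is a sum of four products, each at most
`p q U V` in absolute value (`p, q >= 1`). `ev_inj`: suppose `ev X Y x = ev X Y y`, `z = x - y`: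
`(z0 + z2 Y) + X (z1 + z3 Y) = 0`. Multiply by `(z0 + z2 Y) - X(z1 + z3 Y)`:
`A + B Y = 0` with the integers `A = z0^2 + q z2^2 - p z1^2 - pq z3^2`, `B = 2(z0 z2 - p z1 z3)`;
`Y` is irrational (`q` not a square), so `A = B = 0`. Simplest: use that `√p` is not in `ℚ(√q)`:
if `z1 + z3 Y ≠ 0` then `X = -(z0+z2Y)/(z1+z3Y) = α + β Y` with rational `α, β`; squaring
`p = α^2 + β^2 q + 2αβ Y`, so `αβ = 0`; `β = 0` makes `p` a square, `α = 0` makes `p = β^2 q`,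
`pq = (βq)^2` a square (a rational square that is an integer is an integer square). So
`z1 + z3 Y = 0`, `z1 = z3 = 0`, then `z0 + z2 Y = 0`, `z0 = z2 = 0`.
`liou4`: the product of the four numbers `ev (±X) (±Y) x` is the integer
`A^2 - q B^2` (with `A, B` as above for `x`) and none of the four factors is `0` (`ev_inj` for
`(±X, ±Y)`, `y = 0`), so the product has absolute value `>= 1`.
-/

namespace Irr

private theorem nsq_zero {n m k : ℤ} (hn : ¬ IsSquare n) (h : m^2 = n * k^2) : k = 0 := by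
  by_contra hk
  have hd : k^2 ∣ m^2 := ⟨n, by rw [h]; ring⟩
  have hd' : k ∣ m := (Int.pow_dvd_pow_iff (by norm_num)).1 hd
  obtain ⟨l, rfl⟩ := hd'
  apply hn
  refine ⟨l, ?_⟩
  have hk2 : k^2 ≠ 0 := pow_ne_zero _ hk
  have : k^2 * n = k^2 * (l * l) := by linear_combination -h
  exact mul_left_cancel₀ hk2 this

private theorem lin_zero {q A B : ℤ} {Y : ℝ} (hY : Y^2 = q) (nsq : ¬ IsSquare q)
    (h : (A:ℝ) + B * Y = 0) : A = 0 ∧ B = 0 := by
  have h1 : (A:ℝ)^2 = q * B^2 := by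
    have : (A:ℝ) = -(B * Y) := by linarith
    rw [this, ← hY]; ring
  have h2 : A^2 = q * B^2 := by exact_mod_cast h1
  have hB := nsq_zero nsq h2
  refine ⟨?_, hB⟩
  rw [hB] at h2
  have : A^2 = 0 := by rw [h2]; ring
  exact pow_eq_zero_iff (two_ne_zero) |>.1 this

private theorem ev_zero {p q : ℤ} {X Y : ℝ} (hX : X^2 = p) (hY : Y^2 = q)
    (nsp : ¬ IsSquare p) (nsq : ¬ IsSquare q) (nspq : ¬ IsSquare (p*q)) {a b c d : ℤ}
    (h : (a:ℝ) + b * X + c * Y + d * (X*Y) = 0) : a = 0 ∧ b = 0 ∧ c = 0 ∧ d = 0 := by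
  have e1 : ((a^2 + q*c^2 - p*b^2 - p*q*d^2 : ℤ) : ℝ) + ((2*(a*c - p*b*d) : ℤ) : ℝ) * Y = 0 := by
    push_cast
    rw [← hX, ← hY]
    linear_combination ((a:ℝ) + c*Y - X*(b + d*Y)) * h
  have e2 : ((a^2 + p*b^2 - q*c^2 - p*q*d^2 : ℤ) : ℝ) + ((2*(a*b - q*c*d) : ℤ) : ℝ) * X = 0 := by
    push_cast
    rw [← hX, ← hY]
    linear_combination ((a:ℝ) + b*X - Y*(c + d*X)) * h
  obtain ⟨f1, -⟩ := lin_zero hY nsq e1
  obtain ⟨f2, -⟩ := lin_zero hX nsp e2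
  have g1 : a^2 = (p*q) * d^2 := by linarith
  have hd := nsq_zero nspq g1
  have g2 : (q*c)^2 = (p*q) * b^2 := by
    linear_combination q * f1 - q * g1
  have hb := nsq_zero nspq g2
  have ha : a = 0 := by
    rw [hd] at g1
    have : a^2 = 0 := by rw [g1]; ring
    exact pow_eq_zero_iff (two_ne_zero) |>.1 this
  have hq0 : q ≠ 0 := by
    rintro rfl
    exact nsq (IsSquare.zero)
  have hc : c = 0 := by
    rw [hb] at g2
    have : (q*c)^2 = 0 := by rw [g2]; ring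
    have := pow_eq_zero_iff (two_ne_zero) |>.1 this
    exact (mul_eq_zero.1 this).resolve_left hq0
  exact ⟨ha, hb, hc, hd⟩

theorem ev_inj {p q : ℤ} (hp : 0 < p) (hq : 0 < q) {X Y : ℝ} (hX : X^2 = p) (hY : Y^2 = q)
    (nsp : ¬ IsSquare p) (nsq : ¬ IsSquare q) (nspq : ¬ IsSquare (p*q))
    {x y : Fin 4 → ℤ} (h : ev X Y x = ev X Y y) : x = y := by
  unfold ev at h
  obtain ⟨h0, h1, h2, h3⟩ := ev_zero (a := x 0 - y 0) (b := x 1 - y 1) (c := x 2 - y 2)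
    (d := x 3 - y 3) hX hY nsp nsq nspq (by push_cast; linear_combination h)
  funext i
  fin_cases i
  · exact sub_eq_zero.1 h0
  · exact sub_eq_zero.1 h1
  · exact sub_eq_zero.1 h2
  · exact sub_eq_zero.1 h3

theorem liou4 {p q : ℤ} (hp : 0 < p) (hq : 0 < q) {X Y : ℝ} (hX : X^2 = p) (hY : Y^2 = q)
    (nsp : ¬ IsSquare p) (nsq : ¬ IsSquare q) (nspq : ¬ IsSquare (p*q))
    {x : Fin 4 → ℤ} (hx : x ≠ 0) {H : ℝ} (h1 : |ev (-X) Y x| ≤ H) (h2 : |ev X (-Y) x| ≤ H)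
    (h3 : |ev (-X) (-Y) x| ≤ H) : 1 ≤ |ev X Y x| * H^3 := by
  have hX' : (-X)^2 = p := by rw [neg_sq, hX]
  have hY' : (-Y)^2 = q := by rw [neg_sq, hY]
  have ne : ∀ {X Y : ℝ}, X^2 = p → Y^2 = q → ev X Y x ≠ 0 := by
    intro X Y hX hY h
    apply hx
    apply ev_inj hp hq hX hY nsp nsq nspq
    rw [h]; simp [ev]
  have n1 := ne hX hY
  have n2 := ne hX' hY
  have n3 := ne hX hY'
  have n4 := ne hX' hY'
  have hprod : ev X Y x * ev (-X) Y x * (ev X (-Y) x * ev (-X) (-Y) x) =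
      (((x 0^2 + q*x 2^2 - p*x 1^2 - p*q*x 3^2)^2 - q*(2*(x 0*x 2 - p*x 1*x 3))^2 : ℤ) : ℝ) := by
    unfold ev
    push_cast
    rw [← hX, ← hY]
    ring
  have hne : ((x 0^2 + q*x 2^2 - p*x 1^2 - p*q*x 3^2)^2 - q*(2*(x 0*x 2 - p*x 1*x 3))^2 : ℤ) ≠ 0 := by
    intro h0
    rw [h0] at hprod
    have : ev X Y x * ev (-X) Y x * (ev X (-Y) x * ev (-X) (-Y) x) ≠ 0 :=
      mul_ne_zero (mul_ne_zero n1 n2) (mul_ne_zero n3 n4)
    exact this (by rw [hprod]; simp)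
  have h1le : (1:ℝ) ≤ |ev X Y x * ev (-X) Y x * (ev X (-Y) x * ev (-X) (-Y) x)| := by
    rw [hprod, ← Int.cast_abs]
    exact_mod_cast Int.one_le_abs hne
  rw [abs_mul, abs_mul, abs_mul] at h1le
  have hH : 0 ≤ H := le_trans (abs_nonneg _) h1
  have b1 : |ev X (-Y) x| * |ev (-X) (-Y) x| ≤ H * H := mul_le_mul h2 h3 (abs_nonneg _) hH
  have b2 : |ev X Y x| * |ev (-X) Y x| ≤ |ev X Y x| * H :=
    mul_le_mul_of_nonneg_left h1 (abs_nonneg _)
  calc (1:ℝ) ≤ |ev X Y x| * |ev (-X) Y x| * (|ev X (-Y) x| * |ev (-X) (-Y) x|) := h1le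
    _ ≤ (|ev X Y x| * H) * (H * H) :=
      mul_le_mul b2 b1 (mul_nonneg (abs_nonneg _) (abs_nonneg _)) (mul_nonneg (abs_nonneg _) hH)
    _ = |ev X Y x| * H^3 := by ring

end Irr
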