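import Pool.Agent.Lib.Irr.EvDefs

/-!
# Module EvAlg (about 100 lines): `ev_mulq` … `ev_bound` (see the PROOF notes below)

Arithmetic of the ring `ℤ[X,Y]`, `X^2 = p`, `Y^2 = q` (`p, q, pq` not squares), by coordinates
`x : Fin 4 → ℤ`, `ev X Y x = x0 + x1 X + x2 Y + x3 XY`.

PROOF.
`ev_mulq`: expand. `mulq_bound`: each coordinate is a sum of four products, each at most
`p q U V` in absolute value (`p, q >= 1`). `ev_inj`: suppose `ev X Y x = ev X Y y`, `z = x - y`: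
`(z0 + z2 Y) + X (z1 + z3 Y) = 0`. Multiply by `(z0 + z2 Y) - X(z1 + z3 Y)`:
`A + B Y = 0` with the integers `A = z0^2 + q z2^2 - p z1^2 - pq z3^2`, `B = 2(z0 z2 - p z1 z3)`;
`Y` is irrational (`q` not a square), so `A = B = 0`. Simplest: use that `√p` is not in `ℚ(√q)`:
if `z1 + z3 Y ≠ 0` then `X = -(z0+z2Y)/(z1+z3Y) = α + β Y` with rational `α, β`; squaring
`p = α^2 + β^2 q + 2αβ Y`, so `αβ = 0`; `β = 0` makes `p` a square, `α = 0` makes `p = β^2 q`,
`pq = (βq)^2` a square (a rational square that is an integer is an integer square). So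
`z1 + z3 Y = 0`, `z1 = z3 = 0`, then `z0 + z2 Y = 0`, `z0 = z2 = 0`.
`liou4`: the product of the four numbers `ev (±X) (±Y) x` is the integer
`A^2 - q B^2` (with `A, B` as above for `x`) and none of the four factors is `0` (`ev_inj` for
`(±X, ±Y)`, `y = 0`), so the product has absolute value `>= 1`.
-/

namespace Irr

theorem ev_mulq {p q : ℤ} {X Y : ℝ} (hX : X^2 = p) (hY : Y^2 = q) (x y : Fin 4 → ℤ) :
    ev X Y (mulq p q x y) = ev X Y x * ev X Y y := by
  have h0 : mulq p q x y 0 = x 0*y 0 + p*(x 1*y 1) + q*(x 2*y 2) + p*q*(x 3*y 3) := rfl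
  have h1 : mulq p q x y 1 = x 0*y 1 + x 1*y 0 + q*(x 2*y 3) + q*(x 3*y 2) := rfl
  have h2 : mulq p q x y 2 = x 0*y 2 + x 2*y 0 + p*(x 1*y 3) + p*(x 3*y 1) := rfl
  have h3 : mulq p q x y 3 = x 0*y 3 + x 3*y 0 + x 1*y 2 + x 2*y 1 := rfl
  unfold ev
  rw [h0, h1, h2, h3]
  push_cast
  rw [← hX, ← hY]
  ring

theorem ev_powq {p q : ℤ} {X Y : ℝ} (hX : X^2 = p) (hY : Y^2 = q) (x : Fin 4 → ℤ) (n : ℕ) :
    ev X Y (powq p q x n) = (ev X Y x)^n := by
  induction n with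
  | zero => simp [ev, powq]
  | succ n ih =>
    have : powq p q x (n+1) = mulq p q x (powq p q x n) := rfl
    rw [this, ev_mulq hX hY, ih, pow_succ, mul_comm]

private theorem four_bound {a b c d W : ℤ} (ha : |a| ≤ W) (hb : |b| ≤ W) (hc : |c| ≤ W)
    (hd : |d| ≤ W) : |a + b + c + d| ≤ 4 * W := by
  rw [abs_le] at *
  constructor <;> linarith [ha.1, ha.2, hb.1, hb.2, hc.1, hc.2, hd.1, hd.2]

private theorem prod_bound {U V a b : ℤ} (ha : |a| ≤ U) (hb : |b| ≤ V) : |a * b| ≤ U * V := by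
  rw [abs_mul]
  exact mul_le_mul ha hb (abs_nonneg _) (le_trans (abs_nonneg _) ha)

private theorem scale_bound {m W a P : ℤ} (hm : 0 < m) (hmP : m ≤ P) (ha : |a| ≤ W) :
    |m * a| ≤ P * W := by
  rw [abs_mul, abs_of_pos hm]
  exact mul_le_mul hmP ha (abs_nonneg _) (le_trans hm.le hmP)

theorem mulq_bound {p q U V : ℤ} (hp : 0 < p) (hq : 0 < q) {x y : Fin 4 → ℤ}
    (hx : ∀ i, |x i| ≤ U) (hy : ∀ i, |y i| ≤ V) (i : Fin 4) :
    |mulq p q x y i| ≤ 4*p*q*U*V := by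
  have hpq : 0 < p * q := mul_pos hp hq
  have h1 : (1:ℤ) ≤ p * q := hpq
  have hpp : p ≤ p * q := by nlinarith
  have hqq : q ≤ p * q := by nlinarith
  have hxy : ∀ i j, |x i * y j| ≤ U * V := fun i j => prod_bound (hx i) (hy j)
  have a0 : ∀ i j, |x i * y j| ≤ p * q * (U * V) := by
    intro i j
    have := scale_bound (m := 1) one_pos h1 (hxy i j)
    simpa using this
  have ap : ∀ i j, |p * (x i * y j)| ≤ p * q * (U * V) := fun i j => scale_bound hp hpp (hxy i j)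
  have aq : ∀ i j, |q * (x i * y j)| ≤ p * q * (U * V) := fun i j => scale_bound hq hqq (hxy i j)
  have apq : ∀ i j, |p * q * (x i * y j)| ≤ p * q * (U * V) :=
    fun i j => scale_bound hpq le_rfl (hxy i j)
  have e : 4*p*q*U*V = 4 * (p * q * (U * V)) := by ring
  rw [e]
  fin_cases i
  · exact four_bound (a0 0 0) (ap 1 1) (aq 2 2) (apq 3 3)
  · exact four_bound (a0 0 1) (a0 1 0) (aq 2 3) (aq 3 2)
  · exact four_bound (a0 0 2) (a0 2 0) (ap 1 3) (ap 3 1)
  · exact four_bound (a0 0 3) (a0 3 0) (a0 1 2) (a0 2 1)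

theorem powq_bound {p q U : ℤ} (hp : 0 < p) (hq : 0 < q) {x : Fin 4 → ℤ}
    (hx : ∀ i, |x i| ≤ U) (n : ℕ) (i : Fin 4) :
    |powq p q x n i| ≤ (4*p*q*U)^n := by
  induction n generalizing i with
  | zero =>
    fin_cases i <;> simp [powq]
  | succ n ih =>
    have := mulq_bound hp hq hx (fun j => ih j) i
    have e : powq p q x (n+1) i = mulq p q x (powq p q x n) i := rfl
    rw [e, pow_succ, mul_comm]
    exact this

theorem ev_bound {p q U : ℤ} (hp : 0 < p) (hq : 0 < q) {X Y : ℝ} (hX : X^2 = p) (hY : Y^2 = q)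
    {x : Fin 4 → ℤ} (hx : ∀ i, |x i| ≤ U) : |ev X Y x| ≤ 4*p*q*U := by
  have hU : (0:ℤ) ≤ U := le_trans (abs_nonneg _) (hx 0)
  have hUR : (0:ℝ) ≤ U := by exact_mod_cast hU
  have hpR : (1:ℝ) ≤ p := by exact_mod_cast hp
  have hqR : (1:ℝ) ≤ q := by exact_mod_cast hq
  have hXp : |X| ≤ p := by
    apply abs_le_of_sq_le_sq _ (by linarith)
    rw [hX]; nlinarith
  have hYq : |Y| ≤ q := by
    apply abs_le_of_sq_le_sq _ (by linarith)
    rw [hY]; nlinarith
  have hxR : ∀ i, |(x i : ℝ)| ≤ U := fun i => by exact_mod_cast hx i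
  have hX1 : |X| ≤ p * q := hXp.trans (by nlinarith)
  have hY1 : |Y| ≤ p * q := hYq.trans (by nlinarith)
  have hXY : |X * Y| ≤ p * q := by
    rw [abs_mul]
    exact mul_le_mul hXp hYq (abs_nonneg _) (by linarith)
  have h1 : (1:ℝ) ≤ p * q := by nlinarith
  have key : ∀ (i : Fin 4) (Z : ℝ), |Z| ≤ p * q → |(x i : ℝ) * Z| ≤ U * (p * q) := by
    intro i Z hZ
    rw [abs_mul]
    exact mul_le_mul (hxR i) hZ (abs_nonneg _) hUR
  have k0 := key 0 1 (by rw [abs_one]; exact h1)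
  have k1 := key 1 X hX1
  have k2 := key 2 Y hY1
  have k3 := key 3 (X*Y) hXY
  rw [mul_one] at k0
  unfold ev
  rw [abs_le] at *
  constructor <;> linarith [k0.1, k0.2, k1.1, k1.2, k2.1, k2.2, k3.1, k3.2]

end Irr
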