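import Pool.Agent.Lib.Irr.Defs

/-! Definitions: `ev`, `mulq`, `powq`. -/

namespace Irr

/-- evaluation of an integer quadruple -/
def ev (X Y : ℝ) (x : Fin 4 → ℤ) : ℝ := x 0 + x 1 * X + x 2 * Y + x 3 * (X*Y)

/-- product of coordinate quadruples -/
def mulq (p q : ℤ) (x y : Fin 4 → ℤ) : Fin 4 → ℤ :=
  ![x 0*y 0 + p*(x 1*y 1) + q*(x 2*y 2) + p*q*(x 3*y 3),
    x 0*y 1 + x 1*y 0 + q*(x 2*y 3) + q*(x 3*y 2),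
    x 0*y 2 + x 2*y 0 + p*(x 1*y 3) + p*(x 3*y 1),
    x 0*y 3 + x 3*y 0 + x 1*y 2 + x 2*y 1]

/-- power -/
def powq (p q : ℤ) (x : Fin 4 → ℤ) : ℕ → (Fin 4 → ℤ)
  | 0 => ![1,0,0,0]
  | (n+1) => mulq p q x (powq p q x n)

end Irr
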