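import Pool.Agent.Lib.Irr.GGDefs

/-!
# Module FClosed (about 40 lines) (see the PROOF notes below)

From the two sides of a quadruple to the linear form. `X = √(ac)`, `Y = √(bc)`.

PROOF of `closed`: induction, `(ζX+cξ)(v+X) = (vζ+cξ)X + c(uζ+vξ)` as `X^2 = uc`.

PROOF of `lam_small`. `closed` for both sides: `zX+cx = (cξ+εζX)(s+X)^M`,
`zY+cy = (cη+εζY)(t+Y)^N`. All factors are positive (`ζX <= ζs < cξ` by `hlt`, `X < s`). With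
`γ = Y(cξ+εζX)/(X(cη+εζY))`: `γ (s+X)^M/(t+Y)^N = (z+cx/X)/(z+cy/Y)`. Now
`(cx/X)^2 = c x^2/a = c(ad+1)/a = z^2-1+c/a` and `(cy/Y)^2 = z^2-1+c/b` (`X^2 = ac`). Let `ρ` be the
ratio: `ρ >= 1` (`a < b`) and
`ρ - 1 = (cx/X - cy/Y)/(z+cy/Y) = (c/a-c/b)/((cx/X+cy/Y)(z+cy/Y)) <= c/(z^2-1) = 1/d`
(`cx/X + cy/Y >= z` …: `cx/X, cy/Y >= √(z^2-1)`, so the denominator is `>= 2(z^2-1)`).
`0 <= log ρ <= ρ - 1 <= 1/d`. `log ρ = M log(s+X) - N log(t+Y) + log γ`.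

PROOF of `gam`. Multiply numerator and denominator of `γ` by `X (cη-εζY)`:
`X^2(cη+εζY)(cη-εζY) = ac(c^2η^2-ζ^2bc) = ac·c(cη^2-bζ^2) = ac^2(c-b) = g` and
`XY(cξ+εζX)(cη-εζY) = ev X Y G` with
`G = (-ζ^2 abc^2, -ε b c^2 ξζ, ε a c^2 ζη, c^2 ξη)`.
Bounds: `ζ^2 = cD+1 <= c^2`, `ξ^2 = aD+1 <= c^2`, `η <= c`, `a,b < c`: all `|G i| <= c^6`, `g <= c^4`.
-/

namespace Irr

theorem closed (u c v ζ ξ : ℤ) (X : ℝ) (hX : X^2 = u*c) (k : ℕ) :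
    (((stp u c v)^[k] (ζ, ξ)).1 : ℝ) * X + c * (((stp u c v)^[k] (ζ, ξ)).2 : ℝ) =
      (ζ*X + c*ξ) * ((v:ℝ)+X)^k := by
  induction k with
  | zero => simp
  | succ k ih =>
    rw [Function.iterate_succ_apply', pow_succ, ← mul_assoc, ← ih]
    simp only [stp]
    push_cast
    linear_combination
      (-(((stp u c v)^[k] (ζ, ξ)).1 : ℝ)) * hX


end Irr
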