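import Pool.Agent.Lib.Irr.FMain

/-!
# Module FExpl: explicit constants

With the threshold `2^19` in the Baker theorem one gets `M < 2^4500`, `c < 2^150000`,
`log d < 2^4600` for every irregular quadruple.
-/

namespace Irr

private theorem arith_step (A u w p : ℕ) (h2 : u ≤ 2*w) (h : A*w ≤ p) : A*u ≤ p*2 := by
  calc A*u ≤ A*(2*w) := Nat.mul_le_mul_left _ h2
    _ = (A*w)*2 := by ring
    _ ≤ p*2 := Nat.mul_le_mul_right _ h

private theorem pow_cmp (k n : ℕ) (hk : 2*k ≤ n+1) : (n+2)^k ≤ 2*(n+1)^k := by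
  have h1 : ((n:ℝ)+2)^k ≤ 2*((n:ℝ)+1)^k := by
    have hn' : (2:ℝ)*k ≤ (n:ℝ)+1 := by exact_mod_cast hk
    have hn0 : (0:ℝ) < (n:ℝ)+1 := by positivity
    have h2 : ((n:ℝ)+2) = ((n:ℝ)+1)*(1+1/((n:ℝ)+1)) := by field_simp; ring
    rw [h2, mul_pow, mul_comm]
    apply mul_le_mul_of_nonneg_right _ (by positivity)
    have h3 : 1+1/((n:ℝ)+1) ≤ Real.exp (1/((n:ℝ)+1)) := by
      linarith [Real.add_one_le_exp (1/((n:ℝ)+1))]
    calc (1+1/((n:ℝ)+1))^k ≤ (Real.exp (1/((n:ℝ)+1)))^k :=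
          pow_le_pow_left₀ (by positivity) h3 k
      _ = Real.exp (k*(1/((n:ℝ)+1))) := by rw [← Real.exp_nat_mul]
      _ ≤ Real.exp (1/2) := by
          apply Real.exp_le_exp.2
          rw [mul_one_div, div_le_div_iff₀ hn0 (by norm_num)]
          linarith
      _ ≤ 2 := by
          have h5 : Real.exp (1/2) * Real.exp (1/2) = Real.exp 1 := by
            rw [← Real.exp_add]; norm_num
          have h6 := Real.exp_one_lt_d9
          have h7 := Real.exp_pos (1/2)
          nlinarith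
  exact_mod_cast h1

private theorem pow_step (k n : ℕ) (hk : 2*k ≤ n+1) (hn : 5 ≤ n)
    (h : (192*(n+1))^k ≤ 2^(n-5)) : (192*(n+1+1))^k ≤ 2^(n+1-5) := by
  have h2 := pow_cmp k n hk
  have h3 : n+1-5 = (n-5)+1 := by omega
  have h4 : (2:ℕ)^((n-5)+1) = 2^(n-5)*2 := pow_succ 2 (n-5)
  have h5 : (192*(n+1+1))^k = 192^k*(n+2)^k := by rw [mul_pow]
  have h6 : (192*(n+1))^k = 192^k*(n+1)^k := by rw [mul_pow]
  rw [h3, h4, h5]
  rw [h6] at h
  exact arith_step _ _ _ _ h2 h

private theorem pow_base : (192*(4503+1))^200 ≤ 2^(4503-5) :=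
  calc (192*(4503+1))^200 ≤ (2^20)^200 := Nat.pow_le_pow_left (by norm_num) _
      _ = 2^(20*200) := (pow_mul 2 20 200).symm
      _ ≤ 2^(4503-5) := Nat.pow_le_pow_right (by norm_num) (by norm_num)

private theorem pow_all (n : ℕ) (hn : 4503 ≤ n) : (192*(n+1))^200 ≤ 2^(n-5) := by
  induction n, hn using Nat.le_induction with
  | base => exact pow_base
  | succ n hn ih => exact pow_step 200 n (by omega) (by omega) ih

theorem numgrow_expl (M : ℕ) (hM : 2^4500 ≤ M) :
    2^19 ≤ 192*(Nat.log 2 (10*M)+1) ∧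
      ((192*(Nat.log 2 (10*M)+1) : ℕ) : ℝ)^200 ≤ ((M:ℝ)-2) * Real.log 4 := by
  obtain ⟨n, hn⟩ : ∃ n, n = Nat.log 2 (10*M) := ⟨_, rfl⟩
  have hM0 : 10*M ≠ 0 := by
    have : 0 < 2^4500 := by positivity
    omega
  have hn1 : 4503 ≤ n := by
    rw [hn]
    apply (Nat.le_log_iff_pow_le (by norm_num) hM0).2
    calc 2^4503 = 8*2^4500 := by
          rw [show (4503:ℕ) = 3+4500 by norm_num, pow_add]; norm_num
      _ ≤ 8*M := Nat.mul_le_mul_left _ hM
      _ ≤ 10*M := by omega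
  have hn2 : 2^n ≤ 10*M := by rw [hn]; exact Nat.pow_log_le_self 2 hM0
  rw [← hn]
  refine ⟨by omega, ?_⟩
  have h1 := pow_all n hn1
  have h2 : ((192*(n+1) : ℕ):ℝ)^200 ≤ (2:ℝ)^(n-5) := by exact_mod_cast h1
  have h3 : (2:ℝ)^n ≤ 10*M := by exact_mod_cast hn2
  have h4 : (2:ℝ)^n = 32*2^(n-5) := by
    have : n = (n-5)+5 := by omega
    conv_lhs => rw [this]
    rw [pow_add]; norm_num; ring
  have h5 : (2:ℝ) ≤ 2^(n-5) := by
    calc (2:ℝ) = 2^1 := by norm_num
      _ ≤ 2^(n-5) := pow_le_pow_right₀ (by norm_num) (by omega)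
  have h6 : (1:ℝ) ≤ Real.log 4 := by
    have : Real.log 4 = 2 * Real.log 2 := by
      rw [show (4:ℝ) = 2^2 by norm_num, Real.log_pow]; norm_num
    have := Real.log_two_gt_d9
    linarith
  have h7 : (2:ℝ)^(n-5) ≤ (M:ℝ)-2 := by linarith
  nlinarith

private theorem pow_comp (x : ℤ) (e k f : ℕ) (hx0 : 0 ≤ x) (hx : x ≤ 2^e) (hf : e*k = f) :
    x^k ≤ 2^f := by
  calc x^k ≤ (2^e)^k := pow_le_pow_left₀ hx0 hx _
    _ = 2^f := by rw [← pow_mul, hf]

private theorem num_fin (M A B L : ℝ) (hL : L ≤ 144128) (hM0 : 0 ≤ M) (hM : M ≤ A) (hA : 1 ≤ A)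
    (hB : B = 2^100*A) : (4*M+1)*L < B := by
  have h4 : (1000000:ℝ) ≤ 2^100 := by norm_num
  calc (4*M+1)*L ≤ (4*M+1)*144128 := mul_le_mul_of_nonneg_left hL (by positivity)
    _ ≤ (4*A+1)*144128 := by linarith
    _ < 1000000*A := by linarith
    _ ≤ B := by rw [hB]; exact mul_le_mul_of_nonneg_right h4 (by linarith)

/-- the explicit theorem (from an explicit Baker theorem) -/
theorem expl_of_baker
    (hS0 : ∀ S ≥ 2^19, ∀ (p q s t g M N : ℤ) (G : Fin 4 → ℤ) (X Y : ℝ),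
      BD S p q s t g M N G X Y → Real.exp (-(S:ℝ)^200) < |Lam s t g M N G X Y|)
    {a b c d r s t x y z : ℤ} (hq : Quad a b c d r s t x y z) (hirr : regP a b c d ≠ 0) :
    c < 2^150000 ∧ Real.log d < 2^4600 := by
  obtain ⟨ε, D, ζ, ξ, η, M, N, ha, hb, hMK, hc⟩ := index_lt hS0 numgrow_expl hq hirr
  have ha0 := hq.ha
  have hab := hq.hab
  have hbc := hq.hbc
  have hc3 : 3 ≤ c := by linarith
  have h10 : (10*(M:ℤ)) ≤ 2^4504 := by
    have h1 : (M:ℤ) < 2^4500 := by
      have h1 := Int.ofNat_lt.2 hMK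
      rwa [Nat.cast_pow, Nat.cast_ofNat] at h1
    have h2 : (2:ℤ)^4504 = 16*2^4500 := by
      rw [show (4504:ℕ) = 4+4500 by norm_num, pow_add]; norm_num
    rw [h2]
    generalize (2:ℤ)^4500 = A at h1 ⊢
    have h3 := Int.natCast_nonneg M
    linarith
  have hc1 : c ≤ 2^144128 :=
    hc.trans (pow_comp (10*(M:ℤ)) 4504 32 144128
      (mul_nonneg (by norm_num) (Int.natCast_nonneg M)) h10 (by norm_num))
  constructor
  · calc c ≤ 2^144128 := hc1
      _ < 2^150000 := by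
        apply pow_lt_pow_right₀ (by norm_num) (by norm_num)
  · have hM1 : 2 ≤ M := ha.hk2
    have hd0 : 0 < d := by have := hq.hcd; linarith
    have hD0 := ha.hD
    have hDc : D < c := by have := ha.hD2; linarith
    have h4 : 4*a*c+6 ≤ c^4 := by
      have h5 : 4*a*c+6 ≤ 4*c^2+6 := by nlinarith
      have h6 : 9 ≤ c^2 := by nlinarith
      have h7 : c^4 = c^2*c^2 := by ring
      nlinarith
    have h0 : 0 < 4*a*c+6 := by positivity
    have hdc : d ≤ c^(4*M+1) := by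
      have hp : (4*a*c+6)^(M-1) ≤ (c^4)^(M-1) := pow_le_pow_left₀ h0.le h4 _
      have hp' : (c^4)^(M-1) * c^5 = c^(4*M+1) := by
        rw [← pow_mul, ← pow_add]
        congr 1
        omega
      rcases ha.he with h1 | h1
      · refine (side_up ha h1).trans ?_
        rw [← hp']
        apply mul_le_mul hp _ _ (by positivity)
        · have h8 : (4*a*c+2)*D ≤ c^4*c := mul_le_mul (by linarith) hDc.le hD0 (by positivity)
          have h9 : (4*a*c+2)*D+4*c ≤ (c^4-4)*c + 4*c := by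
            have : (4*a*c+2)*D ≤ (c^4-4)*c :=
              mul_le_mul (by linarith) hDc.le hD0 (by nlinarith)
            linarith
          calc (4*a*c+2)*D+4*c ≤ (c^4-4)*c + 4*c := h9
            _ = c^5 := by ring
        · have : 0 ≤ (4*a*c+2)*D := mul_nonneg (by positivity) hD0
          linarith
      · refine (side_up' ha h1).trans ?_
        rw [← hp', mul_comm]
        apply mul_le_mul hp _ (by linarith) (by positivity)
        calc c = c^1 := (pow_one c).symm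
          _ ≤ c^5 := pow_le_pow_right₀ (by linarith) (by norm_num)
    have hdR : (d:ℝ) ≤ (c:ℝ)^(4*M+1) := by exact_mod_cast hdc
    have hd0R : (0:ℝ) < d := by exact_mod_cast hd0
    have hcR : (c:ℝ) ≤ 2^144128 := by exact_mod_cast hc1
    have hc0R : (0:ℝ) < c := by
      have : (3:ℝ) ≤ c := by exact_mod_cast hc3
      linarith
    have hlog2 := Real.log_two_lt_d9
    have hlogc : Real.log c ≤ 144128 := by
      calc Real.log c ≤ Real.log (2^144128) := Real.log_le_log hc0R hcR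
        _ = 144128 * Real.log 2 := by rw [Real.log_pow]; norm_num
        _ ≤ 144128 := by nlinarith
    have hMR : (M:ℝ) ≤ 2^4500 := by
      have h1 : (M:ℝ) ≤ ((2^4500 : ℕ):ℝ) := Nat.cast_le.2 hMK.le
      rwa [Nat.cast_pow, Nat.cast_ofNat] at h1
    calc Real.log d ≤ Real.log ((c:ℝ)^(4*M+1)) := Real.log_le_log hd0R hdR
      _ = (4*M+1) * Real.log c := by rw [Real.log_pow]; push_cast; ring
      _ < 2^4600 := by
          refine num_fin M (2^4500) (2^4600) _ hlogc (Nat.cast_nonneg M) hMR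
            (one_le_pow₀ (by norm_num)) ?_
          exact pow_add (2:ℝ) 100 4500

end Irr
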