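import Pool.Agent.Lib.Irr.GGDefs
import Pool.Agent.Lib.Irr.Ev

/-!
# Module FGamma (about 110 lines) (see the PROOF notes below)

From the two sides of a quadruple to the linear form. `X = √(ac)`, `Y = √(bc)`.

PROOF of `closed`: induction, `(ζX+cξ)(v+X) = (vζ+cξ)X + c(uζ+vξ)` as `X^2 = uc`.

PROOF of `lam_small`. `closed` for both sides: `zX+cx = (cξ+εζX)(s+X)^M`,
`zY+cy = (cη+εζY)(t+Y)^N`. All factors are positive (`ζX <= ζs < cξ` by `hlt`, `X < s`). With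
`γ = Y(cξ+εζX)/(X(cη+εζY))`: `γ (s+X)^M/(t+Y)^N = (z+cx/X)/(z+cy/Y)`. Now
`(cx/X)^2 = c x^2/a = c(ad+1)/a = z^2-1+c/a` and `(cy/Y)^2 = z^2-1+c/b` (`X^2 = ac`). Let `ρ` be the
ratio: `ρ >= 1` (`a < b`) and
`ρ - 1 = (cx/X - cy/Y)/(z+cy/Y) = (c/a-c/b)/((cx/X+cy/Y)(z+cy/Y)) <= c/(z^2-1) = 1/d`
(`cx/X + cy/Y >= z` …: `cx/X, cy/Y >= √(z^2-1)`, so the denominator is `>= 2(z^2-1)`).
`0 <= log ρ <= ρ - 1 <= 1/d`. `log ρ = M log(s+X) - N log(t+Y) + log γ`.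

PROOF of `gam`. Multiply numerator and denominator of `γ` by `X (cη-εζY)`:
`X^2(cη+εζY)(cη-εζY) = ac(c^2η^2-ζ^2bc) = ac·c(cη^2-bζ^2) = ac^2(c-b) = g` and
`XY(cξ+εζX)(cη-εζY) = ev X Y G` with
`G = (-ζ^2 abc^2, -ε b c^2 ξζ, ε a c^2 ζη, c^2 ξη)`.
Bounds: `ζ^2 = cD+1 <= c^2`, `ξ^2 = aD+1 <= c^2`, `η <= c`, `a,b < c`: all `|G i| <= c^6`, `g <= c^4`.
-/

namespace Irr

theorem gam {a b c s t d ε D ζ ξ η z x y : ℤ} {M N : ℕ}
    (ha : Side a c s d ε D ζ ξ z x M) (hb : Side b c t d ε D ζ η z y N) (hab : a < b)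
    {X Y : ℝ} (hX0 : 0 < X) (hY0 : 0 < Y) (hX : X^2 = ((a*c : ℤ):ℝ)) (hY : Y^2 = ((b*c : ℤ):ℝ)) :
    0 < a*c^2*(c-b) ∧ 0 < ev X Y (GG a b c ε ζ ξ η) ∧
    ev X Y (GG a b c ε ζ ξ η) / ((a*c^2*(c-b) : ℤ) : ℝ)
      = Y*(c*ξ+ε*ζ*X)/(X*(c*η+ε*ζ*Y)) ∧
    0 < c*ξ+ε*ζ*X ∧ 0 < c*η+ε*ζ*Y ∧
    (∀ i, |GG a b c ε ζ ξ η i| ≤ c^6) := by
  -- integer facts
  have ha0 : 0 < a := ha.hu
  have hb0 : 0 < b := hb.hu
  have hac : a < c := ha.huc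
  have hbc : b < c := hb.huc
  have hc0 : 0 < c := ha0.trans hac
  have hζ0 : 0 < ζ := ha.hζ
  have hξ0 : 0 < ξ := ha.hξ
  have hη0 : 0 < η := hb.hξ
  have hs0 : 0 < s := ha.hv
  have ht0 : 0 < t := hb.hv
  have eζ := ha.eζ
  have eξ := ha.eξ
  have eη := hb.eξ
  have hD0 := ha.hD
  have hg0 : 0 < a*c^2*(c-b) := by
    have : 0 < c - b := by linarith
    positivity
  have hζc : ζ ≤ c := by
    have h1 : ζ^2 ≤ c^2 := by
      have := ha.hD2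
      nlinarith
    nlinarith
  have hξc : ξ ≤ c := by
    have h1 : ξ^2 ≤ c^2 := by
      have := ha.hD2
      nlinarith
    nlinarith
  have hηc : η ≤ c := by
    have h1 : η^2 ≤ c^2 := by
      have := hb.hD2
      nlinarith
    nlinarith
  have hε2 : ε^2 = 1 := by
    rcases ha.he with h | h <;> simp [h]
  have hεabs : |ε| = 1 := by
    rcases ha.he with h | h <;> simp [h]
  -- real facts
  have hXs : X < s := by
    have h1 : X^2 < (s:ℝ)^2 := by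
      rw [hX]
      exact_mod_cast (by rw [ha.ev]; linarith : a*c < s^2)
    have h2 : (0:ℝ) < s := by exact_mod_cast hs0
    exact lt_of_pow_lt_pow_left₀ 2 h2.le h1
  have hYt : Y < t := by
    have h1 : Y^2 < (t:ℝ)^2 := by
      rw [hY]
      exact_mod_cast (by rw [hb.ev]; linarith : b*c < t^2)
    have h2 : (0:ℝ) < t := by exact_mod_cast ht0
    exact lt_of_pow_lt_pow_left₀ 2 h2.le h1
  have rζ0 : (0:ℝ) < ζ := by exact_mod_cast hζ0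
  have rξ0 : (0:ℝ) < ξ := by exact_mod_cast hξ0
  have rη0 : (0:ℝ) < η := by exact_mod_cast hη0
  have rc0 : (0:ℝ) < c := by exact_mod_cast hc0
  have ra0 : (0:ℝ) < a := by exact_mod_cast ha0
  have rb0 : (0:ℝ) < b := by exact_mod_cast hb0
  have hζX : (ζ:ℝ)*X < c*ξ := by
    have h1 : (s:ℝ)*ζ < c*ξ := by exact_mod_cast ha.hlt
    have h2 : (ζ:ℝ)*X < ζ*s := mul_lt_mul_of_pos_left hXs rζ0
    linarith
  have hζY : (ζ:ℝ)*Y < c*η := by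
    have h1 : (t:ℝ)*ζ < c*η := by exact_mod_cast hb.hlt
    have h2 : (ζ:ℝ)*Y < ζ*t := mul_lt_mul_of_pos_left hYt rζ0
    linarith
  have rζX : 0 < (ζ:ℝ)*X := by positivity
  have rζY : 0 < (ζ:ℝ)*Y := by positivity
  have hp1 : 0 < (c:ℝ)*ξ+ε*ζ*X := by
    rcases ha.he with h | h <;> rw [h] <;> push_cast <;> nlinarith
  have hp2 : 0 < (c:ℝ)*η+ε*ζ*Y := by
    rcases ha.he with h | h <;> rw [h] <;> push_cast <;> nlinarith
  have hp3 : 0 < (c:ℝ)*η-ε*ζ*Y := by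
    rcases ha.he with h | h <;> rw [h] <;> push_cast <;> nlinarith
  have eζr : (ζ:ℝ)^2 = c*D+1 := by exact_mod_cast eζ
  have eηr : (η:ℝ)^2 = b*D+1 := by exact_mod_cast eη
  have eεr : (ε:ℝ)^2 = 1 := by exact_mod_cast hε2
  have hXr : X^2 = (a:ℝ)*c := by rw [hX]; push_cast; ring
  have hYr : Y^2 = (b:ℝ)*c := by rw [hY]; push_cast; ring
  have hev : ev X Y (GG a b c ε ζ ξ η) = X*Y*(c*ξ+ε*ζ*X)*(c*η-ε*ζ*Y) := by
    simp only [ev, GG, Matrix.cons_val]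
    push_cast
    linear_combination (-(ε:ℝ)*ζ*Y*c*η + ε^2*ζ^2*Y^2) * hXr +
      ((X:ℝ)*ε*ζ*c*ξ + ε^2*ζ^2*a*c) * hYr + (ζ^2*(a:ℝ)*b*c^2) * eεr
  have hgr : (((a*c^2*(c-b) : ℤ)) : ℝ) = X^2*(c*η+ε*ζ*Y)*(c*η-ε*ζ*Y) := by
    push_cast
    have : X^2*((c:ℝ)*η+ε*ζ*Y)*(c*η-ε*ζ*Y) = X^2*(c^2*η^2 - ε^2*ζ^2*Y^2) := by ring
    rw [this, hXr, hYr, eεr, eζr, eηr]
    ring
  refine ⟨hg0, ?_, ?_, hp1, hp2, ?_⟩
  · rw [hev]
    exact mul_pos (mul_pos (mul_pos hX0 hY0) hp1) hp3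
  · rw [hev, hgr, div_eq_div_iff
      (mul_ne_zero (mul_ne_zero (pow_ne_zero 2 hX0.ne') hp2.ne') hp3.ne')
      (mul_ne_zero hX0.ne' hp2.ne')]
    ring
  · -- bounds
    have hc1 : 1 ≤ c := hc0
    have B0 : ζ^2*a*b*c^2 ≤ c^6 := by
      calc ζ^2*a*b*c^2 ≤ c^2*c*c*c^2 := by gcongr
        _ = c^6 := by ring
    have B1 : b*c^2*ξ*ζ ≤ c^6 := by
      calc b*c^2*ξ*ζ ≤ c*c^2*c*c := by gcongr
        _ = c^5*1 := by ring
        _ ≤ c^5*c := by gcongr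
        _ = c^6 := by ring
    have B2 : a*c^2*ζ*η ≤ c^6 := by
      calc a*c^2*ζ*η ≤ c*c^2*c*c := by gcongr
        _ = c^5*1 := by ring
        _ ≤ c^5*c := by gcongr
        _ = c^6 := by ring
    have B3 : c^2*ξ*η ≤ c^6 := by
      calc c^2*ξ*η ≤ c^2*c*c := by gcongr
        _ = c^4*1 := by ring
        _ ≤ c^4*c^2 := by gcongr; exact one_le_pow₀ hc1
        _ = c^6 := by ring
    intro i
    fin_cases i
    · show |-(ζ^2*a*b*c^2)| ≤ c^6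
      rw [abs_neg, abs_of_nonneg (by positivity)]
      exact B0
    · show |-(ε*b*c^2*ξ*ζ)| ≤ c^6
      have : ε*b*c^2*ξ*ζ = ε*(b*c^2*ξ*ζ) := by ring
      rw [abs_neg, this, abs_mul, hεabs, one_mul, abs_of_nonneg (by positivity)]
      exact B1
    · show |ε*a*c^2*ζ*η| ≤ c^6
      have : ε*a*c^2*ζ*η = ε*(a*c^2*ζ*η) := by ring
      rw [this, abs_mul, hεabs, one_mul, abs_of_nonneg (by positivity)]
      exact B2
    · show |c^2*ξ*η| ≤ c^6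
      rw [abs_of_nonneg (by positivity)]
      exact B3


end Irr
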