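import Pool.Agent.Lib.Irr.FClosed
import Pool.Agent.Lib.Irr.FGamma

/-!
# Module FLam (about 100 lines) (see the PROOF notes below)

From the two sides of a quadruple to the linear form. `X = √(ac)`, `Y = √(bc)`.

PROOF of `closed`: induction, `(ζX+cξ)(v+X) = (vζ+cξ)X + c(uζ+vξ)` as `X^2 = uc`.

PROOF of `lam_small`. `closed` for both sides: `zX+cx = (cξ+εζX)(s+X)^M`,
`zY+cy = (cη+εζY)(t+Y)^N`. All factors are positive (`ζX <= ζs < cξ` by `hlt`, `X < s`). With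
`γ = Y(cξ+εζX)/(X(cη+εζY))`: `γ (s+X)^M/(t+Y)^N = (z+cx/X)/(z+cy/Y)`. Now
`(cx/X)^2 = c x^2/a = c(ad+1)/a = z^2-1+c/a` and `(cy/Y)^2 = z^2-1+c/b` (`X^2 = ac`). Let `ρ` be the
ratio: `ρ >= 1` (`a < b`) and
`ρ - 1 = (cx/X - cy/Y)/(z+cy/Y) = (c/a-c/b)/((cx/X+cy/Y)(z+cy/Y)) <= c/(z^2-1) = 1/d`
(`cx/X + cy/Y >= z` …: `cx/X, cy/Y >= √(z^2-1)`, so the denominator is `>= 2(z^2-1)`).
`0 <= log ρ <= ρ - 1 <= 1/d`. `log ρ = M log(s+X) - N log(t+Y) + log γ`.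

PROOF of `gam`. Multiply numerator and denominator of `γ` by `X (cη-εζY)`:
`X^2(cη+εζY)(cη-εζY) = ac(c^2η^2-ζ^2bc) = ac·c(cη^2-bζ^2) = ac^2(c-b) = g` and
`XY(cξ+εζX)(cη-εζY) = ev X Y G` with
`G = (-ζ^2 abc^2, -ε b c^2 ξζ, ε a c^2 ζη, c^2 ξη)`.
Bounds: `ζ^2 = cD+1 <= c^2`, `ξ^2 = aD+1 <= c^2`, `η <= c`, `a,b < c`: all `|G i| <= c^6`, `g <= c^4`.
-/

namespace Irr

theorem lam_small {a b c s t d ε D ζ ξ η z x y : ℤ} {M N : ℕ}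
    (ha : Side a c s d ε D ζ ξ z x M) (hb : Side b c t d ε D ζ η z y N) (hab : a < b)
    (hd : 0 < d) (hz : z^2 = c*d+1) (hx : x^2 = a*d+1) (hy : y^2 = b*d+1) (hz0 : 0 < z)
    (hx0 : 0 < x) (hy0 : 0 < y)
    {X Y : ℝ} (hX0 : 0 < X) (hY0 : 0 < Y) (hX : X^2 = ((a*c : ℤ):ℝ)) (hY : Y^2 = ((b*c : ℤ):ℝ)) :
    |Lam s t (a*c^2*(c-b)) M N (GG a b c ε ζ ξ η) X Y| ≤ 1/d := by
  obtain ⟨-, -, hγ, hp1, hp2, -⟩ := gam ha hb hab hX0 hY0 hX hY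
  have ha0 : 0 < a := ha.hu
  have hb0 : 0 < b := hb.hu
  have hc0 : 0 < c := ha0.trans ha.huc
  have rc0 : (0:ℝ) < c := by exact_mod_cast hc0
  have ra0 : (0:ℝ) < a := by exact_mod_cast ha0
  have rb0 : (0:ℝ) < b := by exact_mod_cast hb0
  have rd0 : (0:ℝ) < d := by exact_mod_cast hd
  have rx0 : (0:ℝ) < x := by exact_mod_cast hx0
  have ry0 : (0:ℝ) < y := by exact_mod_cast hy0
  have rz0 : (0:ℝ) < z := by exact_mod_cast hz0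
  have rs0 : (0:ℝ) < s := by exact_mod_cast ha.hv
  have rt0 : (0:ℝ) < t := by exact_mod_cast hb.hv
  have hsX : 0 < (s:ℝ)+X := by positivity
  have htY : 0 < (t:ℝ)+Y := by positivity
  have hXr : X^2 = (a:ℝ)*c := by rw [hX]; push_cast; ring
  have hYr : Y^2 = (b:ℝ)*c := by rw [hY]; push_cast; ring
  have hxr : (x:ℝ)^2 = a*d+1 := by exact_mod_cast hx
  have hyr : (y:ℝ)^2 = b*d+1 := by exact_mod_cast hy
  -- closed forms
  have hA : (z:ℝ)*X + c*x = (c*ξ+ε*ζ*X) * ((s:ℝ)+X)^M := by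
    have h := closed a c s (ε*ζ) ξ X hXr M
    rw [ha.it] at h
    simp only at h
    rw [h]
    push_cast
    ring
  have hB : (z:ℝ)*Y + c*y = (c*η+ε*ζ*Y) * ((t:ℝ)+Y)^N := by
    have h := closed b c t (ε*ζ) η Y hYr N
    rw [hb.it] at h
    simp only at h
    rw [h]
    push_cast
    ring
  have hA0 : 0 < (z:ℝ)*X + c*x := by positivity
  have hB0 : 0 < (z:ℝ)*Y + c*y := by positivity
  have hLam : Lam s t (a*c^2*(c-b)) M N (GG a b c ε ζ ξ η) X Y =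
      Real.log (Y*((z:ℝ)*X + c*x)/(X*((z:ℝ)*Y + c*y))) := by
    unfold Lam
    rw [hγ, Real.log_div (mul_ne_zero hY0.ne' hp1.ne') (mul_ne_zero hX0.ne' hp2.ne'),
      Real.log_div (mul_ne_zero hY0.ne' hA0.ne') (mul_ne_zero hX0.ne' hB0.ne'),
      Real.log_mul hY0.ne' hp1.ne', Real.log_mul hX0.ne' hp2.ne',
      Real.log_mul hY0.ne' hA0.ne', Real.log_mul hX0.ne' hB0.ne', hA, hB,
      Real.log_mul hp1.ne' (pow_ne_zero _ hsX.ne'), Real.log_mul hp2.ne' (pow_ne_zero _ htY.ne'),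
      Real.log_pow, Real.log_pow]
    push_cast
    ring
  rw [hLam]
  -- comparison of x Y and y X
  have hcmp : (y:ℝ)*X ≤ x*Y := by
    have h1 : ((y:ℝ)*X)^2 ≤ (x*Y)^2 := by
      rw [mul_pow, mul_pow, hXr, hYr, hxr, hyr]
      have hab' : (a:ℝ) ≤ b := by exact_mod_cast hab.le
      nlinarith [mul_nonneg rc0.le (sub_nonneg.2 hab')]
    exact le_of_sq_le_sq h1 (by positivity)
  have hXB : 0 < X*((z:ℝ)*Y + c*y) := mul_pos hX0 hB0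
  have h1 : 1 ≤ Y*((z:ℝ)*X + c*x)/(X*((z:ℝ)*Y + c*y)) := by
    rw [one_le_div hXB]
    nlinarith [mul_le_mul_of_nonneg_left hcmp rc0.le]
  have h0 : 0 ≤ Real.log (Y*((z:ℝ)*X + c*x)/(X*((z:ℝ)*Y + c*y))) := Real.log_nonneg h1
  rw [abs_of_nonneg h0]
  refine (Real.log_le_sub_one_of_pos (lt_of_lt_of_le one_pos h1)).trans ?_
  rw [div_sub_one hXB.ne', div_le_div_iff₀ hXB rd0]
  have hnum : Y*((z:ℝ)*X + c*x) - X*((z:ℝ)*Y + c*y) = c*(x*Y - y*X) := by ring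
  rw [hnum]
  have hsum : 0 < (x:ℝ)*Y + y*X := by positivity
  refine le_of_mul_le_mul_right ?_ hsum
  have e1 : (c:ℝ)*(x*Y - y*X) * d * (x*Y + y*X) = c*d*((x^2)*(Y^2) - (y^2)*(X^2)) := by ring
  rw [e1, hxr, hyr, hXr, hYr]
  have e2 : (c:ℝ)*d*((a*d+1)*(b*c) - (b*d+1)*(a*c)) = d*c^2*(b-a) := by ring
  rw [e2]
  have e3 : 2*(y*X) * (X*(c*y)) ≤ 1 * (X*((z:ℝ)*Y + c*y)) * (x*Y + y*X) := by
    rw [one_mul, mul_comm (X*((z:ℝ)*Y + c*y))]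
    apply mul_le_mul
    · linarith
    · apply mul_le_mul_of_nonneg_left _ hX0.le
      have : 0 < (z:ℝ)*Y := by positivity
      linarith
    · positivity
    · positivity
  refine le_trans ?_ e3
  have e4 : 2*(y*X) * (X*(c*y)) = 2*c*(y^2)*(X^2) := by ring
  rw [e4, hyr, hXr]
  have hb1 : (1:ℝ) ≤ a := by exact_mod_cast ha0
  have h5 : (b:ℝ) - a ≤ 2*a*b := by nlinarith [mul_nonneg (sub_nonneg.2 hb1) rb0.le]
  have h6 : (d:ℝ)*c^2*((b:ℝ)-a) ≤ d*c^2*(2*a*b) :=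
    mul_le_mul_of_nonneg_left h5 (by positivity)
  have h7 : 2*(c:ℝ)*((b:ℝ)*d+1)*((a:ℝ)*c) = d*c^2*(2*a*b) + 2*c*(a*c) := by ring
  have h8 : 0 ≤ 2*(c:ℝ)*((a:ℝ)*c) := by positivity
  rw [h7]
  linarith


end Irr
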