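import Pool.Agent.Lib.Irr.FGamma

/-!
# Module FInd (about 150 lines)

Multiplicative independence of `α = s+X`, `β = t+Y`, `γ = ev X Y G/g`, `p = ac`, `q = bc`.

PROOF. `p, q` are not squares (`p+1 = s^2`, `p > 0`), `pq = abc^2` is not (`ab+1 = r^2`, `ab > 0`).
Let `α^i β^j γ^k = 1`. Replacing `(i,j,k)` by its negative we may assume `k >= 0` (k natural).
There is a quadruple `x_i` of integers with `ev X' Y' x_i = (s+X')^i` for EVERY `X', Y'` with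
`X'^2 = p`, `Y'^2 = q` (for `i < 0` use `(s+X')^(-1) = s-X'`, `powq` of `![s,-1,0,0]`); same for `β`.
So `ev X Y (mulq (x_i) (mulq (y_j) (powq G k))) = g^k = ev X Y ![g^k,0,0,0]`; by `ev_inj` the two
quadruples are equal, hence the equation holds for all sign choices `(X',Y')`.
(1) With `(-X,-Y)`: `(s-X)^i (t-Y)^j (ev (-X)(-Y) G)^k = g^k`; multiply with the original one:
`(ev X Y G · ev (-X) (-Y) G)^k = g^(2k)`, i.e. `(γ γ')^k = 1` where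
`γγ' = [Y(cξ+εζX)/(X(cη+εζY))]·[Y(cξ-εζX)/(X(cη-εζY))] = b c (c^2ξ^2-ζ^2ac)/(a c (c^2η^2-ζ^2bc))
= b(c-a)/(a(c-b)) > 1` (direct computation with `ev (-X)(-Y) G = XY(cξ-εζX)(cη+εζY)`).
So `k = 0`.
(2) `α^i β^j = 1`, with `(-X, Y)`: `α^(-i) β^j = 1`, so `α^(2i) = 1`, `i = 0` (`α > 1`), then `β^j = 1`,
`j = 0`.
-/

namespace Irr

theorem nonsq {a b r : ℤ} (ha : 0 < a) (hb : 0 < b) (er : r^2 = a*b+1) : ¬ IsSquare (a*b) := by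
  rintro ⟨w, hw⟩
  have h0 : 0 < a*b := mul_pos ha hb
  have h1 : |r|^2 = |w|^2 + 1 := by rw [sq_abs, sq_abs]; linear_combination er + hw
  have hr := abs_nonneg r
  have hw0 : 0 < |w| := by
    rw [abs_pos]; rintro rfl; rw [hw] at h0; simp at h0
  have h2 : |w| < |r| := by nlinarith
  nlinarith

private theorem fi_nspq {a b c r : ℤ} (ha : 0 < a) (hb : 0 < b) (hc : 0 < c)
    (er : r^2 = a*b+1) : ¬ IsSquare ((a*c)*(b*c)) := by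
  rintro ⟨w, hw⟩
  have h1 : c^2 ∣ w^2 := ⟨a*b, by linear_combination -hw⟩
  obtain ⟨m, hm⟩ := (Int.pow_dvd_pow_iff (by norm_num)).mp h1
  refine nonsq ha hb er ⟨m, ?_⟩
  have h2 : c^2*(a*b) = c^2*(m*m) := by rw [hm] at hw; linear_combination hw
  exact mul_left_cancel₀ (by positivity) h2

private theorem fi_ev1 {X Y : ℝ} (s : ℤ) : ev X Y ![s,1,0,0] = s + X := by simp [ev]

private theorem fi_ev1' {X Y : ℝ} (s : ℤ) : ev X Y ![s,-1,0,0] = s - X := by simp [ev]; ring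

private theorem fi_ev2 {X Y : ℝ} (t : ℤ) : ev X Y ![t,0,1,0] = t + Y := by simp [ev]

private theorem fi_ev2' {X Y : ℝ} (t : ℤ) : ev X Y ![t,0,-1,0] = t - Y := by simp [ev]; ring

private theorem fi_inv {s p : ℤ} (es : s^2 = p+1) {X : ℝ} (hX : X^2 = p) :
    ((s:ℝ)+X)⁻¹ = s - X := by
  have h : ((s:ℝ)+X)*(s-X) = 1 := by
    have : ((s^2 : ℤ):ℝ) = ((p+1 : ℤ):ℝ) := by rw [es]
    push_cast at this
    linear_combination this - hX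
  exact inv_eq_of_mul_eq_one_right h

private theorem fi_exX {p q s : ℤ} (es : s^2 = p+1) (i : ℤ) : ∃ x : Fin 4 → ℤ,
    ∀ X Y : ℝ, X^2 = p → Y^2 = q → ev X Y x = ((s:ℝ)+X)^i := by
  obtain ⟨n, rfl | rfl⟩ := i.eq_nat_or_neg
  · refine ⟨powq p q ![s,1,0,0] n, fun X Y hX hY => ?_⟩
    rw [ev_powq hX hY, fi_ev1, zpow_natCast]
  · refine ⟨powq p q ![s,-1,0,0] n, fun X Y hX hY => ?_⟩
    rw [ev_powq hX hY, fi_ev1', zpow_neg, zpow_natCast, ← inv_pow, fi_inv es hX]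

private theorem fi_exY {p q t : ℤ} (et : t^2 = q+1) (j : ℤ) : ∃ x : Fin 4 → ℤ,
    ∀ X Y : ℝ, X^2 = p → Y^2 = q → ev X Y x = ((t:ℝ)+Y)^j := by
  obtain ⟨n, rfl | rfl⟩ := j.eq_nat_or_neg
  · refine ⟨powq p q ![t,0,1,0] n, fun X Y hX hY => ?_⟩
    rw [ev_powq hX hY, fi_ev2, zpow_natCast]
  · refine ⟨powq p q ![t,0,-1,0] n, fun X Y hX hY => ?_⟩
    rw [ev_powq hX hY, fi_ev2', zpow_neg, zpow_natCast, ← inv_pow, fi_inv et hY]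

/-- transport of the relation to all sign choices -/
private theorem fi_trans {p q s t g : ℤ} {G : Fin 4 → ℤ} (hp : 0 < p) (hq : 0 < q)
    {X Y : ℝ} (hX : X^2 = p) (hY : Y^2 = q)
    (nsp : ¬ IsSquare p) (nsq : ¬ IsSquare q) (nspq : ¬ IsSquare (p*q))
    (es : s^2 = p+1) (et : t^2 = q+1) (i j : ℤ) (k : ℕ)
    (h : ((s:ℝ)+X)^i*((t:ℝ)+Y)^j*(ev X Y G)^k = (g:ℝ)^k) :
    ∀ X' Y' : ℝ, X'^2 = p → Y'^2 = q →
      ((s:ℝ)+X')^i*((t:ℝ)+Y')^j*(ev X' Y' G)^k = (g:ℝ)^k := by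
  obtain ⟨x, hx⟩ := fi_exX (q := q) es i
  obtain ⟨y, hy⟩ := fi_exY (p := p) et j
  have hw : ∀ X' Y' : ℝ, X'^2 = p → Y'^2 = q →
      ev X' Y' (mulq p q x (mulq p q y (powq p q G k)))
        = ((s:ℝ)+X')^i*((t:ℝ)+Y')^j*(ev X' Y' G)^k := by
    intro X' Y' hX' hY'
    rw [ev_mulq hX' hY', ev_mulq hX' hY', ev_powq hX' hY', hx _ _ hX' hY', hy _ _ hX' hY']
    ring
  have hc : ∀ X' Y' : ℝ, ev X' Y' ![g^k,0,0,0] = (g:ℝ)^k := by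
    intro X' Y'; simp [ev]
  have he : mulq p q x (mulq p q y (powq p q G k)) = ![g^k,0,0,0] := by
    apply ev_inj hp hq hX hY nsp nsq nspq
    rw [hw _ _ hX hY, h, hc]
  intro X' Y' hX' hY'
  rw [← hw _ _ hX' hY', he, hc]

private theorem fi_nat {a b c r s t d ε D ζ ξ η z x y : ℤ} {M N : ℕ}
    (ha : Side a c s d ε D ζ ξ z x M) (hb : Side b c t d ε D ζ η z y N) (hab : a < b)
    (er : r^2 = a*b+1)
    {X Y : ℝ} (hX0 : 0 < X) (hY0 : 0 < Y) (hX : X^2 = ((a*c : ℤ):ℝ)) (hY : Y^2 = ((b*c : ℤ):ℝ))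
    (i j : ℤ) (k : ℕ)
    (h : ((s:ℝ)+X)^i*((t:ℝ)+Y)^j*(ev X Y (GG a b c ε ζ ξ η)/((a*c^2*(c-b) : ℤ):ℝ))^k = 1) :
    i = 0 ∧ j = 0 ∧ k = 0 := by
  have a0 : 0 < a := ha.hu
  have b0 : 0 < b := hb.hu
  have c0 : 0 < c := lt_trans ha.hu ha.huc
  have hbc : b < c := hb.huc
  have hg0 : (0:ℤ) < a*c^2*(c-b) := by
    have : 0 < c - b := by linarith
    positivity
  have hg0r : (0:ℝ) < ((a*c^2*(c-b) : ℤ):ℝ) := by exact_mod_cast hg0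
  have hp : 0 < a*c := mul_pos a0 c0
  have hq : 0 < b*c := mul_pos b0 c0
  have h' : ((s:ℝ)+X)^i*((t:ℝ)+Y)^j*(ev X Y (GG a b c ε ζ ξ η))^k
      = ((a*c^2*(c-b) : ℤ):ℝ)^k := by
    rw [div_pow] at h
    field_simp at h
    exact h
  have hall := fi_trans (g := a*c^2*(c-b)) hp hq hX hY (nonsq a0 c0 ha.ev) (nonsq b0 c0 hb.ev)
    (fi_nspq a0 b0 c0 er) ha.ev hb.ev i j k h'
  have hXn : (-X)^2 = ((a*c : ℤ):ℝ) := by rw [neg_sq]; exact hX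
  have hYn : (-Y)^2 = ((b*c : ℤ):ℝ) := by rw [neg_sq]; exact hY
  have s0 : (0:ℝ) < s := by exact_mod_cast ha.hv
  have t0 : (0:ℝ) < t := by exact_mod_cast hb.hv
  have hsX : (0:ℝ) < s + X := by positivity
  have htY : (0:ℝ) < t + Y := by positivity
  have hs2 : ((s:ℝ)+ -X) = (s+X)⁻¹ := by rw [fi_inv ha.ev hX]; ring
  have ht2 : ((t:ℝ)+ -Y) = (t+Y)⁻¹ := by rw [fi_inv hb.ev hY]; ring
  have hk : k = 0 := by
    by_contra hk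
    have h2 := hall (-X) (-Y) hXn hYn
    rw [hs2, ht2] at h2
    have hm : (ev X Y (GG a b c ε ζ ξ η) * ev (-X) (-Y) (GG a b c ε ζ ξ η))^k
        = ((((a*c^2*(c-b) : ℤ):ℝ))^2)^k := by
      have e1 : ((s:ℝ)+X)^i * ((s+X)⁻¹)^i = 1 := by
        rw [← mul_zpow, mul_inv_cancel₀ hsX.ne', one_zpow]
      have e2 : ((t:ℝ)+Y)^j * ((t+Y)⁻¹)^j = 1 := by
        rw [← mul_zpow, mul_inv_cancel₀ htY.ne', one_zpow]
      calc (ev X Y (GG a b c ε ζ ξ η) * ev (-X) (-Y) (GG a b c ε ζ ξ η))^k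
          = (((s:ℝ)+X)^i * ((s+X)⁻¹)^i) * (((t:ℝ)+Y)^j * ((t+Y)⁻¹)^j) *
            (ev X Y (GG a b c ε ζ ξ η) * ev (-X) (-Y) (GG a b c ε ζ ξ η))^k := by
              rw [e1, e2, one_mul, one_mul]
        _ = (((s:ℝ)+X)^i*((t:ℝ)+Y)^j*(ev X Y (GG a b c ε ζ ξ η))^k) *
            (((s+X)⁻¹)^i * ((t+Y)⁻¹)^j * (ev (-X) (-Y) (GG a b c ε ζ ξ η))^k) := by
              rw [mul_pow]; ring
        _ = ((((a*c^2*(c-b) : ℤ):ℝ))^2)^k := by rw [h', h2]; ring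
    have hε : ε^2 = 1 := by rcases ha.he with h | h <;> rw [h] <;> norm_num
    have hεr : (ε:ℝ)^2 = 1 := by exact_mod_cast hε
    have hζr : (ζ:ℝ)^2 = c*D+1 := by exact_mod_cast ha.eζ
    have hξr : (ξ:ℝ)^2 = a*D+1 := by exact_mod_cast ha.eξ
    have hηr : (η:ℝ)^2 = b*D+1 := by exact_mod_cast hb.eξ
    push_cast at hX hY
    have hP : ev X Y (GG a b c ε ζ ξ η) * ev (-X) (-Y) (GG a b c ε ζ ξ η)
        = (a:ℝ)*b*c^4*(c-a)*(c-b) := by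
      have f1 : ev X Y (GG a b c ε ζ ξ η) = X*Y*(c*ξ+ε*ζ*X)*(c*η-ε*ζ*Y) := by
        simp [ev, GG]
        linear_combination (-(c:ℝ)*ε*ζ*η*Y + ζ^2*Y^2*ε^2)*hX + ((c:ℝ)*ε*ζ*ξ*X + ζ^2*ε^2*a*c)*hY
          + (ζ:ℝ)^2*a*b*c^2*hεr
      have f2 : ev (-X) (-Y) (GG a b c ε ζ ξ η) = X*Y*(c*ξ-ε*ζ*X)*(c*η+ε*ζ*Y) := by
        simp [ev, GG]
        linear_combination ((c:ℝ)*ε*ζ*η*Y + ζ^2*Y^2*ε^2)*hX + (-(c:ℝ)*ε*ζ*ξ*X + ζ^2*ε^2*a*c)*hY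
          + (ζ:ℝ)^2*a*b*c^2*hεr
      have f3 : ((c:ℝ)*ξ+ε*ζ*X)*(c*ξ-ε*ζ*X) = c*(c-a) := by
        linear_combination (c:ℝ)^2*hξr - ζ^2*X^2*hεr - ζ^2*hX - a*c*hζr
      have f4 : ((c:ℝ)*η-ε*ζ*Y)*(c*η+ε*ζ*Y) = c*(c-b) := by
        linear_combination (c:ℝ)^2*hηr - ζ^2*Y^2*hεr - ζ^2*hY - b*c*hζr
      calc ev X Y (GG a b c ε ζ ξ η) * ev (-X) (-Y) (GG a b c ε ζ ξ η)
          = X^2*Y^2*(((c:ℝ)*ξ+ε*ζ*X)*(c*ξ-ε*ζ*X))*(((c:ℝ)*η-ε*ζ*Y)*(c*η+ε*ζ*Y)) := by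
            rw [f1, f2]; ring
        _ = (a*c)*(b*c)*(c*(c-a))*(c*(c-b)) := by rw [f3, f4, hX, hY]
        _ = (a:ℝ)*b*c^4*(c-a)*(c-b) := by ring
    rw [hP] at hm
    have ar : (0:ℝ) < a := by exact_mod_cast a0
    have br : (0:ℝ) < b := by exact_mod_cast b0
    have cr : (0:ℝ) < c := by exact_mod_cast c0
    have abr : (a:ℝ) < b := by exact_mod_cast hab
    have cbr : (0:ℝ) < c - b := by
      have : (b:ℝ) < c := by exact_mod_cast hbc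
      linarith
    have hlt : (((a*c^2*(c-b) : ℤ):ℝ))^2 < (a:ℝ)*b*c^4*(c-a)*(c-b) := by
      push_cast
      have e : (a:ℝ)*b*c^4*(c-a)*(c-b) - (a*c^2*(c-b))^2 = a*c^4*(c-b)*((b-a)*c) := by ring
      have : (0:ℝ) < a*c^4*(c-b)*((b-a)*c) := by
        have : (0:ℝ) < b - a := by linarith
        positivity
      linarith
    have := pow_lt_pow_left₀ hlt (by positivity) hk
    rw [hm] at this
    exact lt_irrefl _ this
  subst hk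
  have h1 := hall X Y hX hY
  have h2 := hall (-X) Y hXn hY
  simp only [pow_zero, mul_one] at h1 h2
  rw [hs2] at h2
  have hs1 : (1:ℝ) < s + X := by
    have : (1:ℝ) ≤ s := by exact_mod_cast ha.hv
    linarith
  have ht1 : (1:ℝ) < t + Y := by
    have : (1:ℝ) ≤ t := by exact_mod_cast hb.hv
    linarith
  have hj : j = 0 := by
    have e1 : ((s:ℝ)+X)^i * ((s+X)⁻¹)^i = 1 := by
      rw [← mul_zpow, mul_inv_cancel₀ hsX.ne', one_zpow]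
    have e3 : ((t:ℝ)+Y)^(j+j) = 1 := by
      rw [zpow_add₀ htY.ne']
      calc ((t:ℝ)+Y)^j*(t+Y)^j = (((s:ℝ)+X)^i * ((s+X)⁻¹)^i)*(((t:ℝ)+Y)^j*(t+Y)^j) := by
            rw [e1, one_mul]
        _ = (((s:ℝ)+X)^i*((t:ℝ)+Y)^j)*(((s+X)⁻¹)^i*((t:ℝ)+Y)^j) := by ring
        _ = 1 := by rw [h1, h2, one_mul]
    have e4 : j + j = 0 := zpow_right_injective₀ htY ht1.ne' (by simpa using e3)
    omega
  subst hj
  refine ⟨?_, rfl, rfl⟩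
  rw [zpow_zero, mul_one] at h1
  exact zpow_right_injective₀ hsX hs1.ne' (by simpa using h1)

theorem find {a b c r s t d ε D ζ ξ η z x y : ℤ} {M N : ℕ}
    (ha : Side a c s d ε D ζ ξ z x M) (hb : Side b c t d ε D ζ η z y N) (hab : a < b)
    (er : r^2 = a*b+1)
    {X Y : ℝ} (hX0 : 0 < X) (hY0 : 0 < Y) (hX : X^2 = ((a*c : ℤ):ℝ)) (hY : Y^2 = ((b*c : ℤ):ℝ)) :
    ∀ i j k : ℤ, ((s:ℝ)+X)^i*((t:ℝ)+Y)^j*
      (ev X Y (GG a b c ε ζ ξ η)/((a*c^2*(c-b) : ℤ):ℝ))^k = 1 → i = 0 ∧ j = 0 ∧ k = 0 := by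
  intro i j k h
  obtain ⟨n, rfl | rfl⟩ := k.eq_nat_or_neg
  · rw [zpow_natCast] at h
    obtain ⟨h1, h2, h3⟩ := fi_nat ha hb hab er hX0 hY0 hX hY i j n h
    exact ⟨h1, h2, by simp [h3]⟩
  · have h' : ((s:ℝ)+X)^(-i)*((t:ℝ)+Y)^(-j)*
      (ev X Y (GG a b c ε ζ ξ η)/((a*c^2*(c-b) : ℤ):ℝ))^n = 1 := by
      have := congrArg (·⁻¹) h
      simp only [mul_inv, inv_one, ← zpow_neg, neg_neg, zpow_natCast] at this
      exact this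
    obtain ⟨h1, h2, h3⟩ := fi_nat ha hb hab er hX0 hY0 hX hY (-i) (-j) n h'
    exact ⟨by omega, by omega, by simp [h3]⟩

end Irr
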