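import Pool.Agent.Lib.Irr.FMain

/-!
# The elementary lower bound for irregular quadruples

`c <= (10 M)^32` and `4^(M-2) <= d` give `c <= (10 (log d + 2))^32`.
-/

namespace Irr

theorem log_lower {a b c d r s t x y z : ℤ} (hq : Quad a b c d r s t x y z)
    (hirr : regP a b c d ≠ 0) : (c:ℝ) ≤ (10*(Real.log d+2))^32 := by
  obtain ⟨ε, D, ζ, ξ, η, M, N, ha, hb, hN4, hNM, hM2, hc⟩ := thmE hq hirr
  have h1 := d_lower ha
  have h2 : ((4:ℝ))^(M-2) ≤ (d:ℝ) := by exact_mod_cast h1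
  have h3 : ((M:ℝ)-2) * Real.log 4 ≤ Real.log d := by
    have h4 := Real.log_le_log (by positivity) h2
    rw [Real.log_pow, Nat.cast_sub (by omega)] at h4
    exact_mod_cast h4
  have h6 : (1:ℝ) ≤ Real.log 4 := by
    have : Real.log 4 = 2 * Real.log 2 := by
      rw [show (4:ℝ) = 2^2 by norm_num, Real.log_pow]; norm_num
    have := Real.log_two_gt_d9
    linarith
  have h7 : (2:ℝ) ≤ M := by
    have : 2 ≤ M := by omega
    exact_mod_cast this
  have h8 : (M:ℝ) ≤ Real.log d + 2 := by nlinarith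
  have h9 : (c:ℝ) ≤ (10*(M:ℝ))^32 := by exact_mod_cast hc
  exact h9.trans (pow_le_pow_left₀ (by positivity) (by linarith) 32)

end Irr
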