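import Pool.Agent.Lib.Irr.ThmE
import Pool.Agent.Lib.Irr.FInd
import Pool.Agent.Lib.Irr.FLam
import Pool.Agent.Lib.Irr.BkFin

/-!
# Module FMain: only finitely many irregular quadruples (assembly)

`bounded`: there is an absolute bound for the index `M`, hence for `c`, hence for `d`.
-/

namespace Irr

/-- growth: `M (log 4) >= S^200` fails only for bounded `M` -/
theorem numgrow (S0 : ℕ) : ∃ K : ℕ, ∀ M : ℕ, K ≤ M →
    S0 ≤ 192*(Nat.log 2 (10*M)+1) ∧
      ((192*(Nat.log 2 (10*M)+1) : ℕ) : ℝ)^200 ≤ ((M:ℝ)-2) * Real.log 4 := by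
  have hb := (Real.isLittleO_pow_log_id_atTop (n := 200)).def
    (c := 1/(2*960^200)) (by positivity)
  rw [Filter.eventually_atTop] at hb
  obtain ⟨B, hB⟩ := hb
  refine ⟨max (max 10 (2^S0)) (⌈B⌉₊), ?_⟩
  intro M hM
  have hM10 : 10 ≤ M := le_trans (le_trans (le_max_left _ _) (le_max_left _ _)) hM
  have hMS : 2^S0 ≤ M := le_trans (le_trans (le_max_right _ _) (le_max_left _ _)) hM
  have hMB : B ≤ (M:ℝ) := by
    have : (⌈B⌉₊:ℕ) ≤ M := le_trans (le_max_right _ _) hM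
    exact (Nat.le_ceil B).trans (by exact_mod_cast this)
  have hMr : (10:ℝ) ≤ M := by exact_mod_cast hM10
  constructor
  · have h1 : S0 ≤ Nat.log 2 (10*M) := by
      apply (Nat.le_log_iff_pow_le (by norm_num) (by omega)).2
      omega
    omega
  · have hlogM : 1 ≤ Real.log M := by
      rw [Real.le_log_iff_exp_le (by linarith)]
      exact (Real.exp_one_lt_d9.le).trans (by linarith)
    have h1 : (Nat.log 2 (10*M) : ℝ) ≤ 4 * Real.log M := by
      have h2 : ((2:ℝ))^(Nat.log 2 (10*M)) ≤ (M:ℝ)^2 := by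
        have h3 : 2^(Nat.log 2 (10*M)) ≤ 10*M := Nat.pow_log_le_self 2 (by omega)
        have h4 : ((2^(Nat.log 2 (10*M)) : ℕ):ℝ) ≤ ((10*M : ℕ):ℝ) := by exact_mod_cast h3
        push_cast at h4
        nlinarith
      have h5 := Real.log_le_log (by positivity) h2
      rw [Real.log_pow, Real.log_pow] at h5
      have h6 : (1/2:ℝ) < Real.log 2 := by
        have := Real.log_two_gt_d9
        linarith
      have h7 : (0:ℝ) ≤ (Nat.log 2 (10*M) : ℝ) := by positivity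
      push_cast at h5
      nlinarith
    have h2 : ((192*(Nat.log 2 (10*M)+1) : ℕ) : ℝ) ≤ 960 * Real.log M := by
      push_cast
      linarith
    have h3 : ((192*(Nat.log 2 (10*M)+1) : ℕ) : ℝ)^200 ≤ (960 * Real.log M)^200 := by
      exact pow_le_pow_left₀ (by positivity) h2 200
    have h4 := hB M hMB
    simp only [id, Real.norm_eq_abs] at h4
    rw [abs_of_nonneg (by positivity), abs_of_nonneg (by positivity)] at h4
    have h5 : (960 * Real.log M)^200 ≤ M/2 := by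
      rw [mul_pow]
      calc (960:ℝ)^200 * Real.log M^200 ≤ (960:ℝ)^200 * (1/(2*960^200) * M) :=
            mul_le_mul_of_nonneg_left h4 (by positivity)
        _ = M/2 := by field_simp
    have h6 : (1:ℝ) ≤ Real.log 4 := by
      have : Real.log 4 = 2 * Real.log 2 := by
        rw [show (4:ℝ) = 2^2 by norm_num, Real.log_pow]; norm_num
      have := Real.log_two_gt_d9
      linarith
    have h7 : (M:ℝ)/2 ≤ ((M:ℝ)-2) * Real.log 4 := by
      have : (M:ℝ)/2 ≤ (M:ℝ)-2 := by linarith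
      nlinarith
    linarith

theorem d_lower {a c s d ε D ζ ξ z x : ℤ} {M : ℕ} (ha : Side a c s d ε D ζ ξ z x M) :
    (4:ℤ)^(M-2) ≤ d := by
  have hu := ha.hu
  have hc : 1 ≤ c := by have := ha.huc; linarith
  have hbase : (4:ℤ) ≤ 4*a*c := by nlinarith
  rcases ha.he with h1 | h1
  · have h2 := side_low ha h1
    have h3 : (4:ℤ)^(M-2) ≤ (4*a*c)^(M-1) := by
      calc (4:ℤ)^(M-2) ≤ 4^(M-1) := pow_le_pow_right₀ (by norm_num) (by omega)
        _ ≤ (4*a*c)^(M-1) := pow_le_pow_left₀ (by norm_num) hbase _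
    have h4 : (1:ℤ) ≤ c+4*a*c*D := by
      have : 0 ≤ 4*a*c*D := by
        apply mul_nonneg _ ha.hD
        positivity
      linarith
    have h5 : (0:ℤ) < (4*a*c)^(M-1) := by positivity
    nlinarith
  · have h2 := side_low' ha h1
    have h3 : (4:ℤ)^(M-2) ≤ (4*a*c)^(M-2) := pow_le_pow_left₀ (by norm_num) hbase _
    have h5 : (0:ℤ) < (4*a*c)^(M-2) := by positivity
    nlinarith

/-- the general form: `S0` is a threshold for the Baker theorem, `K` for the growth estimate -/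
theorem index_lt {S0 K : ℕ}
    (hS0 : ∀ S ≥ S0, ∀ (p q s t g M N : ℤ) (G : Fin 4 → ℤ) (X Y : ℝ),
      BD S p q s t g M N G X Y → Real.exp (-(S:ℝ)^200) < |Lam s t g M N G X Y|)
    (hK : ∀ M : ℕ, K ≤ M → S0 ≤ 192*(Nat.log 2 (10*M)+1) ∧
      ((192*(Nat.log 2 (10*M)+1) : ℕ) : ℝ)^200 ≤ ((M:ℝ)-2) * Real.log 4)
    {a b c d r s t x y z : ℤ} (hq : Quad a b c d r s t x y z) (hirr : regP a b c d ≠ 0) :
    ∃ (ε D ζ ξ η : ℤ) (M N : ℕ),
      Side a c s d ε D ζ ξ z x M ∧ Side b c t d ε D ζ η z y N ∧ M < K ∧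
      c ≤ (10*(M:ℤ))^32 := by
  obtain ⟨ε, D, ζ, ξ, η, M, N, ha, hb, hN4, hNM, hM2, hc⟩ := thmE hq hirr
  refine ⟨ε, D, ζ, ξ, η, M, N, ha, hb, ?_, hc⟩
  by_contra hMK
  push Not at hMK
  obtain ⟨h1, h2⟩ := hK M hMK
  obtain ⟨S, hS⟩ : ∃ S : ℕ, S = 192*(Nat.log 2 (10*M)+1) := ⟨_, rfl⟩
  rw [← hS] at h1 h2
  have ha0 := hq.ha
  have hab := hq.hab
  have hbc := hq.hbc
  have hb0 : 0 < b := by linarith
  have hc0 : 0 < c := by linarith
  have hd0 : 0 < d := by have := hq.hcd; linarith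
  have hM4 : 4 ≤ M := by omega
  -- sizes
  have h10 : (10*(M:ℤ)) ≤ 2^(Nat.log 2 (10*M)+1) := by
    have : 10*M < 2^(Nat.log 2 (10*M)+1) := Nat.lt_pow_succ_log_self (by norm_num) _
    exact_mod_cast this.le
  have hc6 : c^6 ≤ 2^S := by
    calc c^6 ≤ ((10*(M:ℤ))^32)^6 := pow_le_pow_left₀ hc0.le hc 6
      _ = (10*(M:ℤ))^192 := by rw [← pow_mul]
      _ ≤ (2^(Nat.log 2 (10*M)+1))^192 := pow_le_pow_left₀ (by positivity) h10 _
      _ = 2^S := by rw [← pow_mul, hS, Nat.mul_comm]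
  have hc1 : 1 ≤ c := hc0
  have hpow : ∀ k : ℕ, k ≤ 6 → c^k ≤ 2^S := fun k hk =>
    (pow_le_pow_right₀ hc1 hk).trans hc6
  have hM2S : (M:ℤ) ≤ 2^S := by
    have h3 : (M:ℤ) ≤ 10*(M:ℤ) := by linarith [Int.natCast_nonneg M]
    have h4 : (2:ℤ)^(Nat.log 2 (10*M)+1) ≤ 2^S := by
      apply pow_le_pow_right₀ (by norm_num)
      omega
    linarith
  have hN2S : (N:ℤ) ≤ 2^S := by
    have : (N:ℤ) ≤ M := by exact_mod_cast hNM
    linarith
  set X : ℝ := Real.sqrt ((a*c : ℤ):ℝ) with hXdef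
  set Y : ℝ := Real.sqrt ((b*c : ℤ):ℝ) with hYdef
  have hac : 0 < a*c := mul_pos ha0 hc0
  have hbc' : 0 < b*c := mul_pos hb0 hc0
  have hacR : (0:ℝ) < ((a*c : ℤ):ℝ) := by exact_mod_cast hac
  have hbcR : (0:ℝ) < ((b*c : ℤ):ℝ) := by exact_mod_cast hbc'
  have hX0 : 0 < X := Real.sqrt_pos.2 hacR
  have hY0 : 0 < Y := Real.sqrt_pos.2 hbcR
  have hX : X^2 = ((a*c : ℤ):ℝ) := Real.sq_sqrt hacR.le
  have hY : Y^2 = ((b*c : ℤ):ℝ) := Real.sq_sqrt hbcR.le
  obtain ⟨g0, g1, -, -, -, g5⟩ := gam ha hb hab hX0 hY0 hX hY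
  have hsc : s ≤ c := by
    have e := hq.es
    by_contra hlt
    push Not at hlt
    nlinarith
  have htc : t ≤ c := by
    have e := hq.et
    by_contra hlt
    push Not at hlt
    nlinarith
  have hBD : BD S (a*c) (b*c) s t (a*c^2*(c-b)) M N (GG a b c ε ζ ξ η) X Y := by
    refine ⟨hac, hbc', hX0, hY0, hX, hY, hq.hs, hq.ht, hq.es, hq.et, nonsq ha0 hc0 hq.es,
      nonsq hb0 hc0 hq.et, ?_, g0, g1, ?_, ?_, ?_, ?_, ?_, ?_, ?_, ?_,
      find ha hb hab hq.er hX0 hY0 hX hY⟩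
    · -- a b c^2 is not a square
      rintro ⟨w, hw⟩
      have hcw : c ∣ w := by
        have h3 : c^2 ∣ w^2 := ⟨a*b, by nlinarith⟩
        exact (Int.pow_dvd_pow_iff (by norm_num)).1 h3
      obtain ⟨v, rfl⟩ := hcw
      apply nonsq ha0 hb0 hq.er
      refine ⟨v, ?_⟩
      have h3 : c^2*(a*b) = c^2*(v*v) := by nlinarith
      exact mul_left_cancel₀ (by positivity) h3
    · calc a*c ≤ c^2 := by nlinarith
        _ ≤ 2^S := hpow 2 (by norm_num)
    · calc b*c ≤ c^2 := by nlinarith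
        _ ≤ 2^S := hpow 2 (by norm_num)
    · exact (hsc.trans_eq (pow_one c).symm).trans (hpow 1 (by norm_num))
    · exact (htc.trans_eq (pow_one c).symm).trans (hpow 1 (by norm_num))
    · calc a*c^2*(c-b) ≤ c*c^2*c := by
            apply mul_le_mul _ (by linarith) (by linarith) (by positivity)
            exact mul_le_mul_of_nonneg_right (by linarith) (by positivity)
        _ = c^4 := by ring
        _ ≤ 2^S := hpow 4 (by norm_num)
    · intro i
      exact (g5 i).trans hc6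
    · rw [abs_of_nonneg (by positivity)]; exact hM2S
    · rw [abs_of_nonneg (by positivity)]; exact hN2S
  have h3 := hS0 S h1 _ _ _ _ _ _ _ _ _ _ hBD
  have h4 := lam_small ha hb hab hd0 hq.ez hq.ex hq.ey hq.hz hq.hx hq.hy hX0 hY0 hX hY
  have h5 := d_lower ha
  have h6 : (1:ℝ)/d ≤ Real.exp (-(S:ℝ)^200) := by
    have h7 : ((4:ℝ))^(M-2) ≤ (d:ℝ) := by exact_mod_cast h5
    have h8 : (1:ℝ)/d ≤ 1/4^(M-2) := one_div_le_one_div_of_le (by positivity) h7
    have h9 : (1:ℝ)/4^(M-2) = Real.exp (-(((M:ℝ)-2)*Real.log 4)) := by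
      rw [Real.exp_neg, one_div]
      congr 1
      have : ((M:ℝ)-2) = ((M-2 : ℕ):ℝ) := by
        rw [Nat.cast_sub (by omega)]; norm_num
      rw [this, ← Real.log_pow, Real.exp_log (by positivity)]
    rw [h9] at h8
    refine h8.trans (Real.exp_le_exp.2 ?_)
    linarith
  linarith

theorem index_bounded : ∃ K : ℕ, ∀ (a b c d r s t x y z : ℤ), Quad a b c d r s t x y z →
    regP a b c d ≠ 0 → ∃ (ε D ζ ξ η : ℤ) (M N : ℕ),
      Side a c s d ε D ζ ξ z x M ∧ Side b c t d ε D ζ η z y N ∧ M ≤ K ∧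
      c ≤ (10*(M:ℤ))^32 := by
  obtain ⟨S0, hS0⟩ := baker3
  obtain ⟨K, hK⟩ := numgrow S0
  refine ⟨K, ?_⟩
  intro a b c d r s t x y z hq hirr
  obtain ⟨ε, D, ζ, ξ, η, M, N, ha, hb, hMK, hc⟩ := index_lt hS0 hK hq hirr
  exact ⟨ε, D, ζ, ξ, η, M, N, ha, hb, hMK.le, hc⟩

theorem all_bounded : ∃ B : ℤ, ∀ (a b c d r s t x y z : ℤ), Quad a b c d r s t x y z →
    regP a b c d ≠ 0 → d ≤ B := by
  obtain ⟨K, hK⟩ := index_bounded
  obtain ⟨C, hC1, hCM⟩ : ∃ C : ℤ, 1 ≤ C ∧ ∀ M : ℕ, M ≤ K → (10*(M:ℤ))^32 ≤ C := by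
    refine ⟨(10*((K:ℤ)+1))^32, ?_, ?_⟩
    · have : (1:ℤ) ≤ 10*((K:ℤ)+1) := by
        have := Int.natCast_nonneg K
        linarith
      exact one_le_pow₀ this
    · intro M hM
      apply pow_le_pow_left₀ (by positivity)
      have : (M:ℤ) ≤ K := by exact_mod_cast hM
      linarith
  refine ⟨(4*C*C+6)^K*((4*C*C+2)*C+4*C), ?_⟩
  intro a b c d r s t x y z hq hirr
  obtain ⟨ε, D, ζ, ξ, η, M, N, ha, hb, hMK, hc⟩ := hK a b c d r s t x y z hq hirr
  have ha0 := hq.ha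
  have hab := hq.hab
  have hbc := hq.hbc
  have hc0 : 0 < c := by linarith
  have hcC : c ≤ C := hc.trans (hCM M hMK)
  clear hc hCM hK
  have haC : a ≤ C := by linarith
  have hDC : D ≤ C := by have := ha.hD2; linarith
  have hacC : 4*a*c ≤ 4*C*C := by nlinarith
  have hac0 : 0 < 4*a*c := by positivity
  have hD0 := ha.hD
  have hbase : (1:ℤ) ≤ 4*C*C+6 := by nlinarith
  have hpow : (4*a*c+6)^(M-1) ≤ (4*C*C+6)^K := by
    calc (4*a*c+6)^(M-1) ≤ (4*C*C+6)^(M-1) := pow_le_pow_left₀ (by positivity) (by linarith) _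
      _ ≤ (4*C*C+6)^K := pow_le_pow_right₀ hbase (by omega)
  have hfac : (4*a*c+2)*D+4*c ≤ (4*C*C+2)*C+4*C := by
    have : (4*a*c+2)*D ≤ (4*C*C+2)*C :=
      mul_le_mul (by linarith) hDC hD0 (by nlinarith)
    linarith
  rcases ha.he with h1 | h1
  · refine (side_up ha h1).trans ?_
    apply mul_le_mul hpow hfac
    · have : 0 ≤ (4*a*c+2)*D := mul_nonneg (by linarith) hD0
      linarith
    · positivity
  · refine (side_up' ha h1).trans ?_
    rw [mul_comm]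
    apply mul_le_mul hpow _ hc0.le (by positivity)
    nlinarith

end Irr
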