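import Pool.Prelude.Def_F_c55c3909
import Pool.Agent.Lib.Irr.FExpl
import Pool.Agent.Lib.Irr.FLow

/-!
# The finiteness theorem in terms of the definitions of the problem
-/

open N3d365e8b

namespace Irr

/-- `a, b, c` are distinct, `{a,b,c,d}` is a Diophantine quadruple, `d` is larger than `a, b, c`, and
`d` is not the regular extension `d_+(a,b,c)` -/
def IsIrregular (a b c d : ℕ) : Prop :=
  ({a, b, c} : Finset ℕ).card = 3 ∧ IsIntegralDiophantineTuple {a, b, c, d} ∧
    max a (max b c) < d ∧ d ≠ regularExtension a b c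

private theorem root_pos {r n : ℕ} (h : n + 1 = r * r) : 0 < r := by
  rcases Nat.eq_zero_or_pos r with h0 | h0
  · subst h0; omega
  · exact h0

/-- sorted version -/
theorem final_sorted {Pr : ℤ → ℤ → Prop} (hB : ∀ (a b c d r s t x y z : ℤ),
    Quad a b c d r s t x y z → regP a b c d ≠ 0 → Pr c d) {a b c d : ℕ} (ha : 0 < a) (hab : a < b) (hbc : b < c) (hcd : c < d)
    (h1 : IsSquare (a*b+1)) (h2 : IsSquare (a*c+1)) (h3 : IsSquare (b*c+1))
    (h4 : IsSquare (a*d+1)) (h5 : IsSquare (b*d+1)) (h6 : IsSquare (c*d+1)) :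
    Pr c d ∨ d = regularExtension a b c := by
  obtain ⟨r, hr⟩ := h1
  obtain ⟨s, hs⟩ := h2
  obtain ⟨t, ht⟩ := h3
  obtain ⟨x, hx⟩ := h4
  obtain ⟨y, hy⟩ := h5
  obtain ⟨z, hz⟩ := h6
  have zr : (r:ℤ)^2 = (a:ℤ)*b+1 := by
    have : ((a*b+1 : ℕ):ℤ) = ((r*r : ℕ):ℤ) := by rw [hr]
    push_cast at this; linarith [sq (r:ℤ)]
  have zs : (s:ℤ)^2 = (a:ℤ)*c+1 := by
    have : ((a*c+1 : ℕ):ℤ) = ((s*s : ℕ):ℤ) := by rw [hs]
    push_cast at this; linarith [sq (s:ℤ)]
  have zt : (t:ℤ)^2 = (b:ℤ)*c+1 := by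
    have : ((b*c+1 : ℕ):ℤ) = ((t*t : ℕ):ℤ) := by rw [ht]
    push_cast at this; linarith [sq (t:ℤ)]
  have zx : (x:ℤ)^2 = (a:ℤ)*d+1 := by
    have : ((a*d+1 : ℕ):ℤ) = ((x*x : ℕ):ℤ) := by rw [hx]
    push_cast at this; linarith [sq (x:ℤ)]
  have zy : (y:ℤ)^2 = (b:ℤ)*d+1 := by
    have : ((b*d+1 : ℕ):ℤ) = ((y*y : ℕ):ℤ) := by rw [hy]
    push_cast at this; linarith [sq (y:ℤ)]
  have zz : (z:ℤ)^2 = (c:ℤ)*d+1 := by
    have : ((c*d+1 : ℕ):ℤ) = ((z*z : ℕ):ℤ) := by rw [hz]
    push_cast at this; linarith [sq (z:ℤ)]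
  have hq : Quad (a:ℤ) b c d r s t x y z :=
    ⟨by exact_mod_cast ha, by exact_mod_cast hab, by exact_mod_cast hbc, by exact_mod_cast hcd,
      by exact_mod_cast root_pos hr, by exact_mod_cast root_pos hs,
      by exact_mod_cast root_pos ht, by exact_mod_cast root_pos hx,
      by exact_mod_cast root_pos hy, by exact_mod_cast root_pos hz, zr, zs, zt, zx, zy, zz⟩
  by_cases hreg : regP (a:ℤ) b c d = 0
  · right
    rw [regP_factor (a:ℤ) b c r s t d zr zs zt] at hreg
    obtain ⟨e, f, g, he, -, -, -, hec, -⟩ := descent (a:ℤ) b c r s t hq.ha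
      (by linarith [hq.ha, hq.hab]) (by linarith [hq.hab, hq.hbc]) hq.hbc hq.hr hq.hs hq.ht
      zr zs zt
    have hcd' := hq.hcd
    have hd : (d:ℤ) = (a:ℤ)+b+c+2*a*b*c+2*r*s*t := by
      rcases mul_eq_zero.1 hreg with h | h
      · linarith
      · exfalso; linarith
    have hsq : Nat.sqrt ((a*b+1)*(a*c+1)*(b*c+1)) = r*s*t := by
      rw [hr, hs, ht, show r*r*(s*s)*(t*t) = (r*s*t)*(r*s*t) by ring, Nat.sqrt_eq]
    unfold regularExtension
    rw [hsq]
    have : (d:ℤ) = ((a+b+c+2*a*b*c+2*(r*s*t) : ℕ):ℤ) := by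
      push_cast; linarith
    exact_mod_cast this
  · left
    exact hB _ _ _ _ _ _ _ _ _ _ hq hreg

private theorem reg_swap12 (a b c : ℕ) : regularExtension a b c = regularExtension b a c := by
  unfold regularExtension
  rw [show (a*b+1)*(a*c+1)*(b*c+1) = (b*a+1)*(b*c+1)*(a*c+1) by ring]
  ring

private theorem reg_swap23 (a b c : ℕ) : regularExtension a b c = regularExtension a c b := by
  unfold regularExtension
  rw [show (a*b+1)*(a*c+1)*(b*c+1) = (a*c+1)*(a*b+1)*(c*b+1) by ring]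
  ring

/-- all orders -/
theorem final_any {Pr : ℤ → ℤ → Prop} (hB : ∀ (a b c d r s t x y z : ℤ),
    Quad a b c d r s t x y z → regP a b c d ≠ 0 → Pr c d) {a b c d : ℕ}
    (hab : a ≠ b) (hac : a ≠ c) (hbc : b ≠ c)
    (hd : max a (max b c) < d) (hT : IsIntegralDiophantineTuple {a, b, c, d}) :
    Pr ((max a (max b c) : ℕ) : ℤ) d ∨ d = regularExtension a b c := by
  have had : a < d := lt_of_le_of_lt (le_max_left _ _) hd
  have hbd : b < d := lt_of_le_of_lt (le_trans (le_max_left _ _) (le_max_right _ _)) hd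
  have hcd : c < d := lt_of_le_of_lt (le_trans (le_max_right _ _) (le_max_right _ _)) hd
  obtain ⟨h0, hS⟩ := hT
  have ha0 : 0 < a := Nat.pos_of_ne_zero (h0 a (by simp))
  have hb0 : 0 < b := Nat.pos_of_ne_zero (h0 b (by simp))
  have hc0 : 0 < c := Nat.pos_of_ne_zero (h0 c (by simp))
  have sab : IsSquare (a*b+1) := hS a (by simp) b (by simp) hab
  have sac : IsSquare (a*c+1) := hS a (by simp) c (by simp) hac
  have sbc : IsSquare (b*c+1) := hS b (by simp) c (by simp) hbc
  have sad : IsSquare (a*d+1) := hS a (by simp) d (by simp) had.ne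
  have sbd : IsSquare (b*d+1) := hS b (by simp) d (by simp) hbd.ne
  have scd : IsSquare (c*d+1) := hS c (by simp) d (by simp) hcd.ne
  have sba : IsSquare (b*a+1) := by rwa [Nat.mul_comm]
  have sca : IsSquare (c*a+1) := by rwa [Nat.mul_comm]
  have scb : IsSquare (c*b+1) := by rwa [Nat.mul_comm]
  rcases lt_or_gt_of_ne hab with h1 | h1
  · rcases lt_or_gt_of_ne hbc with h2 | h2
    · rw [show max a (max b c) = c by omega]
      exact final_sorted hB ha0 h1 h2 hcd sab sac sbc sad sbd scd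
    · rcases lt_or_gt_of_ne hac with h3 | h3
      · -- a < c < b
        rw [show max a (max b c) = b by omega, reg_swap23]
        exact final_sorted hB ha0 h3 h2 hbd sac sab scb sad scd sbd
      · -- c < a < b
        rw [show max a (max b c) = b by omega, reg_swap23, reg_swap12]
        exact final_sorted hB hc0 h3 h1 hbd sca scb sab scd sad sbd
  · rcases lt_or_gt_of_ne hac with h2 | h2
    · -- b < a < c
      rw [show max a (max b c) = c by omega, reg_swap12]
      exact final_sorted hB hb0 h1 h2 hcd sba sbc sac sbd sad scd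
    · rcases lt_or_gt_of_ne hbc with h3 | h3
      · -- b < c < a
        rw [show max a (max b c) = a by omega, reg_swap12, reg_swap23]
        exact final_sorted hB hb0 h3 h2 had sbc sba sca sbd scd sad
      · -- c < b < a
        rw [show max a (max b c) = a by omega, reg_swap12, reg_swap23, reg_swap12]
        exact final_sorted hB hc0 h3 h1 had scb sca sba scd sbd sad

private theorem distinct {a b c : ℕ} (hcard : ({a, b, c} : Finset ℕ).card = 3) :
    a ≠ b ∧ a ≠ c ∧ b ≠ c := by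
  refine ⟨?_, ?_, ?_⟩
  · rintro rfl
    have : ({a, a, c} : Finset ℕ).card ≤ 2 := by
      rw [Finset.insert_eq_of_mem (Finset.mem_insert_self a {c})]
      exact Finset.card_le_two
    omega
  · rintro rfl
    have : ({a, b, a} : Finset ℕ).card ≤ 2 := by
      rw [Finset.insert_eq_of_mem (by simp)]
      exact Finset.card_le_two
    omega
  · rintro rfl
    have : ({a, b, b} : Finset ℕ).card ≤ 2 := by
      rw [Finset.insert_eq_of_mem (Finset.mem_singleton_self b) (s := {b})]
      exact Finset.card_le_two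
    omega

theorem irregular_transfer {Pr : ℤ → ℤ → Prop} (hB : ∀ (a b c d r s t x y z : ℤ),
    Quad a b c d r s t x y z → regP a b c d ≠ 0 → Pr c d) {a b c d : ℕ}
    (h : IsIrregular a b c d) : Pr ((max a (max b c) : ℕ) : ℤ) d := by
  obtain ⟨h1, h2, h3, h4⟩ := h
  obtain ⟨hab, hac, hbc⟩ := distinct h1
  rcases final_any hB hab hac hbc h3 h2 with h5 | h5
  · exact h5
  · exact absurd h5 h4

theorem irregular_finite :
    {q : ℕ × ℕ × ℕ × ℕ | IsIrregular q.1 q.2.1 q.2.2.1 q.2.2.2}.Finite := by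
  obtain ⟨B, hB⟩ := all_bounded
  apply Set.Finite.subset ((Set.finite_Iic B.toNat).prod ((Set.finite_Iic B.toNat).prod
    ((Set.finite_Iic B.toNat).prod (Set.finite_Iic B.toNat))))
  rintro ⟨a, b, c, d⟩ h
  have h5 : (d:ℤ) ≤ B := irregular_transfer (Pr := fun _ d : ℤ => d ≤ B) hB h
  obtain ⟨-, -, h3, -⟩ := h
  simp only [Set.mem_prod, Set.mem_Iic]
  simp only at h3
  have h6 : a < d := lt_of_le_of_lt (le_max_left _ _) h3
  have h7 : b < d := lt_of_le_of_lt (le_trans (le_max_left _ _) (le_max_right _ _)) h3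
  have h8 : c < d := lt_of_le_of_lt (le_trans (le_max_right _ _) (le_max_right _ _)) h3
  omega

theorem irregular_bounds {a b c d : ℕ} (h : IsIrregular a b c d) :
    max a (max b c) < 2^150000 ∧ Real.log d < 2^4600 := by
  have h1 := irregular_transfer (Pr := fun c d : ℤ => c < 2^150000 ∧ Real.log d < 2^4600)
    (fun _ _ _ _ _ _ _ _ _ _ hq hi => expl_of_baker baker3_explicit hq hi) h
  obtain ⟨h2, h3⟩ := h1
  refine ⟨?_, by rwa [Int.cast_natCast] at h3⟩
  apply Int.ofNat_lt.1
  rw [Nat.cast_pow, Nat.cast_ofNat]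
  exact h2

theorem irregular_lower {a b c d : ℕ} (h : IsIrregular a b c d) :
    ((max a (max b c) : ℕ) : ℝ) ≤ (10*(Real.log d+2))^32 := by
  have h1 := irregular_transfer (Pr := fun c d : ℤ => (c:ℝ) ≤ (10*(Real.log d+2))^32)
    (fun _ _ _ _ _ _ _ _ _ _ hq hi => log_lower hq hi) h
  simpa only [Int.cast_natCast] using h1

end Irr
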