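import Pool.Agent.Lib.Irr.BkDefs

/-! The quadruple `GG` representing `γ`. -/

namespace Irr

/-- the quadruple `G` -/
def GG (a b c ε ζ ξ η : ℤ) : Fin 4 → ℤ :=
  ![-(ζ^2*a*b*c^2), -(ε*b*c^2*ξ*ζ), ε*a*c^2*ζ*η, c^2*ξ*η]


end Irr
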