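import Pool.Agent.Lib.Irr.Index

/-!
# Module NotSmall (about 130 lines)

An irregular quadruple has `N >= 4`.

PROOF. `N` is even and `>= 2`; suppose `N = 2`. By `index_le`, `M ∈ {2, 4}` (`2 <= M <= 4`), and
`M = 2` if `ε = -1` (`M + 2 <= 4`).

(1) `ε = -1`, `M = N = 2`. With `P = a+c+D+2acD-2sζξ`, `Q = b+c+D+2bcD-2tζη` (`side_P`:
`0 <= P < c-a`, `0 <= Q < c-b`): `d = 2(1+2ac)P - D + 2(a+c) = 2(1+2bc)Q - D + 2(b+c)`, so
`P - Q + a - b = 2c (bQ - aP)`. The left side has absolute value `< 2c`, so it is `0`: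
`P = Q + b - a`, `bQ = aP`, so `(b-a) Q = a (b-a)`, `Q = a`, `P = b`. Now
`regP a b c d = 0`: `P = b` says `2 s ζ ξ = a+c+D+2acD-b`; squaring, with `s^2 ζ^2 ξ^2 =
(ac+1)(cD+1)(aD+1)`, gives `regP a b c D = 0`; and `d = 2(1+2ac) b - D + 2(a+c)` is the other root of
the quadratic polynomial `regP a b c _`: `regP a b c d = regP a b c D + (d - D)(d + D - 2(a+b+c+2abc))`
and `d + D = 2(a+b+c+2abc)`. Contradiction.

(2) `ε = 1`, `M = N = 2`. `d = 2(1+2ac)E_a - D + 2(a+c) = 2(1+2bc)E_b - D + 2(b+c)` with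
`E_a = a+c+D+2acD+2sζξ`, `E_b = b+c+D+2bcD+2tζη`. But `s <= t`, `ξ <= η` (squares), so
`0 < E_a <= E_b` and the second expression is larger. Contradiction.

(3) `ε = 1`, `M = 4`, `N = 2`. `side_low`: `d >= (4ac)^3 (c+4acD) >= 64c^4 + 256c^4 D` (`a >= 1`).
`side_up`: `d <= (4bc+6)((4bc+2)D+4c) <= 4c^2 (4c^2 D + 4c) = 16c^4 D + 16 c^3`
(`4bc+6 <= 4c^2` as `b <= c-1`, `c >= 3`). Contradiction.
-/

namespace Irr

theorem four_le {a b c d r s t x y z ε D ζ ξ η : ℤ} {M N : ℕ}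
    (hq : Quad a b c d r s t x y z)
    (ha : Side a c s d ε D ζ ξ z x M) (hb : Side b c t d ε D ζ η z y N)
    (hirr : regP a b c d ≠ 0) : 4 ≤ N := by
  by_contra hcon
  have hab := hq.hab
  have ha0 := ha.hu
  have hb0 := hb.hu
  have hbc := hb.huc
  have hc0 : 0 < c := hb0.trans hbc
  have hc3 : 3 ≤ c := by linarith
  have hD := ha.hD
  have hN2 := hb.hk2
  have hM2 := ha.hk2
  obtain ⟨i1, i2, i3⟩ := index_le ha hb hab
  obtain ⟨n', hn'⟩ := hb.hk
  obtain ⟨m', hm'⟩ := ha.hk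
  have hN : N = 2 := by omega
  subst hN
  have hac : 0 < a * c := mul_pos ha0 hc0
  have hbc' : 0 < b * c := mul_pos hb0 hc0
  have hda := ha.hd
  have hdb := hb.hd
  rcases ha.he with he | he
  · rcases (show M = 2 ∨ M = 4 by omega) with hM | hM
    · -- (2)
      subst hM
      subst he
      have e1 : d = 2*(1+2*a*c)*(a+c+D+2*a*c*D+2*1*s*ζ*ξ) - D + 2*(a+c) := hda.symm
      have e2 : d = 2*(1+2*b*c)*(b+c+D+2*b*c*D+2*1*t*ζ*η) - D + 2*(b+c) := hdb.symm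
      have hs := ha.hv
      have ht := hb.hv
      have hζ := ha.hζ
      have hξ := ha.hξ
      have hη := hb.hξ
      have hst : s ≤ t := by
        have h1 : s^2 ≤ t^2 := by rw [ha.ev, hb.ev]; nlinarith
        exact abs_le_of_sq_le_sq' h1 ht.le |>.2
      have hxe : ξ ≤ η := by
        have h1 : ξ^2 ≤ η^2 := by rw [ha.eξ, hb.eξ]; nlinarith
        exact abs_le_of_sq_le_sq' h1 hη.le |>.2
      have h1 : s*ζ*ξ ≤ t*ζ*η := by
        have h2 : s*ζ ≤ t*ζ := mul_le_mul_of_nonneg_right hst hζ.le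
        exact mul_le_mul h2 hxe hξ.le (mul_pos ht hζ).le
      have h2 : 0 < s*ζ*ξ := mul_pos (mul_pos hs hζ) hξ
      have h3 : a*c*D ≤ b*c*D := by
        have := mul_le_mul_of_nonneg_right hab.le (mul_nonneg hc0.le hD)
        nlinarith
      have hacD : 0 ≤ a*c*D := mul_nonneg hac.le hD
      have h4 : a+c+D+2*a*c*D+2*1*s*ζ*ξ ≤ b+c+D+2*b*c*D+2*1*t*ζ*η := by linarith
      have h5 : 0 ≤ a+c+D+2*a*c*D+2*1*s*ζ*ξ := by linarith
      have h6 : 2*(1+2*a*c)*(a+c+D+2*a*c*D+2*1*s*ζ*ξ) ≤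
          2*(1+2*b*c)*(b+c+D+2*b*c*D+2*1*t*ζ*η) := by
        refine mul_le_mul ?_ h4 h5 (by linarith)
        nlinarith
      linarith
    · -- (3)
      subst hM
      have h1 := side_low ha he
      have h2 := side_up hb he
      rw [show 4 - 1 = 3 from rfl] at h1
      rw [show 2 - 1 = 1 from rfl, pow_one] at h2
      have h3 : (4*c)^3*(c + 4*c*D) ≤ (4*a*c)^3*(c+4*a*c*D) := by
        have f3 : 4*c ≤ 4*a*c := by nlinarith
        refine mul_le_mul (pow_le_pow_left₀ (by positivity) f3 3) ?_ ?_ (by positivity)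
        · nlinarith [mul_nonneg hc0.le hD, mul_nonneg (mul_nonneg hc0.le hD) (sub_nonneg.2 (show (1:ℤ) ≤ a by linarith))]
        · have := mul_nonneg hc0.le hD
          linarith
      have f2 : 4*b*c+6 ≤ 4*c^2 := by nlinarith
      have h4 : (4*b*c+6)*((4*b*c+2)*D+4*c) ≤ 4*c^2*(4*c^2*D+4*c) := by
        refine mul_le_mul f2 ?_ ?_ (by positivity)
        · have : (4*b*c+2)*D ≤ 4*c^2*D := mul_le_mul_of_nonneg_right (by linarith) hD
          linarith
        · have : 0 ≤ (4*b*c+2)*D := mul_nonneg (by linarith) hD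
          linarith
      have h5 : (4*c)^3*(c + 4*c*D) ≤ 4*c^2*(4*c^2*D+4*c) := by linarith
      have h6 : 4*c^2*(4*c^2*D+4*c) < (4*c)^3*(c + 4*c*D) := by
        have e1 : (4*c)^3*(c + 4*c*D) - 4*c^2*(4*c^2*D+4*c) =
            16*c^3*(4*c - 1) + 240*c^4*D := by ring
        have h7 : 0 < 16*c^3*(4*c - 1) := by
          have : 0 < 4*c - 1 := by linarith
          positivity
        have h8 : 0 ≤ 240*c^4*D := by positivity
        linarith
      linarith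
  · -- (1)
    have hM : M = 2 := by
      have := i3 he
      omega
    subst hM
    obtain ⟨hP, hP2⟩ := side_P ha
    obtain ⟨hQ, hQ2⟩ := side_P hb
    subst he
    obtain ⟨P, hPe⟩ : ∃ P, P = a+c+D+2*a*c*D-2*s*ζ*ξ := ⟨_, rfl⟩
    obtain ⟨Q, hQe⟩ : ∃ Q, Q = b+c+D+2*b*c*D-2*t*ζ*η := ⟨_, rfl⟩
    have e1 : d = 2*(1+2*a*c)*(a+c+D+2*a*c*D+2*(-1)*s*ζ*ξ) - D + 2*(a+c) := hda.symm
    have e2 : d = 2*(1+2*b*c)*(b+c+D+2*b*c*D+2*(-1)*t*ζ*η) - D + 2*(b+c) := hdb.symm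
    rw [show a+c+D+2*a*c*D+2*(-1)*s*ζ*ξ = P by rw [hPe]; ring] at e1
    rw [show b+c+D+2*b*c*D+2*(-1)*t*ζ*η = Q by rw [hQe]; ring] at e2
    rw [← hPe] at hP hP2
    rw [← hQe] at hQ hQ2
    have h1 : P - Q + a - b = 2*c*(b*Q - a*P) := by linarith
    have h2 : b*Q - a*P = 0 := by
      rcases lt_trichotomy (b*Q - a*P) 0 with h3 | h3 | h3
      · have h4 : b*Q - a*P ≤ -1 := by omega
        nlinarith
      · exact h3
      · have h4 : 1 ≤ b*Q - a*P := by omega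
        nlinarith
    rw [h2, mul_zero] at h1
    have h3 : P = Q + b - a := by linarith
    have h4 : (b - a) * (Q - a) = 0 := by
      rw [h3] at h2
      linarith
    have h5 : Q = a := by
      rcases mul_eq_zero.1 h4 with h6 | h6
      · exfalso; linarith
      · linarith
    have h6 : P = b := by linarith
    apply hirr
    -- `2 s ζ ξ = a + c + D + 2acD - b`
    have h7 : 2*s*ζ*ξ = a+c+D+2*a*c*D - b := by linarith
    have h8 : (2*s*ζ*ξ)^2 = 4*((a*c+1)*(c*D+1)*(a*D+1)) := by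
      have e3 : (2*s*ζ*ξ)^2 = 4*(s^2*ζ^2*ξ^2) := by ring
      rw [e3, ha.ev, ha.eζ, ha.eξ]
    rw [h7] at h8
    rw [h6] at e1
    unfold regP
    rw [e1]
    linear_combination h8

end Irr
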