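import Pool.Agent.Lib.Irr.BaseEx
import Pool.Agent.Lib.Irr.NotSmall

/-!
# Module Gap (about 40 lines)

PROOF. Take `base_exists`; `N >= 4` by `four_le`. If `ε = 1`, `side_low` for the `b`-side:
`d >= (4bc)^(N-1) c >= (4bc)^3 c >= 16 b^2 c^3`. If `ε = -1`, `side_low'`:
`d >= (4bc)^(N-2) c >= (4bc)^2 c`.
-/

namespace Irr

theorem gap {a b c d r s t x y z : ℤ} (hq : Quad a b c d r s t x y z)
    (hirr : regP a b c d ≠ 0) : 16*b^2*c^3 ≤ d := by
  obtain ⟨ε, D, ζ, ξ, η, M, N, ha, hb⟩ := base_exists hq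
  have hN := four_le hq ha hb hirr
  have hb0 := hb.hu
  have hc0 : 0 < c := hb0.trans hb.huc
  have hbc : 0 < b * c := mul_pos hb0 hc0
  have h1 : (1 : ℤ) ≤ 4*b*c := by linarith
  have e1 : 16*b^2*c^3 = (4*b*c)^2 * c := by ring
  rw [e1]
  rcases ha.he with he | he
  · refine le_trans ?_ (side_low hb he)
    have hD := hb.hD
    have h2 : (4*b*c)^2 ≤ (4*b*c)^(N-1) := pow_le_pow_right₀ h1 (by omega)
    have h3 : 0 ≤ 4*b*c*D := mul_nonneg (by linarith) hD
    calc (4*b*c)^2 * c ≤ (4*b*c)^(N-1) * c := mul_le_mul_of_nonneg_right h2 hc0.le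
      _ ≤ (4*b*c)^(N-1)*(c+4*b*c*D) :=
          mul_le_mul_of_nonneg_left (by linarith) (by positivity)
  · refine le_trans ?_ (side_low' hb he)
    exact mul_le_mul_of_nonneg_right (pow_le_pow_right₀ h1 (by omega)) hc0.le

end Irr
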