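import Pool.Agent.Lib.Irr.Defs

/-!
# Module GrowA (about 130 lines): `side_P`, `side_low`, `side_up` (see the PROOF notes below)

Bounds for the chain of extensions. Write `δ_k = dl u c D E k`, `P = u+c+D+2ucD-2vζξ`.

PROOF.
`side_P`: `c P + 1 = (c ξ - v ζ)^2` and `c ξ - v ζ > 0` is an integer, so `c P + 1 >= 1`, `P >= 0`
(if `P < 0` then `cP+1 <= 1 - c <= 0`). With `ζ1 = c ξ - v ζ`, `ξ1 = v ξ - u ζ` (positive:
`(vξ)^2 > (uζ)^2`), `c ξ1 - v ζ1 = ζ > 0` and `u ζ1^2 - c ξ1^2 = u - c`; so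
`v^2 ζ1^2 < c^2 ξ1^2 = c (u ζ1^2 + c - u)`, i.e. `ζ1^2 < c (c-u)`, `c P + 1 < c (c-u)`, `P < c-u`.

Case `ε = 1`: `δ_1 = u+c+D+2ucD+2vζξ >= c + 4ucD` because `(vζξ)^2 >= (ucD)^2`. Induction for
`k >= 1`: `δ_{k+1} >= δ_k` and `δ_{k+1} >= 4uc δ_k` (`δ_{k+1} = 4ucδ_k + 2δ_k - δ_{k-1} + 2(u+c)`,
`δ_0 = D <= δ_1`). Upper bounds: `δ_1 = 2(1+2uc)D + 2(u+c) - P <= (4uc+2)D + 4c <= (4uc+6) c`
(`D <= c-u-1`), and `δ_{k+1} <= (4uc+2) δ_k + 4c <= (4uc+6) δ_k` as `δ_k >= c`, `δ_{k-1} >= 0`.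

Case `ε = -1`: `δ_1 = P`, `δ_2 = 2(1+2uc)P + 2(u+c) - D >= 4ucP + c` (`D < c-u`) and
`δ_2 <= (4uc+2)P + 4c <= (4uc+6) c` (`P <= c-u-1`); then the same induction from `k = 2` on
(`δ_2 >= c > δ_1`).
-/

namespace Irr

theorem growA_low {u c : ℤ} (hu : 0 < u) (hc : 0 < c) {f : ℕ → ℤ}
    (hf : ∀ k, f (k + 2) = 2*(1+2*u*c) * f (k+1) - f k + 2*(u+c)) (h0 : 0 ≤ f 0)
    (h1 : f 0 ≤ f 1) (k : ℕ) :
    0 ≤ f k ∧ f k ≤ f (k + 1) ∧ (4*u*c)^k * f 1 ≤ f (k + 1) := by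
  have huc : 0 < u * c := mul_pos hu hc
  induction k with
  | zero => exact ⟨h0, h1, by simp⟩
  | succ k ih =>
    obtain ⟨i1, i2, i3⟩ := ih
    have h2 := hf k
    have h3 : 4*u*c * f (k + 1) ≤ f (k + 2) := by
      rw [h2]
      nlinarith
    have h4 : f (k + 1) ≤ f (k + 2) := by
      rw [h2]
      nlinarith [mul_nonneg huc.le (i1.trans i2)]
    refine ⟨i1.trans i2, h4, ?_⟩
    calc (4*u*c)^(k+1) * f 1 = 4*u*c * ((4*u*c)^k * f 1) := by ring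
      _ ≤ 4*u*c * f (k + 1) := by
          refine mul_le_mul_of_nonneg_left i3 ?_
          nlinarith
      _ ≤ f (k + 1 + 1) := h3

theorem growA_up {u c : ℤ} (hu : 0 < u) (hc : 0 < c) (huc' : u ≤ c) {f : ℕ → ℤ}
    (hf : ∀ k, f (k + 2) = 2*(1+2*u*c) * f (k+1) - f k + 2*(u+c)) (h0 : 0 ≤ f 0)
    (h1 : f 0 ≤ f 1) (h2 : c ≤ f 1) (k : ℕ) :
    f (k + 1) ≤ (4*u*c+6)^k * f 1 := by
  have huc : 0 < u * c := mul_pos hu hc
  induction k with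
  | zero => simp
  | succ k ih =>
    have h3 := growA_low hu hc hf h0 h1 k
    have h4 : c ≤ f (k + 1) := by
      have h5 : ∀ m, f 1 ≤ f (m + 1) := by
        intro m
        induction m with
        | zero => exact le_rfl
        | succ m ihm => exact ihm.trans (growA_low hu hc hf h0 h1 (m + 1)).2.1
      exact h2.trans (h5 k)
    have h5 : f (k + 2) ≤ (4*u*c+6) * f (k + 1) := by
      rw [hf k]
      nlinarith [h3.1]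
    calc f (k + 1 + 1) ≤ (4*u*c+6) * f (k + 1) := h5
      _ ≤ (4*u*c+6) * ((4*u*c+6)^k * f 1) := by
          refine mul_le_mul_of_nonneg_left ih ?_
          nlinarith
      _ = (4*u*c+6)^(k+1) * f 1 := by ring

theorem side_P {u c v d ε D ζ ξ z x : ℤ} {k : ℕ} (h : Side u c v d ε D ζ ξ z x k) :
    0 ≤ u+c+D+2*u*c*D-2*v*ζ*ξ ∧ u+c+D+2*u*c*D-2*v*ζ*ξ < c-u := by
  have hc : 0 < c := h.hu.trans h.huc
  have h1 : c * (u+c+D+2*u*c*D-2*v*ζ*ξ) + 1 = (c*ξ - v*ζ)^2 := by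
    linear_combination (-c^2) * h.eξ - v^2 * h.eζ - (c*D+1) * h.ev
  have h2 : 0 < c*ξ - v*ζ := by
    have := h.hlt
    linarith
  have h3 : 1 ≤ (c*ξ - v*ζ)^2 := by nlinarith
  have hP : 0 ≤ u+c+D+2*u*c*D-2*v*ζ*ξ := by
    by_contra hcon
    push Not at hcon
    nlinarith
  refine ⟨hP, ?_⟩
  have h4 : c*(v*ξ - u*ζ) - v*(c*ξ - v*ζ) = ζ := by
    linear_combination ζ * h.ev
  have h5 : u*(c*ξ - v*ζ)^2 - c*(v*ξ - u*ζ)^2 = u - c := by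
    linear_combination (u*ζ^2 - c*ξ^2) * h.ev + u * h.eζ - c * h.eξ
  have h6 : v*(c*ξ - v*ζ) < c*(v*ξ - u*ζ) := by
    have := h.hζ
    linarith
  have h7 : 0 < v*(c*ξ - v*ζ) := mul_pos h.hv h2
  have h8 : (v*(c*ξ - v*ζ))^2 < (c*(v*ξ - u*ζ))^2 := by nlinarith
  have h9 : (v*(c*ξ - v*ζ))^2 = (u*c+1)*(c*ξ - v*ζ)^2 := by
    linear_combination (c*ξ - v*ζ)^2 * h.ev
  have h10 : (c*(v*ξ - u*ζ))^2 = c * (u*(c*ξ - v*ζ)^2 + c - u) := by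
    linear_combination (-c) * h5
  rw [h9, h10] at h8
  have h11 : (c*ξ - v*ζ)^2 < c * (c - u) := by nlinarith
  rw [← h1] at h11
  by_contra hcon
  push Not at hcon
  nlinarith

theorem sideA_E {u c v d ε D ζ ξ z x : ℤ} {k : ℕ} (h : Side u c v d ε D ζ ξ z x k) :
    c + 4*u*c*D ≤ u+c+D+2*u*c*D+2*v*ζ*ξ := by
  have hc : 0 < c := h.hu.trans h.huc
  have h1 : (v*ζ*ξ)^2 = (u*c+1)*(c*D+1)*(u*D+1) := by
    have e1 : (v*ζ*ξ)^2 = v^2*ζ^2*ξ^2 := by ring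
    rw [e1, h.ev, h.eζ, h.eξ]
  have hu := h.hu
  have hD := h.hD
  have h2 : 0 < v*ζ*ξ := mul_pos (mul_pos h.hv h.hζ) h.hξ
  have h3 : u*c*D ≤ v*ζ*ξ := by
    have h4 : 0 ≤ u*c*D := by positivity
    have h5 : (u*c*D)^2 ≤ (v*ζ*ξ)^2 := by
      rw [h1]
      have e2 : (u*c+1)*(c*D+1)*(u*D+1) - (u*c*D)^2 =
          u*c*(c*D) + u*c*(u*D) + u*c + c*D*(u*D) + c*D + u*D + 1 := by ring
      have h6 : 0 ≤ u*c*(c*D) + u*c*(u*D) + u*c + c*D*(u*D) + c*D + u*D + 1 := by positivity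
      linarith
    exact abs_le_of_sq_le_sq' h5 h2.le |>.2
  nlinarith

theorem side_low {u c v d ε D ζ ξ z x : ℤ} {k : ℕ} (h : Side u c v d ε D ζ ξ z x k)
    (h1 : ε = 1) : (4*u*c)^(k-1)*(c+4*u*c*D) ≤ d := by
  have hc : 0 < c := h.hu.trans h.huc
  have hu := h.hu
  have hD := h.hD
  have hE := sideA_E h
  have hd := h.hd
  have hk2 := h.hk2
  obtain ⟨m, rfl⟩ : ∃ m, k = m + 1 := ⟨k - 1, by omega⟩
  rw [h1, show u+c+D+2*u*c*D+2*1*v*ζ*ξ = u+c+D+2*u*c*D+2*v*ζ*ξ by ring] at hd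
  have h2 := growA_low hu hc (f := dl u c D (u+c+D+2*u*c*D+2*v*ζ*ξ)) (fun k => rfl) hD (by
    change D ≤ u+c+D+2*u*c*D+2*v*ζ*ξ
    nlinarith [mul_nonneg (mul_nonneg hu.le hc.le) hD,
      mul_pos (mul_pos h.hv h.hζ) h.hξ]) m
  rw [← hd, Nat.add_sub_cancel]
  refine le_trans ?_ h2.2.2
  refine mul_le_mul_of_nonneg_left hE ?_
  positivity

theorem side_up {u c v d ε D ζ ξ z x : ℤ} {k : ℕ} (h : Side u c v d ε D ζ ξ z x k)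
    (h1 : ε = 1) : d ≤ (4*u*c+6)^(k-1)*((4*u*c+2)*D+4*c) := by
  have hc : 0 < c := h.hu.trans h.huc
  have hu := h.hu
  have hD := h.hD
  have hE := sideA_E h
  have hd := h.hd
  have hk2 := h.hk2
  have hP := (side_P h).1
  have huc := h.huc
  obtain ⟨m, rfl⟩ : ∃ m, k = m + 1 := ⟨k - 1, by omega⟩
  rw [h1, show u+c+D+2*u*c*D+2*1*v*ζ*ξ = u+c+D+2*u*c*D+2*v*ζ*ξ by ring] at hd
  have hucD : 0 ≤ u*c*D := mul_nonneg (mul_nonneg hu.le hc.le) hD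
  have h2 := growA_up hu hc huc.le (f := dl u c D (u+c+D+2*u*c*D+2*v*ζ*ξ)) (fun k => rfl) hD (by
    change D ≤ u+c+D+2*u*c*D+2*v*ζ*ξ
    nlinarith [mul_pos (mul_pos h.hv h.hζ) h.hξ]) (by
    change c ≤ u+c+D+2*u*c*D+2*v*ζ*ξ
    linarith) m
  rw [← hd, Nat.add_sub_cancel]
  refine h2.trans ?_
  refine mul_le_mul_of_nonneg_left ?_ ?_
  · change u+c+D+2*u*c*D+2*v*ζ*ξ ≤ (4*u*c+2)*D+4*c
    linarith
  · have : 0 < u * c := mul_pos hu hc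
    have h3 : 0 ≤ 4*u*c+6 := by linarith
    positivity

end Irr
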