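import Pool.Agent.Lib.Irr.GrowA

/-!
# Module GrowB (about 110 lines): `side_low'`, `side_up'` (see the PROOF notes below)

Bounds for the chain of extensions. Write `δ_k = dl u c D E k`, `P = u+c+D+2ucD-2vζξ`.

PROOF.
`side_P`: `c P + 1 = (c ξ - v ζ)^2` and `c ξ - v ζ > 0` is an integer, so `c P + 1 >= 1`, `P >= 0`
(if `P < 0` then `cP+1 <= 1 - c <= 0`). With `ζ1 = c ξ - v ζ`, `ξ1 = v ξ - u ζ` (positive:
`(vξ)^2 > (uζ)^2`), `c ξ1 - v ζ1 = ζ > 0` and `u ζ1^2 - c ξ1^2 = u - c`; so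
`v^2 ζ1^2 < c^2 ξ1^2 = c (u ζ1^2 + c - u)`, i.e. `ζ1^2 < c (c-u)`, `c P + 1 < c (c-u)`, `P < c-u`.

Case `ε = 1`: `δ_1 = u+c+D+2ucD+2vζξ >= c + 4ucD` because `(vζξ)^2 >= (ucD)^2`. Induction for
`k >= 1`: `δ_{k+1} >= δ_k` and `δ_{k+1} >= 4uc δ_k` (`δ_{k+1} = 4ucδ_k + 2δ_k - δ_{k-1} + 2(u+c)`,
`δ_0 = D <= δ_1`). Upper bounds: `δ_1 = 2(1+2uc)D + 2(u+c) - P <= (4uc+2)D + 4c <= (4uc+6) c`
(`D <= c-u-1`), and `δ_{k+1} <= (4uc+2) δ_k + 4c <= (4uc+6) δ_k` as `δ_k >= c`, `δ_{k-1} >= 0`.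

Case `ε = -1`: `δ_1 = P`, `δ_2 = 2(1+2uc)P + 2(u+c) - D >= 4ucP + c` (`D < c-u`) and
`δ_2 <= (4uc+2)P + 4c <= (4uc+6) c` (`P <= c-u-1`); then the same induction from `k = 2` on
(`δ_2 >= c > δ_1`).
-/

namespace Irr

theorem sideB_aux {u c v d ε D ζ ξ z x : ℤ} {k : ℕ} (h : Side u c v d ε D ζ ξ z x k)
    (h1 : ε = -1) : ∃ f : ℕ → ℤ,
      (∀ k, f (k + 2) = 2*(1+2*u*c) * f (k+1) - f k + 2*(u+c)) ∧ 0 ≤ f 0 ∧ f 0 ≤ f 1 ∧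
      c ≤ f 1 ∧ f 1 ≤ c * (4*u*c+6) ∧ ∀ m, k = m + 2 → f (m + 1) = d := by
  have hc : 0 < c := h.hu.trans h.huc
  have hu := h.hu
  have hD := h.hD
  have hD2 := h.hD2
  have huc := h.huc
  obtain ⟨hP, hP2⟩ := side_P h
  have hd := h.hd
  rw [h1, show u+c+D+2*u*c*D+2*(-1)*v*ζ*ξ = u+c+D+2*u*c*D-2*v*ζ*ξ by ring] at hd
  obtain ⟨P, hPe⟩ : ∃ P, P = u+c+D+2*u*c*D-2*v*ζ*ξ := ⟨_, rfl⟩
  rw [← hPe] at hP hP2 hd
  have hucp : 0 < u * c := mul_pos hu hc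
  have hucP : 0 ≤ u * c * P := mul_nonneg hucp.le hP
  have e1 : dl u c D P 2 = 2*(1+2*u*c) * P - D + 2*(u+c) := rfl
  refine ⟨fun k => dl u c D P (k + 1), fun k => rfl, hP, ?_, ?_, ?_, ?_⟩
  · change P ≤ dl u c D P 2
    rw [e1]
    linarith
  · change c ≤ dl u c D P 2
    rw [e1]
    linarith
  · change dl u c D P 2 ≤ c * (4*u*c+6)
    rw [e1]
    have h2 : u * c * P ≤ u * c * c := mul_le_mul_of_nonneg_left (by linarith) hucp.le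
    nlinarith
  · intro m hm
    rw [hm] at hd
    exact hd

theorem side_low' {u c v d ε D ζ ξ z x : ℤ} {k : ℕ} (h : Side u c v d ε D ζ ξ z x k)
    (h1 : ε = -1) : (4*u*c)^(k-2)*c ≤ d := by
  have hc : 0 < c := h.hu.trans h.huc
  have hu := h.hu
  have hk2 := h.hk2
  obtain ⟨f, hf, f0, f1, f2, _, f4⟩ := sideB_aux h h1
  obtain ⟨m, hm⟩ : ∃ m, k = m + 2 := ⟨k - 2, by omega⟩
  rw [← f4 m hm, hm, Nat.add_sub_cancel]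
  refine le_trans ?_ (growA_low hu hc hf f0 f1 m).2.2
  refine mul_le_mul_of_nonneg_left f2 ?_
  positivity

theorem side_up' {u c v d ε D ζ ξ z x : ℤ} {k : ℕ} (h : Side u c v d ε D ζ ξ z x k)
    (h1 : ε = -1) : d ≤ c*(4*u*c+6)^(k-1) := by
  have hc : 0 < c := h.hu.trans h.huc
  have hu := h.hu
  have hk2 := h.hk2
  obtain ⟨f, hf, f0, f1, f2, f3, f4⟩ := sideB_aux h h1
  obtain ⟨m, hm⟩ : ∃ m, k = m + 2 := ⟨k - 2, by omega⟩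
  rw [← f4 m hm, hm, show m + 2 - 1 = m + 1 by omega]
  refine (growA_up hu hc h.huc.le hf f0 f1 f2 m).trans ?_
  have : 0 < u * c := mul_pos hu hc
  have h3 : 0 ≤ 4*u*c+6 := by linarith
  calc (4*u*c+6)^m * f 1 ≤ (4*u*c+6)^m * (c * (4*u*c+6)) :=
        mul_le_mul_of_nonneg_left f3 (by positivity)
    _ = c*(4*u*c+6)^(m+1) := by ring

end Irr
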