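import Pool.Agent.Lib.Irr.Growth

/-!
# Module Index (about 110 lines)

Comparison of the two indices.

PROOF. `c >= 3`. Facts: `4ac+6 <= 4bc` (`4c(b-a) >= 4c >= 12`), `4bc+6 <= 4c^2` (`b <= c-1`).
Case `ε = 1`. `side_low`: `c (4bc)^(N-1) <= d`, and `side_up`:
`d <= (4ac+6)^(M-1) ((4ac+2)D+4c) <= (4ac+6)^M c` (`D <= c-1`), so
`(4bc)^(N-1) <= (4bc)^M`, `N - 1 <= M`, and both even: `N <= M`.
`c (4ac)^(M-1) <= d <= c (4bc+6)^N`, so `(4c)^(M-1) <= (4c^2)^N < (4c)^(2N)`, `M-1 < 2N`, `M <= 2N`.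
Case `ε = -1`. `side_low'`, `side_up'`: `(4bc)^(N-2) <= (4ac+6)^(M-1) <= (4bc)^(M-1)`: `N-2 <= M-1`,
so `N <= M` by parity; `(4c)^(M-2) <= (4ac)^(M-2) <= (4bc+6)^(N-1) <= (4c^2)^(N-1) < (4c)^(2N-2)`
(`N >= 2`), so `M - 2 < 2N - 2`, `M < 2N`, `M <= 2N - 2` by parity.
-/

namespace Irr

theorem index_le {a b c s t d ε D ζ ξ η z x y : ℤ} {M N : ℕ}
    (ha : Side a c s d ε D ζ ξ z x M) (hb : Side b c t d ε D ζ η z y N) (hab : a < b) :
    N ≤ M ∧ M ≤ 2*N ∧ (ε = -1 → M + 2 ≤ 2*N) := by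
  have ha0 := ha.hu
  have hb0 := hb.hu
  have hbc := hb.huc
  have hc0 : 0 < c := hb0.trans hbc
  have hc3 : 3 ≤ c := by linarith
  have hD := ha.hD
  have hDc : D ≤ c := by have := ha.hD2; linarith
  have hMe := ha.hk
  have hNe := hb.hk
  have hM2 := ha.hk2
  have hN2 := hb.hk2
  have hac : 0 < a * c := mul_pos ha0 hc0
  have hbc' : 0 < b * c := mul_pos hb0 hc0
  have f1 : 4*a*c+6 ≤ 4*b*c := by nlinarith
  have f2 : 4*b*c+6 ≤ 4*c^2 := by nlinarith
  have f3 : 4*c ≤ 4*a*c := by nlinarith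
  have f4 : (4*c^2 : ℤ) < (4*c)^2 := by nlinarith
  have g1 : (1 : ℤ) < 4*b*c := by linarith
  have g2 : (1 : ℤ) < 4*c := by linarith
  have hacD : 0 ≤ a * c * D := mul_nonneg hac.le hD
  have hbcD : 0 ≤ b * c * D := mul_nonneg hbc'.le hD
  rcases ha.he with he | he
  · -- `ε = 1`
    have h1 := side_low hb he
    have h2 := side_up ha he
    have h3 := side_low ha he
    have h4 := side_up hb he
    have hMp : (4*a*c+6)^(M-1) * (4*a*c+6) = (4*a*c+6)^M := by
      rw [← pow_succ]; congr 1; omega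
    have hNp : (4*b*c+6)^(N-1) * (4*b*c+6) = (4*b*c+6)^N := by
      rw [← pow_succ]; congr 1; omega
    have k1 : (4*b*c)^(N-1) * c ≤ (4*b*c)^M * c := by
      calc (4*b*c)^(N-1) * c ≤ (4*b*c)^(N-1)*(c+4*b*c*D) :=
            mul_le_mul_of_nonneg_left (by linarith) (by positivity)
        _ ≤ d := h1
        _ ≤ (4*a*c+6)^(M-1)*((4*a*c+2)*D+4*c) := h2
        _ ≤ (4*a*c+6)^(M-1)*((4*a*c+6)*c) := by
            refine mul_le_mul_of_nonneg_left ?_ (by positivity)
            have : a * c * D ≤ a * c * c := mul_le_mul_of_nonneg_left hDc hac.le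
            nlinarith
        _ = (4*a*c+6)^M * c := by rw [← mul_assoc, hMp]
        _ ≤ (4*b*c)^M * c := by
            refine mul_le_mul_of_nonneg_right ?_ hc0.le
            exact pow_le_pow_left₀ (by positivity) f1 M
    have k2 : (4*b*c)^(N-1) ≤ (4*b*c)^M := le_of_mul_le_mul_right k1 hc0
    have k3 : N - 1 ≤ M := (pow_le_pow_iff_right₀ g1).1 k2
    have k4 : (4*c)^(M-1) * c ≤ (4*c^2)^N * c := by
      calc (4*c)^(M-1) * c ≤ (4*a*c)^(M-1) * c := by
            refine mul_le_mul_of_nonneg_right ?_ hc0.le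
            exact pow_le_pow_left₀ (by positivity) f3 _
        _ ≤ (4*a*c)^(M-1)*(c+4*a*c*D) :=
            mul_le_mul_of_nonneg_left (by linarith) (by positivity)
        _ ≤ d := h3
        _ ≤ (4*b*c+6)^(N-1)*((4*b*c+2)*D+4*c) := h4
        _ ≤ (4*b*c+6)^(N-1)*((4*b*c+6)*c) := by
            refine mul_le_mul_of_nonneg_left ?_ (by positivity)
            have : b * c * D ≤ b * c * c := mul_le_mul_of_nonneg_left hDc hbc'.le
            nlinarith
        _ = (4*b*c+6)^N * c := by rw [← mul_assoc, hNp]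
        _ ≤ (4*c^2)^N * c := by
            refine mul_le_mul_of_nonneg_right ?_ hc0.le
            exact pow_le_pow_left₀ (by positivity) f2 N
    have k5 : (4*c)^(M-1) ≤ (4*c^2)^N := le_of_mul_le_mul_right k4 hc0
    have k6 : (4*c)^(M-1) < (4*c)^(2*N) := by
      refine lt_of_le_of_lt k5 ?_
      rw [pow_mul]
      exact pow_lt_pow_left₀ f4 (by positivity) (by omega)
    have k7 : M - 1 < 2 * N := (pow_lt_pow_iff_right₀ g2).1 k6
    obtain ⟨m', hm'⟩ := hMe
    obtain ⟨n', hn'⟩ := hNe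
    refine ⟨by omega, by omega, fun h => ?_⟩
    rw [he] at h
    norm_num at h
  · -- `ε = -1`
    have h1 := side_low' hb he
    have h2 := side_up' ha he
    have h3 := side_low' ha he
    have h4 := side_up' hb he
    have k1 : (4*b*c)^(N-2) * c ≤ (4*b*c)^(M-1) * c := by
      calc (4*b*c)^(N-2) * c ≤ d := h1
        _ ≤ c*(4*a*c+6)^(M-1) := h2
        _ = (4*a*c+6)^(M-1) * c := by ring
        _ ≤ (4*b*c)^(M-1) * c := by
            refine mul_le_mul_of_nonneg_right ?_ hc0.le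
            exact pow_le_pow_left₀ (by positivity) f1 _
    have k2 : (4*b*c)^(N-2) ≤ (4*b*c)^(M-1) := le_of_mul_le_mul_right k1 hc0
    have k3 : N - 2 ≤ M - 1 := (pow_le_pow_iff_right₀ g1).1 k2
    have k4 : (4*c)^(M-2) * c ≤ (4*c^2)^(N-1) * c := by
      calc (4*c)^(M-2) * c ≤ (4*a*c)^(M-2) * c := by
            refine mul_le_mul_of_nonneg_right ?_ hc0.le
            exact pow_le_pow_left₀ (by positivity) f3 _
        _ ≤ d := h3
        _ ≤ c*(4*b*c+6)^(N-1) := h4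
        _ = (4*b*c+6)^(N-1) * c := by ring
        _ ≤ (4*c^2)^(N-1) * c := by
            refine mul_le_mul_of_nonneg_right ?_ hc0.le
            exact pow_le_pow_left₀ (by positivity) f2 _
    have k5 : (4*c)^(M-2) ≤ (4*c^2)^(N-1) := le_of_mul_le_mul_right k4 hc0
    have k6 : (4*c)^(M-2) < (4*c)^(2*(N-1)) := by
      refine lt_of_le_of_lt k5 ?_
      rw [pow_mul]
      exact pow_lt_pow_left₀ f4 (by positivity) (by omega)
    have k7 : M - 2 < 2 * (N - 1) := (pow_lt_pow_iff_right₀ g2).1 k6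
    obtain ⟨m', hm'⟩ := hMe
    obtain ⟨n', hn'⟩ := hNe
    exact ⟨by omega, by omega, fun _ => by omega⟩

end Irr
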