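import Pool.Agent.Lib.Irr.Defs

/-!
# Module Liou2 (about 120 lines)

A Liouville inequality: an element `X` and its regular extension `Y = d_+(p,q,X)` cannot satisfy a
small linear relation.

PROOF. Real numbers: `w = √(pq)` (`w >= 1`), `θ = (ρ+w)^2`, `θ' = (ρ-w)^2`; `(ρ+w)(ρ-w) = 1`, so
`θ θ' = 1`, `0 < θ' <= 1`. `Y = p+q+X+2pqX+2ρστ`.
(1) `0 <= Y - θ X <= 3 (p+q)^2`: `θ = 2pq+1+2ρw`, so `Y - θX = p + q + 2ρ(στ - wX)`,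
`(στ)^2 = (pX+1)(qX+1) = (wX)^2 + (p+q)X + 1`, so `0 < στ - wX = ((p+q)X+1)/(στ+wX) <=
((p+q)X+1)/(2wX) <= (p+q+1)/2` (`w >= 1`, `X >= 1`). `ρ <= p+q` (`ρ^2 = pq+1 <= (p+q)^2`), hence
`Y - θX <= (p+q) + (p+q)(p+q+1) <= 3 (p+q)^2`.
(2) `|u + vθ| (|u|+|v|) >= 1` for `v ≠ 0`: `(u+vθ)(u+vθ') = u^2 + uv(4pq+2) + v^2` is an integer
(`θ+θ' = 2(ρ^2+w^2) = 4pq+2`) and `|u+vθ'| <= |u|+|v|`. The integer is not `0`: otherwise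
`u + vθ = 0` or `u+vθ' = 0`, so `θ` or `θ'` is rational, so `w = √(pq)` is rational
(`θ = 2pq+1+2ρw`, `ρ ≠ 0`), but `pq` is not a square since `pq > 0` and `pq+1 = ρ^2` is one
(`irrational_sqrt_...`, or directly: `w` rational with `w^2 = pq` integer is an integer).
(3) `uX + vY = (u+vθ)X + v(Y-θX)`, so `|u+vθ| X <= |uX+vY| + |v| 3(p+q)^2`; multiply by
`|u|+|v|`.
-/

namespace Irr

private theorem l2_nosq (p q ρ m : ℤ) (hpq : 0 < p * q) (hρ : 0 < ρ) (eρ : ρ^2 = p*q+1)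
    (hm : m^2 = p*q) : False := by
  have h1 : ρ^2 = m^2 + 1 := by rw [hm, eρ]
  have h2 : |m| < ρ := by
    have : |m|^2 < ρ^2 := by rw [sq_abs]; linarith
    exact lt_of_pow_lt_pow_left₀ 2 hρ.le this
  have h3 : 1 ≤ |m| := by
    rcases eq_or_ne m 0 with h0 | h0
    · subst h0; simp at hm; omega
    · exact Int.one_le_abs h0
  have h4 : |m| + 1 ≤ ρ := h2
  have h5 : (|m| + 1)^2 ≤ ρ^2 := pow_le_pow_left₀ (by positivity) h4 2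
  have h6 : |m|^2 = m^2 := sq_abs m
  nlinarith

/-- an integer with a rational square root is a perfect square -/
private theorem l2_rat (n u v : ℤ) (hv : v ≠ 0) (h : u^2 = n * v^2) : ∃ m : ℤ, m^2 = n := by
  have h1 : v^2 ∣ u^2 := ⟨n, by rw [h]; ring⟩
  have h2 : v ∣ u := (Int.pow_dvd_pow_iff (by norm_num)).1 h1
  obtain ⟨m, rfl⟩ := h2
  refine ⟨m, ?_⟩
  have h3 : v^2 * (m^2 - n) = 0 := by linear_combination h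
  rcases mul_eq_zero.1 h3 with h4 | h4
  · exact absurd (pow_eq_zero_iff (by norm_num) |>.1 h4) hv
  · linarith

/-- the norm form of `θ` does not vanish -/
private theorem l2_norm (p q ρ u v : ℤ) (hpq : 0 < p * q) (hρ : 0 < ρ) (eρ : ρ^2 = p*q+1)
    (hv : v ≠ 0) : 1 ≤ |u^2 + u*v*(4*(p*q)+2) + v^2| := by
  apply Int.one_le_abs
  intro h0
  -- (u + (2pq+1) v)^2 = 4 ρ^2 (pq) v^2
  have h1 : (u + (2*(p*q)+1)*v)^2 = (p*q) * (2*ρ*v)^2 := by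
    linear_combination h0 - (4*(p*q)*v^2) * eρ
  have h2 : 2*ρ*v ≠ 0 := mul_ne_zero (mul_ne_zero two_ne_zero hρ.ne') hv
  obtain ⟨m, hm⟩ := l2_rat (p*q) _ _ h2 h1
  exact l2_nosq p q ρ m hpq hρ eρ hm

private theorem l2_gap (p q X ρ σ τ w : ℝ) (hp : 1 ≤ p) (hq : 1 ≤ q) (hX : 1 ≤ X)
    (hρ : 0 < ρ) (hσ : 0 < σ) (hτ : 0 < τ) (hw : 1 ≤ w) (ew : w^2 = p*q) (eρ : ρ^2 = p*q+1)
    (eσ : σ^2 = p*X+1) (eτ : τ^2 = q*X+1) :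
    0 ≤ (p+q+X+2*p*q*X+2*ρ*σ*τ) - (ρ+w)^2 * X ∧
      (p+q+X+2*p*q*X+2*ρ*σ*τ) - (ρ+w)^2 * X ≤ 3*(p+q)^2 := by
  have e1 : (p+q+X+2*p*q*X+2*ρ*σ*τ) - (ρ+w)^2 * X = p + q + 2*ρ*(σ*τ - w*X) := by
    linear_combination (-X)*eρ - X*ew
  have hwX : 0 < w*X := by positivity
  have hst : 0 < σ*τ := by positivity
  have e2 : (σ*τ)^2 = (w*X)^2 + (p+q)*X + 1 := by
    linear_combination (τ^2) * eσ + (p*X+1) * eτ - X^2 * ew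
  have h1 : w*X ≤ σ*τ := by
    apply le_of_sq_le_sq _ hst.le |>.trans le_rfl
    rw [e2]; nlinarith
  have h2 : σ*τ - w*X ≤ (p+q+1)/2 := by
    have h3 : (σ*τ - w*X) * (σ*τ + w*X) = (p+q)*X+1 := by linear_combination e2
    have h4 : 2*X ≤ σ*τ + w*X := by nlinarith
    have h5 : (σ*τ - w*X) * (2*X) ≤ (p+q+1)*X := by
      have := mul_le_mul_of_nonneg_left h4 (sub_nonneg.2 h1)
      nlinarith
    have h6 : (σ*τ - w*X) * (2*X) ≤ ((p+q+1)/2) * (2*X) := by linarith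
    exact le_of_mul_le_mul_right h6 (by positivity)
  have h7 : ρ ≤ p+q := by
    apply le_of_sq_le_sq _ (by positivity)
    nlinarith
  rw [e1]
  have h8 : 0 ≤ σ*τ - w*X := sub_nonneg.2 h1
  constructor
  · positivity
  · have h9 : 2*ρ*(σ*τ - w*X) ≤ 2*(p+q)*((p+q+1)/2) := by
      apply mul_le_mul (by linarith) h2 h8 (by positivity)
    nlinarith

theorem liou2 (p q X ρ σ τ u v : ℤ) (hp : 0 < p) (hq : 0 < q) (hX : 0 < X)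
    (hρ : 0 < ρ) (hσ : 0 < σ) (hτ : 0 < τ) (eρ : ρ^2 = p*q+1) (eσ : σ^2 = p*X+1)
    (eτ : τ^2 = q*X+1) (hv : v ≠ 0) :
    X ≤ (|u| + |v|) * (|u*X+v*(p+q+X+2*p*q*X+2*ρ*σ*τ)| + |v| * (3*(p+q)^2)) := by
  have hpq : 0 < p * q := mul_pos hp hq
  have hnorm := l2_norm p q ρ u v hpq hρ eρ hv
  -- real numbers
  obtain ⟨w, hw⟩ : ∃ w : ℝ, w = Real.sqrt ((p:ℝ)*q) := ⟨_, rfl⟩
  have hp1 : (1:ℝ) ≤ p := by exact_mod_cast hp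
  have hq1 : (1:ℝ) ≤ q := by exact_mod_cast hq
  have hX1 : (1:ℝ) ≤ X := by exact_mod_cast hX
  have hρ0 : (0:ℝ) < ρ := by exact_mod_cast hρ
  have hσ0 : (0:ℝ) < σ := by exact_mod_cast hσ
  have hτ0 : (0:ℝ) < τ := by exact_mod_cast hτ
  have hpq1 : (1:ℝ) ≤ (p:ℝ)*q := by nlinarith
  have ew : w^2 = (p:ℝ)*q := by rw [hw]; exact Real.sq_sqrt (by positivity)
  have hw1 : 1 ≤ w := by rw [hw]; exact Real.one_le_sqrt.2 hpq1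
  have eρ' : (ρ:ℝ)^2 = p*q+1 := by exact_mod_cast eρ
  have eσ' : (σ:ℝ)^2 = p*X+1 := by exact_mod_cast eσ
  have eτ' : (τ:ℝ)^2 = q*X+1 := by exact_mod_cast eτ
  obtain ⟨g1, g2⟩ := l2_gap p q X ρ σ τ w hp1 hq1 hX1 hρ0 hσ0 hτ0 hw1 ew eρ' eσ' eτ'
  obtain ⟨Y, hY⟩ : ∃ Y : ℝ, Y = (p+q+X+2*p*q*X+2*ρ*σ*τ : ℝ) := ⟨_, rfl⟩
  rw [← hY] at g1 g2
  -- conjugates
  have hprod : ((u:ℝ) + v*(ρ+w)^2) * (u + v*(ρ-w)^2) = u^2 + u*v*(4*(p*q)+2) + v^2 := by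
    have h1 : ((ρ:ℝ)+w)*(ρ-w) = 1 := by linear_combination eρ' - ew
    have h2 : ((ρ:ℝ)+w)^2*(ρ-w)^2 = 1 := by rw [← mul_pow, h1, one_pow]
    linear_combination (v:ℝ)^2 * h2 + 2*u*v*eρ' + 2*u*v*ew
  have hn1 : (1:ℝ) ≤ |(u:ℝ) + v*(ρ+w)^2| * |(u:ℝ) + v*(ρ-w)^2| := by
    rw [← abs_mul, hprod]
    exact_mod_cast hnorm
  have hθ' : ((ρ:ℝ)-w)^2 ≤ 1 := by
    have h1 : ((ρ:ℝ)+w)*(ρ-w) = 1 := by linear_combination eρ' - ew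
    have h2 : 1 ≤ ρ + w := by linarith
    have h3 : 0 < (ρ:ℝ) - w := by
      by_contra hcon
      push Not at hcon
      nlinarith
    have h4 : (ρ:ℝ) - w ≤ 1 := by nlinarith
    nlinarith
  have hθ0 : 0 ≤ ((ρ:ℝ)-w)^2 := sq_nonneg _
  have hc2 : |(u:ℝ) + v*(ρ-w)^2| ≤ |(u:ℝ)| + |(v:ℝ)| := by
    refine (abs_add_le _ _).trans ?_
    rw [abs_mul, abs_of_nonneg hθ0]
    have : |(v:ℝ)| * ((ρ:ℝ)-w)^2 ≤ |(v:ℝ)| * 1 := mul_le_mul_of_nonneg_left hθ' (abs_nonneg _)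
    linarith
  have hn2 : (1:ℝ) ≤ |(u:ℝ) + v*(ρ+w)^2| * (|(u:ℝ)| + |(v:ℝ)|) :=
    hn1.trans (mul_le_mul_of_nonneg_left hc2 (abs_nonneg _))
  have hc3 : |(u:ℝ) + v*(ρ+w)^2| * X ≤ |(u:ℝ)*X + v*Y| + |(v:ℝ)| * (3*(p+q)^2) := by
    have e1 : ((u:ℝ) + v*(ρ+w)^2) * X = ((u:ℝ)*X + v*Y) - v*(Y - (ρ+w)^2*X) := by ring
    have e2 : |(u:ℝ) + v*(ρ+w)^2| * X = |((u:ℝ) + v*(ρ+w)^2) * X| := by
      rw [abs_mul, abs_of_pos (by linarith : (0:ℝ) < X)]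
    rw [e2, e1]
    refine (abs_sub _ _).trans ?_
    have : |(v:ℝ) * (Y - (ρ+w)^2*X)| ≤ |(v:ℝ)| * (3*(p+q)^2) := by
      rw [abs_mul, abs_of_nonneg g1]
      exact mul_le_mul_of_nonneg_left g2 (abs_nonneg _)
    linarith
  have hfin : (X:ℝ) ≤ (|(u:ℝ)| + |(v:ℝ)|) * (|(u:ℝ)*X + v*Y| + |(v:ℝ)| * (3*(p+q)^2)) := by
    have h1 : (X:ℝ) ≤ (|(u:ℝ) + v*(ρ+w)^2| * (|(u:ℝ)| + |(v:ℝ)|)) * X := by
      have := mul_le_mul_of_nonneg_right hn2 (by linarith : (0:ℝ) ≤ X)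
      linarith
    have h2 : (|(u:ℝ)| + |(v:ℝ)|) * (|(u:ℝ) + v*(ρ+w)^2| * X)
        ≤ (|(u:ℝ)| + |(v:ℝ)|) * (|(u:ℝ)*X + v*Y| + |(v:ℝ)| * (3*(p+q)^2)) :=
      mul_le_mul_of_nonneg_left hc3 (by positivity)
    calc (X:ℝ) ≤ _ := h1
      _ = (|(u:ℝ)| + |(v:ℝ)|) * (|(u:ℝ) + v*(ρ+w)^2| * X) := by ring
      _ ≤ _ := h2
  rw [hY] at hfin
  exact_mod_cast hfin

end Irr
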