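import Pool.Agent.Lib.Irr.Descent
import Pool.Agent.Lib.Irr.Liou2

/-!
# Module LinRelB (about 100 lines): `linrel4` (see the PROOF notes below)

Linear relations in non-Euler triples, and relations with the regular extension.

PROOF of `linrel`. Let `e', f', g'` be the descent of `(p,q;X)`; `e' ≠ 0`, since `e' = 0` gives
`f' = g' = 1` and `X = p+q+2ρ`. So `e' >= 1` and `X >= 4 p q e'` (`2ρf'g' >= 2pqe'` because
`(ρf'g')^2 = (pq+1)(pe'+1)(qe'+1) >= (pqe')^2`). WLOG `p < q` (symmetric; `p ≠ q` since `p^2+1` is not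
a square). `4pqe' <= X <= |α3 X| = |α1 p + α2 q| <= 2Uq`, so `p e' <= U/2`, and
`p + e' <= p e' + 1 <= U/2 + 1`. Apply `liou2` to `(p, e'; q)` (roots `f', ρ, g'`), whose regular
extension is `X = p+e'+q+2pe'q+2f'ρg'`, with `u = α2`, `v = α3`: `α2 q + α3 X = -α1 p`, so
`q <= (|α2|+|α3|)(U p + |α3| 3 (p+e')^2) <= 2U (U^2/2 + 3U (U/2+1)^2)`; for `U >= 32` we have
`(U/2+1)^2 <= 0.29 U^2`, `q <= 2U (U^2/2 + 0.87U^3) <= 1.8 U^4`. `X <= 2Uq <= 4U^5`.

PROOF of `linrel4`. `c >= 4abe`. Case `e < b`: `2c <= |2jc| <= U(a+b+e) <= 3Ub`, so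
`8ae <= 3U`... precisely `8abe <= 2c <= 3Ub`. `a + e <= ae + 1`. `liou2` for `(a,e;b)` (roots
`f, r, g`, extension `c = a+e+b+2aeb+2frg`) with `u = -B`, `v = -2j`:
`uX+vY = -B b - 2 j c = -(A a + C e)`, `|.| <= U (a+e) <= U (3U/8+1)`, `|2j| c <= 3Ub` and
`c >= 4b` (`4abe >= 4b`), so `|v| <= 3U/4`: `b <= (U + 3U/4)(U(3U/8+1) + (3U/4) 3 (3U/8+1)^2)`;
for `U >= 32`: `3U/8+1 <= 0.41U`, so `b <= 1.75U (0.41U^2 + 2.25*0.17 U^3) <= U^4`, `c <= 3Ub/2
<= 2U^5`. Case `e > b` (`e ≠ b`: `b^2+1` is not a square): symmetric, `2c <= 3Ue`, `8ab <= 3U`,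
`liou2` for `(a,b;e)` (roots `r, f, g`) with `u = C`, `v = -2j`, `uX+vY = C e - 2jc = B b - A a`.
-/

namespace Irr

private theorem final4 (s U X Y v w : ℤ) (hs : 0 < s) (hU : 32 ≤ U) (hsU : 8*s ≤ 3*U+8)
    (hv0 : 0 ≤ v) (hv : 4*v ≤ 3*U) (hw : w ≤ U*s) (hX : X ≤ (U+v)*(w+v*(3*s^2)))
    (hw0 : 0 ≤ w) (hY : 2*Y ≤ 3*U*X) : Y ≤ 2*U^5 := by
  have h32 : 32*s ≤ 13*U := by linarith
  have hU0 : 0 < U := by linarith
  have hs2 : 0 < s^2 := by positivity
  have h1 : 4*(w + v*(3*s^2)) ≤ U*(4*s+9*s^2) := by nlinarith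
  have h0 : 0 ≤ w + v*(3*s^2) := by positivity
  have h2 : 4*(U+v) ≤ 7*U := by linarith
  have h3 : 16*X ≤ 7*U*(U*(4*s+9*s^2)) := by
    have h4 : (4*(U+v))*(4*(w+v*(3*s^2))) ≤ (7*U)*(U*(4*s+9*s^2)) :=
      mul_le_mul h2 h1 (by linarith) (by linarith)
    nlinarith
  have h5 : 1024*(4*s+9*s^2) ≤ 1573*U^2 := by
    have h6 : (32*s)^2 ≤ (13*U)^2 := by
      apply pow_le_pow_left₀ (by linarith) h32
    nlinarith
  have hUU : 0 < U^2 := by positivity
  have h7 : 16384*X ≤ 11011*U^4 := by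
    have h8 : U^2*(1024*(4*s+9*s^2)) ≤ U^2*(1573*U^2) := mul_le_mul_of_nonneg_left h5 hUU.le
    nlinarith
  have h9 : U*(16384*X) ≤ U*(11011*U^4) := mul_le_mul_of_nonneg_left h7 hU0.le
  have h10 : 0 < U^5 := by positivity
  nlinarith

/-- a small linear relation involving the regular extension `c` of `{a,b,e}` -/
theorem linrel4 (a b e c r f g A B C j U : ℤ) (ha : 0 < a) (hab : a < b) (he : 0 < e)
    (hr : 0 < r) (hf : 0 < f) (hg : 0 < g) (er : r^2 = a*b+1) (ef : f^2 = a*e+1)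
    (eg : g^2 = b*e+1) (hc : c = a+b+e+2*a*b*e+2*r*f*g) (hU : 32 ≤ U) (hA : |A| ≤ U)
    (hB : |B| ≤ U) (hC : |C| ≤ U) (hj : j ≠ 0) (hrel : A*a-B*b+C*e = 2*j*c) : c ≤ 2*U^5 := by
  have hb : 0 < b := by linarith
  have hU0 : 0 < U := by linarith
  have hrfg : a*b*e ≤ r*f*g := by
    by_contra hlt
    push Not at hlt
    have h1 : (r*f*g)^2 < (a*b*e)^2 := pow_lt_pow_left₀ hlt (by positivity) (by norm_num)
    have h2 : (r*f*g)^2 = (a*b+1)*(a*e+1)*(b*e+1) := by rw [mul_pow, mul_pow, er, ef, eg]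
    have h3 : (a*b+1)*(a*e+1)*(b*e+1) = (a*b*e)^2 + (a*b)*(a*e) + (a*b)*(b*e) + (a*e)*(b*e)
      + a*b + a*e + b*e + 1 := by ring
    have h4 : 0 < (a*b)*(a*e) + (a*b)*(b*e) + (a*e)*(b*e) + a*b + a*e + b*e + 1 := by positivity
    linarith
  have hc4 : 4*(a*b*e) + a + b + e ≤ c := by
    rw [hc]
    linarith
  have hae : 1 ≤ a*e := by nlinarith
  have habp : 1 ≤ a*b := by nlinarith
  have hj1 : 1 ≤ |j| := Int.one_le_abs hj
  have hc0 : 0 < c := by
    have : 0 < a*b*e := by positivity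
    linarith
  have hjc : |2*j| * c ≤ U*(a+b+e) := by
    have h1 : |2*j| * c = |A*a-B*b+C*e| := by rw [hrel, abs_mul (2*j) c, abs_of_pos hc0]
    rw [h1]
    calc |A*a-B*b+C*e| ≤ |A*a-B*b| + |C*e| := abs_add_le _ _
      _ ≤ |A*a| + |B*b| + |C*e| := by
          have := abs_sub (A*a) (B*b)
          linarith
      _ = |A| * a + |B| * b + |C| * e := by
          rw [abs_mul, abs_mul, abs_mul, abs_of_pos ha, abs_of_pos hb, abs_of_pos he]
      _ ≤ U*a + U*b + U*e := by
          have h1 := mul_le_mul_of_nonneg_right hA ha.le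
          have h2 := mul_le_mul_of_nonneg_right hB hb.le
          have h3 := mul_le_mul_of_nonneg_right hC he.le
          linarith
      _ = U*(a+b+e) := by ring
  have h2j : |2*j| = 2*|j| := by
    rw [abs_mul]
    norm_num
  rcases lt_trichotomy e b with heb | heb | heb
  · -- e < b
    have h1 : |2*j| * c ≤ 3*U*b := by nlinarith
    have h2 : 2*c ≤ 3*U*b := by nlinarith
    have h3 : 8*(a*e) ≤ 3*U := by
      by_contra hlt
      push Not at hlt
      nlinarith
    have h4 : a + e ≤ a*e+1 := by nlinarith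
    have h5 : 4*b ≤ c := by nlinarith
    have h6 : 4*|2*j| ≤ 3*U := by
      by_contra hlt
      push Not at hlt
      have h7 : |2*j| * (4*b) ≤ |2*j| * c := mul_le_mul_of_nonneg_left h5 (abs_nonneg _)
      nlinarith
    have hl := liou2 a e b f r g (-B) (-(2*j)) ha he hb hf hr hg ef er (by rw [eg]; ring)
      (by
        intro h0
        apply hj
        linarith)
    have hY : a+e+b+2*a*e*b+2*f*r*g = c := by
      rw [hc]
      ring
    rw [hY, abs_neg, abs_neg] at hl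
    have hrel2 : (-B)*b+(-(2*j))*c = -(A*a+C*e) := by linarith
    rw [hrel2, abs_neg] at hl
    refine final4 (a+e) U b c |2*j| |A*a+C*e| (by linarith) hU (by linarith) (abs_nonneg _) h6 ?_ ?_
      (abs_nonneg _) h2
    · calc |A*a+C*e| ≤ |A*a| + |C*e| := abs_add_le _ _
        _ = |A| * a + |C| * e := by rw [abs_mul, abs_mul, abs_of_pos ha, abs_of_pos he]
        _ ≤ U*(a+e) := by
          have h1 := mul_le_mul_of_nonneg_right hA ha.le
          have h3 := mul_le_mul_of_nonneg_right hC he.le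
          linarith
    · refine hl.trans ?_
      refine mul_le_mul_of_nonneg_right (by linarith) ?_
      positivity
  · -- e = b
    exfalso
    subst heb
    have h1 : g^2 = e^2+1 := by rw [eg]; ring
    have h2 : e < g := by
      by_contra hlt
      push Not at hlt
      nlinarith
    nlinarith
  · -- b < e
    have h1 : |2*j| * c ≤ 3*U*e := by nlinarith
    have h2 : 2*c ≤ 3*U*e := by nlinarith
    have h3 : 8*(a*b) ≤ 3*U := by
      by_contra hlt
      push Not at hlt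
      nlinarith
    have h4 : a + b ≤ a*b+1 := by nlinarith
    have h5 : 4*e ≤ c := by nlinarith
    have h6 : 4*|2*j| ≤ 3*U := by
      by_contra hlt
      push Not at hlt
      have h7 : |2*j| * (4*e) ≤ |2*j| * c := mul_le_mul_of_nonneg_left h5 (abs_nonneg _)
      nlinarith
    have hl := liou2 a b e r f g C (-(2*j)) ha hb he hr hf hg er ef eg
      (by
        intro h0
        apply hj
        linarith)
    have hY : a+b+e+2*a*b*e+2*r*f*g = c := hc.symm
    rw [hY, abs_neg] at hl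
    have hrel2 : C*e+(-(2*j))*c = -(A*a-B*b) := by linarith
    rw [hrel2, abs_neg] at hl
    refine final4 (a+b) U e c |2*j| |A*a-B*b| (by linarith) hU (by linarith) (abs_nonneg _) h6 ?_ ?_
      (abs_nonneg _) h2
    · calc |A*a-B*b| ≤ |A*a| + |B*b| := abs_sub _ _
        _ = |A| * a + |B| * b := by rw [abs_mul, abs_mul, abs_of_pos ha, abs_of_pos hb]
        _ ≤ U*(a+b) := by
          have h1 := mul_le_mul_of_nonneg_right hA ha.le
          have h3 := mul_le_mul_of_nonneg_right hB hb.le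
          linarith
    · refine hl.trans ?_
      refine mul_le_mul_of_nonneg_right (by linarith) ?_
      positivity


end Irr
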