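import Pool.Agent.Lib.Irr.Descent
import Pool.Agent.Lib.Irr.Liou2

/-!
# Module LinRelA (about 110 lines): `linrel` (see the PROOF notes below)

Linear relations in non-Euler triples, and relations with the regular extension.

PROOF of `linrel`. Let `e', f', g'` be the descent of `(p,q;X)`; `e' ≠ 0`, since `e' = 0` gives
`f' = g' = 1` and `X = p+q+2ρ`. So `e' >= 1` and `X >= 4 p q e'` (`2ρf'g' >= 2pqe'` because
`(ρf'g')^2 = (pq+1)(pe'+1)(qe'+1) >= (pqe')^2`). WLOG `p < q` (symmetric; `p ≠ q` since `p^2+1` is not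
a square). `4pqe' <= X <= |α3 X| = |α1 p + α2 q| <= 2Uq`, so `p e' <= U/2`, and
`p + e' <= p e' + 1 <= U/2 + 1`. Apply `liou2` to `(p, e'; q)` (roots `f', ρ, g'`), whose regular
extension is `X = p+e'+q+2pe'q+2f'ρg'`, with `u = α2`, `v = α3`: `α2 q + α3 X = -α1 p`, so
`q <= (|α2|+|α3|)(U p + |α3| 3 (p+e')^2) <= 2U (U^2/2 + 3U (U/2+1)^2)`; for `U >= 32` we have
`(U/2+1)^2 <= 0.29 U^2`, `q <= 2U (U^2/2 + 0.87U^3) <= 1.8 U^4`. `X <= 2Uq <= 4U^5`.

PROOF of `linrel4`. `c >= 4abe`. Case `e < b`: `2c <= |2jc| <= U(a+b+e) <= 3Ub`, so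
`8ae <= 3U`... precisely `8abe <= 2c <= 3Ub`. `a + e <= ae + 1`. `liou2` for `(a,e;b)` (roots
`f, r, g`, extension `c = a+e+b+2aeb+2frg`) with `u = -B`, `v = -2j`:
`uX+vY = -B b - 2 j c = -(A a + C e)`, `|.| <= U (a+e) <= U (3U/8+1)`, `|2j| c <= 3Ub` and
`c >= 4b` (`4abe >= 4b`), so `|v| <= 3U/4`: `b <= (U + 3U/4)(U(3U/8+1) + (3U/4) 3 (3U/8+1)^2)`;
for `U >= 32`: `3U/8+1 <= 0.41U`, so `b <= 1.75U (0.41U^2 + 2.25*0.17 U^3) <= U^4`, `c <= 3Ub/2
<= 2U^5`. Case `e > b` (`e ≠ b`: `b^2+1` is not a square): symmetric, `2c <= 3Ue`, `8ab <= 3U`,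
`liou2` for `(a,b;e)` (roots `r, f, g`) with `u = C`, `v = -2j`, `uX+vY = C e - 2jc = B b - A a`.
-/

namespace Irr

private theorem linrel_lt (p q X ρ σ τ α1 α2 α3 U : ℤ) (hp : 0 < p) (hq : 0 < q) (hpX : p < X)
    (hqX : q < X) (hρ : 0 < ρ) (hσ : 0 < σ) (hτ : 0 < τ) (eρ : ρ^2 = p*q+1) (eσ : σ^2 = p*X+1)
    (eτ : τ^2 = q*X+1) (hne : X ≠ p+q+2*ρ) (hU : 32 ≤ U) (h1 : |α1| ≤ U) (h2 : |α2| ≤ U)
    (h3 : |α3| ≤ U) (hα : α3 ≠ 0) (hrel : α1*p+α2*q+α3*X = 0) (hpq : p < q) : X ≤ 4*U^5 := by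
  obtain ⟨e, f, g, -, -, -, he0, -, hf, hg, ef, eg, -, -, eX⟩ :=
    descent p q X ρ σ τ hp hq hpX hqX hρ hσ hτ eρ eσ eτ
  have hU0 : 0 < U := by linarith
  -- the descent is not trivial
  have he : 1 ≤ e := by
    rcases he0.lt_or_eq with h | h
    · exact h
    · exfalso
      apply hne
      have hf1 : f = 1 := by
        rw [← h, mul_zero, zero_add] at ef
        nlinarith
      have hg1 : g = 1 := by
        rw [← h, mul_zero, zero_add] at eg
        nlinarith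
      rw [eX, ← h, hf1, hg1]
      ring
  have hpe : 0 < p * e := mul_pos hp (by linarith)
  have hpqe : 0 < p * q * e := mul_pos (mul_pos hp hq) (by linarith)
  -- lower bound for `X`
  have hρfg : p * q * e ≤ ρ * f * g := by
    by_contra hcon
    push Not at hcon
    have h0 : 0 < ρ * f * g := mul_pos (mul_pos hρ hf) hg
    have hsq : (ρ * f * g) ^ 2 < (p * q * e) ^ 2 := pow_lt_pow_left₀ hcon h0.le two_ne_zero
    have hsq2 : (ρ * f * g) ^ 2 = (p * q + 1) * (p * e + 1) * (q * e + 1) := by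
      rw [mul_pow, mul_pow, eρ, ef, eg]
    have hqe : 0 < q * e := mul_pos hq (by linarith)
    have hpq0 : 0 < p * q := mul_pos hp hq
    have h4 : (p * q * e) ^ 2 = (p * q) * (p * e) * (q * e) := by ring
    have h5 : (p * q) * (p * e) * (q * e) ≤ (p * q + 1) * (p * e + 1) * (q * e + 1) := by
      have a1 : (p * q) * (p * e) ≤ (p * q + 1) * (p * e + 1) :=
        mul_le_mul (by linarith) (by linarith) hpe.le (by linarith)
      exact mul_le_mul a1 (by linarith) hqe.le (by positivity)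
    linarith
  have hX4 : 4 * (p * q * e) ≤ X := by
    have : X = p + q + e + 2 * (p * q * e) + 2 * (ρ * f * g) := by rw [eX]; ring
    linarith
  -- upper bound for `X`
  have hX2 : X ≤ 2 * U * q := by
    have hX0 : 0 < X := by linarith
    have a1 : |α3| * X = |α1 * p + α2 * q| := by
      have : α3 * X = -(α1 * p + α2 * q) := by linarith
      calc |α3| * X = |α3| * |X| := by rw [abs_of_pos hX0]
        _ = |α3 * X| := (abs_mul _ _).symm
        _ = |α1 * p + α2 * q| := by rw [this, abs_neg]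
    have a2 : |α1 * p + α2 * q| ≤ |α1| * p + |α2| * q := by
      refine (abs_add_le _ _).trans ?_
      rw [abs_mul, abs_mul, abs_of_pos hp, abs_of_pos hq]
    have a3 : 1 ≤ |α3| := Int.one_le_abs hα
    have a4 : X ≤ |α3| * X := le_mul_of_one_le_left hX0.le a3
    have a5 : |α1| * p ≤ U * q := mul_le_mul h1 hpq.le hp.le hU0.le
    have a6 : |α2| * q ≤ U * q := mul_le_mul_of_nonneg_right h2 hq.le
    linarith
  have hpeU : 2 * (p * e) ≤ U := by
    have a1 : (2 * (p * e)) * (2 * q) ≤ U * (2 * q) := by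
      have e1 : (2 * (p * e)) * (2 * q) = 4 * (p * q * e) := by ring
      have e2 : U * (2 * q) = 2 * U * q := by ring
      rw [e1, e2]
      linarith
    exact le_of_mul_le_mul_right a1 (by linarith)
  have hpp : p ≤ p * e := le_mul_of_one_le_right hp.le he
  have hsum : p + e ≤ p * e + 1 := by nlinarith
  -- the Liouville inequality
  have hL := liou2 p e q f ρ g α2 α3 hp (by linarith) hq hf hρ hg ef eρ
    (by rw [eg]; ring) hα
  have hY : p + e + q + 2 * p * e * q + 2 * f * ρ * g = X := by rw [eX]; ring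
  rw [hY] at hL
  have hab : |α2 * q + α3 * X| ≤ U * p := by
    have : α2 * q + α3 * X = -(α1 * p) := by linarith
    rw [this, abs_neg, abs_mul, abs_of_pos hp]
    exact mul_le_mul_of_nonneg_right h1 hp.le
  have hb1 : |α3| * (3 * (p + e) ^ 2) ≤ U * (3 * (p + e) ^ 2) :=
    mul_le_mul_of_nonneg_right h3 (by positivity)
  have hq1 : q ≤ (2 * U) * (U * p + U * (3 * (p + e) ^ 2)) := by
    refine hL.trans (mul_le_mul (by linarith) (add_le_add hab hb1) ?_ (by linarith))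
    exact add_nonneg (abs_nonneg _) (mul_nonneg (abs_nonneg _) (by positivity))
  have hs2 : 4 * (p + e) ^ 2 ≤ (U + 2) ^ 2 := by
    have a1 : 2 * (p + e) ≤ U + 2 := by linarith
    have a2 : (2 * (p + e)) ^ 2 ≤ (U + 2) ^ 2 := pow_le_pow_left₀ (by linarith) a1 2
    nlinarith
  have hq2 : 4 * q ≤ 2 * U ^ 2 * (2 * U + 3 * (U + 2) ^ 2) := by
    have a1 : 4 * (U * p + U * (3 * (p + e) ^ 2)) ≤ U * (2 * U + 3 * (U + 2) ^ 2) := by
      have e1 : 4 * (U * p + U * (3 * (p + e) ^ 2)) =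
          U * (2 * (2 * p) + 3 * (4 * (p + e) ^ 2)) := by ring
      rw [e1]
      exact mul_le_mul_of_nonneg_left (by linarith) hU0.le
    have a2 : (2 * U) * (4 * (U * p + U * (3 * (p + e) ^ 2))) ≤
        (2 * U) * (U * (2 * U + 3 * (U + 2) ^ 2)) :=
      mul_le_mul_of_nonneg_left a1 (by linarith)
    have e2 : (2 * U) * (U * (2 * U + 3 * (U + 2) ^ 2)) =
      2 * U ^ 2 * (2 * U + 3 * (U + 2) ^ 2) := by ring
    have e3 : (2 * U) * (4 * (U * p + U * (3 * (p + e) ^ 2))) =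
      4 * ((2 * U) * (U * p + U * (3 * (p + e) ^ 2))) := by ring
    rw [e2, e3] at a2
    linarith
  have hfin : 2 * U + 3 * (U + 2) ^ 2 ≤ 4 * U ^ 2 := by nlinarith
  have hq3 : 4 * q ≤ 2 * U ^ 2 * (4 * U ^ 2) :=
    hq2.trans (mul_le_mul_of_nonneg_left hfin (by positivity))
  have hq4 : q ≤ 2 * U ^ 4 := by
    have e1 : 2 * U ^ 2 * (4 * U ^ 2) = 4 * (2 * U ^ 4) := by ring
    rw [e1] at hq3
    linarith
  have hq5 : 2 * U * q ≤ 2 * U * (2 * U ^ 4) := mul_le_mul_of_nonneg_left hq4 (by linarith)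
  have e1 : 2 * U * (2 * U ^ 4) = 4 * U ^ 5 := by ring
  rw [e1] at hq5
  linarith

/-- a small linear relation forces a non-Euler triple to be small -/
theorem linrel (p q X ρ σ τ α1 α2 α3 U : ℤ) (hp : 0 < p) (hq : 0 < q) (hpX : p < X) (hqX : q < X)
    (hρ : 0 < ρ) (hσ : 0 < σ) (hτ : 0 < τ) (eρ : ρ^2 = p*q+1) (eσ : σ^2 = p*X+1)
    (eτ : τ^2 = q*X+1) (hne : X ≠ p+q+2*ρ) (hU : 32 ≤ U) (h1 : |α1| ≤ U) (h2 : |α2| ≤ U)
    (h3 : |α3| ≤ U) (hα : α3 ≠ 0) (hrel : α1*p+α2*q+α3*X = 0) : X ≤ 4*U^5 := by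
  rcases lt_trichotomy p q with h | h | h
  · exact linrel_lt p q X ρ σ τ α1 α2 α3 U hp hq hpX hqX hρ hσ hτ eρ eσ eτ hne hU h1 h2 h3 hα
      hrel h
  · exfalso
    rw [← h] at eρ
    have a1 : p < ρ := by nlinarith
    nlinarith
  · exact linrel_lt q p X ρ τ σ α2 α1 α3 U hq hp hqX hpX hρ hτ hσ (by rw [eρ]; ring) eτ eσ
      (fun h' => hne (by rw [h']; ring)) hU h2 h1 h3 hα (by linarith) h

end Irr
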