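import Pool.Agent.Lib.Irr.Descent
import Pool.Agent.Lib.Irr.Ev

/-!
# Module T0b (about 200 lines): `T0_bound` (see the PROOF notes below)

The case `D = 0` of a non-Euler triple `(a,b,c)`. Write `K = |M|`, `4 <= |N| <= K`.

Since `D = 0` we have `ζ = ξ = η = 1`, `P = a+c-2s`, `Q = b+c-2t`, and `rel` says
`aM^2 + 2sM - bN^2 - 2tN = 2jc + c(M-N) = 2j'c` (`M - N` even).

PROOF of `T0_exact` (contradiction if `c >= 17 K^2 b`). `t^2 = bc+1 <= c^2/(17K^2) + 1 <= c^2/(16K^2)`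
(`c >= 17K^2 b >= 17K^2`, so `c^2 >= 272 K^2`), hence `tK <= c/4`, `sK <= c/4`, `bK^2 <= c/17`. So
`aM^2+2sM` and `bN^2+2tN` lie in `[-c/2, c/17+c/2]` and their difference is `< 2c` in absolute
value, so `j' = 0`: `aM^2+2sM = bN^2+2tN`. Now
`(sM-tN)(sM+tN) = (ac+1)M^2 - (bc+1)N^2 = c(aM^2-bN^2) + M^2-N^2 = -2c(sM-tN) + M^2-N^2`, i.e.
`(sM-tN)(sM+tN+2c) = M^2-N^2`, where `sM+tN+2c >= 3c/2` and `0 <= M^2-N^2 <= K^2 < 3c/2`. So
`sM = tN` and `M^2 = N^2`, `M = N` (`MN > 0`), `s = t`, contradiction to `a < b`.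

PROOF of `T0_bound`. So `c < 17K^2b`. Let `e, f, g` be the descent of `(a,b;c)` (`p=a, q=b, ρ=r,
σ=s, τ=t`): `t = b f + r g`, `c = a+b+e+2abe+2rfg`, `f^2 = ae+1`, `g^2 = be+1`; `e ≠ 0` by `hirr`
(`regP_factor` at `x = 0`, or: `regP a b c 0 = 0` iff `e (e + 4rst) = 0`), so `e >= 1`, `c >= 4abe`,
`4ae < 17K^2`. Real numbers: `w = √(ae) >= 1`, `η = f + w`, `η' = f - w = 1/η ∈ (0,1)`.
(i) `0 < rg - bw <= ((a+e)b+1)/(2bw) <= (a+e+1)/2` since `(rg)^2 = (ab+1)(be+1) = (bw)^2 + b(a+e) + 1`.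
So `t = bη + τ` with `0 < τ <= a+e <= ae+1 <= 5K^2`.
(ii) `b c = t^2 - 1 = (bη+τ)^2 - 1`, so `c = bη^2 + κ`, `κ = 2ητ + (τ^2-1)/b`,
`-1 <= κ <= 2ητ + τ^2`. `η <= 2f`, `η^2 <= 4(ae+1) <= 25K^2`, `η <= 5K`: `|κ| <= 50K^3+25K^4`.
(iii) `bN^2+2tN+2j'c = aM^2+2sM` gives `b(N^2+2Nη+2j'η^2) = aM^2+2sM-2Nτ-2j'κ`.
`|2j'c| <= aK^2+2sK+bK^2+2tK <= 2bK^2+4cK <= c(K^2/2+4K)` (`b <= c/4`, `s,t <= c`), so
`|j'| <= K^2`.
(iv) `|N^2+2Nη+2j'η^2| * 4K^2 >= 1`: the product with `N^2+2Nη'+2j'η'^2` (absolute value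
`<= K^2+2K+2K^2 <= 4K^2`) is an integer (`η+η' = 2f`, `ηη' = 1`) and it is not `0`: if one factor
vanishes, then (`w` irrational, `η^2 = 2f^2-1 ± 2fw`) `N = -2j'f` and `N^2+2Nf+2j'(2f^2-1) = 0`,
which give `2j'(2j'f^2-1) = 0`, so `j' = 0`, `N = 0`, contradiction.
(v) `s^2 = ac+1 <= 17aK^2b+1 <= 81 K^4 b` so `s <= 9K^2√b`. The right side of (iii) is at most
`(17/4)K^4 + 18K^3√b + 10K^3 + 2K^2(50K^3+25K^4) <= 18K^3√b + 76K^6` (`K >= 4`).
So `b <= 4K^2(18K^3√b+76K^6)`. If `√b <= K^4` done; else `√b <= 72K^5+304K^4 <= 148K^5`.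
`b <= 21904K^10`, `c <= 17K^2b <= (10K)^12`.
-/

namespace Irr

private theorem notsq_aux {f U V : ℤ} (hf : 2 ≤ f) (h : U^2 = (f^2-1)*V^2) :
    V = 0 ∧ U = 0 := by
  have hV : V = 0 := by
    by_contra hV
    have hd : V^2 ∣ U^2 := ⟨f^2-1, by rw [h]; ring⟩
    have hd' : V ∣ U := (Int.pow_dvd_pow_iff (by norm_num)).1 hd
    obtain ⟨m, rfl⟩ := hd'
    have hm : m^2 = f^2-1 := by
      have h0 : V^2*(m^2-(f^2-1)) = 0 := by linear_combination h
      rcases mul_eq_zero.1 h0 with h1 | h1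
      · exact absurd ((pow_eq_zero_iff (by norm_num)).1 h1) hV
      · linarith
    have h2 : (f-|m|)*(f+|m|) = 1 := by
      have h0 := sq_abs m
      linear_combination -hm - h0
    have h3 : 0 ≤ |m| := abs_nonneg m
    have h4 : 0 < f - |m| := by
      by_contra h4
      have h5 : (f-|m|)*(f+|m|) ≤ 0 :=
        mul_nonpos_of_nonpos_of_nonneg (not_lt.1 h4) (by linarith)
      linarith
    have h5 : 1*(f+|m|) ≤ (f-|m|)*(f+|m|) :=
      mul_le_mul_of_nonneg_right (by linarith) (by linarith)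
    linarith
  refine ⟨hV, ?_⟩
  rw [hV] at h
  simpa using h

/-- integer part: the descent data of the case `D = 0` -/
private theorem T0_int {a b c r s t P Q ζ ξ η M N j : ℤ}
    (h : Dat a b c r s t 0 P Q ζ ξ η M N j)
    (hirr : regP a b c 0 ≠ 0) (hc : c < 17*M^2*b) :
    ∃ e f g j' : ℤ, 1 ≤ e ∧ 2 ≤ f ∧ 0 < g ∧ f^2 = a*e+1 ∧ g^2 = b*e+1 ∧ t = b*f+r*g ∧
      4*(a*b*e) < c ∧ 4*(a*e) < 17*M^2 ∧ b*N^2+2*t*N+2*j'*c = a*M^2+2*s*M := by
  have ha := h.ha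
  have hb : 0 < b := ha.trans h.hab
  have hac : a < c := h.hab.trans h.hbc
  obtain ⟨e, f, g, he, hf, hg, he0, hec, hf0, hg0, hf2, hg2, hσ, hτ, hX⟩ :=
    descent a b c r s t ha hb hac h.hbc h.hr h.hs h.ht h.er h.es h.et
  have he1 : 1 ≤ e := by
    rcases lt_or_eq_of_le he0 with h1 | h1
    · exact h1
    · exfalso
      apply hirr
      rw [regP_factor a b c r s t 0 h.er h.es h.et]
      have h2 : (0 - (a+b+c+2*a*b*c-2*r*s*t)) = 0 := by
        rw [← he, ← h1]; ring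
      rw [h2, mul_zero]
  have hae : 1 ≤ a*e := by nlinarith
  have hf2' : 2 ≤ f := by
    by_contra hlt
    have h1 : f = 1 := by omega
    rw [h1] at hf2
    linarith
  have hrfg : a*b*e < r*f*g := by
    have hr := h.hr
    have h0 : 0 < r*f*g := by positivity
    apply lt_of_pow_lt_pow_left₀ 2 h0.le
    have h1 : (r*f*g)^2 = (a*b+1)*(a*e+1)*(b*e+1) := by
      rw [← h.er, ← hf2, ← hg2]; ring
    rw [h1]
    have h2 : 0 < a*b := mul_pos ha hb
    have h3 : 0 < a*e := by linarith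
    have h4 : 0 < b*e := by positivity
    have h5 : (a*b+1)*(a*e+1)*(b*e+1) - (a*b*e)^2 =
      (a*b)*(a*e)+(a*b)*(b*e)+(a*e)*(b*e)+a*b+a*e+b*e+1 := by ring
    have h6 : 0 < (a*b)*(a*e) := mul_pos h2 h3
    have h7 : 0 < (a*b)*(b*e) := mul_pos h2 h4
    have h8 : 0 < (a*e)*(b*e) := mul_pos h3 h4
    linarith
  have hc4 : 4*(a*b*e) < c := by linarith
  have h4ae : 4*(a*e) < 17*M^2 := by
    have h1 : b*(4*(a*e)) < b*(17*M^2) := by linarith
    exact lt_of_mul_lt_mul_left h1 hb.le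
  have hζ : ζ = 1 := by
    have h1 := h.eζ
    have h2 := h.hζ
    nlinarith
  have hξ : ξ = 1 := by
    have h1 := h.eξ
    have h2 := h.hξ
    nlinarith
  have hη : η = 1 := by
    have h1 := h.eη
    have h2 := h.hη
    nlinarith
  obtain ⟨m, hm⟩ := h.evM
  obtain ⟨n, hn⟩ := h.evN
  have hP := h.eP
  have hQ := h.eQ
  have hrel := h.rel
  rw [hP, hQ, hζ, hξ, hη] at hrel
  refine ⟨e, f, g, j+(m-n), he1, hf2', hg0, hf2, hg2, hτ, hc4, h4ae, ?_⟩
  rw [hm, hn] at hrel ⊢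
  linear_combination -hrel

private theorem le_of_sq_le_sq_aux {x z : ℝ} (_hx : 0 ≤ x) (hz : 0 ≤ z) (h : x^2 ≤ z^2) : x ≤ z :=
  le_of_sq_le_sq h hz

/-- analytic part -/
private theorem T0_real {a b c e f g r s t K M N j w y : ℝ} (ha : 1 ≤ a) (hb : 1 ≤ b)
    (hr : 0 < r) (hs : 0 < s) (ht : 0 < t) (hg : 0 < g) (hf : 2 ≤ f) (he : 1 ≤ e)
    (er : r^2 = a*b+1) (es : s^2 = a*c+1) (et : t^2 = b*c+1)
    (ef : f^2 = a*e+1) (eg : g^2 = b*e+1) (eτ : t = b*f+r*g) (hc4 : 4*(a*b*e) < c)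
    (hM : |M| = K) (hN : |N| ≤ K) (hK : 4 ≤ K) (hae : 4*(a*e) ≤ 17*K^2) (hc : c < 17*K^2*b)
    (hrel : b*N^2+2*t*N+2*j*c = a*M^2+2*s*M)
    (hw0 : 0 ≤ w) (hw : w^2 = a*e) (hy0 : 0 ≤ y) (hy : y^2 = b)
    (hnorm : 1 ≤ |(N^2+2*N*(f+w)+2*j*(f+w)^2)*(N^2+2*N*(f-w)+2*j*(f-w)^2)|) :
    c ≤ (10*K)^12 := by
  have hae1 : 1 ≤ a*e := one_le_mul_of_one_le_of_one_le ha he
  have hK2 : 4*K ≤ K^2 := by
    calc 4*K ≤ K*K := mul_le_mul_of_nonneg_right hK (by linarith)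
      _ = K^2 := by ring
  have hK2' : 16 ≤ K^2 := by linarith
  have hw1 : 1 ≤ w := by
    by_contra hlt
    have h1 : w < 1 := not_le.1 hlt
    have h2 : w^2 < 1 := pow_lt_one₀ hw0 h1 two_ne_zero
    linarith
  have hwf : w < f := by
    apply lt_of_pow_lt_pow_left₀ 2 (by linarith)
    rw [hw, ef]; linarith
  have hff : (f+w)*(f-w) = 1 := by linear_combination ef - hw
  have hfw0 : 0 < f-w := by linarith
  have hfw1 : f-w ≤ 1 := by
    have h3 : 1*(f-w) ≤ (f+w)*(f-w) := mul_le_mul_of_nonneg_right (by linarith) hfw0.le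
    linarith
  -- τ
  obtain ⟨τ, hτ⟩ : ∃ τ : ℝ, τ = r*g-b*w := ⟨_, rfl⟩
  have h2 : (r*g-b*w)*(r*g+b*w) = b*(a+e)+1 := by
    linear_combination (b*e+1)*er + r^2*eg - b^2*hw
  have hrg : 0 < r*g := mul_pos hr hg
  have hbw : 0 < b*w := mul_pos (by linarith) (by linarith)
  have hτ0 : 0 < τ := by
    rw [hτ]
    by_contra hlt
    have h3 : (r*g-b*w)*(r*g+b*w) ≤ 0 :=
      mul_nonpos_of_nonpos_of_nonneg (not_lt.1 hlt) (by linarith)
    have h4 : 0 ≤ b*(a+e) := by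
      apply mul_nonneg <;> linarith
    linarith
  have hbw1 : b ≤ b*w := le_mul_of_one_le_right (by linarith) hw1
  have hτ1 : τ ≤ a+e := by
    have h3 : τ*(2*b) ≤ b*(a+e)+1 := by
      rw [← h2, ← hτ]
      apply mul_le_mul_of_nonneg_left _ hτ0.le
      linarith [hτ0, hτ]
    have h4 : b*(2*τ) ≤ b*(a+e+1) := by linarith
    have h5 : 2*τ ≤ a+e+1 := le_of_mul_le_mul_left h4 (by linarith)
    linarith
  have hτ5 : τ ≤ 5*K^2 := by
    have h3 : 0 ≤ (a-1)*(e-1) := mul_nonneg (by linarith) (by linarith)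
    linarith [hτ1]
  -- η
  obtain ⟨η, hη⟩ : ∃ η : ℝ, η = f+w := ⟨_, rfl⟩
  obtain ⟨η', hη'⟩ : ∃ η' : ℝ, η' = f-w := ⟨_, rfl⟩
  rw [← hη, ← hη'] at hnorm
  have hη0 : 0 < η := by rw [hη]; linarith
  have hη5 : η ≤ 5*K := by
    apply le_of_sq_le_sq_aux hη0.le (by linarith)
    have h3 : η ≤ 2*f := by rw [hη]; linarith
    have h4 : η^2 ≤ (2*f)^2 := pow_le_pow_left₀ hη0.le h3 2
    have h5 : (2*f)^2 = 4*(a*e)+4 := by rw [mul_pow, ef]; ring
    have h6 : (5*K)^2 = 25*K^2 := by ring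
    rw [h6]
    linarith
  have htη : t = b*η+τ := by rw [eτ, hη, hτ]; ring
  -- κ
  obtain ⟨κ, hκ⟩ : ∃ κ : ℝ, κ = c-b*η^2 := ⟨_, rfl⟩
  have hbκ : b*κ = 2*b*η*τ+τ^2-1 := by
    rw [hκ]
    have h3 : b*c = t^2-1 := by linarith
    have h4 : t^2 = (b*η+τ)^2 := by rw [htη]
    linear_combination h3 + h4
  have hητ : 0 < η*τ := mul_pos hη0 hτ0
  have hκ1 : κ ≤ 2*η*τ+τ^2 := by
    have h3 : τ^2 ≤ b*τ^2 := le_mul_of_one_le_left (sq_nonneg τ) hb
    have h4 : b*κ ≤ b*(2*η*τ+τ^2) := by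
      rw [hbκ]
      linarith
    exact le_of_mul_le_mul_left h4 (by linarith)
  have hκ2 : -1 ≤ κ := by
    have h3 : b*(-1) ≤ b*κ := by
      rw [hbκ]
      have h4 : 0 ≤ b*(η*τ) := mul_nonneg (by linarith) hητ.le
      have h5 := sq_nonneg τ
      linarith
    exact le_of_mul_le_mul_left h3 (by linarith)
  have hKp : 0 < K := by linarith
  have hκb : |κ| ≤ 50*K^3+25*K^4 := by
    have h3 : η*τ ≤ 5*K*(5*K^2) := mul_le_mul hη5 hτ5 hτ0.le (by positivity)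
    have h4 : τ^2 ≤ (5*K^2)^2 := pow_le_pow_left₀ hτ0.le hτ5 2
    rw [abs_le]
    constructor
    · have h5 : 0 ≤ 50*K^3 := by positivity
      have h7 : 1 ≤ K^4 := one_le_pow₀ (by linarith)
      have h6 : 1 ≤ 25*K^4 := by linarith
      linarith
    · have h7 : (5*K^2)^2 = 25*K^4 := by ring
      have h8 : 5*K*(5*K^2) = 25*K^3 := by ring
      rw [h7] at h4
      rw [h8] at h3
      linarith
  -- j
  have hbc : 4*b ≤ c := by
    have h3 : b*1 ≤ b*(a*e) := mul_le_mul_of_nonneg_left hae1 (by linarith)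
    linarith
  have hcpos : 0 < c := by linarith
  have ha4 : a ≤ a*e := le_mul_of_one_le_right (by linarith) he
  have haK : 4*a ≤ 17*K^2 := by linarith
  have hab : 4*a ≤ c := by
    have h3 : a ≤ a*b*e := by
      have : a*e*1 ≤ a*e*b := mul_le_mul_of_nonneg_left hb (by linarith)
      linarith
    linarith
  have hN2 : N^2 ≤ K^2 := by
    rw [← sq_abs N]
    exact pow_le_pow_left₀ (abs_nonneg _) hN 2
  have hM2 : M^2 = K^2 := by rw [← hM, sq_abs]
  have hsc : s ≤ c := by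
    apply le_of_sq_le_sq_aux hs.le hcpos.le
    rw [es]
    have h3 : 4*a*c ≤ c*c := mul_le_mul_of_nonneg_right hab hcpos.le
    have h4 : 4*c ≤ c*c := by
      apply mul_le_mul_of_nonneg_right _ hcpos.le
      linarith
    linarith
  have htc : t ≤ c := by
    apply le_of_sq_le_sq_aux ht.le hcpos.le
    rw [et]
    have h3 : 4*b*c ≤ c*c := mul_le_mul_of_nonneg_right hbc hcpos.le
    have h4 : 4*c ≤ c*c := by
      apply mul_le_mul_of_nonneg_right _ hcpos.le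
      linarith
    linarith
  have hj : |j| ≤ K^2 := by
    have h3 : 2*(|j| * c) ≤ c*(K^2/2+4*K) := by
      have e1 : 2*(j*c) = a*M^2+2*s*M-b*N^2-2*t*N := by linear_combination hrel
      have e2 : 2*(|j| * c) = |a*M^2+2*s*M-b*N^2-2*t*N| := by
        rw [← e1, abs_mul, abs_mul, abs_of_pos hcpos]
        norm_num
      rw [e2]
      have e3 : |2*s*M| = 2*s*K := by rw [abs_mul, hM, abs_of_pos (by linarith : 0 < 2*s)]
      have e4 : |2*t*N| ≤ 2*t*K := by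
        rw [abs_mul, abs_of_pos (by linarith : 0 < 2*t)]
        exact mul_le_mul_of_nonneg_left hN (by linarith)
      have e5 : a*M^2 ≤ c/4*K^2 := by
        rw [hM2]; exact mul_le_mul_of_nonneg_right (by linarith) (by positivity)
      have e6 : b*N^2 ≤ c/4*K^2 :=
        mul_le_mul (by linarith) hN2 (sq_nonneg _) (by linarith)
      have e7 : 0 ≤ a*M^2 := by positivity
      have e8 : 0 ≤ b*N^2 := by positivity
      have e9 : 2*s*K ≤ 2*c*K := by
        apply mul_le_mul_of_nonneg_right _ hKp.le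
        linarith
      have e10 : 2*t*K ≤ 2*c*K := by
        apply mul_le_mul_of_nonneg_right _ hKp.le
        linarith
      have f1 := abs_le.1 (le_of_eq e3)
      have f2 := abs_le.1 e4
      have f3 : 0 ≤ c*K^2 := by positivity
      rw [abs_le]
      constructor <;> linarith [f1.1, f1.2, f2.1, f2.2]
    have h4 : c*(2*|j|) ≤ c*(K^2/2+4*K) := by linarith
    have h5 : 2*|j| ≤ K^2/2+4*K := le_of_mul_le_mul_left h4 hcpos
    linarith
  -- the two factors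
  obtain ⟨A, hA⟩ : ∃ A : ℝ, A = N^2+2*N*η+2*j*η^2 := ⟨_, rfl⟩
  obtain ⟨B, hB⟩ : ∃ B : ℝ, B = N^2+2*N*η'+2*j*η'^2 := ⟨_, rfl⟩
  rw [← hA, ← hB, abs_mul] at hnorm
  have hη'0 : 0 < η' := by rw [hη']; exact hfw0
  have hη'1 : η' ≤ 1 := by rw [hη']; exact hfw1
  have hBb : |B| ≤ 4*K^2 := by
    have e1 : |N*η'| ≤ K := by
      rw [abs_mul, abs_of_pos hη'0]
      calc |N| * η' ≤ K*1 := mul_le_mul hN hη'1 hη'0.le hKp.le
        _ = K := mul_one _
    have e2 : |j*η'^2| ≤ K^2 := by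
      rw [abs_mul, abs_of_nonneg (sq_nonneg η')]
      have e3 : η'^2 ≤ 1 := by
        have := pow_le_pow_left₀ hη'0.le hη'1 2
        simpa using this
      calc |j| * η'^2 ≤ K^2*1 := mul_le_mul hj e3 (sq_nonneg _) (by positivity)
        _ = K^2 := mul_one _
    have f1 := abs_le.1 e1
    have f2 := abs_le.1 e2
    have f3 := sq_nonneg N
    rw [hB, abs_le]
    constructor
    · linarith [f1.1, f1.2, f2.1, f2.2]
    · linarith [f1.1, f1.2, f2.1, f2.2]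
  have hAb : 1 ≤ |A| * (4*K^2) :=
    hnorm.trans (mul_le_mul_of_nonneg_left hBb (abs_nonneg _))
  have hbA : b*A = a*M^2+2*s*M-2*N*τ-2*j*κ := by
    rw [hA, hκ]
    rw [htη] at hrel
    linear_combination hrel
  have hsb : s ≤ 9*K^2*y := by
    apply le_of_sq_le_sq_aux hs.le (by positivity)
    rw [es, mul_pow, hy]
    have e1 : a*c ≤ a*(17*K^2*b) := mul_le_mul_of_nonneg_left hc.le (by linarith)
    have e2 : a*(17*K^2*b) ≤ 17/4*K^2*(17*K^2*b) :=
      mul_le_mul_of_nonneg_right (by linarith) (by positivity)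
    have e3 : 1 ≤ K^4*b := by
      have e4 : 1 ≤ K^4 := one_le_pow₀ (by linarith)
      exact one_le_mul_of_one_le_of_one_le e4 hb
    have e5 : 17/4*K^2*(17*K^2*b) = 289/4*(K^4*b) := by ring
    have e6 : (9*K^2)^2*b = 81*(K^4*b) := by ring
    rw [e6]
    rw [e5] at e2
    linarith
  have hrhs : b*|A| ≤ 18*K^3*y+76*K^6 := by
    have e0 : b*|A| = |a*M^2+2*s*M-2*N*τ-2*j*κ| := by
      rw [← hbA, abs_mul, abs_of_pos (by linarith : 0 < b)]
    rw [e0]
    have e1 : |2*s*M| ≤ 18*K^3*y := by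
      rw [abs_mul, hM, abs_of_pos (by linarith : 0 < 2*s)]
      calc 2*s*K ≤ 2*(9*K^2*y)*K := by
            apply mul_le_mul_of_nonneg_right _ hKp.le
            linarith
        _ = 18*K^3*y := by ring
    have e2 : |2*N*τ| ≤ 10*K^3 := by
      rw [abs_mul, abs_mul, abs_of_pos hτ0, abs_of_pos (by norm_num : (0:ℝ) < 2)]
      calc 2*|N| * τ ≤ 2*K*(5*K^2) := by
            apply mul_le_mul _ hτ5 hτ0.le (by positivity)
            linarith
        _ = 10*K^3 := by ring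
    have e3 : |2*j*κ| ≤ 100*K^5+50*K^6 := by
      rw [abs_mul, abs_mul, abs_of_pos (by norm_num : (0:ℝ) < 2)]
      calc 2*|j| * |κ| ≤ 2*K^2*(50*K^3+25*K^4) := by
            apply mul_le_mul _ hκb (abs_nonneg _) (by positivity)
            linarith
        _ = 100*K^5+50*K^6 := by ring
    have e4 : a*M^2 ≤ 17/4*K^4 := by
      rw [hM2]
      calc a*K^2 ≤ 17/4*K^2*K^2 := mul_le_mul_of_nonneg_right (by linarith) (by positivity)
        _ = 17/4*K^4 := by ring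
    have e5 : 0 ≤ a*M^2 := by positivity
    have g4 : 16*K^4 ≤ K^6 := by
      calc 16*K^4 ≤ K^2*K^4 := mul_le_mul_of_nonneg_right hK2' (by positivity)
        _ = K^6 := by ring
    have g3 : 64*K^3 ≤ K^6 := by
      have : 64 ≤ K^3 := by
        calc (64:ℝ) = 4^3 := by norm_num
          _ ≤ K^3 := pow_le_pow_left₀ (by norm_num) hK 3
      calc 64*K^3 ≤ K^3*K^3 := mul_le_mul_of_nonneg_right this (by positivity)
        _ = K^6 := by ring
    have g5 : 4*K^5 ≤ K^6 := by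
      calc 4*K^5 ≤ K*K^5 := mul_le_mul_of_nonneg_right hK (by positivity)
        _ = K^6 := by ring
    have f1 := abs_le.1 e1
    have f2 := abs_le.1 e2
    have f3 := abs_le.1 e3
    have g6 : 0 ≤ K^6 := by positivity
    rw [abs_le]
    constructor <;> linarith [f1.1, f1.2, f2.1, f2.2, f3.1, f3.2]
  have hbfin : b ≤ 4*K^2*(18*K^3*y+76*K^6) := by
    have e1 : b*1 ≤ b*(|A| * (4*K^2)) := mul_le_mul_of_nonneg_left hAb (by linarith)
    have e2 : b*(|A| * (4*K^2)) = 4*K^2*(b*|A|) := by ring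
    have e3 : 4*K^2*(b*|A|) ≤ 4*K^2*(18*K^3*y+76*K^6) :=
      mul_le_mul_of_nonneg_left hrhs (by positivity)
    linarith
  have hb10 : b ≤ 21904*K^10 := by
    rcases le_total y (K^4) with h5 | h5
    · have e1 : y^2 ≤ (K^4)^2 := pow_le_pow_left₀ hy0 h5 2
      rw [hy] at e1
      have e2 : (K^4)^2 = K^8 := by ring
      have e3 : K^8 ≤ K^10 := pow_le_pow_right₀ (by linarith) (by norm_num)
      have e4 : 0 ≤ K^10 := by positivity
      linarith
    · have hyp : 0 < y := by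
        have : 0 < K^4 := by positivity
        linarith
      have e1 : y*y ≤ y*(148*K^5) := by
        have e2 : y*y = b := by rw [← hy]; ring
        have e3 : 304*K^4*K^4 ≤ 304*K^4*y := mul_le_mul_of_nonneg_left h5 (by positivity)
        have e4 : 304*K^4*y ≤ 76*K^5*y := by
          apply mul_le_mul_of_nonneg_right _ hy0
          have : 4*K^4 ≤ K*K^4 := mul_le_mul_of_nonneg_right hK (by positivity)
          linarith
        have e5 : 4*K^2*(18*K^3*y+76*K^6) = 72*K^5*y+304*K^4*K^4 := by ring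
        rw [e2]
        rw [e5] at hbfin
        linarith
      have e6 : y ≤ 148*K^5 := le_of_mul_le_mul_left e1 hyp
      have e7 : y^2 ≤ (148*K^5)^2 := pow_le_pow_left₀ hy0 e6 2
      rw [hy] at e7
      have e8 : (148*K^5)^2 = 21904*K^10 := by ring
      linarith
  calc c ≤ 17*K^2*b := hc.le
    _ ≤ 17*K^2*(21904*K^10) := mul_le_mul_of_nonneg_left hb10 (by positivity)
    _ = 372368*K^12 := by ring
    _ ≤ 1000000000000*K^12 := by
        apply mul_le_mul_of_nonneg_right (by norm_num) (by positivity)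
    _ = (10*K)^12 := by ring

theorem T0_bound {a b c r s t P Q ζ ξ η M N j : ℤ} (h : Dat a b c r s t 0 P Q ζ ξ η M N j)
    (hirr : regP a b c 0 ≠ 0) (hc : c < 17*M^2*b) : c ≤ (10*|M|)^12 := by
  obtain ⟨e, f, g, j', he1, hf2, hg0, ef, eg, eτ, hc4, hae, hrel⟩ := T0_int h hirr hc
  have ha := h.ha
  have hb : 0 < b := ha.trans h.hab
  have hM2 : (|M|:ℤ)^2 = M^2 := sq_abs M
  have hK4 : 4 ≤ |M| := h.hN4.trans h.hNM
  obtain ⟨w, hw⟩ : ∃ w : ℝ, w = Real.sqrt ((a:ℝ)*e) := ⟨_, rfl⟩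
  have haeR : (0:ℝ) ≤ (a:ℝ)*e := by
    have : 0 ≤ a*e := by positivity
    exact_mod_cast this
  have hw0 : 0 ≤ w := by rw [hw]; exact Real.sqrt_nonneg _
  have hw2 : w^2 = (a:ℝ)*e := by rw [hw]; exact Real.sq_sqrt haeR
  have hbR : (0:ℝ) ≤ (b:ℝ) := by exact_mod_cast hb.le
  have hefR : (f:ℝ)^2 = a*e+1 := by exact_mod_cast ef
  have key : (c:ℝ) ≤ (10*|(M:ℝ)|)^12 := by
    refine T0_real (a := a) (b := b) (c := c) (e := e) (f := f) (g := g) (r := r) (s := s)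
      (t := t) (K := |(M:ℝ)|) (M := M) (N := N) (j := j') (w := w) (y := Real.sqrt b)
      ?_ ?_ ?_ ?_ ?_ ?_ ?_ ?_ ?_ ?_ ?_ ?_ ?_ ?_ ?_ rfl ?_ ?_ ?_ ?_ ?_ hw0 hw2
      (Real.sqrt_nonneg _) (Real.sq_sqrt hbR) ?_
    · exact_mod_cast ha
    · exact_mod_cast hb
    · exact_mod_cast h.hr
    · exact_mod_cast h.hs
    · exact_mod_cast h.ht
    · exact_mod_cast hg0
    · exact_mod_cast hf2
    · exact_mod_cast he1
    · exact_mod_cast h.er
    · exact_mod_cast h.es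
    · exact_mod_cast h.et
    · exact_mod_cast ef
    · exact_mod_cast eg
    · exact_mod_cast eτ
    · exact_mod_cast hc4
    · exact_mod_cast h.hNM
    · exact_mod_cast hK4
    · rw [sq_abs]
      exact_mod_cast hae.le
    · rw [sq_abs]
      exact_mod_cast hc
    · exact_mod_cast hrel
    · obtain ⟨U, hU⟩ : ∃ U : ℤ, U = N^2+2*N*f+2*j'*(2*f^2-1) := ⟨_, rfl⟩
      obtain ⟨V, hV⟩ : ∃ V : ℤ, V = 2*N+4*j'*f := ⟨_, rfl⟩
      have hprod : ((N:ℝ)^2+2*N*(f+w)+2*j'*(f+w)^2)*((N:ℝ)^2+2*N*(f-w)+2*j'*(f-w)^2)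
          = ((U^2-(f^2-1)*V^2 : ℤ):ℝ) := by
        have h1 : (N:ℝ)^2+2*N*(f+w)+2*j'*(f+w)^2 = (U:ℝ)+V*w := by
          rw [hU, hV]
          push_cast
          linear_combination (2*(j':ℝ))*hw2 - (2*(j':ℝ))*hefR
        have h2 : (N:ℝ)^2+2*N*(f-w)+2*j'*(f-w)^2 = (U:ℝ)-V*w := by
          rw [hU, hV]
          push_cast
          linear_combination (2*(j':ℝ))*hw2 - (2*(j':ℝ))*hefR
        rw [h1, h2]
        push_cast
        linear_combination (-(V:ℝ)^2)*hw2 + ((V:ℝ)^2)*hefR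
      rw [hprod]
      have hne : U^2-(f^2-1)*V^2 ≠ 0 := by
        intro h0
        obtain ⟨hV0, hU0⟩ := notsq_aux hf2 (sub_eq_zero.1 h0)
        rw [hV] at hV0
        rw [hU] at hU0
        have hN : N = -(2*j'*f) := by linarith
        rw [hN] at hU0
        have h1 : 2*j'*(2*(j'*f^2)-1) = 0 := by linear_combination hU0
        rcases mul_eq_zero.1 h1 with h2 | h2
        · have h3 : j' = 0 := by linarith
          rw [h3] at hN
          have h4 := h.hN4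
          rw [hN] at h4
          norm_num at h4
        · omega
      have h1 : 1 ≤ |U^2-(f^2-1)*V^2| := Int.one_le_abs hne
      exact_mod_cast h1
  exact_mod_cast key

end Irr
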