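import Pool.Agent.Lib.Irr.Descent
import Pool.Agent.Lib.Irr.Ev

/-!
# Module T0a (about 120 lines): `T0_exact` (see the PROOF notes below)

The case `D = 0` of a non-Euler triple `(a,b,c)`. Write `K = |M|`, `4 <= |N| <= K`.

Since `D = 0` we have `ζ = ξ = η = 1`, `P = a+c-2s`, `Q = b+c-2t`, and `rel` says
`aM^2 + 2sM - bN^2 - 2tN = 2jc + c(M-N) = 2j'c` (`M - N` even).

PROOF of `T0_exact` (contradiction if `c >= 17 K^2 b`). `t^2 = bc+1 <= c^2/(17K^2) + 1 <= c^2/(16K^2)`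
(`c >= 17K^2 b >= 17K^2`, so `c^2 >= 272 K^2`), hence `tK <= c/4`, `sK <= c/4`, `bK^2 <= c/17`. So
`aM^2+2sM` and `bN^2+2tN` lie in `[-c/2, c/17+c/2]` and their difference is `< 2c` in absolute
value, so `j' = 0`: `aM^2+2sM = bN^2+2tN`. Now
`(sM-tN)(sM+tN) = (ac+1)M^2 - (bc+1)N^2 = c(aM^2-bN^2) + M^2-N^2 = -2c(sM-tN) + M^2-N^2`, i.e.
`(sM-tN)(sM+tN+2c) = M^2-N^2`, where `sM+tN+2c >= 3c/2` and `0 <= M^2-N^2 <= K^2 < 3c/2`. So
`sM = tN` and `M^2 = N^2`, `M = N` (`MN > 0`), `s = t`, contradiction to `a < b`.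

PROOF of `T0_bound`. So `c < 17K^2b`. Let `e, f, g` be the descent of `(a,b;c)` (`p=a, q=b, ρ=r,
σ=s, τ=t`): `t = b f + r g`, `c = a+b+e+2abe+2rfg`, `f^2 = ae+1`, `g^2 = be+1`; `e ≠ 0` by `hirr`
(`regP_factor` at `x = 0`, or: `regP a b c 0 = 0` iff `e (e + 4rst) = 0`), so `e >= 1`, `c >= 4abe`,
`4ae < 17K^2`. Real numbers: `w = √(ae) >= 1`, `η = f + w`, `η' = f - w = 1/η ∈ (0,1)`.
(i) `0 < rg - bw <= ((a+e)b+1)/(2bw) <= (a+e+1)/2` since `(rg)^2 = (ab+1)(be+1) = (bw)^2 + b(a+e) + 1`.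
So `t = bη + τ` with `0 < τ <= a+e <= ae+1 <= 5K^2`.
(ii) `b c = t^2 - 1 = (bη+τ)^2 - 1`, so `c = bη^2 + κ`, `κ = 2ητ + (τ^2-1)/b`,
`-1 <= κ <= 2ητ + τ^2`. `η <= 2f`, `η^2 <= 4(ae+1) <= 25K^2`, `η <= 5K`: `|κ| <= 50K^3+25K^4`.
(iii) `bN^2+2tN+2j'c = aM^2+2sM` gives `b(N^2+2Nη+2j'η^2) = aM^2+2sM-2Nτ-2j'κ`.
`|2j'c| <= aK^2+2sK+bK^2+2tK <= 2bK^2+4cK <= c(K^2/2+4K)` (`b <= c/4`, `s,t <= c`), so
`|j'| <= K^2`.
(iv) `|N^2+2Nη+2j'η^2| * 4K^2 >= 1`: the product with `N^2+2Nη'+2j'η'^2` (absolute value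
`<= K^2+2K+2K^2 <= 4K^2`) is an integer (`η+η' = 2f`, `ηη' = 1`) and it is not `0`: if one factor
vanishes, then (`w` irrational, `η^2 = 2f^2-1 ± 2fw`) `N = -2j'f` and `N^2+2Nf+2j'(2f^2-1) = 0`,
which give `2j'(2j'f^2-1) = 0`, so `j' = 0`, `N = 0`, contradiction.
(v) `s^2 = ac+1 <= 17aK^2b+1 <= 81 K^4 b` so `s <= 9K^2√b`. The right side of (iii) is at most
`(17/4)K^4 + 18K^3√b + 10K^3 + 2K^2(50K^3+25K^4) <= 18K^3√b + 76K^6` (`K >= 4`).
So `b <= 4K^2(18K^3√b+76K^6)`. If `√b <= K^4` done; else `√b <= 72K^5+304K^4 <= 148K^5`.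
`b <= 21904K^10`, `c <= 17K^2b <= (10K)^12`.
-/

namespace Irr

theorem T0_exact {a b c r s t P Q ζ ξ η M N j : ℤ} (h : Dat a b c r s t 0 P Q ζ ξ η M N j) :
    c < 17*M^2*b := by
  by_contra hcon
  push Not at hcon
  have ha := h.ha
  have hab := h.hab
  have hb : 0 < b := by linarith
  have hs := h.hs
  have ht := h.ht
  have es := h.es
  have et := h.et
  have hζ : ζ = 1 := by
    have h1 := h.eζ
    have h2 := h.hζ
    nlinarith
  have hξ : ξ = 1 := by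
    have h1 := h.eξ
    have h2 := h.hξ
    nlinarith
  have hη : η = 1 := by
    have h1 := h.eη
    have h2 := h.hη
    nlinarith
  have eP : P = a+c-2*s := by
    rw [h.eP, hζ, hξ]
    ring
  have eQ : Q = b+c-2*t := by
    rw [h.eQ, hζ, hη]
    ring
  have hN4 := h.hN4
  have hNM := h.hNM
  have hMN := h.hMN
  have hM4 : 4 ≤ |M| := hN4.trans hNM
  have hM2 : 16 ≤ M^2 := by
    rw [← sq_abs]
    nlinarith
  have hN2 : N^2 ≤ M^2 := sq_le_sq.2 hNM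
  have hN20 : 0 ≤ N^2 := sq_nonneg N
  have hbM : 17*(M^2*b) ≤ c := by linarith
  have hMb : 16*b ≤ M^2*b := mul_le_mul_of_nonneg_right hM2 hb.le
  have hMM : M^2 ≤ M^2*b := by nlinarith
  have hc0 : 0 < c := by linarith
  -- 4 t K ≤ c
  have htK : 4*(t*|M|) ≤ c := by
    apply abs_le_of_sq_le_sq' _ hc0.le |>.2
    have h1 : (4*(t*|M|))^2 = 16*((b*c+1)*M^2) := by
      rw [← et, ← sq_abs M]
      ring
    rw [h1]
    have h2 : (17*(M^2*b))*c ≤ c*c := mul_le_mul_of_nonneg_right hbM hc0.le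
    have h3 : 16*M^2 ≤ (M^2*b)*c := by
      have h4 : 16 ≤ c := by linarith
      have h5 : 0 ≤ M^2*b := by positivity
      nlinarith
    nlinarith
  have hst : s < t := by
    by_contra hlt
    push Not at hlt
    nlinarith
  have hMabs : 0 ≤ |M| := abs_nonneg M
  have hsK : 4*(s*|M|) ≤ c := by nlinarith
  have htN : 4*(t*|N|) ≤ c := by nlinarith
  have hsM : |s*M| = s*|M| := by rw [abs_mul, abs_of_pos hs]
  have htN' : |t*N| = t*|N| := by rw [abs_mul, abs_of_pos ht]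
  obtain ⟨w, hw⟩ : ∃ w, M - N = 2*w := by
    obtain ⟨m, hm⟩ := h.evM
    obtain ⟨n, hn⟩ := h.evN
    exact ⟨m - n, by rw [hm, hn]; ring⟩
  have hrel : a*M^2+2*(s*M)-b*N^2-2*(t*N) = 2*(j+w)*c := by
    have h1 := h.rel
    rw [eP, eQ] at h1
    linear_combination h1 + c*hw
  have b1 := abs_le.1 (hsM.le)
  have b2 := abs_le.1 (htN'.le)
  have haM : 17*(a*M^2) ≤ c := by nlinarith
  have hbN : 17*(b*N^2) ≤ c := by nlinarith
  have haM0 : 0 ≤ a*M^2 := by positivity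
  have hbN0 : 0 ≤ b*N^2 := by positivity
  have hj' : j + w = 0 := by
    by_contra hne
    have h1 : 1 ≤ |j+w| := Int.one_le_abs hne
    have h2 : |2*(j+w)*c| = 2*|j+w| * c := by
      rw [abs_mul, abs_mul, abs_of_pos hc0]
      norm_num
    have h3 : |2*(j+w)*c| < 2*c := by
      rw [← hrel, abs_lt]
      constructor <;> linarith [b1.1, b1.2, b2.1, b2.2]
    nlinarith
  rw [hj', mul_zero, zero_mul] at hrel
  have hprod : (s*M-t*N)*(s*M+t*N+2*c) = M^2-N^2 := by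
    linear_combination M^2*es - N^2*et + c*hrel
  have hbig : 3*c ≤ 2*(s*M+t*N+2*c) := by linarith [b1.1, b2.1]
  have hz : s*M-t*N = 0 := by
    by_contra hne
    have h1 : 1 ≤ |s*M-t*N| := Int.one_le_abs hne
    have h2 : |s*M-t*N| * (s*M+t*N+2*c) = |M^2-N^2| := by
      rw [← hprod, abs_mul, abs_of_pos (show 0 < s*M+t*N+2*c by linarith)]
    have h3 : |M^2-N^2| ≤ M^2 := by
      rw [abs_of_nonneg (by linarith)]
      linarith
    nlinarith
  rw [hz, zero_mul] at hprod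
  have hMN2 : M^2 = N^2 := by linarith
  have hMeq : M = N := by
    rcases sq_eq_sq_iff_eq_or_eq_neg.1 hMN2 with h1 | h1
    · exact h1
    · exfalso
      rw [h1] at hMN
      nlinarith [sq_nonneg N]
  have hM0 : M ≠ 0 := by
    rintro rfl
    norm_num at hM2
  have hst' : s = t := by
    have h1 : (s-t)*M = 0 := by
      rw [← hMeq] at hz
      linarith
    rcases mul_eq_zero.1 h1 with h2 | h2
    · linarith
    · exact absurd h2 hM0
  exact hst.ne hst'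

end Irr
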