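import Pool.Agent.Lib.Irr.LinRel
import Pool.Agent.Lib.Irr.Degen

/-!
# Module T1b (about 50 lines): `dplus_le` (see the PROOF notes below)

The case `D = e > 0`, `{a,b,c,e}` regular.

Write `e = D`, `K = |M| >= 4`, `A = M^2+M+N`, `B = N^2+N+M`, `C = M-N`, `U = 2K^2 >= 32`.

PROOF of `T1_rel`: `P = b` and `Q = a`. `regP a b c e = 0`; as a polynomial in `b`,
`regP a x c e = (x - P)(x - P')` with `P' = a+c+e+2ace+2sζξ > c > b` (`regP_factor` for `(a,c,e)`;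
`regP` is symmetric), so `b = P`; same for `a = Q`. `rel` becomes `A a - B b + C e = 2jc`.
`e < c` and `c = d_+(a,b,e)`: `regP_factor` for `(a,b,e)` with the roots `r, ξ, η`:
`c = a+b+e+2abe+2rξη` (the other root is `< c`: it is `d_-`, and `x ↦` if `c` were
`a+b+e+2abe-2rξη` then the product of the two roots is `a^2+b^2+e^2-2ab-2ae-2be-4 < max^2`; simpler:
from `descent (a,b;c)`, whose `e'` is the root of `regP a b c _` below `c`, so `e' = D`.)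
Bounds: `|M|=K`, `|N| <= K`, same sign: `0 < A`, `0 < B`: for `M,N > 0` clear; for `M = -μ, N = -ν`:
`4 <= ν <= μ <= 2ν-2`: `A = μ^2-μ-ν >= μ^2-2μ > 0`, `B = ν^2-ν-μ >= ν^2-3ν+2 > 0`.
`A, B <= K^2+2K <= 2K^2`, `|C| <= K`.

`T1_j`: `j ≠ 0`: `linrel4` with `U = 2K^2`: `c <= 64 K^10`.

`j = 0`: `A a - B b + C e = 0`. `M ≠ N` (otherwise `A = B`, `A(a-b) = 0`). `c <= 10abe`
(`2rξη <= 2·(√(ab)√2...)`: `(rξη)^2 = (ab+1)(ae+1)(be+1) <= 8 (abe)^2`, so `2rξη <= 6abe`, and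
`a+b+e <= ... `; in general `a+b+e <= 3 max <= 3·abe`… use `c <= 11 a b e`.)
`T1_b` (`e < b`): if `b ≠ a+e+2ξ`: `linrel` for `(a,e;b)` (roots `ξ, r, η`), `α1 = A, α2 = C,
α3 = -B`: `b <= 4U^5 = 128K^10`, `a, e < b`, `c <= 11 b^3 <= (10K)^32`.
If `b = a+e+2ξ`: `(A-B)a - (B-C)e = 2Bξ`, `A-B = M^2-N^2 ≠ 0`, `B-C = N^2+2N`, and
`(M^2-N^2)(N^2+2N)+B^2 = L^2`, `L = MN+M+N ≠ 0` (`L+1 = (M+1)(N+1)`): `degen` with
`p=a, q=e, ρ=ξ, P=M^2-N^2, Q=N^2+2N, G=B`: `4G^2P^2 <= 16K^8`, `e <= 8K^8`,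
`a <= 16K^8+(4K^2)^2·8K^8 <= 130K^12`, `b <= 2(a+e)+2 <= 300K^12`, `c <= 11abe <= (10K)^32`.
`T1_e` (`e > b`, `e ≠ b`): if `e ≠ a+b+2r`: `linrel` for `(a,b;e)` (roots `r, ξ, η`), `α3 = C ≠ 0`:
`e <= 128K^10`. If `e = a+b+2r`: `(A+C)a - (B-C)b = -2Cr`, `A+C = M^2+2M ≠ 0`, `B-C = N^2+2N`,
`(M^2+2M)(N^2+2N)+C^2 = L^2`: `degen` with `p=a,q=b,ρ=r,G=-C`: `4G^2P^2 <= 4K^2·4K^4`,
`b <= 8K^6`, `a < b`, `e <= 4b`, `c <= 11abe`.
-/

namespace Irr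

/-- `c <= 11abe` -/
theorem dplus_le (a b e r f g : ℤ) (ha : 0 < a) (hb : 0 < b) (he : 0 < e) (hr : 0 < r)
    (hf : 0 < f) (hg : 0 < g) (er : r^2 = a*b+1) (ef : f^2 = a*e+1) (eg : g^2 = b*e+1) :
    a+b+e+2*a*b*e+2*r*f*g ≤ 11*a*b*e := by
  have hab : 0 < a * b := mul_pos ha hb
  have hae : 0 < a * e := mul_pos ha he
  have hbe : 0 < b * e := mul_pos hb he
  have h1 : a ≤ a * b * e := by nlinarith
  have h2 : b ≤ a * b * e := by nlinarith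
  have h3 : e ≤ a * b * e := by nlinarith
  have hr2 : r ^ 2 ≤ 2 * (a * b) := by rw [er]; linarith
  have hf2 : f ^ 2 ≤ 2 * (a * e) := by rw [ef]; linarith
  have hg2 : g ^ 2 ≤ 2 * (b * e) := by rw [eg]; linarith
  have h4 : r ^ 2 * f ^ 2 * g ^ 2 ≤ 2 * (a * b) * (2 * (a * e)) * (2 * (b * e)) :=
    mul_le_mul (mul_le_mul hr2 hf2 (by positivity) (by positivity)) hg2 (by positivity)
      (by positivity)
  have h5 : (r * f * g) ^ 2 ≤ (3 * (a * b * e)) ^ 2 := by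
    have e1 : (r * f * g) ^ 2 = r ^ 2 * f ^ 2 * g ^ 2 := by ring
    have e2 : 2 * (a * b) * (2 * (a * e)) * (2 * (b * e)) = 8 * (a * b * e) ^ 2 := by ring
    have e3 : (3 * (a * b * e)) ^ 2 = 9 * (a * b * e) ^ 2 := by ring
    have e4 : 0 ≤ (a * b * e) ^ 2 := sq_nonneg _
    rw [e1, e3]
    rw [e2] at h4
    linarith
  have h6 : r * f * g ≤ 3 * (a * b * e) :=
    (pow_le_pow_iff_left₀ (by positivity) (by positivity) (by norm_num)).1 h5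
  nlinarith

end Irr
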