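import Pool.Agent.Lib.Irr.LinRel
import Pool.Agent.Lib.Irr.Degen

/-!
# Module T1a (about 120 lines): `T1_rel` (see the PROOF notes below)

The case `D = e > 0`, `{a,b,c,e}` regular.

Write `e = D`, `K = |M| >= 4`, `A = M^2+M+N`, `B = N^2+N+M`, `C = M-N`, `U = 2K^2 >= 32`.

PROOF of `T1_rel`: `P = b` and `Q = a`. `regP a b c e = 0`; as a polynomial in `b`,
`regP a x c e = (x - P)(x - P')` with `P' = a+c+e+2ace+2sζξ > c > b` (`regP_factor` for `(a,c,e)`;
`regP` is symmetric), so `b = P`; same for `a = Q`. `rel` becomes `A a - B b + C e = 2jc`.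
`e < c` and `c = d_+(a,b,e)`: `regP_factor` for `(a,b,e)` with the roots `r, ξ, η`:
`c = a+b+e+2abe+2rξη` (the other root is `< c`: it is `d_-`, and `x ↦` if `c` were
`a+b+e+2abe-2rξη` then the product of the two roots is `a^2+b^2+e^2-2ab-2ae-2be-4 < max^2`; simpler:
from `descent (a,b;c)`, whose `e'` is the root of `regP a b c _` below `c`, so `e' = D`.)
Bounds: `|M|=K`, `|N| <= K`, same sign: `0 < A`, `0 < B`: for `M,N > 0` clear; for `M = -μ, N = -ν`:
`4 <= ν <= μ <= 2ν-2`: `A = μ^2-μ-ν >= μ^2-2μ > 0`, `B = ν^2-ν-μ >= ν^2-3ν+2 > 0`.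
`A, B <= K^2+2K <= 2K^2`, `|C| <= K`.

`T1_j`: `j ≠ 0`: `linrel4` with `U = 2K^2`: `c <= 64 K^10`.

`j = 0`: `A a - B b + C e = 0`. `M ≠ N` (otherwise `A = B`, `A(a-b) = 0`). `c <= 10abe`
(`2rξη <= 2·(√(ab)√2...)`: `(rξη)^2 = (ab+1)(ae+1)(be+1) <= 8 (abe)^2`, so `2rξη <= 6abe`, and
`a+b+e <= ... `; in general `a+b+e <= 3 max <= 3·abe`… use `c <= 11 a b e`.)
`T1_b` (`e < b`): if `b ≠ a+e+2ξ`: `linrel` for `(a,e;b)` (roots `ξ, r, η`), `α1 = A, α2 = C,
α3 = -B`: `b <= 4U^5 = 128K^10`, `a, e < b`, `c <= 11 b^3 <= (10K)^32`.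
If `b = a+e+2ξ`: `(A-B)a - (B-C)e = 2Bξ`, `A-B = M^2-N^2 ≠ 0`, `B-C = N^2+2N`, and
`(M^2-N^2)(N^2+2N)+B^2 = L^2`, `L = MN+M+N ≠ 0` (`L+1 = (M+1)(N+1)`): `degen` with
`p=a, q=e, ρ=ξ, P=M^2-N^2, Q=N^2+2N, G=B`: `4G^2P^2 <= 16K^8`, `e <= 8K^8`,
`a <= 16K^8+(4K^2)^2·8K^8 <= 130K^12`, `b <= 2(a+e)+2 <= 300K^12`, `c <= 11abe <= (10K)^32`.
`T1_e` (`e > b`, `e ≠ b`): if `e ≠ a+b+2r`: `linrel` for `(a,b;e)` (roots `r, ξ, η`), `α3 = C ≠ 0`:
`e <= 128K^10`. If `e = a+b+2r`: `(A+C)a - (B-C)b = -2Cr`, `A+C = M^2+2M ≠ 0`, `B-C = N^2+2N`,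
`(M^2+2M)(N^2+2N)+C^2 = L^2`: `degen` with `p=a,q=b,ρ=r,G=-C`: `4G^2P^2 <= 4K^2·4K^4`,
`b <= 8K^6`, `a < b`, `e <= 4b`, `c <= 11abe`.
-/

namespace Irr

theorem T1_rel {a b c r s t D P Q ζ ξ η M N j : ℤ} (h : Dat a b c r s t D P Q ζ ξ η M N j)
    (hD : 0 < D) (hreg : regP a b c D = 0) :
    P = b ∧ Q = a ∧ c = a+b+D+2*a*b*D+2*r*ξ*η ∧
      (M^2+M+N)*a - (N^2+N+M)*b + (M-N)*D = 2*j*c ∧
      0 < M^2+M+N ∧ 0 < N^2+N+M ∧ M^2+M+N ≤ 2*|M|^2 ∧ N^2+N+M ≤ 2*|M|^2 ∧ |M-N| ≤ |M| ∧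
      M^2+2*M ≠ 0 ∧ M*N+M+N ≠ 0 ∧ |M*N+M+N| ≤ 2*|M|^2 ∧ D ≠ b ∧ D ≠ a := by
  have ha := h.ha
  have hab := h.hab
  have hbc := h.hbc
  have hDc := h.hDc
  have hb0 : 0 < b := by linarith
  have hc0 : 0 < c := by linarith
  have hs := h.hs
  have ht := h.ht
  have hr := h.hr
  have hζ := h.hζ
  have hξ := h.hξ
  have hη := h.hη
  -- P = b
  have hPb : P = b := by
    have h1 := regP_factor a c D s ξ ζ b h.es h.eξ h.eζ
    have h2 : regP a c D b = regP a b c D := by unfold regP; ring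
    rw [h2, hreg] at h1
    rcases mul_eq_zero.1 h1.symm with h3 | h3
    · exfalso
      have p1 : 0 < a * c * D := by positivity
      have p2 : 0 < s * ξ * ζ := by positivity
      linarith
    · rw [h.eP]; linarith
  have hQa : Q = a := by
    have h1 := regP_factor b c D t η ζ a h.et h.eη h.eζ
    have h2 : regP b c D a = regP a b c D := by unfold regP; ring
    rw [h2, hreg] at h1
    rcases mul_eq_zero.1 h1.symm with h3 | h3
    · exfalso
      have p1 : 0 < b * c * D := by positivity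
      have p2 : 0 < t * η * ζ := by positivity
      linarith
    · rw [h.eQ]; linarith
  have hc : c = a+b+D+2*a*b*D+2*r*ξ*η := by
    have h1 := regP_factor a b D r ξ η c h.er h.eξ h.eη
    have h2 : regP a b D c = regP a b c D := by unfold regP; ring
    rw [h2, hreg] at h1
    rcases mul_eq_zero.1 h1.symm with h3 | h3
    · linarith
    · exfalso
      have e1 : (a+b+D+2*a*b*D+2*r*ξ*η) * c = a^2+b^2+D^2-2*a*b-2*a*D-2*b*D-4 := by
        have hce : c = a+b+D+2*a*b*D-2*r*ξ*η := by linarith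
        rw [hce]
        linear_combination (-4*ξ^2*η^2)*h.er + (-4*(a*b+1)*η^2)*h.eξ +
          (-4*(a*b+1)*(a*D+1))*h.eη
      have p1 : 0 < a * b * D := by positivity
      have p2 : 0 < r * ξ * η := by positivity
      have p3 : (a + b + D) * c ≤ (a+b+D+2*a*b*D+2*r*ξ*η) * c := by
        apply mul_le_mul_of_nonneg_right _ hc0.le
        linarith
      have p4 : 0 < a * (c - a) := mul_pos ha (by linarith)
      have p5 : 0 < b * (c - b) := mul_pos hb0 (by linarith)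
      have p6 : 0 < D * (c - D) := mul_pos hD (by linarith)
      have p7 : 0 < a * b := by positivity
      have p8 : 0 < a * D := by positivity
      have p9 : 0 < b * D := by positivity
      nlinarith
  have hrel : (M^2+M+N)*a - (N^2+N+M)*b + (M-N)*D = 2*j*c := by
    have := h.rel
    rw [hPb, hQa] at this
    linear_combination this
  have hDb : D ≠ b := by
    intro e
    have h1 := h.eη
    rw [e] at h1
    have h2 : b < η := by nlinarith
    nlinarith
  have hDa : D ≠ a := by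
    intro e
    have h1 := h.eξ
    rw [e] at h1
    have h2 : a < ξ := by nlinarith
    nlinarith
  have hMN := h.hMN
  have hN4 := h.hN4
  have hNM := h.hNM
  have hM2N := h.hM2N
  have hneg := h.hneg
  refine ⟨hPb, hQa, hc, hrel, ?_⟩
  rcases lt_trichotomy M 0 with hM | hM | hM
  · have hN : N < 0 := by
      by_contra hN
      push Not at hN
      have := mul_nonneg (neg_nonneg.2 hM.le) hN
      linarith
    have h3 := hneg hM
    rw [abs_of_neg hM, abs_of_neg hN] at h3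
    rw [abs_of_neg hN] at hN4
    rw [abs_of_neg hN, abs_of_neg hM] at hNM
    obtain ⟨m, rfl⟩ : ∃ m, M = -m := ⟨-M, by ring⟩
    obtain ⟨n, rfl⟩ : ∃ n, N = -n := ⟨-N, by ring⟩
    simp only [neg_neg] at h3 hN4 hNM
    have e1 : |(-m : ℤ)| = m := by rw [abs_neg]; exact abs_of_pos (by linarith)
    have e2 : |(-m : ℤ) - -n| = m - n := by
      have : (-m : ℤ) - -n = -(m - n) := by ring
      rw [this, abs_neg]; exact abs_of_nonneg (by linarith)
    have f1 : 0 ≤ (m - n) * (m + n) := mul_nonneg (by linarith) (by linarith)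
    have f2 : 0 < (m - 2) * m := mul_pos (by linarith) (by linarith)
    have f3 : 0 < (n - 1) * (n - 2) := mul_pos (by linarith) (by linarith)
    have f4 : 9 ≤ (m - 1) * (n - 1) := by nlinarith
    have f5 : 0 ≤ m * (m - n) := mul_nonneg (by linarith) (by linarith)
    rw [e1, e2]
    refine ⟨?_, ?_, ?_, ?_, ?_, ?_, ?_, ?_, hDb, hDa⟩
    · nlinarith
    · nlinarith
    · nlinarith
    · nlinarith
    · linarith
    · intro e; nlinarith
    · intro e; nlinarith
    · rw [abs_le]; constructor <;> nlinarith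
  · rw [hM] at hMN; simp at hMN
  · have hN : 0 < N := by
      by_contra hN
      push Not at hN
      have := mul_nonneg hM.le (neg_nonneg.2 hN)
      linarith
    rw [abs_of_pos hN] at hN4
    rw [abs_of_pos hN, abs_of_pos hM] at hNM
    rw [abs_of_pos hM, abs_of_nonneg (show (0 : ℤ) ≤ M - N by linarith),
      abs_of_pos (show (0 : ℤ) < M*N+M+N by nlinarith)]
    have f1 : 0 ≤ (M - N) * (M + N) := mul_nonneg (by linarith) (by linarith)
    have f2 : 0 < (M - 2) * M := mul_pos (by linarith) (by linarith)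
    have f5 : 0 ≤ M * (M - N) := mul_nonneg (by linarith) (by linarith)
    have f6 : 0 < M * M := by positivity
    have f7 : 0 < N * N := by positivity
    refine ⟨?_, ?_, ?_, ?_, ?_, ?_, ?_, ?_, hDb, hDa⟩
    · nlinarith
    · nlinarith
    · nlinarith
    · nlinarith
    · linarith
    · intro e; nlinarith
    · intro e; nlinarith
    · nlinarith

end Irr
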