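import Pool.Agent.Lib.Irr.LinRel
import Pool.Agent.Lib.Irr.T1a
import Pool.Agent.Lib.Irr.T1b
import Pool.Agent.Lib.Irr.Degen

/-!
# Module T1c: `T1_main`

The case `D = e > 0`, `{a,b,c,e}` regular.

Write `e = D`, `K = |M| >= 4`, `A = M^2+M+N`, `B = N^2+N+M`, `C = M-N`, `U = 2K^2 >= 32`.

`j ≠ 0`: `linrel4` with `U = 2K^2`: `c <= 64 K^10`.

`j = 0`: `A a - B b + C e = 0`. `M ≠ N` (otherwise `A = B`, `A(a-b) = 0`). `c <= 11abe`.
`e < b`: if `b ≠ a+e+2ξ`: `linrel` for `(a,e;b)` (roots `ξ, r, η`), `α1 = A, α2 = C,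
α3 = -B`: `b <= 4U^5 = 128K^10`, `a, e < b`, `c <= 11 b^3 <= (10K)^32`.
If `b = a+e+2ξ`: `(A-B)a - (B-C)e = 2Bξ`, `degen` with `p=a, q=e, ρ=ξ, P=M^2-N^2, Q=N^2+2N, G=B`.
`e > b`: if `e ≠ a+b+2r`: `linrel` for `(a,b;e)` (roots `r, ξ, η`), `α3 = C ≠ 0`:
`e <= 128K^10`. If `e = a+b+2r`: `(A+C)a - (B-C)b = -2Cr`: `degen` with `p=a,q=b,ρ=r,G=-C`.
-/

namespace Irr

private lemma prod3_le {x y z X Y Z : ℤ} (hx : 0 ≤ x) (hy : 0 ≤ y) (hz : 0 ≤ z) (h1 : x ≤ X)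
    (h2 : y ≤ Y) (h3 : z ≤ Z) : x*y*z ≤ X*Y*Z :=
  mul_le_mul (mul_le_mul h1 h2 hy (hx.trans h1)) h3 hz
    (mul_nonneg (hx.trans h1) (hy.trans h2))

private lemma pow_abs_le {x X : ℤ} (h : |x| ≤ X) : x^2 ≤ X^2 := by
  rw [← sq_abs x]; exact pow_le_pow_left₀ (abs_nonneg x) h 2

private lemma root_le_add {p q ρ : ℤ} (hp : 0 < p) (hq : 0 < q) (hρ : 0 < ρ)
    (e : ρ^2 = p*q+1) : ρ ≤ p + q := by
  by_contra hcon
  push Not at hcon
  nlinarith

private lemma root_le_big {p q ρ : ℤ} (hp : 0 < p) (hpq : p < q) (hρ : 0 < ρ)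
    (e : ρ^2 = p*q+1) : ρ ≤ q := by
  by_contra hcon
  push Not at hcon
  nlinarith

private lemma pow_fin {K C : ℤ} {n : ℕ} (hK : 4 ≤ K) (hn : n ≤ 32) (hC : C ≤ 10^32)
    : C*K^n ≤ (10*K)^32 := by
  have h1 : K^n ≤ K^32 := pow_le_pow_right₀ (by linarith) hn
  have h2 : (0:ℤ) ≤ K^n := by positivity
  rw [mul_pow]
  calc C*K^n ≤ 10^32*K^n := mul_le_mul_of_nonneg_right hC h2
    _ ≤ 10^32*K^32 := mul_le_mul_of_nonneg_left h1 (by norm_num)

private lemma cube_fin {K x y z c : ℤ} (hK : 4 ≤ K) (hx : 0 ≤ x) (hy : 0 ≤ y) (hz : 0 ≤ z)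
    (h1 : x ≤ 128*K^10) (h2 : y ≤ 128*K^10) (h3 : z ≤ 128*K^10) (hc : c ≤ 11*x*y*z) :
    c ≤ (10*K)^32 := by
  have h4 := prod3_le hx hy hz h1 h2 h3
  have h5 : 11*x*y*z = 11*(x*y*z) := by ring
  have h6 : (128*K^10)*(128*K^10)*(128*K^10) = 2097152*K^30 := by ring
  rw [h6] at h4
  have h7 := pow_fin (K := K) (C := 23068672) (n := 30) hK (by norm_num) (by norm_num)
  linarith

/-- the degenerate case `b = a+e+2ξ` -/
private lemma degen_fin1 {K a b D ξ c G P Q L : ℤ} (hK : 4 ≤ K) (ha : 0 < a) (hD : 0 < D)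
    (hξ : 0 < ξ) (eξ : ξ^2 = a*D+1) (hb : b = a+D+2*ξ) (hP : P ≠ 0) (hG : G ≠ 0) (hL : L ≠ 0)
    (hPQ : P*Q+G^2 = L^2) (hrel : P*a-Q*D = 2*G*ξ) (hPK : |P| ≤ K^2) (hGK : |G| ≤ 2*K^2)
    (hLK : |L| ≤ 2*K^2) (hc : c ≤ 11*a*b*D) : c ≤ (10*K)^32 := by
  obtain ⟨h1, h2⟩ := degen a D ξ P Q G L ha hD eξ hP hG hL hPQ hrel
  have hP2 := pow_abs_le hPK
  have hG2 := pow_abs_le hGK
  have hGP : G^2*P^2 ≤ (2*K^2)^2*(K^2)^2 := mul_le_mul hG2 hP2 (sq_nonneg _) (sq_nonneg _)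
  have e1 : (2*K^2)^2*(K^2)^2 = 4*K^8 := by ring
  rw [e1] at hGP
  have hGL : |G+L| ≤ 4*K^2 := by
    calc |G+L| ≤ |G| + |L| := abs_add_le _ _
      _ ≤ 4*K^2 := by linarith
  have hGL2 := pow_abs_le hGL
  have e2 : 4*G^2*P^2 = 4*(G^2*P^2) := by ring
  rw [e2] at h1 h2
  have hDK : D ≤ 8*K^8 := by linarith
  have hGLD : (G+L)^2*D ≤ (4*K^2)^2*(8*K^8) :=
    mul_le_mul hGL2 hDK hD.le (sq_nonneg _)
  have e3 : (4*K^2)^2*(8*K^8) = 128*K^12 := by ring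
  rw [e3] at hGLD
  have k1 : 16*K^8 ≤ K^12 := by
    have k2 : (16:ℤ) ≤ K^4 := by
      calc (16:ℤ) ≤ 4^4 := by norm_num
        _ ≤ K^4 := pow_le_pow_left₀ (by norm_num) hK 4
    calc 16*K^8 ≤ K^4*K^8 := mul_le_mul_of_nonneg_right k2 (by positivity)
      _ = K^12 := by ring
  have haK : a ≤ 129*K^12 := by linarith
  have hξK := root_le_add ha hD hξ eξ
  have k3 : (0:ℤ) ≤ K^8 := by positivity
  have hbK : b ≤ 390*K^12 := by linarith
  have h5 := prod3_le ha.le (by linarith : 0 ≤ b) hD.le haK hbK hDK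
  have e4 : (129*K^12)*(390*K^12)*(8*K^8) = 402480*K^32 := by ring
  rw [e4] at h5
  have e5 : 11*a*b*D = 11*(a*b*D) := by ring
  have h7 := pow_fin (K := K) (C := 4427280) (n := 32) hK (by norm_num) (by norm_num)
  linarith

/-- the degenerate case `e = a+b+2r` -/
private lemma degen_fin2 {K a b D r c G P Q L : ℤ} (hK : 4 ≤ K) (ha : 0 < a) (hab : a < b)
    (hr : 0 < r) (er : r^2 = a*b+1) (hD : D = a+b+2*r) (hP : P ≠ 0) (hG : G ≠ 0) (hL : L ≠ 0)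
    (hPQ : P*Q+G^2 = L^2) (hrel : P*a-Q*b = 2*G*r) (hPK : |P| ≤ 2*K^2) (hGK : |G| ≤ K)
    (hc : c ≤ 11*a*b*D) : c ≤ (10*K)^32 := by
  have hb : 0 < b := lt_trans ha hab
  obtain ⟨h1, -⟩ := degen a b r P Q G L ha hb er hP hG hL hPQ hrel
  have hP2 := pow_abs_le hPK
  have hG2 := pow_abs_le hGK
  have hGP : G^2*P^2 ≤ K^2*(2*K^2)^2 := mul_le_mul hG2 hP2 (sq_nonneg _) (sq_nonneg _)
  have e1 : K^2*(2*K^2)^2 = 4*K^6 := by ring
  rw [e1] at hGP
  have e2 : 4*G^2*P^2 = 4*(G^2*P^2) := by ring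
  rw [e2] at h1
  have hbK : b ≤ 8*K^6 := by linarith
  have hrK := root_le_big ha hab hr er
  have haK : a ≤ 8*K^6 := by linarith
  have hDK : D ≤ 32*K^6 := by linarith
  have h5 := prod3_le ha.le hb.le (by linarith : 0 ≤ D) haK hbK hDK
  have e4 : (8*K^6)*(8*K^6)*(32*K^6) = 2048*K^18 := by ring
  rw [e4] at h5
  have e5 : 11*a*b*D = 11*(a*b*D) := by ring
  have h7 := pow_fin (K := K) (C := 22528) (n := 18) hK (by norm_num) (by norm_num)
  linarith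

private lemma MN_sq {M N : ℤ} (hMN : 0 < M*N) (hne : M ≠ N) : M^2-N^2 ≠ 0 := by
  intro h
  have h1 : (M-N)*(M+N) = 0 := by linear_combination h
  rcases mul_eq_zero.mp h1 with h2 | h2
  · exact hne (by linarith)
  · have h3 : N = -M := by linarith
    rw [h3] at hMN
    nlinarith [sq_nonneg M]

theorem T1_main {a b c r s t D P Q ζ ξ η M N j : ℤ} (h : Dat a b c r s t D P Q ζ ξ η M N j)
    (hD : 0 < D) (hreg : regP a b c D = 0) : c ≤ (10*|M|)^32 := by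
  obtain ⟨-, -, hc, hrel, hA0, hB0, hA, hB, hC, hM2, hL, hLK, hDb, hDa⟩ := T1_rel h hD hreg
  have ha := h.ha
  have hab := h.hab
  have hb : 0 < b := lt_trans ha hab
  set K : ℤ := |M| with hK
  have hK4 : 4 ≤ K := le_trans h.hN4 h.hNM
  have hU : (32:ℤ) ≤ 2*K^2 := by nlinarith
  have hKU : K ≤ 2*K^2 := by nlinarith
  have hCU : |M-N| ≤ 2*K^2 := le_trans hC hKU
  have hAabs : |M^2+M+N| ≤ 2*K^2 := by rw [abs_of_pos hA0]; exact hA
  have hBabs : |N^2+N+M| ≤ 2*K^2 := by rw [abs_of_pos hB0]; exact hB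
  have eU : (4:ℤ)*(2*K^2)^5 = 128*K^10 := by ring
  by_cases hj : j = 0
  · rw [hj] at hrel
    have hrel0 : (M^2+M+N)*a - (N^2+N+M)*b + (M-N)*D = 0 := by linarith
    have hMN : M ≠ N := by
      intro hMN
      rw [← hMN] at hrel0
      have h1 : (M^2+M+M)*(a-b) = 0 := by linear_combination hrel0
      rw [← hMN] at hA0
      rcases mul_eq_zero.mp h1 with h2 | h2
      · linarith
      · linarith
    have hC0 : M - N ≠ 0 := sub_ne_zero.mpr hMN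
    have hc11 : c ≤ 11*a*b*D := by
      have := dplus_le a b D r ξ η ha hb hD h.hr h.hξ h.hη h.er h.eξ h.eη
      rw [hc]; exact this
    rcases lt_or_gt_of_ne hDb with hDb' | hDb'
    · -- `D < b`
      by_cases hbe : b = a+D+2*ξ
      · refine degen_fin1 (K := K) (P := M^2-N^2) (Q := N^2+2*N) (G := N^2+N+M)
          (L := M*N+M+N) hK4 ha hD h.hξ h.eξ hbe (MN_sq h.hMN hMN) hB0.ne' hL (by ring) ?_ ?_
          hBabs hLK hc11
        · rw [hbe] at hrel0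
          linear_combination hrel0
        · have h1 : N^2 ≤ M^2 := sq_le_sq.mpr h.hNM
          have h2 : M^2 = K^2 := by rw [hK, sq_abs]
          rw [abs_of_nonneg (by linarith)]
          have := sq_nonneg N
          linarith
      · have h1 := linrel a D b ξ r η (M^2+M+N) (M-N) (-(N^2+N+M)) (2*K^2) ha hD hab hDb'
          h.hξ h.hr h.hη h.eξ h.er (by rw [h.eη]; ring) hbe hU hAabs hCU
          (by rw [abs_neg]; exact hBabs) (by rw [neg_ne_zero]; exact hB0.ne')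
          (by linear_combination hrel0)
        rw [eU] at h1
        exact cube_fin hK4 ha.le hb.le hD.le (by linarith) h1 (by linarith) hc11
    · -- `b < D`
      by_cases hDe : D = a+b+2*r
      · have hM2abs : |M^2+2*M| ≤ 2*K^2 := by
          calc |M^2+2*M| ≤ |M^2| + |2*M| := abs_add_le _ _
            _ = K^2 + 2*K := by rw [abs_pow, abs_mul, ← hK]; norm_num
            _ ≤ 2*K^2 := by nlinarith
        refine degen_fin2 (K := K) (P := M^2+2*M) (Q := N^2+2*N) (G := -(M-N))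
          (L := M*N+M+N) hK4 ha hab h.hr h.er hDe hM2 (by rw [neg_ne_zero]; exact hC0) hL
          (by ring) ?_ hM2abs (by rw [abs_neg]; exact hC) hc11
        rw [hDe] at hrel0
        linear_combination hrel0
      · have h1 := linrel a b D r ξ η (M^2+M+N) (-(N^2+N+M)) (M-N) (2*K^2) ha hb
          (by linarith) hDb' h.hr h.hξ h.hη h.er h.eξ h.eη hDe hU hAabs
          (by rw [abs_neg]; exact hBabs) hCU hC0 (by linear_combination hrel0)
        rw [eU] at h1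
        exact cube_fin hK4 ha.le hb.le hD.le (by linarith) (by linarith) h1 hc11
  · have h1 := linrel4 a b D c r ξ η (M^2+M+N) (N^2+N+M) (M-N) j (2*K^2) ha hab hD h.hr h.hξ
      h.hη h.er h.eξ h.eη hc hU hAabs hBabs hCU hj hrel
    have e1 : 2*(2*K^2)^5 = 64*K^10 := by ring
    rw [e1] at h1
    exact h1.trans (pow_fin hK4 (by norm_num) (by norm_num))

end Irr
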