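import Pool.Agent.Lib.Irr.Descent
import Pool.Agent.Lib.Irr.Liou2
import Pool.Agent.Lib.Irr.Ev

/-!
# Module T2a (about 90 lines): `T2_pre` (see the PROOF notes below)

The case of an irregular quadruple `{a,b,D,c}` (`D > 0`); the only input about it is the gap
inequality `c >= 16 b'^2 c'^3` (`b' < c'` the two largest of `a,b,D`). `K = |M|`.

`T2_pre`. `P` is the descent of `(a,D;c)` (roots `ξ, s, ζ`): `c = a+D+P+2aDP+2ξf1g1`,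
`f1^2 = aP+1`, `g1^2 = DP+1`, hence `4aDP <= c` and `c <= (4aD+2)P + 2(a+D)`:
the second because `2P(1+2aD)+2(a+D) - c = a+D+P+2aDP-2ξf1g1 >= 0` (its square
`(a+D+P+2aDP)^2 - 4(aD+1)(aP+1)(DP+1) = regP a D P 0 ...`; easier: by `descent`/direct:
`ξ f1 g1 <= ...` use `(a+D+P+2aDP)^2 - (2ξf1g1)^2 = a^2+D^2+P^2-2aD-2aP-2DP-4` which may be
negative, so argue: with `e2 = a+D+P+2aDP-2ξf1g1` one has `a e2 + 1 = (ξ f1 - a g1)^2 >= 0`, so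
`e2 >= 0` or `e2 = -1, a = 1`...; since `(ξf1-ag1)^2 = a e2+1` is a square, `e2 = -1` only if
`a = 1`, and then `D e2 + 1 = (ξg1 - Df1)^2` gives `D = 1`, impossible as `aD+1` is a square. So
`e2 >= 0`.) Same for `Q` with `(b,D;c)`.

`T2_zero` (`j = 0`). `M P - N Q = (M-N)D + aM(M+1) - bN(N+1)`.
`P >= (c-2a-2D)/(4aD+2) >= c/(4aD+2) - 1`, `Q <= c/(4bD)`, and
`1/(4aD+2) - 1/(4bD) = (4(b-a)D-2)/((4aD+2)4bD) >= 2(b-a)D/(6aD·4bD) >= 1/(12abD)`.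
So `P - Q >= c/(12abD) - 1`; in particular if `P < Q` then `c <= 12abD` and we are done by the gap
(below). If `P >= Q`: for `M,N > 0`: `P-Q <= N(P-Q) <= MP-NQ <= KD+aK(K+1) <= 2K^2(b+D)`; for
`M=-μ,N=-ν`: `μP-νQ = (μ-ν)D-aμ(μ-1)+bν(ν-1) <= KD+bK^2`. So `c <= 12abD(2K^2(b+D)+1)
<= 36K^2abD(b+D)`. Gap: if `D < a`: `16a^2b^3 <= c <= 72K^2ab^2D <= 72K^2a^2b^2`, `b <= 4.5K^2`; if
`a < D < b`: `16D^2b^3 <= c <= 72K^2ab^2D <= 72K^2D^2b^2`, `b <= 4.5K^2`; if `D > b`: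
`16b^2D^3 <= c <= 72K^2abD^2 <= 72K^2b^2D^2`, `D <= 4.5K^2`. So `a,b,D <= 4.5K^2` and
`c <= 36·(4.5)^3·9·K^10 <= (10K)^10`.

`T2_small` (`j ≠ 0`). `|MP-NQ| <= K max(P,Q) <= Kc/(4aD)`, `|aM(M+1)-bN(N+1)| <= 2K^2b`, so
`2c <= |2jc| <= Kc/(4aD)+KD+2K^2b`. If `c < KD+2K^2b` then `c <= 3K^2 max(b,D)`, and the gap
`16 max(b,D)^3 <= c` gives `max <= K`, `c <= 3K^3`. Otherwise `c <= Kc/(4aD)`, `aD <= K/4`.
`|2j| <= K/4 + 1 <= K`. `liou2` for `(a,D;P)` (roots `ξ, f1, g1`, extension `c`), `u = M`,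
`v = 2j`: `MP + 2jc = NQ + (M-N)D + aM(M+1)-bN(N+1)`, absolute value
`<= Kc/(4b) + KD + 2K^2b <= Kc/(4b)+3K^2b`; `a+D <= aD+1 <= K/2`; so
`P <= 2K(Kc/(4b)+3K^2b+3K·K^2/4) <= K^2c/(2b)+6K^3b+2K^4`. And `P >= (c-2a-2D)/(4aD+2) >=
(c-K)/(K+2) >= c/(2K)` (if `c >= 4K^2`, otherwise done). If `b >= 2K^3` then
`c/(4K) <= 6K^3b+2K^4`, `16b^3 <= c <= 24K^4b+8K^5 <= 32 K^4 b`, `b^2 <= 2K^4`, contradiction.
So: `aD <= K/4`, `|2j| <= K` and `b < 2K^3` (or `c <= 3K^3`, or `c < 4K^2`).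

`T2_end` (`aD <= K/4`, `b < 2K^3`). Real numbers: `X = √(aD)`, `Y = √(bD)`, `θa' = (ξ-X)^2`,
`θa = (ξ+X)^2`, similarly `θb', θb` with `η, Y`. As in `liou2` part (1) (with `(a,D;P)`):
`0 <= c - θa P <= 3(a+D)^2`, `0 <= c - θb Q <= 3(b+D)^2`, i.e. (`θθ' = 1`) `0 <= cθa' - P <= 3(a+D)^2`,
`0 <= cθb' - Q <= 3(b+D)^2`. So `c (2j + Mθa' - Nθb') = (2jc+MP-NQ) + M(cθa'-P) - N(cθb'-Q)` has
absolute value `<= KD+2K^2b + 2K·3(b+D)^2 <= 100 K^7` (`b+D <= 3K^3`).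
The number `y = 2j+Mθa'-Nθb' = ev X Y x` with `p = aD`, `q = bD`,
`x = (2j+M(2aD+1)-N(2bD+1), -2Mξ, 2Nη, 0)`. `p, q, pq = abD^2` are not squares (`aD+1, bD+1, ab+1` are
squares and a positive square plus one is never a square). `x ≠ 0` (`x 1 ≠ 0`). The conjugates are
bounded by `|2j|+Kθa+Kθb <= K + K·4(aD+1) + K·4(bD+1) <= H = 4K^5`. `liou4`:
`1 <= |y| H^3`, so `c <= 100K^7·64K^15 <= (10K)^22`.
-/

namespace Irr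

private theorem T2_aux {a c D s ζ ξ P : ℤ} (ha : 0 < a) (hD : 0 < D) (hac : a < c) (hDc : D < c)
    (hξ : 0 < ξ) (hs : 0 < s) (hζ : 0 < ζ) (eξ : ξ^2 = a*D+1) (es : s^2 = a*c+1)
    (eζ : ζ^2 = c*D+1) (eP : P = a+c+D+2*a*c*D-2*s*ζ*ξ) :
    4*a*D*P ≤ c ∧ c ≤ (4*a*D+2)*P+2*(a+D) ∧
    (∃ f1 g1 : ℤ, 0 < f1 ∧ 0 < g1 ∧ f1^2 = a*P+1 ∧ g1^2 = D*P+1 ∧
      c = a+D+P+2*a*D*P+2*ξ*f1*g1) := by
  obtain ⟨e, f, g, he, hf, hg, he0, hec, hf0, hg0, ef, eg, hσ, hτ, hX⟩ :=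
    descent a D c ξ s ζ ha hD hac hDc hξ hs hζ eξ es (by rw [eζ]; ring)
  have heP : e = P := by rw [he, eP]; ring
  subst heP
  have hfg : 0 < ξ * f * g := by positivity
  have hsq : (ξ*f*g)^2 = (a*D+1)*(a*e+1)*(D*e+1) := by
    rw [mul_pow, mul_pow, eξ, ef, eg]
  have hlow : a*D*e ≤ ξ*f*g := by
    by_contra hcon
    push Not at hcon
    have h0 : 0 ≤ a*D*e := by positivity
    have h1 : (ξ*f*g)^2 < (a*D*e)^2 := by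
      apply pow_lt_pow_left₀ hcon hfg.le (by norm_num)
    have h2 : (a*D*e)^2 ≤ (ξ*f*g)^2 := by
      rw [hsq]
      have : (a*D+1)*(a*e+1)*(D*e+1) - (a*D*e)^2
          = a^2*D*e + a*D^2*e + a*D*e^2 + a*D + a*e + D*e + 1 := by ring
      have h3 : 0 ≤ a^2*D*e + a*D^2*e + a*D*e^2 + a*D + a*e + D*e + 1 := by positivity
      linarith
    linarith
  have hup : 0 ≤ a+D+e+2*a*D*e-2*(ξ*f*g) := by
    by_contra hcon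
    push Not at hcon
    have e1 : (ξ*f - a*g)^2 = a*(a+D+e+2*a*D*e-2*(ξ*f*g)) + 1 := by
      linear_combination (f^2) * eξ + (a*D+1) * ef + a^2 * eg
    have e2 : (ξ*g - D*f)^2 = D*(a+D+e+2*a*D*e-2*(ξ*f*g)) + 1 := by
      linear_combination (g^2) * eξ + (a*D+1) * eg + D^2 * ef
    have n1 := sq_nonneg (ξ*f - a*g)
    have n2 := sq_nonneg (ξ*g - D*f)
    rw [e1] at n1
    rw [e2] at n2
    have hle : a+D+e+2*a*D*e-2*(ξ*f*g) ≤ -1 := by linarith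
    have a1 : a = 1 := by
      have : a*(a+D+e+2*a*D*e-2*(ξ*f*g)) ≤ a * (-1) := by
        exact mul_le_mul_of_nonneg_left hle ha.le
      linarith
    have d1 : D = 1 := by
      have : D*(a+D+e+2*a*D*e-2*(ξ*f*g)) ≤ D * (-1) := by
        exact mul_le_mul_of_nonneg_left hle hD.le
      linarith
    subst a1
    subst d1
    have h5 : ξ^2 = 2 := by rw [eξ]; norm_num
    have h6 : ξ < 2 := by nlinarith
    have h7 : ξ = 1 := by omega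
    rw [h7] at h5
    norm_num at h5
  refine ⟨?_, ?_, f, g, hf0, hg0, ef, eg, hX⟩
  · have : 0 ≤ a + D + e := by positivity
    have h4 : c = a+D+e+2*a*D*e+2*(ξ*f*g) := by rw [hX]; ring
    rw [h4]
    linarith
  · have h4 : c = a+D+e+2*a*D*e+2*(ξ*f*g) := by rw [hX]; ring
    have h5 : (4*a*D+2)*e+2*(a+D) - (a+D+e+2*a*D*e+2*(ξ*f*g))
        = a+D+e+2*a*D*e-2*(ξ*f*g) := by ring
    linarith

theorem T2_pre {a b c r s t D P Q ζ ξ η M N j : ℤ} (h : Dat a b c r s t D P Q ζ ξ η M N j)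
    (hD : 0 < D) (hc : a < c ∧ D < c) :
    4*a*D*P ≤ c ∧ c ≤ (4*a*D+2)*P+2*(a+D) ∧ 4*b*D*Q ≤ c ∧ c ≤ (4*b*D+2)*Q+2*(b+D) ∧
    (∃ f1 g1 : ℤ, 0 < f1 ∧ 0 < g1 ∧ f1^2 = a*P+1 ∧ g1^2 = D*P+1 ∧
      c = a+D+P+2*a*D*P+2*ξ*f1*g1) ∧
    (∃ f2 g2 : ℤ, 0 < f2 ∧ 0 < g2 ∧ f2^2 = b*Q+1 ∧ g2^2 = D*Q+1 ∧
      c = b+D+Q+2*b*D*Q+2*η*f2*g2) := by
  have hb : 0 < b := h.ha.trans h.hab
  obtain ⟨p1, p2, p3⟩ := T2_aux h.ha hD hc.1 hc.2 h.hξ h.hs h.hζ h.eξ h.es h.eζ h.eP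
  obtain ⟨q1, q2, q3⟩ := T2_aux hb hD h.hbc hc.2 h.hη h.ht h.hζ h.eη h.et h.eζ h.eQ
  exact ⟨p1, p2, q1, q2, p3, q3⟩

end Irr
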