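import Pool.Agent.Lib.Irr.Descent
import Pool.Agent.Lib.Irr.T2a
import Pool.Agent.Lib.Irr.Liou2
import Pool.Agent.Lib.Irr.Ev

/-!
# Module T2b (about 120 lines): `T2_zero` (see the PROOF notes below)

The case of an irregular quadruple `{a,b,D,c}` (`D > 0`); the only input about it is the gap
inequality `c >= 16 b'^2 c'^3` (`b' < c'` the two largest of `a,b,D`). `K = |M|`.

`T2_pre`. `P` is the descent of `(a,D;c)` (roots `ξ, s, ζ`): `c = a+D+P+2aDP+2ξf1g1`,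
`f1^2 = aP+1`, `g1^2 = DP+1`, hence `4aDP <= c` and `c <= (4aD+2)P + 2(a+D)`:
the second because `2P(1+2aD)+2(a+D) - c = a+D+P+2aDP-2ξf1g1 >= 0` (its square
`(a+D+P+2aDP)^2 - 4(aD+1)(aP+1)(DP+1) = regP a D P 0 ...`; easier: by `descent`/direct:
`ξ f1 g1 <= ...` use `(a+D+P+2aDP)^2 - (2ξf1g1)^2 = a^2+D^2+P^2-2aD-2aP-2DP-4` which may be
negative, so argue: with `e2 = a+D+P+2aDP-2ξf1g1` one has `a e2 + 1 = (ξ f1 - a g1)^2 >= 0`, so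
`e2 >= 0` or `e2 = -1, a = 1`...; since `(ξf1-ag1)^2 = a e2+1` is a square, `e2 = -1` only if
`a = 1`, and then `D e2 + 1 = (ξg1 - Df1)^2` gives `D = 1`, impossible as `aD+1` is a square. So
`e2 >= 0`.) Same for `Q` with `(b,D;c)`.

`T2_zero` (`j = 0`). `M P - N Q = (M-N)D + aM(M+1) - bN(N+1)`.
`P >= (c-2a-2D)/(4aD+2) >= c/(4aD+2) - 1`, `Q <= c/(4bD)`, and
`1/(4aD+2) - 1/(4bD) = (4(b-a)D-2)/((4aD+2)4bD) >= 2(b-a)D/(6aD·4bD) >= 1/(12abD)`.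
So `P - Q >= c/(12abD) - 1`; in particular if `P < Q` then `c <= 12abD` and we are done by the gap
(below). If `P >= Q`: for `M,N > 0`: `P-Q <= N(P-Q) <= MP-NQ <= KD+aK(K+1) <= 2K^2(b+D)`; for
`M=-μ,N=-ν`: `μP-νQ = (μ-ν)D-aμ(μ-1)+bν(ν-1) <= KD+bK^2`. So `c <= 12abD(2K^2(b+D)+1)
<= 36K^2abD(b+D)`. Gap: if `D < a`: `16a^2b^3 <= c <= 72K^2ab^2D <= 72K^2a^2b^2`, `b <= 4.5K^2`; if
`a < D < b`: `16D^2b^3 <= c <= 72K^2ab^2D <= 72K^2D^2b^2`, `b <= 4.5K^2`; if `D > b`: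
`16b^2D^3 <= c <= 72K^2abD^2 <= 72K^2b^2D^2`, `D <= 4.5K^2`. So `a,b,D <= 4.5K^2` and
`c <= 36·(4.5)^3·9·K^10 <= (10K)^10`.

`T2_small` (`j ≠ 0`). `|MP-NQ| <= K max(P,Q) <= Kc/(4aD)`, `|aM(M+1)-bN(N+1)| <= 2K^2b`, so
`2c <= |2jc| <= Kc/(4aD)+KD+2K^2b`. If `c < KD+2K^2b` then `c <= 3K^2 max(b,D)`, and the gap
`16 max(b,D)^3 <= c` gives `max <= K`, `c <= 3K^3`. Otherwise `c <= Kc/(4aD)`, `aD <= K/4`.
`|2j| <= K/4 + 1 <= K`. `liou2` for `(a,D;P)` (roots `ξ, f1, g1`, extension `c`), `u = M`,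
`v = 2j`: `MP + 2jc = NQ + (M-N)D + aM(M+1)-bN(N+1)`, absolute value
`<= Kc/(4b) + KD + 2K^2b <= Kc/(4b)+3K^2b`; `a+D <= aD+1 <= K/2`; so
`P <= 2K(Kc/(4b)+3K^2b+3K·K^2/4) <= K^2c/(2b)+6K^3b+2K^4`. And `P >= (c-2a-2D)/(4aD+2) >=
(c-K)/(K+2) >= c/(2K)` (if `c >= 4K^2`, otherwise done). If `b >= 2K^3` then
`c/(4K) <= 6K^3b+2K^4`, `16b^3 <= c <= 24K^4b+8K^5 <= 32 K^4 b`, `b^2 <= 2K^4`, contradiction.
So: `aD <= K/4`, `|2j| <= K` and `b < 2K^3` (or `c <= 3K^3`, or `c < 4K^2`).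

`T2_end` (`aD <= K/4`, `b < 2K^3`). Real numbers: `X = √(aD)`, `Y = √(bD)`, `θa' = (ξ-X)^2`,
`θa = (ξ+X)^2`, similarly `θb', θb` with `η, Y`. As in `liou2` part (1) (with `(a,D;P)`):
`0 <= c - θa P <= 3(a+D)^2`, `0 <= c - θb Q <= 3(b+D)^2`, i.e. (`θθ' = 1`) `0 <= cθa' - P <= 3(a+D)^2`,
`0 <= cθb' - Q <= 3(b+D)^2`. So `c (2j + Mθa' - Nθb') = (2jc+MP-NQ) + M(cθa'-P) - N(cθb'-Q)` has
absolute value `<= KD+2K^2b + 2K·3(b+D)^2 <= 100 K^7` (`b+D <= 3K^3`).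
The number `y = 2j+Mθa'-Nθb' = ev X Y x` with `p = aD`, `q = bD`,
`x = (2j+M(2aD+1)-N(2bD+1), -2Mξ, 2Nη, 0)`. `p, q, pq = abD^2` are not squares (`aD+1, bD+1, ab+1` are
squares and a positive square plus one is never a square). `x ≠ 0` (`x 1 ≠ 0`). The conjugates are
bounded by `|2j|+Kθa+Kθb <= K + K·4(aD+1) + K·4(bD+1) <= H = 4K^5`. `liou4`:
`1 <= |y| H^3`, so `c <= 100K^7·64K^15 <= (10K)^22`.
-/

namespace Irr

private theorem T2b_diff {a b c D P Q : ℤ} (ha : 0 < a) (hab : a < b) (hc : 0 < c) (hD : 0 < D)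
    (p2 : c ≤ (4*a*D+2)*P+2*(a+D)) (p3 : 4*b*D*Q ≤ c) :
    0 < P+1-Q ∧ c ≤ 12*(a*b*D)*(P+1-Q) := by
  have hb : 0 < b := ha.trans hab
  have haD : 0 < a*D := mul_pos ha hD
  have hbD : 0 < b*D := mul_pos hb hD
  have e1 : c ≤ (4*(a*D)+2)*(P+1) := by
    nlinarith [mul_nonneg (sub_nonneg.2 (Int.add_one_le_iff.2 ha))
      (sub_nonneg.2 (Int.add_one_le_iff.2 hD))]
  have e2 : (4*(b*D))*c ≤ (4*(b*D))*((4*(a*D)+2)*(P+1)) :=
    mul_le_mul_of_nonneg_left e1 (by linarith)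
  have e3 : (4*(a*D)+2)*(4*(b*D)*Q) ≤ (4*(a*D)+2)*c :=
    mul_le_mul_of_nonneg_left (by linarith [p3]) (by linarith)
  have e4 : 2*D ≤ 4*(b*D) - (4*(a*D)+2) := by
    have : 0 ≤ (b-a-1)*D := mul_nonneg (by linarith [Int.add_one_le_iff.2 hab]) hD.le
    nlinarith [Int.add_one_le_iff.2 hD]
  have e5 : (2*D)*c ≤ (4*(b*D) - (4*(a*D)+2))*c := mul_le_mul_of_nonneg_right e4 hc.le
  have e6 : (2*D)*c ≤ ((4*(a*D)+2)*(4*(b*D)))*(P+1-Q) := by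
    linear_combination e2 + e3 + e5
  have hAB : 0 < (4*(a*D)+2)*(4*(b*D)) := mul_pos (by linarith) (by linarith)
  have hpos : 0 < P+1-Q := by
    by_contra hneg
    have h0 : ((4*(a*D)+2)*(4*(b*D)))*(P+1-Q) ≤ 0 :=
      mul_nonpos_of_nonneg_of_nonpos hAB.le (not_lt.1 hneg)
    have h1 : 0 < (2*D)*c := by positivity
    linarith
  refine ⟨hpos, ?_⟩
  have e7 : (4*(a*D)+2) ≤ 6*(a*D) := by linarith [Int.add_one_le_iff.2 haD]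
  have e8 : ((4*(a*D)+2)*(4*(b*D)))*(P+1-Q) ≤ (6*(a*D)*(4*(b*D)))*(P+1-Q) := by
    gcongr
  have e9 : (2*D)*c ≤ (2*D)*(12*(a*b*D)*(P+1-Q)) := by
    linear_combination e6 + e8
  exact le_of_mul_le_mul_left e9 (by linarith)

private theorem T2b_up {a b D P Q M N : ℤ} (ha : 0 < a) (hab : a < b) (hD : 0 < D)
    (hP : 0 ≤ P) (hpos : 0 ≤ P-Q) (hMN : 0 < M*N) (hNM : |N| ≤ |M|)
    (rel : M*P-N*Q = (M-N)*D+a*M*(M+1)-b*N*(N+1)) :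
    P-Q ≤ 2*|M|^2*(b+D) := by
  have hb : 0 < b := ha.trans hab
  rcases pos_and_pos_or_neg_and_neg_of_mul_pos hMN with ⟨hM, hN⟩ | ⟨hM, hN⟩
  · rw [abs_of_pos hM, abs_of_pos hN] at hNM
    rw [abs_of_pos hM]
    have h1 : P-Q ≤ N*(P-Q) := by nlinarith
    have h2 : N*P ≤ M*P := mul_le_mul_of_nonneg_right hNM hP
    have h3 : 0 ≤ b*N*(N+1) := by positivity
    have h4 : 0 ≤ N*D := by positivity
    have hM2 : M ≤ M^2 := by nlinarith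
    have h5 : M*D ≤ M^2*D := mul_le_mul_of_nonneg_right hM2 hD.le
    have h6 : a*M^2 ≤ b*M^2 := mul_le_mul_of_nonneg_right hab.le (sq_nonneg M)
    have h7 : a*M ≤ a*M^2 := mul_le_mul_of_nonneg_left hM2 ha.le
    have h8 : 0 ≤ M^2*D := by positivity
    nlinarith
  · rw [abs_of_neg hM, abs_of_neg hN] at hNM
    rw [abs_of_neg hM]
    obtain ⟨m, rfl⟩ : ∃ m, M = -m := ⟨-M, by ring⟩
    obtain ⟨n, rfl⟩ : ∃ n, N = -n := ⟨-N, by ring⟩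
    rw [neg_neg] at hNM ⊢
    rw [neg_neg] at hNM
    have hm : 0 < m := by linarith
    have hn : 0 < n := by linarith
    have h1 : P-Q ≤ n*(P-Q) := by nlinarith
    have h2 : n*P ≤ m*P := mul_le_mul_of_nonneg_right hNM hP
    have h3 : 0 ≤ a*m*(m-1) := mul_nonneg (by positivity) (by linarith [Int.add_one_le_iff.2 hm])
    have h4 : 0 ≤ n*D := by positivity
    have hm2 : m ≤ m^2 := by nlinarith
    have h5 : m*D ≤ m^2*D := mul_le_mul_of_nonneg_right hm2 hD.le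
    have hn2 : n^2 ≤ m^2 := by nlinarith
    have h6 : b*n^2 ≤ b*m^2 := mul_le_mul_of_nonneg_left hn2 hb.le
    have h7 : 0 ≤ b*n := by positivity
    have h8 : 0 ≤ m^2*D := by positivity
    have h9 : 0 ≤ b*m^2 := by positivity
    nlinarith

private theorem T2b_fin {a b c D K : ℤ} (ha : 0 < a) (hab : a < b) (hD : 0 < D) (hK : 1 ≤ K)
    (hc : c ≤ 36*K^2*(a*b*D)*(b+D)) (g1 : 16*D^2*b^3 ≤ c) (g2 : 16*b^2*D^3 ≤ c)
    (g3 : 16*a^2*b^3 ≤ c) : c ≤ (10*K)^10 := by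
  have hb : 0 < b := ha.trans hab
  have key : ∀ e : ℤ, 0 < e → 2*e ≤ 9*K^2 → b ≤ e → D ≤ e → c ≤ 36*K^2*(e*e*e)*(e+e) := by
    intro e he _ hbe hDe
    refine hc.trans ?_
    have hae : a ≤ e := hab.le.trans hbe
    gcongr
  have fin : ∀ e : ℤ, 0 < e → 2*e ≤ 9*K^2 → b ≤ e → D ≤ e → c ≤ (10*K)^10 := by
    intro e he h1 h2 h3
    have h4 := key e he h1 h2 h3
    have h5 : (2*e)^4 ≤ (9*K^2)^4 := by gcongr
    have h6 : 0 ≤ K^10 := by positivity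
    have h7 : K^2*(2*e)^4 ≤ K^2*(9*K^2)^4 := mul_le_mul_of_nonneg_left h5 (by positivity)
    nlinarith
  rcases le_or_gt D b with hDb | hbD
  · -- `D ≤ b`
    have h1 : c ≤ 72*K^2*(a*b^2*D) := by
      refine hc.trans ?_
      have : 36*K^2*(a*b*D)*(b+D) ≤ 36*K^2*(a*b*D)*(b+b) := by gcongr
      linarith
    have h2 : 2*(D*b) ≤ 9*K^2*a := by
      have h3 : (8*(D*b^2))*(2*(D*b)) ≤ (8*(D*b^2))*(9*K^2*a) := by nlinarith
      exact le_of_mul_le_mul_left h3 (by positivity)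
    have h4 : 2*(a*b) ≤ 9*K^2*D := by
      have h5 : (8*(a*b^2))*(2*(a*b)) ≤ (8*(a*b^2))*(9*K^2*D) := by nlinarith
      exact le_of_mul_le_mul_left h5 (by positivity)
    have h6 : (2*(D*b))*(2*(a*b)) ≤ (9*K^2*a)*(9*K^2*D) := by gcongr
    have h7 : (a*D)*(2*b)^2 ≤ (a*D)*(9*K^2)^2 := by nlinarith
    have h8 : (2*b)^2 ≤ (9*K^2)^2 := le_of_mul_le_mul_left h7 (by positivity)
    have h9 : 2*b ≤ 9*K^2 := le_of_sq_le_sq h8 (by positivity)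
    exact fin b hb h9 le_rfl hDb
  · have h1 : c ≤ 72*K^2*(a*b*D^2) := by
      refine hc.trans ?_
      have : 36*K^2*(a*b*D)*(b+D) ≤ 36*K^2*(a*b*D)*(D+D) := by gcongr
      linarith
    have h2 : 2*D*b ≤ 9*K^2*a := by
      have h3 : (8*(b*D^2))*(2*D*b) ≤ (8*(b*D^2))*(9*K^2*a) := by nlinarith
      exact le_of_mul_le_mul_left h3 (by positivity)
    have h4 : b*(2*D) ≤ b*(9*K^2) := by
      have : 9*K^2*a ≤ 9*K^2*b := by gcongr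
      linarith
    exact fin D hD (le_of_mul_le_mul_left h4 hb) hbD.le le_rfl

theorem T2_zero {a b c r s t D P Q ζ ξ η M N : ℤ} (h : Dat a b c r s t D P Q ζ ξ η M N 0)
    (hD : 0 < D) (g1 : 16*D^2*b^3 ≤ c) (g2 : 16*b^2*D^3 ≤ c) (g3 : 16*a^2*b^3 ≤ c) :
    c ≤ (10*|M|)^10 := by
  have ha := h.ha
  have hab := h.hab
  have hb : 0 < b := ha.trans hab
  have hc : 0 < c := hb.trans h.hbc
  obtain ⟨_, p2, p3, _, _, _⟩ := T2_pre h hD ⟨hab.trans h.hbc, h.hDc⟩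
  obtain ⟨hpos, e1⟩ := T2b_diff ha hab hc hD p2 p3
  have hrel : M*P-N*Q = (M-N)*D+a*M*(M+1)-b*N*(N+1) := by
    linear_combination -h.rel
  have e2 := T2b_up ha hab hD h.hP (by linarith [Int.add_one_le_iff.2 hpos]) h.hMN h.hNM hrel
  have hK : 1 ≤ |M| := by linarith [h.hN4, h.hNM]
  have e3 : 1 ≤ |M|^2*(b+D) := by
    have h1 : 0 < |M|^2*(b+D) := by positivity
    linarith [Int.add_one_le_iff.2 h1]
  have e4 : P+1-Q ≤ 3*(|M|^2*(b+D)) := by linarith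
  have e5 : 12*(a*b*D)*(P+1-Q) ≤ 12*(a*b*D)*(3*(|M|^2*(b+D))) := by gcongr
  refine T2b_fin ha hab hD hK ?_ g1 g2 g3
  linarith

end Irr
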