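import Pool.Agent.Lib.Irr.Descent
import Pool.Agent.Lib.Irr.T2a
import Pool.Agent.Lib.Irr.Liou2
import Pool.Agent.Lib.Irr.Ev

/-!
# Module T2c (about 150 lines): `T2_small` (see the PROOF notes below)

The case of an irregular quadruple `{a,b,D,c}` (`D > 0`); the only input about it is the gap
inequality `c >= 16 b'^2 c'^3` (`b' < c'` the two largest of `a,b,D`). `K = |M|`.

`T2_pre`. `P` is the descent of `(a,D;c)` (roots `ξ, s, ζ`): `c = a+D+P+2aDP+2ξf1g1`,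
`f1^2 = aP+1`, `g1^2 = DP+1`, hence `4aDP <= c` and `c <= (4aD+2)P + 2(a+D)`:
the second because `2P(1+2aD)+2(a+D) - c = a+D+P+2aDP-2ξf1g1 >= 0` (its square
`(a+D+P+2aDP)^2 - 4(aD+1)(aP+1)(DP+1) = regP a D P 0 ...`; easier: by `descent`/direct:
`ξ f1 g1 <= ...` use `(a+D+P+2aDP)^2 - (2ξf1g1)^2 = a^2+D^2+P^2-2aD-2aP-2DP-4` which may be
negative, so argue: with `e2 = a+D+P+2aDP-2ξf1g1` one has `a e2 + 1 = (ξ f1 - a g1)^2 >= 0`, so
`e2 >= 0` or `e2 = -1, a = 1`...; since `(ξf1-ag1)^2 = a e2+1` is a square, `e2 = -1` only if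
`a = 1`, and then `D e2 + 1 = (ξg1 - Df1)^2` gives `D = 1`, impossible as `aD+1` is a square. So
`e2 >= 0`.) Same for `Q` with `(b,D;c)`.

`T2_zero` (`j = 0`). `M P - N Q = (M-N)D + aM(M+1) - bN(N+1)`.
`P >= (c-2a-2D)/(4aD+2) >= c/(4aD+2) - 1`, `Q <= c/(4bD)`, and
`1/(4aD+2) - 1/(4bD) = (4(b-a)D-2)/((4aD+2)4bD) >= 2(b-a)D/(6aD·4bD) >= 1/(12abD)`.
So `P - Q >= c/(12abD) - 1`; in particular if `P < Q` then `c <= 12abD` and we are done by the gap
(below). If `P >= Q`: for `M,N > 0`: `P-Q <= N(P-Q) <= MP-NQ <= KD+aK(K+1) <= 2K^2(b+D)`; for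
`M=-μ,N=-ν`: `μP-νQ = (μ-ν)D-aμ(μ-1)+bν(ν-1) <= KD+bK^2`. So `c <= 12abD(2K^2(b+D)+1)
<= 36K^2abD(b+D)`. Gap: if `D < a`: `16a^2b^3 <= c <= 72K^2ab^2D <= 72K^2a^2b^2`, `b <= 4.5K^2`; if
`a < D < b`: `16D^2b^3 <= c <= 72K^2ab^2D <= 72K^2D^2b^2`, `b <= 4.5K^2`; if `D > b`:
`16b^2D^3 <= c <= 72K^2abD^2 <= 72K^2b^2D^2`, `D <= 4.5K^2`. So `a,b,D <= 4.5K^2` and
`c <= 36·(4.5)^3·9·K^10 <= (10K)^10`.

`T2_small` (`j ≠ 0`). `|MP-NQ| <= K max(P,Q) <= Kc/(4aD)`, `|aM(M+1)-bN(N+1)| <= 2K^2b`, so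
`2c <= |2jc| <= Kc/(4aD)+KD+2K^2b`. If `c < KD+2K^2b` then `c <= 3K^2 max(b,D)`, and the gap
`16 max(b,D)^3 <= c` gives `max <= K`, `c <= 3K^3`. Otherwise `c <= Kc/(4aD)`, `aD <= K/4`.
`|2j| <= K/4 + 1 <= K`. `liou2` for `(a,D;P)` (roots `ξ, f1, g1`, extension `c`), `u = M`,
`v = 2j`: `MP + 2jc = NQ + (M-N)D + aM(M+1)-bN(N+1)`, absolute value
`<= Kc/(4b) + KD + 2K^2b <= Kc/(4b)+3K^2b`; `a+D <= aD+1 <= K/2`; so
`P <= 2K(Kc/(4b)+3K^2b+3K·K^2/4) <= K^2c/(2b)+6K^3b+2K^4`. And `P >= (c-2a-2D)/(4aD+2) >=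
(c-K)/(K+2) >= c/(2K)` (if `c >= 4K^2`, otherwise done). If `b >= 2K^3` then
`c/(4K) <= 6K^3b+2K^4`, `16b^3 <= c <= 24K^4b+8K^5 <= 32 K^4 b`, `b^2 <= 2K^4`, contradiction.
So: `aD <= K/4`, `|2j| <= K` and `b < 2K^3` (or `c <= 3K^3`, or `c < 4K^2`).

`T2_end` (`aD <= K/4`, `b < 2K^3`). Real numbers: `X = √(aD)`, `Y = √(bD)`, `θa' = (ξ-X)^2`,
`θa = (ξ+X)^2`, similarly `θb', θb` with `η, Y`. As in `liou2` part (1) (with `(a,D;P)`):
`0 <= c - θa P <= 3(a+D)^2`, `0 <= c - θb Q <= 3(b+D)^2`, i.e. (`θθ' = 1`) `0 <= cθa' - P <= 3(a+D)^2`,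
`0 <= cθb' - Q <= 3(b+D)^2`. So `c (2j + Mθa' - Nθb') = (2jc+MP-NQ) + M(cθa'-P) - N(cθb'-Q)` has
absolute value `<= KD+2K^2b + 2K·3(b+D)^2 <= 100 K^7` (`b+D <= 3K^3`).
The number `y = 2j+Mθa'-Nθb' = ev X Y x` with `p = aD`, `q = bD`,
`x = (2j+M(2aD+1)-N(2bD+1), -2Mξ, 2Nη, 0)`. `p, q, pq = abD^2` are not squares (`aD+1, bD+1, ab+1` are
squares and a positive square plus one is never a square). `x ≠ 0` (`x 1 ≠ 0`). The conjugates are
bounded by `|2j|+Kθa+Kθb <= K + K·4(aD+1) + K·4(bD+1) <= H = 4K^5`. `liou4`: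
`1 <= |y| H^3`, so `c <= 100K^7·64K^15 <= (10K)^22`.
-/

namespace Irr

private theorem t2c_absd {x y A B : ℤ} (h : 0 ≤ x * y) (hx : |x| ≤ A) (hy : |y| ≤ B)
    (hAB : B ≤ A) : |x - y| ≤ A := by
  rw [abs_le] at *
  rcases le_total 0 x with h0 | h0
  · rcases eq_or_lt_of_le h0 with h1 | h1
    · subst h1; constructor <;> linarith [hy.1, hy.2]
    · have hy0 : 0 ≤ y := nonneg_of_mul_nonneg_right h h1
      constructor <;> linarith [hx.1, hx.2, hy.1, hy.2]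
  · rcases eq_or_lt_of_le h0 with h1 | h1
    · subst h1; constructor <;> linarith [hy.1, hy.2]
    · have hy0 : y ≤ 0 := by
        by_contra hcon
        push Not at hcon
        have : x * y < 0 := mul_neg_of_neg_of_pos h1 hcon
        linarith
      constructor <;> linarith [hx.1, hx.2, hy.1, hy.2]

private theorem t2c_nn (x : ℤ) : 0 ≤ x * (x + 1) := by
  rcases le_total 0 x with h | h
  · positivity
  · rcases eq_or_lt_of_le h with h1 | h1
    · subst h1; simp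
    · have : x + 1 ≤ 0 := by linarith
      nlinarith

private theorem t2c_prod (x K : ℤ) (hx : |x| ≤ K) (hK : 1 ≤ K) : x * (x + 1) ≤ 2 * K^2 := by
  rw [abs_le] at hx
  nlinarith [hx.1, hx.2, mul_nonneg (sub_nonneg.2 hx.2) (by linarith [hx.1] : 0 ≤ x + K)]

private theorem t2c_end (K b c P Q : ℤ) (hK4 : 4 ≤ K) (hb : 0 < b) (hc0 : 0 < c)
    (hPb2 : P ≤ 2*K^2*Q + 12*K^3*b) (h4bQ : 4*(b*Q) ≤ c) (hcP : c ≤ 2*K*P + K)
    (hcon : 2*K^3 ≤ b) (h16 : 16 * b^3 ≤ c) : False := by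
  have hK0 : 0 < K := by linarith
  have hb1 : 1 ≤ b := hb
  have hbc : 4*b*c ≤ 4*K^3*c + 96*K^4*b^2 + 4*b*K := by
    have i1 : 4*b*P ≤ 2*K^2*c + 48*K^3*b^2 := by
      have : 4*b*P ≤ 4*b*(2*K^2*Q + 12*K^3*b) := mul_le_mul_of_nonneg_left hPb2 (by positivity)
      have i2 : 2*K^2*(4*(b*Q)) ≤ 2*K^2*c := mul_le_mul_of_nonneg_left h4bQ (by positivity)
      linarith
    have i3 : 4*b*c ≤ 4*b*(2*K*P + K) := mul_le_mul_of_nonneg_left hcP (by positivity)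
    have i4 : 2*K*(4*b*P) ≤ 2*K*(2*K^2*c + 48*K^3*b^2) :=
      mul_le_mul_of_nonneg_left i1 (by positivity)
    linarith
  have hbc2 : 4*K^3*c ≤ 2*b*c := by
    have := mul_le_mul_of_nonneg_right hcon hc0.le
    linarith
  have hbc3 : c ≤ 48*K^4*b + 2*K := by
    have : (2*b)*c ≤ (2*b)*(48*K^4*b + 2*K) := by linarith
    exact le_of_mul_le_mul_left this (by positivity)
  -- contradiction
  have hb2 : 4*K^6 ≤ b^2 := by
    have := pow_le_pow_left₀ (by positivity : 0 ≤ 2*K^3) hcon 2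
    linarith
  have i5 : 16*b^3 ≥ 64*K^6*b := by
    have := mul_le_mul_of_nonneg_right hb2 hb.le
    linarith
  have i6 : 64*K^6*b ≤ 48*K^4*b + 2*K := by linarith
  have i7 : 2*K ≤ 2*(K^4*b) := by
    have j1 : K ≤ K^4 := by
      have : 1 ≤ K^3 := one_le_pow₀ (by linarith)
      have := mul_le_mul_of_nonneg_left this hK0.le
      linarith
    have j2 : K^4 * 1 ≤ K^4 * b := mul_le_mul_of_nonneg_left hb1 (by positivity)
    linarith
  have i8 : 64*K^6*b ≤ 50*(K^4*b) := by linarith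
  have i9 : 64*K^6*b = (64*K^2)*(K^4*b) := by ring
  have i10 : (64*K^2)*(K^4*b) ≤ 50*(K^4*b) := by rw [← i9]; exact i8
  have i11 : 0 < K^4*b := by positivity
  have i12 : 64*K^2 ≤ 50 := le_of_mul_le_mul_right i10 i11
  have i13 : 1 ≤ K^2 := one_le_pow₀ (by linarith)
  linarith

private theorem t2c_bnd (b c K D m : ℤ) (hD : 0 < D) (hK4 : 4 ≤ K) (hm : 0 < m) (hbm : b ≤ m)
    (hDm : D ≤ m) (hm3 : 16 * m^3 ≤ c) (hA : c < K*D + 2*K^2*b) : c ≤ (10*K)^3 := by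
  have hK0 : 0 < K := by linarith
  have hK2 : K ≤ K^2 := by nlinarith
  have hc3 : c ≤ 3*K^2*m := by
    have i1 : K * D ≤ K^2 * m := mul_le_mul hK2 hDm hD.le (by positivity)
    have i2 : 2*K^2*b ≤ 2*K^2*m := mul_le_mul_of_nonneg_left hbm (by positivity)
    linarith
  have hmK : m ≤ K := by
    by_contra hcon
    push Not at hcon
    have i1 : K^2 < m^2 := by nlinarith
    have i2 : K^2 * m < m^2 * m := mul_lt_mul_of_pos_right i1 hm
    have i3 : 0 < K^2 * m := by positivity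
    linarith
  have i3 : 3*K^2*m ≤ 3*K^2*K := mul_le_mul_of_nonneg_left hmK (by positivity)
  have i4 : 0 ≤ K^3 := by positivity
  linarith

private theorem t2c_16 (a b c : ℤ) (ha : 0 < a) (hb : 0 < b) (h : 16*a^2*b^3 ≤ c) :
    16 * b^3 ≤ c := by
  have ha2 : 1 ≤ a^2 := one_le_pow₀ ha
  have hb3 : 0 ≤ b^3 := by positivity
  have := mul_le_mul_of_nonneg_right ha2 hb3
  linarith

theorem T2_small {a b c r s t D P Q ζ ξ η M N j : ℤ} (h : Dat a b c r s t D P Q ζ ξ η M N j)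
    (hD : 0 < D) (g1 : 16*D^2*b^3 ≤ c) (g2 : 16*b^2*D^3 ≤ c) (g3 : 16*a^2*b^3 ≤ c)
    (hj : j ≠ 0) : c ≤ (10*|M|)^3 ∨ (4*a*D ≤ |M| ∧ b < 2*|M|^3 ∧ |2*j| ≤ |M|) := by
  have ha := h.ha
  have hb : 0 < b := lt_trans ha h.hab
  have hc0 : 0 < c := lt_trans hb h.hbc
  obtain ⟨p1, p2, p3, p4, ⟨f1, g1', hf1, hg1, ef1, eg1, ec⟩, -⟩ :=
    T2_pre h hD ⟨lt_trans h.hab h.hbc, h.hDc⟩
  have hP := h.hP
  have hQ := h.hQ
  obtain ⟨K, hKdef⟩ : ∃ K : ℤ, K = |M| := ⟨_, rfl⟩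
  rw [← hKdef]
  have hMK : |M| ≤ K := hKdef.ge
  have hNK : |N| ≤ K := hKdef ▸ h.hNM
  have hK4 : 4 ≤ K := le_trans h.hN4 hNK
  have hMN : 0 < M * N := h.hMN
  have hab := h.hab
  have hMNd : |M - N| ≤ K := t2c_absd hMN.le hMK hNK le_rfl
  -- the products
  have hMM := t2c_nn M
  have hNN := t2c_nn N
  have hMM2 := t2c_prod M K hMK (by linarith)
  have hNN2 := t2c_prod N K hNK (by linarith)
  have hprod : |a * (M * (M+1)) - b * (N * (N+1))| ≤ 2 * K^2 * b := by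
    apply t2c_absd (B := 2 * K^2 * b)
    · positivity
    · rw [abs_of_nonneg (by positivity)]
      calc a * (M * (M+1)) ≤ b * (2 * K^2) := by
            apply mul_le_mul hab.le hMM2 hMM hb.le
        _ = 2 * K^2 * b := by ring
    · rw [abs_of_nonneg (by positivity)]
      calc b * (N * (N+1)) ≤ b * (2 * K^2) := mul_le_mul_of_nonneg_left hNN2 hb.le
        _ = 2 * K^2 * b := by ring
    · exact le_rfl
  have hDK : |(M - N) * D| ≤ K * D := by
    rw [abs_mul, abs_of_pos hD]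
    exact mul_le_mul_of_nonneg_right hMNd hD.le
  have hrel := h.rel
  -- 4aD|MP-NQ| ≤ K c
  have hMP : |4*a*D*(M*P)| ≤ K * c := by
    have : 4*a*D*(M*P) = M * (4*a*D*P) := by ring
    rw [this, abs_mul, abs_of_nonneg (by positivity : 0 ≤ 4*a*D*P)]
    exact mul_le_mul hMK p1 (by positivity) (by linarith)
  have hNQ : |4*a*D*(N*Q)| ≤ K * c := by
    have : 4*a*D*(N*Q) = N * (4*a*D*Q) := by ring
    rw [this, abs_mul, abs_of_nonneg (by positivity : 0 ≤ 4*a*D*Q)]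
    refine mul_le_mul hNK ?_ (by positivity) (by linarith)
    refine le_trans ?_ p3
    have : a * (D * Q) ≤ b * (D * Q) := mul_le_mul_of_nonneg_right hab.le (by positivity)
    linarith
  have hdiff : |4*a*D*(M*P) - 4*a*D*(N*Q)| ≤ K * c := by
    refine t2c_absd (B := K * c) ?_ hMP hNQ le_rfl
    have : 4*a*D*(M*P) * (4*a*D*(N*Q)) = (4*a*D)^2 * (M*N) * (P*Q) := by ring
    rw [this]
    positivity
  have hj1 : 1 ≤ |j| := Int.one_le_abs hj
  have h2j : 2 ≤ |2*j| := by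
    rw [abs_mul]; norm_num; linarith
  -- |2jc| bound
  have hmain : 4*a*D*(|2*j| * c) ≤ K * c + 4*a*D*(K*D + 2*K^2*b) := by
    have e1 : 4*a*D*(2*j*c) = -(4*a*D*(M*P) - 4*a*D*(N*Q)) + 4*a*D*((M-N)*D)
        + 4*a*D*(a * (M * (M+1)) - b * (N * (N+1))) := by
      rw [← hrel]; ring
    have e2 : 4*a*D*(|2*j| * c) = |4*a*D*(2*j*c)| := by
      rw [abs_mul (4*a*D), abs_mul (2*j) c, abs_of_pos (by positivity : 0 < 4*a*D),
        abs_of_pos hc0]
    rw [e2, e1]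
    have e3 : |4*a*D*((M-N)*D)| ≤ 4*a*D*(K*D) := by
      rw [abs_mul (4*a*D), abs_of_pos (by positivity : 0 < 4*a*D)]
      exact mul_le_mul_of_nonneg_left hDK (by positivity)
    have e4 : |4*a*D*(a * (M * (M+1)) - b * (N * (N+1)))| ≤ 4*a*D*(2*K^2*b) := by
      rw [abs_mul (4*a*D), abs_of_pos (by positivity : 0 < 4*a*D)]
      exact mul_le_mul_of_nonneg_left hprod (by positivity)
    rw [abs_le] at hdiff e3 e4 ⊢
    constructor
    · linarith [hdiff.1, hdiff.2, e3.1, e3.2, e4.1, e4.2]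
    · linarith [hdiff.1, hdiff.2, e3.1, e3.2, e4.1, e4.2]
  by_cases hA : c < K*D + 2*K^2*b
  · left
    rcases le_total D b with hDb | hDb
    · exact t2c_bnd b c K D b hD hK4 hb le_rfl hDb (t2c_16 a b c ha hb g3) hA
    · exact t2c_bnd b c K D D hD hK4 hD hDb le_rfl (t2c_16 b D c hb hD g2) hA
  · right
    push Not at hA
    have haD : 0 < a * D := by positivity
    have haD1 : 1 ≤ a * D := haD
    -- 4aD ≤ K
    have hm2 : 4*a*D*(|2*j| * c) ≤ K * c + 4*a*D*c := by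
      have : 4*a*D*(K*D + 2*K^2*b) ≤ 4*a*D*c := mul_le_mul_of_nonneg_left hA (by positivity)
      linarith
    have hm3 : 4*a*D*|2*j| ≤ K + 4*a*D := by
      have : (4*a*D*|2*j|) * c ≤ (K + 4*a*D) * c := by
        calc (4*a*D*|2*j|) * c = 4*a*D*(|2*j| * c) := by ring
          _ ≤ _ := hm2
          _ = _ := by ring
      exact le_of_mul_le_mul_right this hc0
    have hK1 : 4*a*D ≤ K := by
      have : 4*a*D*2 ≤ 4*a*D*|2*j| := mul_le_mul_of_nonneg_left h2j (by positivity)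
      linarith
    have hjK : |2*j| ≤ K := by
      have : 0 ≤ (a*D - 1) * (|2*j| - 1) := mul_nonneg (by linarith) (by linarith)
      linarith
    refine ⟨hK1, ?_, hjK⟩
    by_contra hcon
    push Not at hcon
    have hK0 : 0 < K := by linarith
    have hKK : K ≤ K^3 := le_self_pow₀ (by linarith) (by norm_num)
    have hsum : 2*(a + D) ≤ K := by
      have : 0 ≤ (a-1)*(D-1) := mul_nonneg (by linarith) (by linarith)
      linarith
    have hDK' : D ≤ K := by linarith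
    have hbK : K ≤ b := by linarith
    have hb1 : 1 ≤ b := hb
    have h16 : 16 * b^3 ≤ c := t2c_16 a b c ha hb g3
    have hP0 : 0 < P := by
      rcases eq_or_lt_of_le hP with h0 | h0
      · exfalso
        rw [← h0] at p2
        have hb3 : b ≤ b^3 := le_self_pow₀ hb1 (by norm_num)
        linarith
      · exact h0
    have hl := liou2 a D P ξ f1 g1' M (2*j) ha hD hP0 h.hξ hf1 hg1 h.eξ ef1 eg1
      (mul_ne_zero two_ne_zero hj)
    rw [← ec] at hl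
    -- |MP+2jc|
    have hMP2 : |M*P + 2*j*c| ≤ K*Q + K*D + 2*K^2*b := by
      have e1 : M*P + 2*j*c = N*Q + (M-N)*D + (a * (M * (M+1)) - b * (N * (N+1))) := by
        rw [← hrel]; ring
      rw [e1]
      have e2 : |N*Q| ≤ K*Q := by
        rw [abs_mul, abs_of_nonneg hQ]
        exact mul_le_mul_of_nonneg_right hNK hQ
      rw [abs_le] at e2 hDK hprod ⊢
      constructor <;> linarith [e2.1, e2.2, hDK.1, hDK.2, hprod.1, hprod.2]
    have h3 : |2*j| * (3*(a+D)^2) ≤ K * (3 * K^2) := by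
      refine mul_le_mul hjK ?_ (by positivity) (by linarith)
      have : (a+D)^2 ≤ K^2 := pow_le_pow_left₀ (by positivity) (by linarith) 2
      linarith
    have hPb : P ≤ (2*K) * (K*Q + K*D + 2*K^2*b + 3*K^3) := by
      refine le_trans hl ?_
      refine mul_le_mul (by linarith) ?_ (by positivity) (by linarith)
      linarith
    have hKD : K*D ≤ K^3 := by
      have i1 : K * D ≤ K * K := mul_le_mul_of_nonneg_left hDK' hK0.le
      have i2 : K^2 ≤ K^3 := pow_le_pow_right₀ (by linarith) (by norm_num)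
      linarith
    have hK3b : K^3 ≤ K^2 * b := by
      have : K^2 * K ≤ K^2 * b := mul_le_mul_of_nonneg_left hbK (by positivity)
      linarith [this, (by ring : K^3 = K^2 * K)]
    have hPb2 : P ≤ 2*K^2*Q + 12*K^3*b := by
      refine le_trans hPb ?_
      have : K*Q + K*D + 2*K^2*b + 3*K^3 ≤ K*Q + 6*K^2*b := by linarith
      calc (2*K) * (K*Q + K*D + 2*K^2*b + 3*K^3) ≤ (2*K) * (K*Q + 6*K^2*b) :=
            mul_le_mul_of_nonneg_left this (by linarith)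
        _ = 2*K^2*Q + 12*K^3*b := by ring
    have h4bQ : 4*(b*Q) ≤ c := by
      refine le_trans ?_ p3
      have : b * Q * 1 ≤ b * Q * D := mul_le_mul_of_nonneg_left hD (by positivity)
      linarith
    -- c ≤ 2KP+K
    have hcP : c ≤ 2*K*P + K := by
      have : (4*a*D+2)*P ≤ 2*K*P := mul_le_mul_of_nonneg_right (by linarith) hP
      linarith
    exact t2c_end K b c P Q hK4 hb hc0 hPb2 h4bQ hcP hcon h16

end Irr
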