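import Pool.Agent.Lib.Irr.Descent
import Pool.Agent.Lib.Irr.T2a
import Pool.Agent.Lib.Irr.Liou2
import Pool.Agent.Lib.Irr.Ev

/-!
# Module T2d: `T2_end`

The end of the case of an irregular quadruple `{a,b,D,c}` (`D > 0`): `aD <= K/4`, `b < 2K^3`.

Real numbers: `X = √(aD)`, `Y = √(bD)`, `θa' = (ξ-X)^2`, `θa = (ξ+X)^2`, similarly `θb', θb` with
`η, Y`. `0 <= c - θa P <= 3(a+D)^2`, `0 <= c - θb Q <= 3(b+D)^2`, i.e. (`θθ' = 1`)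
`0 <= cθa' - P <= 3(a+D)^2`, `0 <= cθb' - Q <= 3(b+D)^2`. So
`c (2j + Mθa' - Nθb') = (2jc+MP-NQ) + M(cθa'-P) - N(cθb'-Q)` has absolute value
`<= KD+2K^2b + 2K·3(b+D)^2 <= 100 K^7`. The number `y = 2j+Mθa'-Nθb' = ev X Y x` with `p = aD`,
`q = bD`, `x = (2j+M(2aD+1)-N(2bD+1), -2Mξ, 2Nη, 0)`. The conjugates are bounded by `4K^5`, and
`liou4` gives `c <= 100K^7·64K^15 <= (10K)^22`.
-/

namespace Irr

private lemma not_sq_of_succ {p ρ : ℤ} (hp : 0 < p) (e : ρ^2 = p+1) : ¬ IsSquare p := by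
  rintro ⟨m, hm⟩
  have h1 : |ρ|^2 = |m|^2 + 1 := by
    rw [sq_abs, sq_abs, e, hm]; ring
  have hm0 : 0 < |m| := by
    rw [abs_pos]; rintro rfl; simp at hm; omega
  have h2 : |m| < |ρ| := by
    nlinarith [abs_nonneg ρ, abs_nonneg m]
  have h3 : |m| + 1 ≤ |ρ| := h2
  nlinarith [abs_nonneg ρ, abs_nonneg m]

private lemma one_le_mul_aux {x y : ℝ} (hx : 1 ≤ x) (hy : 1 ≤ y) : 1 ≤ x*y := by nlinarith

private lemma le_of_sq_aux {x y : ℝ} (hx : 0 ≤ x) (hy : 0 ≤ y) (h : x^2 ≤ y^2) : x ≤ y :=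
  (sq_le_sq₀ hx hy).mp h

private lemma theta_aux {r w : ℝ} (hpos : 1 ≤ r + w) (hθ : (r+w)*(r-w) = 1) :
    0 < (r-w)^2 ∧ (r-w)^2 ≤ 1 := by
  have h0 : 0 < r - w := by
    by_contra hcon
    push Not at hcon
    nlinarith
  have h1 : r - w ≤ 1 := by
    by_contra hcon
    push Not at hcon
    nlinarith
  exact ⟨by positivity, by nlinarith⟩

/-- the bound of `στ - wX` -/
private lemma st_aux {p q X S W : ℝ} (hX : X = 0 ∨ 1 ≤ X) (hp : 1 ≤ p) (hq : 1 ≤ q)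
    (hW : X ≤ W) (hWS : W ≤ S) (hS1 : 0 < S) (hW0 : X = 0 → W = 0)
    (hprod : (S - W)*(S+W) = (p+q)*X+1) :
    S - W ≤ (p+q+1)/2 := by
  rcases hX with h0 | h0
  · rw [hW0 h0, h0] at hprod
    rw [hW0 h0]
    have h2 : S*S = 1 := by linarith
    have h3 : S ≤ 1 := by
      by_contra hcon
      push Not at hcon
      have h4 := mul_lt_mul'' hcon hcon zero_le_one zero_le_one
      linarith
    linarith
  · by_contra hcon
    push Not at hcon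
    have h4 : (p+q+1)/2 * (2*X) < (S - W)*(S+W) := by
      have h5 : 0 < (p+q+1)/2 := by linarith
      calc (p+q+1)/2 * (2*X) ≤ (p+q+1)/2 * (S+W) :=
            mul_le_mul_of_nonneg_left (by linarith) h5.le
        _ < (S - W)*(S+W) :=
            mul_lt_mul_of_pos_right hcon (by linarith)
    rw [hprod] at h4
    nlinarith

private lemma rho_aux {p q r : ℝ} (hp : 1 ≤ p) (hq : 1 ≤ q) (hr : 0 ≤ r) (e : r^2 = p*q+1) :
    r ≤ p + q := by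
  refine le_of_sq_aux hr (by linarith) ?_
  rw [e]; nlinarith

private lemma est (p q X ρ σ τ Y : ℤ) (w : ℝ) (hp : 0 < p) (hq : 0 < q) (hX : 0 ≤ X)
    (hρ : 0 < ρ) (hσ : 0 < σ) (hτ : 0 < τ) (eρ : ρ^2 = p*q+1) (eσ : σ^2 = p*X+1)
    (eτ : τ^2 = q*X+1) (hw : 0 < w) (ew : w^2 = p*q)
    (hY : Y = p+q+X+2*p*q*X+2*ρ*σ*τ) :
    0 ≤ (Y:ℝ) * ((ρ:ℝ)-w)^2 - X ∧ (Y:ℝ) * ((ρ:ℝ)-w)^2 - X ≤ 3*((p:ℝ)+q)^2 := by
  have hp' : (1:ℝ) ≤ p := by exact_mod_cast hp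
  have hq' : (1:ℝ) ≤ q := by exact_mod_cast hq
  have hX' : (0:ℝ) ≤ X := by exact_mod_cast hX
  have hρ' : (1:ℝ) ≤ ρ := by exact_mod_cast hρ
  have hσ' : (1:ℝ) ≤ σ := by exact_mod_cast hσ
  have hτ' : (1:ℝ) ≤ τ := by exact_mod_cast hτ
  have eρ' : (ρ:ℝ)^2 = p*q+1 := by exact_mod_cast eρ
  have eσ' : (σ:ℝ)^2 = p*X+1 := by exact_mod_cast eσ
  have eτ' : (τ:ℝ)^2 = q*X+1 := by exact_mod_cast eτ
  have hY' : (Y:ℝ) = p+q+X+2*p*q*X+2*ρ*σ*τ := by exact_mod_cast hY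
  have hpq := one_le_mul_aux hp' hq'
  have hw1 : 1 ≤ w := le_of_sq_aux zero_le_one hw.le (by rw [one_pow, ew]; exact hpq)
  have hθ : ((ρ:ℝ)+w)*((ρ:ℝ)-w) = 1 := by
    have : ((ρ:ℝ)+w)*((ρ:ℝ)-w) = ρ^2 - w^2 := by ring
    rw [this, eρ', ew]; ring
  obtain ⟨hθ20, hθ2⟩ := theta_aux (by linarith) hθ
  have hd : (Y:ℝ) - ((ρ:ℝ)+w)^2*X = p + q + 2*ρ*(σ*τ - w*X) := by
    have : ((ρ:ℝ)+w)^2 = 2*p*q+1 + 2*ρ*w := by
      have : ((ρ:ℝ)+w)^2 = ρ^2 + w^2 + 2*ρ*w := by ring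
      rw [this, eρ', ew]; ring
    rw [this, hY']; ring
  have hst : ((σ:ℝ)*τ)^2 = (w*X)^2 + (p+q)*X + 1 := by
    rw [mul_pow, mul_pow, eσ', eτ', ew]; ring
  have hwX : 0 ≤ w*X := mul_nonneg hw.le hX'
  have hwX1 : (X:ℝ) ≤ w*X := le_mul_of_one_le_left hX' hw1
  have hstpos : 0 < (σ:ℝ)*τ := mul_pos (by linarith) (by linarith)
  have hpqX : 0 ≤ ((p:ℝ)+q)*X := mul_nonneg (by linarith) hX'
  have hge : w*X ≤ σ*τ := le_of_sq_aux hwX hstpos.le (by rw [hst]; linarith)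
  have hprod : ((σ:ℝ)*τ - w*X)*(σ*τ + w*X) = (p+q)*X+1 := by
    have : ((σ:ℝ)*τ - w*X)*(σ*τ + w*X) = (σ*τ)^2 - (w*X)^2 := by ring
    rw [this, hst]; ring
  have hle : ((σ:ℝ)*τ - w*X) ≤ (p+q+1)/2 := by
    refine st_aux (X := X) ?_ hp' hq' hwX1 hge hstpos ?_ hprod
    · rcases eq_or_lt_of_le hX with h0 | h0
      · left; rw [← h0]; simp
      · right; exact_mod_cast h0
    · intro h0; rw [h0, mul_zero]
  have hρle : (ρ:ℝ) ≤ p + q := rho_aux hp' hq' (by linarith) eρ'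
  have hE0 : 0 ≤ (Y:ℝ) - ((ρ:ℝ)+w)^2*X := by
    rw [hd]
    have : 0 ≤ 2*(ρ:ℝ)*(σ*τ - w*X) := mul_nonneg (by linarith) (by linarith)
    linarith
  have hE1 : (Y:ℝ) - ((ρ:ℝ)+w)^2*X ≤ 3*((p:ℝ)+q)^2 := by
    rw [hd]
    have h6 : 2*(ρ:ℝ)*(σ*τ - w*X) ≤ 2*(p+q)*((p+q+1)/2) := by
      apply mul_le_mul (by linarith) hle (by linarith) (by linarith)
    have h7 : ((p:ℝ)+q) ≤ (p+q)^2 := by
      rw [pow_two]; exact le_mul_of_one_le_left (by linarith) (by linarith)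
    have h8 : 2*((p:ℝ)+q)*((p+q+1)/2) = (p+q)^2+(p+q) := by ring
    linarith
  have hkey : (Y:ℝ) * ((ρ:ℝ)-w)^2 - X = ((Y:ℝ) - ((ρ:ℝ)+w)^2*X) * ((ρ:ℝ)-w)^2 := by
    have : ((ρ:ℝ)+w)^2 * ((ρ:ℝ)-w)^2 = 1 := by
      rw [← mul_pow, hθ]; ring
    linear_combination (X:ℝ) * this
  rw [hkey]
  constructor
  · exact mul_nonneg hE0 hθ20.le
  · calc ((Y:ℝ) - ((ρ:ℝ)+w)^2*X) * ((ρ:ℝ)-w)^2 ≤ ((Y:ℝ) - ((ρ:ℝ)+w)^2*X) * 1 :=
        mul_le_mul_of_nonneg_left hθ2 hE0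
      _ ≤ 3*((p:ℝ)+q)^2 := by linarith

private lemma MN_aux {M N : ℤ} (hMN : 0 < M*N) (hNM : |N| ≤ |M|) : |M - N| ≤ |M| := by
  rcases lt_trichotomy M 0 with hM0 | hM0 | hM0
  · have hN1 : N < 0 := by
      by_contra hcon
      push Not at hcon
      nlinarith
    rw [abs_of_neg hM0] at *
    rw [abs_of_neg hN1] at hNM
    rw [abs_le]; constructor <;> linarith
  · rw [hM0] at hMN; simp at hMN
  · have hN1 : 0 < N := by
      by_contra hcon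
      push Not at hcon
      nlinarith
    rw [abs_of_pos hM0] at *
    rw [abs_of_pos hN1] at hNM
    rw [abs_le]; constructor <;> linarith

private lemma MM_aux {M K : ℤ} (hK : 1 ≤ K) (hM : |M| ≤ K) :
    0 ≤ M*(M+1) ∧ M*(M+1) ≤ 2*K^2 := by
  have h1 : M ≤ K := le_trans (le_abs_self M) hM
  have h5 : M^2 ≤ K^2 := by
    rw [← sq_abs M]
    exact pow_le_pow_left₀ (abs_nonneg M) hM 2
  constructor
  · rcases le_or_gt 0 M with hM0 | hM0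
    · positivity
    · have : M + 1 ≤ 0 := hM0
      nlinarith
  · nlinarith

private lemma K_aux {K : ℝ} (hK : 4 ≤ K) :
    K ≤ K^3 ∧ K*K ≤ K^7 ∧ K^5 ≤ K^7 ∧ K + K*(K+4) + K*(2*K^4+4) ≤ 4*K^5 := by
  refine ⟨?_, ?_, ?_, ?_⟩
  · calc K = K^1 := (pow_one K).symm
      _ ≤ K^3 := pow_le_pow_right₀ (by linarith) (by norm_num)
  · calc K*K = K^2 := by ring
      _ ≤ K^7 := pow_le_pow_right₀ (by linarith) (by norm_num)
  · exact pow_le_pow_right₀ (by linarith) (by norm_num)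
  · have h3 : (64:ℝ) ≤ K^3 := by
      calc (64:ℝ) = 4^3 := by norm_num
        _ ≤ K^3 := pow_le_pow_left₀ (by norm_num) hK 3
    have h4 : 64 * K ≤ K^4 := by
      calc 64 * K ≤ K^3*K := mul_le_mul_of_nonneg_right h3 (by linarith)
        _ = K^4 := by ring
    have h5 : 4 * K^4 ≤ K^5 := by
      calc 4*K^4 ≤ K*K^4 := mul_le_mul_of_nonneg_right hK (by positivity)
        _ = K^5 := by ring
    have h6 : K^2 ≤ K^4 := pow_le_pow_right₀ (by linarith) (by norm_num)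
    have h7 : K + K*(K+4) + K*(2*K^4+4) = 9*K + K^2 + 2*K^5 := by ring
    rw [h7]
    linarith

private lemma ev_three (X Y : ℝ) (u v w : ℤ) :
    ev X Y ![u, v, w, 0] = u + v * X + w * Y := by
  simp [ev]

theorem T2_end {a b c r s t D P Q ζ ξ η M N j : ℤ} (h : Dat a b c r s t D P Q ζ ξ η M N j)
    (hD : 0 < D) (h1 : 4*a*D ≤ |M|) (h2 : b < 2*|M|^3) (hj : |2*j| ≤ |M|) :
    c ≤ (10*|M|)^22 := by
  have ha := h.ha
  have hb : 0 < b := lt_trans h.ha h.hab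
  have hac : a < c := lt_trans h.hab h.hbc
  obtain ⟨-, -, -, -, ⟨f1, g1, hf1, hg1, ef1, eg1, hc1⟩, ⟨f2, g2, hf2, hg2, ef2, eg2, hc2⟩⟩ :=
    T2_pre h hD ⟨hac, h.hDc⟩
  have haD : 0 < a*D := mul_pos ha hD
  have hbD : 0 < b*D := mul_pos hb hD
  have haDr : (0:ℝ) < a*D := by exact_mod_cast haD
  have hbDr : (0:ℝ) < b*D := by exact_mod_cast hbD
  set X : ℝ := Real.sqrt (a*D) with hX
  set Y : ℝ := Real.sqrt (b*D) with hY
  have hX0 : 0 < X := Real.sqrt_pos.mpr haDr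
  have hY0 : 0 < Y := Real.sqrt_pos.mpr hbDr
  have eX : X^2 = a*D := Real.sq_sqrt haDr.le
  have eY : Y^2 = b*D := Real.sq_sqrt hbDr.le
  have eX' : X^2 = ((a*D : ℤ):ℝ) := by rw [eX]; push_cast; ring
  have eY' : Y^2 = ((b*D : ℤ):ℝ) := by rw [eY]; push_cast; ring
  obtain ⟨ea0, ea1⟩ := est a D P ξ f1 g1 c X ha hD h.hP h.hξ hf1 hg1 h.eξ ef1 eg1 hX0 eX hc1
  obtain ⟨eb0, eb1⟩ := est b D Q η f2 g2 c Y hb hD h.hQ h.hη hf2 hg2 h.eη ef2 eg2 hY0 eY hc2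
  -- the number K
  set K : ℤ := |M| with hK
  have hK4 : 4 ≤ K := le_trans h.hN4 h.hNM
  have hNK : |N| ≤ K := h.hNM
  have hKr : (4:ℝ) ≤ K := by exact_mod_cast hK4
  -- casts
  have ar : (1:ℝ) ≤ a := by exact_mod_cast ha
  have Dr : (1:ℝ) ≤ D := by exact_mod_cast hD
  have br : (1:ℝ) ≤ b := by exact_mod_cast hb
  have abr : (a:ℝ) ≤ b := by exact_mod_cast h.hab.le
  have cr : (0:ℝ) < c := by exact_mod_cast (lt_trans hb h.hbc)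
  have h1r : 4*(a:ℝ)*D ≤ K := by exact_mod_cast h1
  have h2r : (b:ℝ) ≤ 2*K^3 := by exact_mod_cast h2.le
  have hjr : |2*(j:ℝ)| ≤ K := by exact_mod_cast hj
  have Mr : |(M:ℝ)| = K := by rw [hK]; push_cast; rfl
  have Nr : |(N:ℝ)| ≤ K := by exact_mod_cast hNK
  have ξr : (1:ℝ) ≤ ξ := by exact_mod_cast h.hξ
  have ηr : (1:ℝ) ≤ η := by exact_mod_cast h.hη
  have eξ' : (ξ:ℝ)^2 = a*D+1 := by exact_mod_cast h.eξ
  have eη' : (η:ℝ)^2 = b*D+1 := by exact_mod_cast h.eη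
  have hDK : 4*(D:ℝ) ≤ K := by
    have : (D:ℝ) ≤ a*D := le_mul_of_one_le_left (by linarith) ar
    linarith
  have hMNabs : |M - N| ≤ K := MN_aux h.hMN h.hNM
  have hMNr : |(M:ℝ) - N| ≤ K := by exact_mod_cast hMNabs
  obtain ⟨hMM0, hMM1⟩ := MM_aux (M := M) (K := K) (by linarith) le_rfl
  obtain ⟨hNN0, hNN1⟩ := MM_aux (M := N) (K := K) (by linarith) hNK
  obtain ⟨kk1, kk2, kk3, kk4⟩ := K_aux hKr
  have hMM0r : 0 ≤ (M:ℝ)*(M+1) := by exact_mod_cast hMM0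
  have hNN0r : 0 ≤ (N:ℝ)*(N+1) := by exact_mod_cast hNN0
  have hMM1r : (M:ℝ)*(M+1) ≤ 2*K^2 := by exact_mod_cast hMM1
  have hNN1r : (N:ℝ)*(N+1) ≤ 2*K^2 := by exact_mod_cast hNN1
  -- the relation
  have hrel : 2*(j:ℝ)*c + M*P - N*Q = (M-N)*D + a*(M*(M+1)) - b*(N*(N+1)) := by
    have := h.rel
    have h6 : 2*j*c + M*P - N*Q = (M-N)*D + a*(M*(M+1)) - b*(N*(N+1)) := by
      linear_combination -this
    exact_mod_cast h6
  have hdiff : |(a:ℝ)*(M*(M+1)) - b*(N*(N+1))| ≤ 2*K^2*b := by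
    have h7 : 0 ≤ (a:ℝ)*(M*(M+1)) := by positivity
    have h8 : 0 ≤ (b:ℝ)*(N*(N+1)) := by positivity
    have h9 : (a:ℝ)*(M*(M+1)) ≤ b*(2*K^2) := mul_le_mul abr hMM1r hMM0r (by linarith)
    have h10 : (b:ℝ)*(N*(N+1)) ≤ b*(2*K^2) := mul_le_mul_of_nonneg_left hNN1r (by linarith)
    have h11 : (b:ℝ)*(2*K^2) = 2*K^2*b := by ring
    rw [h11] at h9 h10
    rw [abs_le]
    constructor <;> linarith
  -- the small number
  set θa : ℝ := ((ξ:ℝ)-X)^2 with hθa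
  set θb : ℝ := ((η:ℝ)-Y)^2 with hθb
  set y : ℝ := 2*(j:ℝ) + M*θa - N*θb with hy
  have hcy : (c:ℝ)*y = ((M-N)*D + (a*(M*(M+1)) - b*(N*(N+1)))) + M*(c*θa-P) - N*(c*θb-Q) := by
    rw [hy]
    linear_combination hrel
  have hbDle : (b:ℝ) + D ≤ 3*K^3 := by
    linarith
  have hsqb : 3*((b:ℝ)+D)^2 ≤ 27*K^6 := by
    have : ((b:ℝ)+D)^2 ≤ (3*K^3)^2 := pow_le_pow_left₀ (by linarith) hbDle 2
    have h12 : 3*(3*(K:ℝ)^3)^2 = 27*K^6 := by ring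
    linarith
  have hsqa : 3*((a:ℝ)+D)^2 ≤ 27*K^6 := by
    have : ((a:ℝ)+D)^2 ≤ ((b:ℝ)+D)^2 := pow_le_pow_left₀ (by linarith) (by linarith) 2
    linarith
  have hcy1 : |(c:ℝ)*y| ≤ 100*K^7 := by
    rw [hcy]
    have e1 : |((M:ℝ)-N)*D| ≤ K*D := by
      rw [abs_mul, abs_of_pos (by linarith : (0:ℝ) < D)]
      exact mul_le_mul_of_nonneg_right hMNr (by linarith)
    have e2 : |(M:ℝ)*(c*θa-P)| ≤ K*(27*K^6) := by
      rw [abs_mul, Mr, abs_of_nonneg ea0]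
      exact mul_le_mul_of_nonneg_left (ea1.trans hsqa) (by linarith)
    have e3 : |(N:ℝ)*(c*θb-Q)| ≤ K*(27*K^6) := by
      rw [abs_mul, abs_of_nonneg eb0]
      exact mul_le_mul Nr (eb1.trans hsqb) eb0 (by linarith)
    have e4 : |(((M:ℝ)-N)*D + (a*(M*(M+1)) - b*(N*(N+1)))) + M*(c*θa-P) - N*(c*θb-Q)|
        ≤ |((M:ℝ)-N)*D| + |((a:ℝ)*(M*(M+1)) - b*(N*(N+1)))| + |(M:ℝ)*(c*θa-P)|
          + |(N:ℝ)*(c*θb-Q)| := by
      calc _ ≤ |(((M:ℝ)-N)*D + (a*(M*(M+1)) - b*(N*(N+1)))) + M*(c*θa-P)| + |(N:ℝ)*(c*θb-Q)| :=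
            abs_sub _ _
        _ ≤ |((M:ℝ)-N)*D + (a*(M*(M+1)) - b*(N*(N+1)))| + |(M:ℝ)*(c*θa-P)| + |(N:ℝ)*(c*θb-Q)| := by
            gcongr; exact abs_add_le _ _
        _ ≤ _ := by gcongr; exact abs_add_le _ _
    have e5 : (K:ℝ)*D + 2*K^2*b ≤ 46*K^7 := by
      have k1 : (K:ℝ)*D ≤ K^7 := by
        have : (D:ℝ) ≤ K := by linarith
        have k3 : (K:ℝ)*D ≤ K*K := mul_le_mul_of_nonneg_left this (by linarith)
        linarith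
      have k2 : 2*(K:ℝ)^2*b ≤ 4*K^7 := by
        have k5 : 2*(K:ℝ)^2*b ≤ 2*K^2*(2*K^3) := mul_le_mul_of_nonneg_left h2r (by positivity)
        have k6 : 2*(K:ℝ)^2*(2*K^3) = 4*K^5 := by ring
        rw [k6] at k5
        linarith
      have k7 : (0:ℝ) ≤ K^7 := by positivity
      linarith
    have e6 : (K:ℝ)*(27*K^6) = 27*K^7 := by ring
    rw [e6] at e2 e3
    linarith
  -- the vector
  set x : Fin 4 → ℤ := ![2*j+M*(2*a*D+1)-N*(2*b*D+1), -2*M*ξ, 2*N*η, 0] with hx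
  have hxev : ∀ X' Y' : ℝ, X'^2 = a*D → Y'^2 = b*D →
      ev X' Y' x = 2*(j:ℝ) + M*((ξ:ℝ)-X')^2 - N*((η:ℝ)-Y')^2 := by
    intro X' Y' hX' hY'
    rw [hx, ev_three]
    push_cast
    have q1 : ((ξ:ℝ)-X')^2 = 2*a*D+1 - 2*ξ*X' := by
      have : ((ξ:ℝ)-X')^2 = ξ^2 + X'^2 - 2*ξ*X' := by ring
      rw [this, eξ', hX']; ring
    have q2 : ((η:ℝ)-Y')^2 = 2*b*D+1 - 2*η*Y' := by
      have : ((η:ℝ)-Y')^2 = η^2 + Y'^2 - 2*η*Y' := by ring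
      rw [this, eη', hY']; ring
    rw [q1, q2]; ring
  have hx0 : x ≠ 0 := by
    intro h0
    have h11 : x 1 = 0 := by rw [h0]; rfl
    rw [hx] at h11
    simp at h11
    rcases h11 with h12 | h12
    · rw [h12] at hK; simp at hK; omega
    · have := h.hξ; omega
  -- conjugate bounds
  have hXξ : X ≤ ξ := by
    exact le_of_sq_aux hX0.le (by linarith) (by rw [eX, eξ']; linarith)
  have hYη : Y ≤ η := by
    exact le_of_sq_aux hY0.le (by linarith) (by rw [eY, eη']; linarith)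
  have bθa : ∀ X' : ℝ, |X'| = X → ((ξ:ℝ)-X')^2 ≤ 4*(a*D+1) := by
    intro X' hX'
    have h13 : |(ξ:ℝ)-X'| ≤ 2*ξ := by
      calc |(ξ:ℝ)-X'| ≤ |(ξ:ℝ)| + |X'| := abs_sub _ _
        _ ≤ 2*ξ := by rw [hX', abs_of_pos (by linarith : (0:ℝ) < ξ)]; linarith
    have h14 : ((ξ:ℝ)-X')^2 ≤ (2*(ξ:ℝ))^2 := by
      rw [← sq_abs ((ξ:ℝ)-X')]
      exact pow_le_pow_left₀ (abs_nonneg _) h13 2
    calc ((ξ:ℝ)-X')^2 ≤ (2*(ξ:ℝ))^2 := h14
      _ = 4*(a*D+1) := by rw [mul_pow, eξ']; ring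
  have bθb : ∀ Y' : ℝ, |Y'| = Y → ((η:ℝ)-Y')^2 ≤ 4*(b*D+1) := by
    intro Y' hY'
    have h13 : |(η:ℝ)-Y'| ≤ 2*η := by
      calc |(η:ℝ)-Y'| ≤ |(η:ℝ)| + |Y'| := abs_sub _ _
        _ ≤ 2*η := by rw [hY', abs_of_pos (by linarith : (0:ℝ) < η)]; linarith
    have h14 : ((η:ℝ)-Y')^2 ≤ (2*(η:ℝ))^2 := by
      rw [← sq_abs ((η:ℝ)-Y')]
      exact pow_le_pow_left₀ (abs_nonneg _) h13 2
    calc ((η:ℝ)-Y')^2 ≤ (2*(η:ℝ))^2 := h14
      _ = 4*(b*D+1) := by rw [mul_pow, eη']; ring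
  have hH : ∀ X' Y' : ℝ, |X'| = X → |Y'| = Y → |ev X' Y' x| ≤ 4*(K:ℝ)^5 := by
    intro X' Y' hX' hY'
    have eX1 : X'^2 = a*D := by rw [← sq_abs, hX', eX]
    have eY1 : Y'^2 = b*D := by rw [← sq_abs, hY', eY]
    rw [hxev X' Y' eX1 eY1]
    have t1 : |(M:ℝ)*((ξ:ℝ)-X')^2| ≤ K*(4*(a*D+1)) := by
      rw [abs_mul, Mr, abs_of_nonneg (sq_nonneg _)]
      exact mul_le_mul_of_nonneg_left (bθa X' hX') (by linarith)
    have t2 : |(N:ℝ)*((η:ℝ)-Y')^2| ≤ K*(4*(b*D+1)) := by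
      rw [abs_mul, abs_of_nonneg (sq_nonneg ((η:ℝ)-Y'))]
      exact mul_le_mul Nr (bθb Y' hY') (sq_nonneg _) (by linarith)
    have t3 : |2*(j:ℝ) + M*((ξ:ℝ)-X')^2 - N*((η:ℝ)-Y')^2|
        ≤ |2*(j:ℝ)| + |(M:ℝ)*((ξ:ℝ)-X')^2| + |(N:ℝ)*((η:ℝ)-Y')^2| := by
      calc _ ≤ |2*(j:ℝ) + M*((ξ:ℝ)-X')^2| + |(N:ℝ)*((η:ℝ)-Y')^2| := abs_sub _ _
        _ ≤ _ := by gcongr; exact abs_add_le _ _
    have t4 : (b:ℝ)*D ≤ 2*K^3*(K/4) := by
      apply mul_le_mul h2r (by linarith) (by linarith) (by positivity)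
    have t5 : 4*((a:ℝ)*D+1) ≤ K + 4 := by linarith
    have t6 : (K:ℝ)*(4*(a*D+1)) ≤ K*(K+4) := mul_le_mul_of_nonneg_left t5 (by linarith)
    have t7 : (K:ℝ)*(4*(b*D+1)) ≤ K*(2*K^4+4) := by
      apply mul_le_mul_of_nonneg_left _ (by linarith)
      have t9 : 2*(K:ℝ)^3*(K/4) = K^4/2 := by ring
      rw [t9] at t4
      linarith
    linarith
  have nsp : ¬ IsSquare (a*D) := not_sq_of_succ haD h.eξ
  have nsq : ¬ IsSquare (b*D) := not_sq_of_succ hbD h.eη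
  have nspq : ¬ IsSquare (a*D*(b*D)) := by
    rintro ⟨m, hm⟩
    have h15 : m^2 = D^2*(a*b) := by rw [pow_two, ← hm]; ring
    have h16 : D ∣ m := by
      rw [← Int.pow_dvd_pow_iff (n := 2) (by norm_num)]
      exact ⟨a*b, h15⟩
    obtain ⟨k, hk⟩ := h16
    have h17 : a*b = k*k := by
      have h18 : D^2*(k*k) = D^2*(a*b) := by rw [← h15, hk]; ring
      exact (mul_left_cancel₀ (by positivity) h18).symm
    exact not_sq_of_succ (mul_pos ha hb) h.er ⟨k, h17⟩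
  have hX'' : |(-X)| = X := by rw [abs_neg, abs_of_pos hX0]
  have hY'' : |(-Y)| = Y := by rw [abs_neg, abs_of_pos hY0]
  have hXX : |X| = X := abs_of_pos hX0
  have hYY : |Y| = Y := abs_of_pos hY0
  have hL := liou4 haD hbD eX' eY' nsp nsq nspq hx0 (hH (-X) Y hX'' hYY) (hH X (-Y) hXX hY'')
    (hH (-X) (-Y) hX'' hY'')
  rw [hxev X Y eX eY] at hL
  have hfin : (c:ℝ) ≤ (10*K)^22 := by
    have u1 : (c:ℝ) ≤ |(c:ℝ)*y| * (4*K^5)^3 := by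
      rw [abs_mul, abs_of_pos cr, mul_assoc]
      have : (c:ℝ)*1 ≤ c*(|y| * (4*K^5)^3) := mul_le_mul_of_nonneg_left hL cr.le
      linarith
    have u2 : |(c:ℝ)*y| * (4*(K:ℝ)^5)^3 ≤ 100*K^7*(4*K^5)^3 :=
      mul_le_mul_of_nonneg_right hcy1 (by positivity)
    have u3 : 100*(K:ℝ)^7*(4*K^5)^3 = 6400*K^22 := by ring
    have u4 : (10*(K:ℝ))^22 = 10^22*K^22 := by rw [mul_pow]
    have u5 : (0:ℝ) ≤ K^22 := by positivity
    rw [u4]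
    rw [u3] at u2
    have u6 : (6400:ℝ)*K^22 ≤ 10^22*K^22 := by
      apply mul_le_mul_of_nonneg_right _ u5
      norm_num
    linarith
  exact_mod_cast hfin

end Irr
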