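import Pool.Agent.Lib.Irr.TEDefs

/-!
# Module TEa (about 80 lines)

Expansion of the chain modulo `c^3` for `D = 0`.

PROOF. Let `x = u c`, `M = ε k`, `R k = (u+c)(45M^2+al2 M x+al4 M x^2) + 2v(45M+al1 M x+al3 M x^2)`.
`R 0 = 0 = 45 δ_0`, `R 1 = 45(u+c) + 90 ε v = 45 δ_1` (`al_i (±1) = 0`). Second differences
(polynomial identities, `ring`, using `ε^2 = 1`; do the two cases `ε = ±1` separately, or note that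
`al2, al4` are even and `al1, al3` odd functions):
`R (k+2) + R k - 2 R (k+1) = 90(u+c) + 4x·[(u+c)(45M^2+al2 M x) + 2v(45M+al1 M x)]` at `M = ε(k+1)`,
which is `90(u+c) + 4x R(k+1)` up to a multiple of `x^3` (`al4` and `al3` terms times `4x·x^2`).
So `R` satisfies the recurrence of `45 δ` modulo `c^3` (`c^3 ∣ x^3`). Two-step induction.
Identities: `al2(M+1)+al2(M-1)-2al2(M) = 180M^2`, `al1(M+1)+al1(M-1)-2al1(M) = 180M`,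
`al4(M+1)+al4(M-1)-2al4(M) = 4 al2(M)`, `al3(M+1)+al3(M-1)-2al3(M) = 4 al1(M)`.
-/

namespace Irr

theorem tea (u c v ε : ℤ) (he : ε = 1 ∨ ε = -1) (k : ℕ) :
    c^3 ∣ 45 * dl u c 0 (u+c+2*ε*v) k -
      ((u+c)*(45*(ε*k)^2+al2 (ε*k)*(u*c)+al4 (ε*k)*(u*c)^2)
        +2*v*(45*(ε*k)+al1 (ε*k)*(u*c)+al3 (ε*k)*(u*c)^2)) := by
  induction k using Nat.twoStepInduction with
  | zero => simp [dl, al1, al2, al3, al4]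
  | one =>
    have h : 45 * dl u c 0 (u+c+2*ε*v) 1 -
      ((u+c)*(45*(ε*((1:ℕ):ℤ))^2+al2 (ε*((1:ℕ):ℤ))*(u*c)+al4 (ε*((1:ℕ):ℤ))*(u*c)^2)
        +2*v*(45*(ε*((1:ℕ):ℤ))+al1 (ε*((1:ℕ):ℤ))*(u*c)+al3 (ε*((1:ℕ):ℤ))*(u*c)^2)) = 0 := by
      unfold al1 al2 al3 al4 dl
      rcases he with rfl | rfl <;> push_cast <;> ring
    rw [h]
    exact dvd_zero _
  | more k ih1 ih2 =>
    have h : 45 * dl u c 0 (u+c+2*ε*v) (k+2) -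
      ((u+c)*(45*(ε*((k+2 : ℕ):ℤ))^2+al2 (ε*((k+2 : ℕ):ℤ))*(u*c)+al4 (ε*((k+2 : ℕ):ℤ))*(u*c)^2)
        +2*v*(45*(ε*((k+2 : ℕ):ℤ))+al1 (ε*((k+2 : ℕ):ℤ))*(u*c)+al3 (ε*((k+2 : ℕ):ℤ))*(u*c)^2)) =
      2*(1+2*u*c)*(45 * dl u c 0 (u+c+2*ε*v) (k+1) -
      ((u+c)*(45*(ε*((k+1 : ℕ):ℤ))^2+al2 (ε*((k+1 : ℕ):ℤ))*(u*c)+al4 (ε*((k+1 : ℕ):ℤ))*(u*c)^2)
        +2*v*(45*(ε*((k+1 : ℕ):ℤ))+al1 (ε*((k+1 : ℕ):ℤ))*(u*c)+al3 (ε*((k+1 : ℕ):ℤ))*(u*c)^2))) -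
      (45 * dl u c 0 (u+c+2*ε*v) k -
      ((u+c)*(45*(ε*(k:ℤ))^2+al2 (ε*(k:ℤ))*(u*c)+al4 (ε*(k:ℤ))*(u*c)^2)
        +2*v*(45*(ε*(k:ℤ))+al1 (ε*(k:ℤ))*(u*c)+al3 (ε*(k:ℤ))*(u*c)^2))) +
      c^3*(4*u^3*((u+c)*al4 (ε*((k+1 : ℕ):ℤ)) + 2*v*al3 (ε*((k+1 : ℕ):ℤ)))) := by
      have e : dl u c 0 (u+c+2*ε*v) (k+2) = 2*(1+2*u*c) * dl u c 0 (u+c+2*ε*v) (k+1) -
        dl u c 0 (u+c+2*ε*v) k + 2*(u+c) := rfl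
      rw [e]
      unfold al1 al2 al3 al4
      rcases he with rfl | rfl <;> push_cast <;> ring
    rw [h]
    exact dvd_add (dvd_sub (Dvd.dvd.mul_left ih2 _) ih1) (Dvd.intro _ rfl)

end Irr
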