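import Pool.Agent.Lib.Irr.TEDefs

/-!
# Module TEb (about 120 lines)

The two obstructions. Write `w = a-b`, `Δ = M^2-N^2`, `A = M^2+M+N`, `B = N^2+N+M` (`A - B = Δ`).

PROOF. `Δ a = 2jc - B w`, `Δ b = 2jc - A w` (from `hrel`: `(A-B)a + B(a-b) = 2jc`), and
`Δ w^2 = 4Δ - Δc^2 + 2c(4jc - (A+B)w)` (from `hw`, `Δ(a+b) = 4jc-(A+B)w`).
`EE a b c M N = c (90 j + F1 + c F2) + c^3 (…)` with
`F1 = al2 M a^2 + al1 M w a - al2 N b^2 + al1 N w b + 45(M^2+M-N^2-N)`,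
`F2 = al4 M a^3 + al3 M w a^2 + (al2 M + al1 M) a - al4 N b^3 + al3 N w b^2 - (al2 N + al1 N) b`
(`45(Aa-Bb) = 90jc`). So `c^2 ∣ 90j+F1+cF2` (`c ≠ 0`), hence
`c^2 ∣ Δ^3(90j+F1+cF2)`, and modulo `c^2` this is `Δ k1 + c w k2`:
`Δ^2 F1 ≡ w^2 Th + 2jcw[-2al2 M B+al1 M Δ+2al2 N A+al1 N Δ] + Δ^2 45(…)`,
`Δ w^2 ≡ 4Δ - 2c(A+B)w`, and in `cΔ^3F2` one may replace `w^3` by `4w` (`w^2 ≡ 4` mod `c`).
Treat `al_i M, al_i N, A, B, Δ` as opaque letters (with `A = B + Δ`); find the exact cofactors with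
`linear_combination` (write `Δ^3(90j+F1+cF2) - Δk1 - c w k2` as a combination of the three
relations plus `c^2 *` something; or do it in steps: first replace `Δa`, `Δb` by their values).
(i) `c ∣ Δ k1`. (ii) if `k1 = 0`: `c^2 ∣ c w k2`, so `c ∣ w k2`, and `c ∣ w^2 k2`, and
`w^2 ≡ 4` mod `c`, so `c ∣ 4 k2`.
(numerically verified.)
-/

namespace Irr

private theorem teb_key (a b c j w A B D E p1 p2 p3 p4 q1 q2 q3 q4 : ℤ)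
    (hX : D*a = 2*j*c - B*w) (hY : D*b = 2*j*c - A*w) (hw : w^2 = 4-c^2+2*c*(a+b)) :
    D^3*(90*j + (p2*a^2+p1*w*a-q2*b^2+q1*w*b+45*E)
      + c*(p4*a^3+p3*w*a^2+(p2+p1)*a-q4*b^3+q3*w*b^2-(q2+q1)*b)) =
    D*(90*j*D^2 + 4*(p2*B^2-p1*D*B-q2*A^2-q1*D*A) + D^2*(45*E))
    + c*w*(-2*(A+B)*(p2*B^2-p1*D*B-q2*A^2-q1*D*A) + 2*j*D*(-2*p2*B+p1*D+2*q2*A+q1*D)
      + 4*(-p4*B^3+p3*D*B^2+q4*A^3+q3*D*A^2) + D^2*((q2+q1)*A-(p2+p1)*B))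
    + c^2*((p2*B^2-p1*D*B-q2*A^2-q1*D*A)*(8*j-D)
      + w*(2*(a+b)-c)*(-p4*B^3+p3*D*B^2+q4*A^3+q3*D*A^2)
      + (4*j^2*D*(p2-q2) + p4*(8*j^3*c^2-12*j^2*c*B*w+6*j*B^2*w^2) + p3*w*D*(4*j^2*c-4*j*B*w)
        + 2*j*D^2*(p2+p1) - q4*(8*j^3*c^2-12*j^2*c*A*w+6*j*A^2*w^2)
        + q3*w*D*(4*j^2*c-4*j*A*w) - 2*j*D^2*(q2+q1))) := by
  have hDw : D*w^2 = 4*D - D*c^2 + 2*c*(4*j*c-(A+B)*w) := by
    linear_combination D*hw + 2*c*(hX+hY)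
  have e1 : D^2*(p2*a^2+p1*w*a-q2*b^2+q1*w*b+45*E) =
      p2*(2*j*c - B*w)^2+p1*w*D*(2*j*c - B*w)-q2*(2*j*c - A*w)^2+q1*w*D*(2*j*c - A*w)
        +45*E*D^2 := by
    rw [← hX, ← hY]; ring
  have e2 : D^3*(p4*a^3+p3*w*a^2+(p2+p1)*a-q4*b^3+q3*w*b^2-(q2+q1)*b) =
      p4*(2*j*c - B*w)^3+p3*w*D*(2*j*c - B*w)^2+(p2+p1)*D^2*(2*j*c - B*w)
        -q4*(2*j*c - A*w)^3+q3*w*D*(2*j*c - A*w)^2-(q2+q1)*D^2*(2*j*c - A*w) := by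
    rw [← hX, ← hY]; ring
  linear_combination D*e1 + c*e2 + (p2*B^2-p1*D*B-q2*A^2-q1*D*A)*hDw
    + c*w*(-p4*B^3+p3*D*B^2+q4*A^3+q3*D*A^2)*hw

theorem teb (a b c j M N : ℤ) (hc : 0 < c) (hw : (a-b)^2 = 4-c^2+2*c*(a+b))
    (hrel : (M^2+M+N)*a-(N^2+N+M)*b = 2*j*c) (hE : c^3 ∣ EE a b c M N) :
    c ∣ (M^2-N^2)*k1 j M N ∧ (k1 j M N = 0 → c ∣ 4*k2 j M N) := by
  have key := teb_key a b c j (a-b) (M^2+M+N) (N^2+N+M) (M^2-N^2) (M^2+M-N^2-N)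
    (al1 M) (al2 M) (al3 M) (al4 M) (al1 N) (al2 N) (al3 N) (al4 N)
    (by linear_combination hrel) (by linear_combination hrel) hw
  obtain ⟨e, he⟩ := hE
  have hc0 : c ≠ 0 := hc.ne'
  -- `c^2` divides the bracket
  have hG : c^2 ∣ 90*j + (al2 M*a^2+al1 M*(a-b)*a-al2 N*b^2+al1 N*(a-b)*b
        +45*(M^2+M-N^2-N))
      + c*(al4 M*a^3+al3 M*(a-b)*a^2+(al2 M+al1 M)*a-al4 N*b^3+al3 N*(a-b)*b^2
        -(al2 N+al1 N)*b) := by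
    refine ⟨e - (al4 M*a^2 + al3 M*a^2 - al4 N*b^2 - al3 N*b^2), ?_⟩
    apply mul_left_cancel₀ hc0
    have : c*(90*j + (al2 M*a^2+al1 M*(a-b)*a-al2 N*b^2+al1 N*(a-b)*b
        +45*(M^2+M-N^2-N))
      + c*(al4 M*a^3+al3 M*(a-b)*a^2+(al2 M+al1 M)*a-al4 N*b^3+al3 N*(a-b)*b^2
        -(al2 N+al1 N)*b)) = EE a b c M N
        - c^3*(al4 M*a^2 + al3 M*a^2 - al4 N*b^2 - al3 N*b^2) := by
      unfold EE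
      linear_combination (-45)*hrel
    rw [this, he]
    ring
  have ek1 : k1 j M N = 90*j*(M^2-N^2)^2 + 4*(al2 M*(N^2+N+M)^2-al1 M*(M^2-N^2)*(N^2+N+M)
      -al2 N*(M^2+M+N)^2-al1 N*(M^2-N^2)*(M^2+M+N)) + (M^2-N^2)^2*(45*(M^2+M-N^2-N)) := rfl
  have ek2 : k2 j M N = -2*((M^2+M+N)+(N^2+N+M))*(al2 M*(N^2+N+M)^2
      -al1 M*(M^2-N^2)*(N^2+N+M)-al2 N*(M^2+M+N)^2-al1 N*(M^2-N^2)*(M^2+M+N))
      + 2*j*(M^2-N^2)*(-2*al2 M*(N^2+N+M)+al1 M*(M^2-N^2)+2*al2 N*(M^2+M+N)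
        +al1 N*(M^2-N^2))
      + 4*(-(al4 M)*(N^2+N+M)^3+al3 M*(M^2-N^2)*(N^2+N+M)^2+al4 N*(M^2+M+N)^3
        +al3 N*(M^2-N^2)*(M^2+M+N)^2)
      + (M^2-N^2)^2*((al2 N+al1 N)*(M^2+M+N)-(al2 M+al1 M)*(N^2+N+M)) := rfl
  rw [← ek1, ← ek2] at key
  have h2 : c^2 ∣ (M^2-N^2)*k1 j M N + c*(a-b)*k2 j M N := by
    have h3 := Dvd.dvd.mul_left hG ((M^2-N^2)^3)
    rw [key] at h3
    exact (Int.dvd_add_left (Dvd.intro _ rfl)).1 h3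
  constructor
  · have h4 : c ∣ (M^2-N^2)*k1 j M N + c*(a-b)*k2 j M N := (Dvd.intro_left (c^1) (by ring)).trans h2
    refine (Int.dvd_add_left ?_).1 h4
    exact ⟨(a-b)*k2 j M N, by ring⟩
  · intro hk
    rw [hk, mul_zero, zero_add] at h2
    obtain ⟨f, hf⟩ := h2
    have h5 : (a-b)*k2 j M N = c*f := by
      apply mul_left_cancel₀ hc0
      linear_combination hf
    refine ⟨(a-b)*f - (2*(a+b)-c)*k2 j M N, ?_⟩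
    linear_combination (a-b)*h5 - k2 j M N*hw

end Irr
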