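import Pool.Agent.Lib.Irr.TEDefs

/-!
# Module TEc2 (about 120 lines): `tec2` (see the PROOF notes below)

`k2 = -Δ Num` when `k1 = 0`, and `Num > 0`.

PROOF of `tec1`. `45 Δ k2 - [-2al2 M B+al1 M Δ+2al2 N A+al1 N Δ]·k1 = -45 Δ^2 Num` is a polynomial
identity in `j, M, N` (the `j`-terms cancel: `45·2jΔ^2·br - 90jΔ^2·br`); `ring` after `unfold`.
Cancel `45Δ ≠ 0`.

PROOF of `tec2` (`Num > 0`). With `S = M+N`, `E = M-N`, `Π = MN > 0`, `Δ = SE`: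
`Num = Π^2S^2E^2 - S^3E^4 - 2Π^2(M^2+N^2) + S(5M^4-6M^3N-10M^2N^2-6MN^3+5N^4) - 12ΠS^2 - 4S^3`.
(a) `M, N > 0`, `4 <= N`, `N+2 <= M <= 2N`: put `N = n+4`, `M = N+2+x` (`0 <= x <= N-2`).
`S^3E^4 <= Π^2S^2E^2·(3/16)`: `S E^2 <= 3N·N^2` (`S <= 3N`, `E <= N`), `Π^2 >= N^2·(N+2)^2`...
so `Π^2 >= 16·S E^2/3`: `3Π^2 >= 3N^4 (…) >= 16 S E^2`? use `Π^2 = M^2N^2`, `S E^2 <= (3/2)·M·… `;
any correct chain is fine, e.g. `S E^2 <= (3N)(M-N)^2` and `(M-N)^2 <= M^2/4` (as `M <= 2N`), so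
`S E^2 <= (3/4) N M^2 <= (3/16) N^2 M^2`. `2Π^2(M^2+N^2) <= 2Π^2 S^2 <= (1/2) Π^2S^2E^2` (`E >= 2`).
So the first three terms are `>= (5/16) Π^2S^2E^2 >= (5/4) Π^2 S^2`. The form
`5M^4-6M^3N-10M^2N^2-6MN^3+5N^4 >= -12 Π^2` … (`5(M^2-N^2)^2 - 6MN(M^2+N^2) >= -6Π(M^2+N^2)`, so the
fourth term is `>= -6ΠS(M^2+N^2) >= -6 Π S^3 + 12 Π^2 S`), `12ΠS^2`, `4S^3`:
need `(5/4)Π^2S^2 > 6ΠS^3 + 12ΠS^2 + 4S^3 - …`; this is true for `Π` large against `S` (`Π >= NM`,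
`S <= 2M`, so `Π >= N S/2`); the finitely many small cases (`N = 4, 6, 8, …`) by `interval_cases`/
`decide`, or use `E^2` growth. The minimum of `Num/(Π^2S^2E^2)` is 0.29 at `(6,4)`.
(b) `M = -μ, N = -ν`, `4 <= ν`, `ν+2 <= μ <= 2ν-2`:
`Num = Π^2S^2E^2 + S^3E^4 - 2Π^2(μ^2+ν^2) - S(5μ^4-…) - 12ΠS^2 + 4S^3` with positive
`S = μ+ν, E = μ-ν`; `S(5μ^4-6μ^3ν-…+5ν^4) <= 5 S (μ^2-ν^2)^2 = 5S^3E^2`.
So `Num >= S^2E^2(Π^2 - 5S) - 2Π^2S^2 - 12ΠS^2 + S^3E^4`, and `Π^2S^2E^2 >= 4Π^2S^2`, etc.; ratio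
`>= 0.75`.
(any proof; the statement has been checked numerically for all `|N| <= 400`.)
-/

namespace Irr

private theorem pos1 (x y : ℤ) (hx : 0 ≤ x) (hy : 0 ≤ y) :
    0 < Num (2*(x+2)+y+4) ((x+2)+y+2) := by
  unfold Num
  ring_nf
  positivity

private theorem pos2 (x y : ℤ) (hx : 0 ≤ x) (hy : 0 ≤ y) :
    0 < Num (2*x+(y+2)+4) (x+(y+2)+2) := by
  unfold Num
  ring_nf
  positivity

private theorem neg1 (x y : ℤ) (hx : 0 ≤ x) (hy : 0 ≤ y) :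
    0 < Num (-(2*x+y+4)) (-(x+y+2)) := by
  unfold Num
  ring_nf
  positivity

theorem tec2 (M N : ℤ) (evM : Even M) (evN : Even N) (hMN : 0 < M*N) (hN4 : 4 ≤ |N|)
    (hNM : |N| < |M|) (hM2N : |M| ≤ 2*|N|) : 0 < Num M N := by
  obtain ⟨m, hm⟩ := evM
  obtain ⟨n, hn⟩ := evN
  rcases lt_trichotomy N 0 with h | h | h
  · have hM : M < 0 := by
      by_contra h'
      push Not at h'
      nlinarith
    rw [abs_of_neg h] at hN4 hNM hM2N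
    rw [abs_of_neg hM] at hNM hM2N
    have := neg1 (-M+N-2) (-2*N+M) (by omega) (by omega)
    rwa [show -(2*(-M+N-2)+(-2*N+M)+4) = M by ring, show -((-M+N-2)+(-2*N+M)+2) = N by ring]
      at this
  · rw [h] at hN4; simp at hN4
  · have hM : 0 < M := by
      by_contra h'
      push Not at h'
      nlinarith
    rw [abs_of_pos h] at hN4 hNM hM2N
    rw [abs_of_pos hM] at hNM hM2N
    by_cases hx : 2 ≤ M-N-2
    · have := pos1 (M-N-4) (2*N-M) (by omega) (by omega)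
      rwa [show 2*(M-N-4+2)+(2*N-M)+4 = M by ring, show (M-N-4+2)+(2*N-M)+2 = N by ring]
        at this
    · have := pos2 (M-N-2) (2*N-M-2) (by omega) (by omega)
      rwa [show 2*(M-N-2)+(2*N-M-2+2)+4 = M by ring, show (M-N-2)+(2*N-M-2+2)+2 = N by ring]
        at this

end Irr
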