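import Pool.Agent.Lib.Irr.TEDefs

/-!
# Module TEc3 (about 60 lines): `tec3` (see the PROOF notes below)

`k2 = -Δ Num` when `k1 = 0`, and `Num > 0`.

PROOF of `tec1`. `45 Δ k2 - [-2al2 M B+al1 M Δ+2al2 N A+al1 N Δ]·k1 = -45 Δ^2 Num` is a polynomial
identity in `j, M, N` (the `j`-terms cancel: `45·2jΔ^2·br - 90jΔ^2·br`); `ring` after `unfold`.
Cancel `45Δ ≠ 0`.

PROOF of `tec2` (`Num > 0`). With `S = M+N`, `E = M-N`, `Π = MN > 0`, `Δ = SE`: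
`Num = Π^2S^2E^2 - S^3E^4 - 2Π^2(M^2+N^2) + S(5M^4-6M^3N-10M^2N^2-6MN^3+5N^4) - 12ΠS^2 - 4S^3`.
(a) `M, N > 0`, `4 <= N`, `N+2 <= M <= 2N`: put `N = n+4`, `M = N+2+x` (`0 <= x <= N-2`).
`S^3E^4 <= Π^2S^2E^2·(3/16)`: `S E^2 <= 3N·N^2` (`S <= 3N`, `E <= N`), `Π^2 >= N^2·(N+2)^2`...
so `Π^2 >= 16·S E^2/3`: `3Π^2 >= 3N^4 (…) >= 16 S E^2`? use `Π^2 = M^2N^2`, `S E^2 <= (3/2)·M·… `;
any correct chain is fine, e.g. `S E^2 <= (3N)(M-N)^2` and `(M-N)^2 <= M^2/4` (as `M <= 2N`), so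
`S E^2 <= (3/4) N M^2 <= (3/16) N^2 M^2`. `2Π^2(M^2+N^2) <= 2Π^2 S^2 <= (1/2) Π^2S^2E^2` (`E >= 2`).
So the first three terms are `>= (5/16) Π^2S^2E^2 >= (5/4) Π^2 S^2`. The form
`5M^4-6M^3N-10M^2N^2-6MN^3+5N^4 >= -12 Π^2` … (`5(M^2-N^2)^2 - 6MN(M^2+N^2) >= -6Π(M^2+N^2)`, so the
fourth term is `>= -6ΠS(M^2+N^2) >= -6 Π S^3 + 12 Π^2 S`), `12ΠS^2`, `4S^3`:
need `(5/4)Π^2S^2 > 6ΠS^3 + 12ΠS^2 + 4S^3 - …`; this is true for `Π` large against `S` (`Π >= NM`,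
`S <= 2M`, so `Π >= N S/2`); the finitely many small cases (`N = 4, 6, 8, …`) by `interval_cases`/
`decide`, or use `E^2` growth. The minimum of `Num/(Π^2S^2E^2)` is 0.29 at `(6,4)`.
(b) `M = -μ, N = -ν`, `4 <= ν`, `ν+2 <= μ <= 2ν-2`:
`Num = Π^2S^2E^2 + S^3E^4 - 2Π^2(μ^2+ν^2) - S(5μ^4-…) - 12ΠS^2 + 4S^3` with positive
`S = μ+ν, E = μ-ν`; `S(5μ^4-6μ^3ν-…+5ν^4) <= 5 S (μ^2-ν^2)^2 = 5S^3E^2`.
So `Num >= S^2E^2(Π^2 - 5S) - 2Π^2S^2 - 12ΠS^2 + S^3E^4`, and `Π^2S^2E^2 >= 4Π^2S^2`, etc.; ratio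
`>= 0.75`.
(any proof; the statement has been checked numerically for all `|N| <= 400`.)
-/

namespace Irr

private def Bd (m c : ℤ) (e : ℕ) (x : ℤ) : Prop := |x| ≤ c * m^e

private theorem Bd.add {m c c' : ℤ} {e : ℕ} {x y : ℤ} (hx : Bd m c e x) (hy : Bd m c' e y) :
    Bd m (c+c') e (x+y) := by
  unfold Bd at *
  calc |x+y| ≤ |x|+|y| := abs_add_le x y
    _ ≤ c*m^e + c'*m^e := add_le_add hx hy
    _ = (c+c')*m^e := by ring

private theorem Bd.sub {m c c' : ℤ} {e : ℕ} {x y : ℤ} (hx : Bd m c e x) (hy : Bd m c' e y) :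
    Bd m (c+c') e (x-y) := by
  unfold Bd at *
  calc |x-y| ≤ |x|+|y| := abs_sub x y
    _ ≤ c*m^e + c'*m^e := add_le_add hx hy
    _ = (c+c')*m^e := by ring

private theorem Bd.mul {m c c' : ℤ} {e e' : ℕ} {x y : ℤ} (hx : Bd m c e x) (hy : Bd m c' e' y) :
    Bd m (c*c') (e+e') (x*y) := by
  unfold Bd at *
  rw [abs_mul]
  calc |x| * |y| ≤ (c*m^e)*(c'*m^e') :=
        mul_le_mul hx hy (abs_nonneg _) ((abs_nonneg _).trans hx)
    _ = (c*c')*m^(e+e') := by ring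

private theorem Bd.up {m c : ℤ} {e : ℕ} (e' : ℕ) {x : ℤ} (hm : 1 ≤ m) (hc : 0 ≤ c)
    (hx : Bd m c e x) (he : e ≤ e') : Bd m c e' x := by
  unfold Bd at *
  exact hx.trans (mul_le_mul_of_nonneg_left (pow_le_pow_right₀ hm he) hc)

private theorem Bd.const {m : ℤ} (c : ℤ) (hc : 0 ≤ c) : Bd m c 0 c := by
  unfold Bd
  rw [abs_of_nonneg hc, pow_zero, mul_one]

private theorem Bd.fin {m c : ℤ} {x : ℤ} (hm : 1 ≤ m) (hx : Bd m c 10 x) (hc : c ≤ 10^10) :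
    |x| ≤ (10*m)^10 := by
  unfold Bd at hx
  refine hx.trans ?_
  rw [mul_pow]
  exact mul_le_mul_of_nonneg_right hc (by positivity)

/-- crude upper bounds -/
theorem tec3 (j M N : ℤ) (hN4 : 4 ≤ |N|) (hNM : |N| ≤ |M|) (hj : |j| ≤ |M|^2) :
    |(M^2-N^2)*k1 j M N| ≤ (10*|M|)^10 ∧ |4*((M^2-N^2)*Num M N)| ≤ (10*|M|)^10 := by
  have hm : 1 ≤ |M| := by omega
  set m := |M| with hmd
  have bM : Bd m 1 1 M := by unfold Bd; rw [one_mul, pow_one]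
  have bN : Bd m 1 1 N := by unfold Bd; rw [one_mul, pow_one]; exact hNM
  have bj : Bd m 1 2 j := by unfold Bd; rw [one_mul]; exact hj
  have bM2 : Bd m (1*1) (1+1) (M^2) := by rw [pow_two]; exact bM.mul bM
  have bN2 : Bd m (1*1) (1+1) (N^2) := by rw [pow_two]; exact bN.mul bN
  have bD : Bd m 2 2 (M^2-N^2) := bM2.sub bN2
  have c1 : Bd m 1 2 (1:ℤ) := (Bd.const 1 (by norm_num)).up 2 hm (by norm_num) (by norm_num)
  have sq : ∀ {c : ℤ} {e : ℕ} {x : ℤ}, Bd m c e x → Bd m (c*c) (e+e) (x^2) := by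
    intro c e x h; rw [pow_two]; exact h.mul h
  have bM' := bM.up 2 hm (by norm_num) (by norm_num)
  have bN' := bN.up 2 hm (by norm_num) (by norm_num)
  have c30 : Bd m 30 0 (30:ℤ) := Bd.const 30 (by norm_num)
  have c15 : Bd m 15 0 (15:ℤ) := Bd.const 15 (by norm_num)
  have c90 : Bd m 90 0 (90:ℤ) := Bd.const 90 (by norm_num)
  have c45 : Bd m 45 0 (45:ℤ) := Bd.const 45 (by norm_num)
  have c4 : Bd m 4 0 (4:ℤ) := Bd.const 4 (by norm_num)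
  have c2 : Bd m 2 0 (2:ℤ) := Bd.const 2 (by norm_num)
  have c5 : Bd m 5 0 (5:ℤ) := Bd.const 5 (by norm_num)
  have c6 : Bd m 6 0 (6:ℤ) := Bd.const 6 (by norm_num)
  have c10 : Bd m 10 0 (10:ℤ) := Bd.const 10 (by norm_num)
  have c12 : Bd m 12 0 (12:ℤ) := Bd.const 12 (by norm_num)
  have a1M : Bd m 60 3 (al1 M) := (c30.mul bM).mul (bM2.sub c1)
  have a1N : Bd m 60 3 (al1 N) := (c30.mul bN).mul (bN2.sub c1)
  have a2M : Bd m 30 4 (al2 M) := (c15.mul bM2).mul (bM2.sub c1)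
  have a2N : Bd m 30 4 (al2 N) := (c15.mul bN2).mul (bN2.sub c1)
  have bB : Bd m 3 2 (N^2+N+M) := (bN2.add bN').add bM'
  have bA : Bd m 3 2 (M^2+M+N) := (bM2.add bM').add bN'
  have t1 : Bd m 270 8 (al2 M*(N^2+N+M)^2) := a2M.mul (sq bB)
  have t2 : Bd m 360 8 (al1 M*(M^2-N^2)*(N^2+N+M)) :=
    Bd.up (e := 7) 8 hm (by norm_num) ((a1M.mul bD).mul bB) (by norm_num)
  have t3 : Bd m 270 8 (al2 N*(M^2+M+N)^2) := a2N.mul (sq bA)
  have t4 : Bd m 360 8 (al1 N*(M^2-N^2)*(M^2+M+N)) :=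
    Bd.up (e := 7) 8 hm (by norm_num) ((a1N.mul bD).mul bA) (by norm_num)
  have bT : Bd m 1260 8 (Th M N) := ((t1.sub t2).sub t3).sub t4
  have u1 : Bd m 360 8 (90*j*(M^2-N^2)^2) :=
    Bd.up (e := 6) 8 hm (by norm_num) ((c90.mul bj).mul (sq bD)) (by norm_num)
  have u2 : Bd m 5040 8 (4*Th M N) := (c4.mul bT).up 8 hm (by norm_num) (by norm_num)
  have u3 : Bd m 720 8 ((M^2-N^2)^2*(45*(M^2+M-N^2-N))) :=
    Bd.up (e := 6) 8 hm (by norm_num)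
      ((sq bD).mul (c45.mul (((bM2.add bM').sub bN2).sub bN'))) (by norm_num)
  have bk : Bd m 6120 8 (k1 j M N) := (u1.add u2).add u3
  -- Num
  have w1 : Bd m 4 8 (M^2*N^2*(M^2-N^2)^2) := (bM2.mul bN2).mul (sq bD)
  have bD3 : Bd m 8 6 ((M^2-N^2)^3) := by
    rw [pow_succ]; exact (sq bD).mul bD
  have w2 : Bd m 16 8 ((M-N)*(M^2-N^2)^3) :=
    Bd.up (e := 7) 8 hm (by norm_num) ((bM.sub bN).mul bD3) (by norm_num)
  have w3 : Bd m 4 8 (2*M^2*N^2*(M^2+N^2)) :=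
    Bd.up (e := 6) 8 hm (by norm_num) (((c2.mul bM2).mul bN2).mul (bM2.add bN2)) (by norm_num)
  have q1 : Bd m 5 4 (5*M^4) := by
    have : 5*M^4 = 5*(M^2)^2 := by ring
    rw [this]; exact c5.mul (sq bM2)
  have q2 : Bd m 6 4 (6*M^3*N) := by
    have : 6*M^3*N = 6*(M^2*M)*N := by ring
    rw [this]; exact (c6.mul (bM2.mul bM)).mul bN
  have q3 : Bd m 10 4 (10*M^2*N^2) := (c10.mul bM2).mul bN2
  have q4 : Bd m 6 4 (6*M*N^3) := by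
    have : 6*M*N^3 = 6*M*(N^2*N) := by ring
    rw [this]; exact (c6.mul bM).mul (bN2.mul bN)
  have q5 : Bd m 5 4 (5*N^4) := by
    have : 5*N^4 = 5*(N^2)^2 := by ring
    rw [this]; exact c5.mul (sq bN2)
  have w4 : Bd m 64 8 ((M+N)*(5*M^4-6*M^3*N-10*M^2*N^2-6*M*N^3+5*N^4)) :=
    Bd.up (e := 5) 8 hm (by norm_num)
      ((bM.add bN).mul ((((q1.sub q2).sub q3).sub q4).add q5)) (by norm_num)
  have w5 : Bd m 48 8 (12*M*N*(M+N)^2) :=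
    Bd.up (e := 4) 8 hm (by norm_num) (((c12.mul bM).mul bN).mul (sq (bM.add bN))) (by norm_num)
  have w6 : Bd m 32 8 (4*(M+N)^3) := by
    have : 4*(M+N)^3 = 4*((M+N)^2*(M+N)) := by ring
    rw [this]
    exact Bd.up (e := 3) 8 hm (by norm_num)
      (c4.mul ((sq (bM.add bN)).mul (bM.add bN))) (by norm_num)
  have bn : Bd m 168 8 (Num M N) := ((((w1.sub w2).sub w3).add w4).sub w5).sub w6
  constructor
  · exact (show Bd m (2*6120) 10 ((M^2-N^2)*k1 j M N) from bD.mul bk).fin hm (by norm_num)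
  · have h := c4.mul (bD.mul bn)
    exact (show Bd m (4*(2*168)) 10 (4*((M^2-N^2)*Num M N)) from by simpa using h).fin hm
      (by norm_num)

end Irr
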