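import Pool.Agent.Lib.Irr.TEc1
import Pool.Agent.Lib.Irr.TEc2
import Pool.Agent.Lib.Irr.TEc3
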