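import Pool.Agent.Lib.Irr.Descent
import Pool.Agent.Lib.Irr.TEa
import Pool.Agent.Lib.Irr.TEb
import Pool.Agent.Lib.Irr.TEc

/-!
# Module TE (about 120 lines)

The Euler case.

PROOF. `descent (a,b;c)` and `regP_factor` at `x = 0`: `regP a b c 0 = 0` means
`(T+2rst)(T-2rst) = 0` with `T = a+b+c+2abc > 0`, so `e' = T - 2rst = 0`, `f' = g' = 1`,
`c = a+b+2r`, `s = a+r`, `t = b+r`. Also `ζ = ξ = η = 1` (`ζ^2 = 1`, `ζ > 0`), `P = a+c-2s = b`,
`Q = a`. `rel` becomes `(M^2+M+N)a - (N^2+N+M)b = 2jc` (here `M, N` are the signed indices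
`ε M', ε N'`).
If `M = N`: `(M^2+2M)(a-b) = 2jc`, and `(a-b)^2 = 4 - c^2+2c(a+b)`
(`(c-a-b)^2 = 4r^2 = 4ab+4`), so `c ∣ 4 (M^2+2M)^2 ≠ 0`, `c <= 4(2|M|^2)^2`.
If `M ≠ N`: `M^2 ≠ N^2` (same sign). `tea` for both sides (`hd` of `Side`, with `D = 0`,
`ζ = ξ = 1`: the initial value is `u+c+2εv`), `2s = c+a-b`, `2t = c+b-a`; subtract:
`c^3 ∣ EE a b c M N`. `teb`: `c ∣ Δ k1`. If `k1 ≠ 0` then `c <= |Δk1| <= (10|M|)^10`. If `k1 = 0`:
`c ∣ 4k2 = -4ΔNum ≠ 0` (`tec1`, `tec2`), so `c <= (10|M|)^10` (`tec3`).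
`|j| <= |M|^2`: `|2jc| <= max((M^2+M+N)a, (N^2+N+M)b) <= 2|M|^2 c`.
-/

namespace Irr

private theorem one_of_sq {x : ℤ} (hx : 0 < x) (h : x ^ 2 = 1) : x = 1 := by
  nlinarith

/-- the shape of a triple with `d_- = 0` -/
private theorem euler_shape {a b c r s t : ℤ} (ha : 0 < a) (hab : a < b) (hbc : b < c)
    (hr : 0 < r) (hs : 0 < s) (ht : 0 < t) (er : r^2 = a*b+1) (es : s^2 = a*c+1)
    (et : t^2 = b*c+1) (hreg : regP a b c 0 = 0) : c = a + b + 2*r ∧ s = a + r ∧ t = b + r := by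
  have h1 := regP_factor a b c r s t 0 er es et
  rw [hreg] at h1
  have hT : 0 < a+b+c+2*a*b*c+2*r*s*t := by
    have hb : 0 < b := ha.trans hab
    have hc : 0 < c := hb.trans hbc
    positivity
  have h2 : a+b+c+2*a*b*c-2*r*s*t = 0 := by
    rcases mul_eq_zero.mp h1.symm with h | h
    · omega
    · omega
  obtain ⟨e, f, g, he, -, -, -, -, hf0, hg0, hf2, hg2, hσ, hτ, hX⟩ :=
    descent a b c r s t ha (ha.trans hab) (hab.trans hbc) hbc hr hs ht er es et
  have he0 : e = 0 := by rw [he]; exact h2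
  subst he0
  have hf : f = 1 := one_of_sq hf0 (by rw [hf2]; ring)
  have hg : g = 1 := one_of_sq hg0 (by rw [hg2]; ring)
  subst hf hg
  refine ⟨?_, ?_, ?_⟩
  · rw [hX]; ring
  · rw [hσ]; ring
  · rw [hτ]; ring

/-- the case of equal indices -/
private theorem te_eq {a b c j m : ℤ} (hm : 4 ≤ |m|)
    (hw : (a-b)^2 = 4-c^2+2*c*(a+b)) (hrel : (m^2+m+m)*a-(m^2+m+m)*b = 2*j*c) :
    c ≤ (10*|m|)^10 := by
  have h1 : c ∣ 4*(m^2+2*m)^2 := by
    refine ⟨4*j^2*c + (m^2+2*m)^2*(c - 2*(a+b)), ?_⟩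
    have h2 : (m^2+2*m)*(a-b) = 2*j*c := by linear_combination hrel
    have h3 : (m^2+2*m)^2*(a-b)^2 = (2*j*c)^2 := by rw [← h2]; ring
    linear_combination h3 - (m^2+2*m)^2 * hw
  have hne : m^2+2*m ≠ 0 := by
    intro h0
    have h2 : m * (m + 2) = 0 := by linear_combination h0
    rcases mul_eq_zero.mp h2 with h | h
    · rw [h] at hm
      norm_num at hm
    · have : m = -2 := by omega
      rw [this] at hm
      norm_num at hm
  have h4 : 0 < 4*(m^2+2*m)^2 := by positivity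
  have h5 := Int.le_of_dvd h4 h1
  refine h5.trans ?_
  have h6 : |m^2+2*m| ≤ 2*|m|^2 := by
    have h7 : |m^2+2*m| ≤ |m|^2 + 2*|m| := by
      refine (abs_add_le _ _).trans ?_
      rw [abs_pow, abs_mul, abs_two]
    nlinarith
  have h8 : (m^2+2*m)^2 ≤ (2*|m|^2)^2 := by
    rw [← sq_abs (m^2+2*m)]
    exact pow_le_pow_left₀ (abs_nonneg _) h6 2
  have h9 : (1:ℤ) ≤ |m| := by omega
  have h10 : |m|^4 ≤ |m|^10 := pow_le_pow_right₀ h9 (by norm_num)
  have h11 : (0:ℤ) ≤ |m|^10 := by positivity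
  calc 4*(m^2+2*m)^2 ≤ 4*(2*|m|^2)^2 := by linarith
    _ = 16*|m|^4 := by ring
    _ ≤ 10^10*|m|^10 := by nlinarith
    _ = (10*|m|)^10 := by ring

/-- the bound for `j` -/
private theorem te_j {a b c j m n : ℤ} (ha : 0 < a) (hab : a < b) (hbc : b < c)
    (hn : 4 ≤ |n|) (hnm : |n| ≤ |m|) (hm2 : |m| ≤ 2*|n|)
    (hrel : (m^2+m+n)*a-(n^2+n+m)*b = 2*j*c) : |j| ≤ |m|^2 := by
  have hc : 0 < c := by omega
  have hA0 : 0 ≤ m^2+m+n := by
    have := neg_abs_le m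
    have := neg_abs_le n
    have := sq_abs m
    nlinarith
  have hA1 : m^2+m+n ≤ 2*|m|^2 := by
    have := le_abs_self m
    have := le_abs_self n
    have := sq_abs m
    nlinarith
  have hB0 : 0 ≤ n^2+n+m := by
    have := neg_abs_le m
    have := neg_abs_le n
    have := sq_abs n
    nlinarith
  have hB1 : n^2+n+m ≤ 2*|m|^2 := by
    have := le_abs_self m
    have := le_abs_self n
    have := sq_abs n
    have h1 : |n|^2 ≤ |m|^2 := pow_le_pow_left₀ (abs_nonneg _) hnm 2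
    nlinarith
  have h1 : (m^2+m+n)*a ≤ 2*|m|^2*c := mul_le_mul hA1 (by omega) ha.le (by positivity)
  have h2 : (n^2+n+m)*b ≤ 2*|m|^2*c := mul_le_mul hB1 (by omega) (by omega) (by positivity)
  have h3 : 0 ≤ (m^2+m+n)*a := mul_nonneg hA0 ha.le
  have h4 : 0 ≤ (n^2+n+m)*b := mul_nonneg hB0 (by omega)
  rw [abs_le]
  constructor
  · by_contra hcon
    push Not at hcon
    nlinarith
  · by_contra hcon
    push Not at hcon
    nlinarith

theorem TE {a b c d r s t x y z ε ζ ξ η P Q j : ℤ} {M N : ℕ}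
    (ha : Side a c s d ε 0 ζ ξ z x M) (hb : Side b c t d ε 0 ζ η z y N)
    (h : Dat a b c r s t 0 P Q ζ ξ η (ε*M) (ε*N) j) (hreg : regP a b c 0 = 0) :
    c ≤ (10*(M:ℤ))^10 := by
  obtain ⟨hc1, hs1, ht1⟩ := euler_shape h.ha h.hab h.hbc h.hr h.hs h.ht h.er h.es h.et hreg
  have hζ : ζ = 1 := one_of_sq h.hζ (by rw [h.eζ]; ring)
  have hξ : ξ = 1 := one_of_sq h.hξ (by rw [h.eξ]; ring)
  have hη : η = 1 := one_of_sq h.hη (by rw [h.eη]; ring)
  have hP := h.eP
  have hQ := h.eQ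
  have hrel := h.rel
  have hda := ha.hd
  have hdb := hb.hd
  rw [hζ, hξ] at hP hda
  rw [hζ, hη] at hQ hdb
  have hM : |ε*(M:ℤ)| = M := by
    rw [abs_mul]
    rcases ha.he with h | h <;> rw [h] <;> simp
  have hc : 0 < c := by
    have := h.ha
    have := h.hab
    have := h.hbc
    omega
  have hw : (a-b)^2 = 4-c^2+2*c*(a+b) := by
    have := h.er
    rw [hc1]
    linear_combination 4 * this
  set m : ℤ := ε*M with hm
  set n : ℤ := ε*N with hn
  have hrel' : (m^2+m+n)*a-(n^2+n+m)*b = 2*j*c := by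
    have hP' : P = b := by rw [hP, hs1, hc1]; ring
    have hQ' : Q = a := by rw [hQ, ht1, hc1]; ring
    rw [hP', hQ'] at hrel
    linear_combination hrel
  rw [← hM]
  have hm4 : 4 ≤ |m| := h.hN4.trans h.hNM
  have hjb := te_j h.ha h.hab h.hbc h.hN4 h.hNM h.hM2N hrel'
  rcases h.hNM.lt_or_eq with hlt | heq
  · have hΔ : m^2-n^2 ≠ 0 := by
      intro h0
      have h1 : m^2 = n^2 := by linarith
      rw [sq_eq_sq_iff_abs_eq_abs] at h1
      omega
    have hE : c^3 ∣ EE a b c m n := by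
      have t1 := tea a c s ε ha.he M
      have t2 := tea b c t ε hb.he N
      have e1 : dl a c 0 (a+c+2*ε*s) M = d := by
        rw [← hda]
        congr 1
        ring
      have e2 : dl b c 0 (b+c+2*ε*t) N = d := by
        rw [← hdb]
        congr 1
        ring
      rw [e1, ← hm] at t1
      rw [e2, ← hn] at t2
      have h3 := dvd_sub t2 t1
      have h4 : EE a b c m n = 45 * d -
          ((b+c)*(45*n^2+al2 n*(b*c)+al4 n*(b*c)^2)
            +2*t*(45*n+al1 n*(b*c)+al3 n*(b*c)^2)) - (45 * d -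
          ((a+c)*(45*m^2+al2 m*(a*c)+al4 m*(a*c)^2)
            +2*s*(45*m+al1 m*(a*c)+al3 m*(a*c)^2))) := by
        have hs2 : 2*s = c+a-b := by rw [hs1, hc1]; ring
        have ht2 : 2*t = c+b-a := by rw [ht1, hc1]; ring
        unfold EE
        rw [hs2, ht2]
        ring
      rw [h4]
      exact h3
    obtain ⟨hk1, hk2⟩ := teb a b c j m n hc hw hrel' hE
    obtain ⟨hb1, hb2⟩ := tec3 j m n h.hN4 h.hNM hjb
    by_cases h0 : k1 j m n = 0
    · have h1 := tec1 j m n hΔ h0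
      have h2 := tec2 m n h.evM h.evN h.hMN h.hN4 hlt h.hM2N
      have h3 := hk2 h0
      rw [h1] at h3
      have h4 : c ∣ 4*((m^2-n^2)*Num m n) := by
        have := (dvd_neg.mpr h3)
        rwa [show -(4 * -((m^2-n^2)*Num m n)) = 4*((m^2-n^2)*Num m n) by ring] at this
      have h5 : 4*((m^2-n^2)*Num m n) ≠ 0 :=
        mul_ne_zero (by norm_num) (mul_ne_zero hΔ h2.ne')
      exact (Int.le_of_dvd (abs_pos.mpr h5) ((dvd_abs _ _).mpr h4)).trans hb2
    · have h5 : (m^2-n^2)*k1 j m n ≠ 0 := mul_ne_zero hΔ h0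
      exact (Int.le_of_dvd (abs_pos.mpr h5) ((dvd_abs _ _).mpr hk1)).trans hb1
  · have hmn : n = m := by
      have h1 := h.hMN
      rcases abs_eq_abs.mp heq with h2 | h2
      · exact h2
      · exfalso
        rw [h2] at h1
        nlinarith [sq_nonneg m]
    rw [hmn] at hrel'
    exact te_eq hm4 hw hrel'

end Irr
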