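import Pool.Agent.Lib.Irr.Defs

/-!
# Definitions for the Euler case `D = 0`, `c = a+b+2r`

`al1 … al4` are the coefficients of the expansion of `45 δ_M` modulo `c^3`; `k1, k2` are the two
obstructions; `Num` is the final polynomial.
-/

namespace Irr

def al1 (M : ℤ) : ℤ := 30*M*(M^2-1)
def al2 (M : ℤ) : ℤ := 15*M^2*(M^2-1)
def al3 (M : ℤ) : ℤ := 6*M*(M^2-1)*(M^2-4)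
def al4 (M : ℤ) : ℤ := 2*M^2*(M^2-1)*(M^2-4)

/-- `45 (δ^{(a)}_M - δ^{(b)}_N)` modulo `c^3` -/
def EE (a b c M N : ℤ) : ℤ :=
  (a+c)*(45*M^2+al2 M*(a*c)+al4 M*(a*c)^2)+(c+a-b)*(45*M+al1 M*(a*c)+al3 M*(a*c)^2)
  - ((b+c)*(45*N^2+al2 N*(b*c)+al4 N*(b*c)^2)+(c+b-a)*(45*N+al1 N*(b*c)+al3 N*(b*c)^2))

def Th (M N : ℤ) : ℤ :=
  al2 M*(N^2+N+M)^2 - al1 M*(M^2-N^2)*(N^2+N+M)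
    - al2 N*(M^2+M+N)^2 - al1 N*(M^2-N^2)*(M^2+M+N)

def k1 (j M N : ℤ) : ℤ := 90*j*(M^2-N^2)^2 + 4*Th M N + (M^2-N^2)^2*(45*(M^2+M-N^2-N))

def k2 (j M N : ℤ) : ℤ :=
  -2*((M^2+M+N)+(N^2+N+M))*Th M N
  + 2*j*(M^2-N^2)*(-2*al2 M*(N^2+N+M)+al1 M*(M^2-N^2)+2*al2 N*(M^2+M+N)+al1 N*(M^2-N^2))
  + 4*(-(al4 M)*(N^2+N+M)^3+al3 M*(M^2-N^2)*(N^2+N+M)^2+al4 N*(M^2+M+N)^3
        +al3 N*(M^2-N^2)*(M^2+M+N)^2)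
  + (M^2-N^2)^2*((al2 N+al1 N)*(M^2+M+N)-(al2 M+al1 M)*(N^2+N+M))

def Num (M N : ℤ) : ℤ :=
  M^2*N^2*(M^2-N^2)^2 - (M-N)*(M^2-N^2)^3 - 2*M^2*N^2*(M^2+N^2)
  + (M+N)*(5*M^4-6*M^3*N-10*M^2*N^2-6*M*N^3+5*N^4) - 12*M*N*(M+N)^2 - 4*(M+N)^3

end Irr
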