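import Pool.Agent.Lib.Irr.DatEx
import Pool.Agent.Lib.Irr.T0
import Pool.Agent.Lib.Irr.T1
import Pool.Agent.Lib.Irr.T2
import Pool.Agent.Lib.Irr.TE

/-!
# Module ThmE: the elementary theorem

Every irregular quadruple has `c <= (10 M)^32`.
-/

namespace Irr

private theorem abs_eps {ε : ℤ} {M : ℕ} (he : ε = 1 ∨ ε = -1) : |ε * (M:ℤ)| = (M:ℤ) := by
  rcases he with h | h <;> subst h <;> simp

private theorem pow_mono10 {M : ℕ} (hM : 1 ≤ M) {n k : ℕ} (hnk : n ≤ k) :
    (10*(M:ℤ))^n ≤ (10*(M:ℤ))^k := by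
  apply pow_le_pow_right₀ _ hnk
  have : (1:ℤ) ≤ M := by exact_mod_cast hM
  linarith

/-- the gap inequalities for the irregular subquadruple `{a,b,D,c}` -/
private theorem gaps {a b c r s t D P Q ζ ξ η M N j : ℤ}
    (h : Dat a b c r s t D P Q ζ ξ η M N j) (hD : 0 < D) (hirr : regP a b c D ≠ 0) :
    16*D^2*b^3 ≤ c ∧ 16*b^2*D^3 ≤ c ∧ 16*a^2*b^3 ≤ c := by
  have ha := h.ha
  have hab := h.hab
  have hbc := h.hbc
  have hDc := h.hDc
  have hb : 0 < b := by linarith
  have hDa : D ≠ a := by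
    intro hEq
    have e := h.eξ
    rw [hEq] at e
    have h1 : a < ξ := by nlinarith [h.hξ]
    nlinarith [h.hξ]
  have hDb : D ≠ b := by
    intro hEq
    have e := h.eη
    rw [hEq] at e
    have h1 : b < η := by nlinarith [h.hη]
    nlinarith [h.hη]
  rcases lt_trichotomy D a with h1 | h1 | h1
  · -- D < a < b < c
    have hq : Quad D a b c ξ η r ζ s t :=
      ⟨hD, h1, hab, hbc, h.hξ, h.hη, h.hr, h.hζ, h.hs, h.ht,
        by rw [h.eξ]; ring, by rw [h.eη]; ring, h.er, by rw [h.eζ]; ring, by rw [h.es],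
        by rw [h.et]⟩
    have hr' : regP D a b c ≠ 0 := by
      intro h0; apply hirr; rw [← h0]; unfold regP; ring
    have hg := gap hq hr'
    have h2 : D^2 ≤ a^2 := by nlinarith
    have hb3 : 0 < b^3 := by positivity
    have h3 : D^3 ≤ a^2*b := by
      have : D^3 = D^2*D := by ring
      rw [this]
      exact mul_le_mul h2 (by linarith) hD.le (by positivity)
    refine ⟨?_, ?_, hg⟩
    · nlinarith [mul_le_mul_of_nonneg_right h2 hb3.le]
    · have : 16*b^2*D^3 ≤ 16*b^2*(a^2*b) := by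
        exact mul_le_mul_of_nonneg_left h3 (by positivity)
      nlinarith
  · exact absurd h1 hDa
  · rcases lt_trichotomy D b with h2 | h2 | h2
    · -- a < D < b < c
      have hq : Quad a D b c ξ r η s ζ t :=
        ⟨ha, h1, h2, hbc, h.hξ, h.hr, h.hη, h.hs, h.hζ, h.ht,
          h.eξ, h.er, by rw [h.eη]; ring, h.es, by rw [h.eζ]; ring, h.et⟩
      have hr' : regP a D b c ≠ 0 := by
        intro h0; apply hirr; rw [← h0]; unfold regP; ring
      have hg := gap hq hr'
      have hb3 : 0 < b^3 := by positivity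
      have h3 : a^2 ≤ D^2 := by nlinarith
      refine ⟨hg, ?_, ?_⟩
      · have h4 : b^2*D^3 ≤ D^2*b^3 := by
          have : D^2*b^3 - b^2*D^3 = D^2*b^2*(b-D) := by ring
          have h5 : 0 ≤ D^2*b^2*(b-D) := by
            apply mul_nonneg (by positivity); linarith
          linarith
        nlinarith
      · nlinarith [mul_le_mul_of_nonneg_right h3 hb3.le]
    · exact absurd h2 hDb
    · -- a < b < D < c
      have hq : Quad a b D c r ξ η s t ζ :=
        ⟨ha, hab, h2, hDc, h.hr, h.hξ, h.hη, h.hs, h.ht, h.hζ,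
          h.er, h.eξ, h.eη, h.es, h.et, by rw [h.eζ]; ring⟩
      have hr' : regP a b D c ≠ 0 := by
        intro h0; apply hirr; rw [← h0]; unfold regP; ring
      have hg := gap hq hr'
      have h4 : D^2*b^3 ≤ b^2*D^3 := by
        have : b^2*D^3 - D^2*b^3 = D^2*b^2*(D-b) := by ring
        have h5 : 0 ≤ D^2*b^2*(D-b) := by
          apply mul_nonneg (by positivity); linarith
        linarith
      have h6 : a^2*b^3 ≤ D^2*b^3 := by
        apply mul_le_mul_of_nonneg_right _ (by positivity)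
        nlinarith
      refine ⟨by nlinarith, hg, by nlinarith⟩

theorem thmE {a b c d r s t x y z : ℤ} (hq : Quad a b c d r s t x y z)
    (hirr : regP a b c d ≠ 0) :
    ∃ (ε D ζ ξ η : ℤ) (M N : ℕ),
      Side a c s d ε D ζ ξ z x M ∧ Side b c t d ε D ζ η z y N ∧
      4 ≤ N ∧ N ≤ M ∧ M ≤ 2*N ∧ c ≤ (10*(M:ℤ))^32 := by
  obtain ⟨ε, D, ζ, ξ, η, P, Q, j, M, N, ha, hb, hd⟩ := dat_exists hq hirr
  have he := ha.he
  have hN4 : 4 ≤ N := four_le hq ha hb hirr
  obtain ⟨h1, h2, -⟩ := index_le ha hb hq.hab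
  have hM1 : 1 ≤ M := by omega
  refine ⟨ε, D, ζ, ξ, η, M, N, ha, hb, hN4, h1, h2, ?_⟩
  have habs : |ε * (M:ℤ)| = (M:ℤ) := abs_eps he
  rcases ha.hD.lt_or_eq with hD | hD
  · by_cases hreg : regP a b c D = 0
    · have := T1_main hd hD hreg
      rwa [habs] at this
    · obtain ⟨g1, g2, g3⟩ := gaps hd hD hreg
      by_cases hj : j = 0
      · subst hj
        have := T2_zero hd hD g1 g2 g3
        rw [habs] at this
        exact this.trans (pow_mono10 hM1 (by norm_num))
      · rcases T2_small hd hD g1 g2 g3 hj with h3 | ⟨h3, h4, h5⟩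
        · rw [habs] at h3
          exact h3.trans (pow_mono10 hM1 (by norm_num))
        · have := T2_end hd hD h3 h4 h5
          rw [habs] at this
          exact this.trans (pow_mono10 hM1 (by norm_num))
  · subst hD
    by_cases hreg : regP a b c 0 = 0
    · have := TE ha hb hd hreg
      exact this.trans (pow_mono10 hM1 (by norm_num))
    · have := T0_bound hd hreg (T0_exact hd)
      rw [habs] at this
      exact this.trans (pow_mono10 hM1 (by norm_num))

end Irr
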